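import Pool.Agent.Work.MP_972ac7_C.Interface
import Pool.Agent.Work.MP_972ac7_gen.Comm

/-! # SBF: uniform gap passes to finite index subgroups -/

set_option autoImplicit false

open MeasureTheory
open scoped ENNReal

noncomputable section

namespace Pool.TC

open Pool.TFD

section SBF

variable {K : Type} [NormedAddCommGroup K] [InnerProductSpace ℂ K] [CompleteSpace K]
  {J : Type} [Fintype J]

theorem SBF_sum (f : PiLp 2 fun _ : J => K) :
    f = ∑ y : J, (sl y (f y) : PiLp 2 fun _ : J => K) := by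
  ext x
  have h2 : (∑ i : J, sl i (f i) : PiLp 2 fun _ : J => K) x =
      ∑ i : J, (sl i (f i) : PiLp 2 fun _ : J => K) x := by simp
  rw [h2, Finset.sum_eq_single x]
  · exact (sl_self x _).symm
  · intro i _ hi
    exact sl_ne (Ne.symm hi) _
  · intro h
    exact absurd (Finset.mem_univ x) h

theorem SBF_norm_sl (j : J) (v : K) : ‖(sl j v : PiLp 2 fun _ : J => K)‖ = ‖v‖ := by
  have h1 : ‖(sl j v : PiLp 2 fun _ : J => K)‖ ^ 2 = ‖v‖ ^ 2 := by
    rw [PiLp.norm_sq_eq_of_L2, Finset.sum_eq_single j]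
    · rw [sl_self]
    · intro i _ hi
      rw [sl_ne hi, norm_zero]
      simp
    · intro h
      exact absurd (Finset.mem_univ j) h
  exact (pow_left_inj₀ (norm_nonneg _) (norm_nonneg _) two_ne_zero).1 h1

theorem SBF_inner_sl (j : J) (v : K) (w : PiLp 2 fun _ : J => K) :
    (inner ℂ (sl j v : PiLp 2 fun _ : J => K) w : ℂ) = inner ℂ v (w j) := by
  rw [sl, ContinuousLinearMap.adjoint_inner_left, pr_apply]

theorem SBF_dg_sl (r : K →L[ℂ] K) (j : J) (v : K) :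
    (dg r (sl j v) : PiLp 2 fun _ : J => K) = sl j (r v) := by
  classical
  ext x
  rw [dg_apply]
  by_cases h : x = j
  · subst h
    rw [sl_self, sl_self]
  · rw [sl_ne h, sl_ne h, map_zero]

/-- The entries of an operator. -/
def SBF_en (T : (PiLp 2 fun _ : J => K) →L[ℂ] (PiLp 2 fun _ : J => K)) (x y : J) : K →L[ℂ] K :=
  pr x ∘L T ∘L sl y

theorem SBF_en_apply (T : (PiLp 2 fun _ : J => K) →L[ℂ] (PiLp 2 fun _ : J => K)) (x y : J)
    (v : K) : SBF_en T x y v = (T (sl y v) : PiLp 2 fun _ : J => K) x := rfl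

theorem SBF_en_comp (S T : (PiLp 2 fun _ : J => K) →L[ℂ] (PiLp 2 fun _ : J => K)) (x z : J)
    (v : K) : (S (T (sl z v)) : PiLp 2 fun _ : J => K) x =
      ∑ y, SBF_en S x y (SBF_en T y z v) := by
  have h1 : S (T (sl z v)) = S (∑ y : J, sl y ((T (sl z v) : PiLp 2 fun _ : J => K) y)) := by
    rw [← SBF_sum]
  rw [h1, map_sum]
  have h2 : (∑ y : J, S (sl y ((T (sl z v) : PiLp 2 fun _ : J => K) y)) :
      PiLp 2 fun _ : J => K) x =
      ∑ y : J, (S (sl y ((T (sl z v) : PiLp 2 fun _ : J => K) y)) : PiLp 2 fun _ : J => K) x := by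
    simp
  rw [h2]
  rfl

/-- The amplified von Neumann algebra. -/
def SBF_M (M : VonNeumannAlgebra K) (J : Type) [Fintype J] :
    VonNeumannAlgebra (PiLp 2 fun _ : J => K) where
  toStarSubalgebra := StarSubalgebra.centralizer ℂ {T | ∃ r ∈ M.commutant, T = dg r}
  centralizer_centralizer' := Set.centralizer_centralizer_centralizer _

theorem SBF_mem (M : VonNeumannAlgebra K)
    (T : (PiLp 2 fun _ : J => K) →L[ℂ] (PiLp 2 fun _ : J => K)) :
    T ∈ SBF_M M J ↔ ∀ r ∈ M.commutant, dg r * T = T * dg r := by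
  have h1 : T ∈ SBF_M M J ↔ T ∈ StarSubalgebra.centralizer ℂ
      {T : (PiLp 2 fun _ : J => K) →L[ℂ] (PiLp 2 fun _ : J => K) |
        ∃ r ∈ M.commutant, T = dg r} := Iff.rfl
  rw [h1, StarSubalgebra.mem_centralizer_iff]
  constructor
  · intro h r hr
    exact (h _ ⟨r, hr, rfl⟩).1
  · rintro h _ ⟨r, hr, rfl⟩
    refine ⟨h r hr, ?_⟩
    rw [dg_star]
    exact h _ (star_mem hr)

theorem SBF_en_mem (M : VonNeumannAlgebra K)
    (T : (PiLp 2 fun _ : J => K) →L[ℂ] (PiLp 2 fun _ : J => K)) (hT : T ∈ SBF_M M J) (x y : J) :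
    SBF_en T x y ∈ M := by
  rw [← M.commutant_commutant, VonNeumannAlgebra.mem_commutant_iff]
  intro r hr
  have h1 := (SBF_mem M T).1 hT r hr
  ext v
  show r (SBF_en T x y v) = SBF_en T x y (r v)
  rw [SBF_en_apply, SBF_en_apply, ← SBF_dg_sl, ← dg_apply]
  exact congrArg (fun A : (PiLp 2 fun _ : J => K) →L[ℂ] (PiLp 2 fun _ : J => K) =>
    (A (sl y v) : PiLp 2 fun _ : J => K) x) h1

theorem SBF_summ {ι : Type} (ξ : ι → K) (hξ : Summable (fun i => ‖ξ i‖ ^ 2)) (A : K →L[ℂ] K) :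
    Summable (fun i => (inner ℂ (ξ i) (A (ξ i)) : ℂ)) := by
  refine Summable.of_norm_bounded (hξ.mul_left ‖A‖) fun i => ?_
  calc ‖(inner ℂ (ξ i) (A (ξ i)) : ℂ)‖ ≤ ‖ξ i‖ * ‖A (ξ i)‖ := norm_inner_le_norm _ _
    _ ≤ ‖ξ i‖ * (‖A‖ * ‖ξ i‖) := by
        gcongr
        exact A.le_opNorm _
    _ = ‖A‖ * ‖ξ i‖ ^ 2 := by ring

theorem SBF_summ2 {ι : Type} (ξ : ι → K) (hξ : Summable (fun i => ‖ξ i‖ ^ 2)) :
    Summable (fun p : J × ι => ‖(sl p.1 (ξ p.2) : PiLp 2 fun _ : J => K)‖ ^ 2) := by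
  refine (summable_prod_of_nonneg fun p => by positivity).2 ⟨fun x => ?_, ?_⟩
  · simpa only [SBF_norm_sl] using hξ
  · exact Summable.of_finite

theorem SBF_trace {ι : Type} (ξ : ι → K) (hξ : Summable (fun i => ‖ξ i‖ ^ 2))
    (S T : (PiLp 2 fun _ : J => K) →L[ℂ] (PiLp 2 fun _ : J => K)) :
    ∑' p : J × ι, (inner ℂ (sl p.1 (ξ p.2) : PiLp 2 fun _ : J => K)
      (S (T (sl p.1 (ξ p.2)))) : ℂ) =
    ∑ x : J, ∑ y : J, ∑' i, (inner ℂ (ξ i) (SBF_en S x y (SBF_en T y x (ξ i))) : ℂ) := by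
  have hs : Summable (fun p : J × ι => (inner ℂ (sl p.1 (ξ p.2) : PiLp 2 fun _ : J => K)
      (S (T (sl p.1 (ξ p.2)))) : ℂ)) := by
    refine Summable.of_norm_bounded ((SBF_summ2 ξ hξ).mul_left (‖S‖ * ‖T‖)) fun p => ?_
    calc ‖(inner ℂ (sl p.1 (ξ p.2) : PiLp 2 fun _ : J => K) (S (T (sl p.1 (ξ p.2)))) : ℂ)‖
        ≤ ‖(sl p.1 (ξ p.2) : PiLp 2 fun _ : J => K)‖ * ‖S (T (sl p.1 (ξ p.2)))‖ :=
          norm_inner_le_norm _ _
      _ ≤ ‖(sl p.1 (ξ p.2) : PiLp 2 fun _ : J => K)‖ *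
          (‖S‖ * (‖T‖ * ‖(sl p.1 (ξ p.2) : PiLp 2 fun _ : J => K)‖)) := by
          gcongr
          refine (S.le_opNorm _).trans ?_
          gcongr
          exact T.le_opNorm _
      _ = ‖S‖ * ‖T‖ * ‖(sl p.1 (ξ p.2) : PiLp 2 fun _ : J => K)‖ ^ 2 := by ring
  rw [hs.tsum_prod, tsum_fintype]
  refine Finset.sum_congr rfl fun x _ => ?_
  have h1 : ∀ i, (inner ℂ (sl x (ξ i) : PiLp 2 fun _ : J => K) (S (T (sl x (ξ i)))) : ℂ) =
      ∑ y : J, (inner ℂ (ξ i) (SBF_en S x y (SBF_en T y x (ξ i))) : ℂ) := by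
    intro i
    rw [SBF_inner_sl, SBF_en_comp, inner_sum]
  simp only [h1]
  exact Summable.tsum_finsetSum fun y _ => SBF_summ ξ hξ (SBF_en S x y ∘L SBF_en T y x)

end SBF

theorem p_SBF : Stmt_SBF := by
  classical
  intro Λ _ N hN h
  have : Fintype (Λ ⧸ N) := Subgroup.fintypeQuotientOfFiniteIndex
  obtain ⟨Q, ε, hε, hQ⟩ := h
  refine ⟨(Q ×ˢ (Finset.univ : Finset (Λ ⧸ N))).image fun p => cc N p.1 (p.1⁻¹ • p.2), ε, hε, ?_⟩
  intro K _ _ _ M ι ξ π hπ hξ htr hfa v hv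
  -- the amplified data
  have hU : ∀ γ, opU (indRep N K π γ) ∈ SBF_M M (Λ ⧸ N) := by
    intro γ
    rw [SBF_mem]
    intro r hr
    ext f x
    show (dg r (indRep N K π γ f) : PiLp 2 fun _ : Λ ⧸ N => K) x =
      (indRep N K π γ (dg r f) : PiLp 2 fun _ : Λ ⧸ N => K) x
    rw [dg_apply, indRep_apply, indRep_apply, dg_apply]
    have h1 := VonNeumannAlgebra.mem_commutant_iff.1 hr _ (hπ (cc N γ (γ⁻¹ • x)))
    exact (congrArg (fun A : K →L[ℂ] K => A (f (γ⁻¹ • x))) h1).symm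
  have hfa' : ∀ T ∈ SBF_M M (Λ ⧸ N), (∀ p : (Λ ⧸ N) × ι, T (sl p.1 (ξ p.2)) = 0) → T = 0 := by
    intro T hT hz
    have h1 : ∀ x y, SBF_en T x y = 0 := by
      intro x y
      refine hfa _ (SBF_en_mem M T hT x y) fun i => ?_
      rw [SBF_en_apply, hz (y, i)]
      rfl
    ext f x
    have h2 : T f = T (∑ y : Λ ⧸ N, sl y (f y)) := by rw [← SBF_sum]
    rw [h2, map_sum]
    have h3 : (∑ y : Λ ⧸ N, T (sl y (f y)) : PiLp 2 fun _ : Λ ⧸ N => K) x =
        ∑ y : Λ ⧸ N, SBF_en T x y (f y) := by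
      simp [SBF_en_apply]
    rw [h3]
    simp [h1]
  have hv' : ∀ w : PiLp 2 fun _ : Λ ⧸ N => K, (∀ γ, indRep N K π γ w = w) →
      (inner ℂ w (WithLp.toLp 2 fun _ => v : PiLp 2 fun _ : Λ ⧸ N => K) : ℂ) = 0 := by
    intro f hf
    have h1 : ∀ g x, π (cc N g x) (f x) = f (g • x) := by
      intro g x
      have := indRep_apply N K π g f (g • x)
      rw [hf g, inv_smul_smul] at this
      exact this.symm
    set x₀ : Λ ⧸ N := ((1 : Λ) : Λ ⧸ N) with hx₀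
    have h2 : ∀ γ : N, π γ (f x₀) = f x₀ := by
      intro γ
      have h3 : (x₀.out : Λ) ∈ N := by
        have h4 : ((x₀.out : Λ) : Λ ⧸ N) = ((1 : Λ) : Λ ⧸ N) := QuotientGroup.out_eq' x₀
        have := QuotientGroup.eq.1 h4
        rw [mul_one] at this
        exact N.inv_mem_iff.1 this
      have h5 : (x₀.out * γ * x₀.out⁻¹ : Λ) • x₀ = x₀ := by
        have h6 : (x₀.out * γ * x₀.out⁻¹ : Λ) ∈ N :=
          N.mul_mem (N.mul_mem h3 γ.2) (N.inv_mem h3)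
        have h7 : (((x₀.out * γ * x₀.out⁻¹ : Λ) * 1 : Λ) : Λ ⧸ N) = ((1 : Λ) : Λ ⧸ N) := by
          rw [QuotientGroup.eq, mul_one, mul_one]
          exact N.inv_mem h6
        exact h7
      have h8 : cc N (x₀.out * γ * x₀.out⁻¹ : Λ) x₀ = γ := by
        apply Subtype.ext
        rw [cc_coe, h5]
        group
      have h9 := h1 (x₀.out * γ * x₀.out⁻¹ : Λ) x₀
      rwa [h8, h5] at h9
    have h3 : ∀ x, f x = f x₀ := by
      intro x
      have h3 := h1 x.out x₀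
      have h4 : (x.out : Λ) • x₀ = x := by
        have : (((x.out : Λ) * 1 : Λ) : Λ ⧸ N) = x := by
          rw [mul_one]
          exact QuotientGroup.out_eq' x
        exact this
      rw [h4, h2] at h3
      exact h3.symm
    rw [PiLp.inner_apply]
    refine Finset.sum_eq_zero fun x _ => ?_
    rw [h3 x]
    exact hv _ h2
  obtain ⟨q, hq, h1⟩ := hQ (PiLp 2 fun _ : Λ ⧸ N => K) (SBF_M M (Λ ⧸ N)) ((Λ ⧸ N) × ι)
    (fun p => sl p.1 (ξ p.2)) (indRep N K π) hU (SBF_summ2 ξ hξ)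
    (by
      intro S hS T hT
      rw [SBF_trace ξ hξ S T, SBF_trace ξ hξ T S, Finset.sum_comm]
      refine Finset.sum_congr rfl fun x _ => Finset.sum_congr rfl fun y _ => ?_
      exact htr _ (SBF_en_mem M S hS y x) _ (SBF_en_mem M T hT x y))
    hfa' (WithLp.toLp 2 fun _ => v) hv'
  have h2 : (∑ _x : Λ ⧸ N, (ε * ‖v‖) ^ 2) ≤
      ∑ x : Λ ⧸ N, ‖π (cc N q (q⁻¹ • x)) v - v‖ ^ 2 := by
    have h3 : (ε * ‖(WithLp.toLp 2 fun _ => v : PiLp 2 fun _ : Λ ⧸ N => K)‖) ^ 2 ≤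
        ‖indRep N K π q (WithLp.toLp 2 fun _ => v : PiLp 2 fun _ : Λ ⧸ N => K) -
          (WithLp.toLp 2 fun _ => v : PiLp 2 fun _ : Λ ⧸ N => K)‖ ^ 2 :=
      pow_le_pow_left₀ (by positivity) h1 2
    rw [mul_pow, PiLp.norm_sq_eq_of_L2, PiLp.norm_sq_eq_of_L2, Finset.mul_sum] at h3
    simp only [PiLp.sub_apply, indRep_apply] at h3
    simpa only [mul_pow] using h3
  obtain ⟨x, -, hx⟩ := Finset.exists_le_of_sum_le (Finset.univ_nonempty (α := Λ ⧸ N)) h2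
  refine ⟨cc N q (q⁻¹ • x), Finset.mem_image.2 ⟨(q, x), by simp [hq], rfl⟩, ?_⟩
  exact (pow_le_pow_iff_left₀ (by positivity) (norm_nonneg _) two_ne_zero).1 hx

end Pool.TC
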