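import Pool.Agent.Work.MP_972ac7_C.AllC

/-! # The uniform gap in readable form (MP_972ac7_al) -/

set_option autoImplicit false

open MeasureTheory

noncomputable section

namespace Pool.TC

open Pool.TFD

section defs

variable {K : Type} [NormedAddCommGroup K] [InnerProductSpace ℂ K]

/-- The functional `T ↦ ∑ i, ⟪ξ i, T (ξ i)⟫`. -/
def vecSum {ι : Type} (ξ : ι → K) (T : K →L[ℂ] K) : ℂ := ∑' i, (inner ℂ (ξ i) (T (ξ i)) : ℂ)

/-- `T ↦ ∑ i, ⟪ξ i, T (ξ i)⟫` is a faithful finite trace on the von Neumann algebra `M`. -/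
structure FaithfulTrace [CompleteSpace K] (M : VonNeumannAlgebra K) {ι : Type} (ξ : ι → K) :
    Prop where
  finite : Summable fun i => ‖ξ i‖ ^ 2
  trace : ∀ S ∈ M, ∀ T ∈ M, vecSum ξ (S * T) = vecSum ξ (T * S)
  faithful : ∀ T ∈ M, (∀ i, T (ξ i) = 0) → T = 0

variable {Λ : Type} [Group Λ]

/-- The vector `v` is orthogonal to the invariant vectors. -/
def OrthInv (π : Λ →* (K ≃ₗᵢ[ℂ] K)) (v : K) : Prop :=
  ∀ w, (∀ γ, π γ w = w) → (inner ℂ w v : ℂ) = 0

/-- Every vector orthogonal to the invariant vectors is moved by `ε` times its norm by an element of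
`Q`. -/
def RepGap (π : Λ →* (K ≃ₗᵢ[ℂ] K)) (Q : Finset Λ) (ε : ℝ) : Prop :=
  ∀ v, OrthInv π v → ∃ q ∈ Q, ε * ‖v‖ ≤ ‖π q v - v‖

/-- The representation takes its values in the von Neumann algebra `M`. -/
def ValuesIn [CompleteSpace K] (π : Λ →* (K ≃ₗᵢ[ℂ] K)) (M : VonNeumannAlgebra K) : Prop :=
  ∀ γ, opU (π γ) ∈ M

end defs

/-- Uniform spectral gap for all unitary representations with values in a von Neumann algebra with a
faithful finite trace: `Q` and `ε` do not depend on the representation. -/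
def TracialGap (Λ : Type) [Group Λ] : Prop :=
  ∃ (Q : Finset Λ) (ε : ℝ), 0 < ε ∧
    ∀ (K : Type) [NormedAddCommGroup K] [InnerProductSpace ℂ K] [CompleteSpace K]
      (M : VonNeumannAlgebra K) (ι : Type) (ξ : ι → K) (π : Λ →* (K ≃ₗᵢ[ℂ] K)),
      FaithfulTrace M ξ → ValuesIn π M → RepGap π Q ε

theorem tracialGap_of_FTGap (Λ : Type) [Group Λ] (h : FTGap Λ) : TracialGap Λ := by
  obtain ⟨Q, ε, hε, h⟩ := h
  refine ⟨Q, ε, hε, ?_⟩
  intro K _ _ _ M ι ξ π hξ hπ v hv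
  exact h K M ι ξ π hπ hξ.finite hξ.trace hξ.faithful v hv

end Pool.TC
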