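import Pool.Agent.Work.MP_972ac7_C.Interface

/-! # Block AY: the Araki-Yamagami inequality in the corner form (MP_972ac7_al, note 2966) -/

set_option autoImplicit false

open MeasureTheory
open scoped ENNReal Topology

noncomputable section

namespace Pool.TC

open Pool.TFD

section

variable {H : Type} [NormedAddCommGroup H] [InnerProductSpace ℂ H] [CompleteSpace H]

theorem AY_norm {P F : H →L[ℂ] H} (hP : IsSelfAdjoint P) (h : P * P = star F * F) (v : H) :
    ‖P v‖ = ‖F v‖ := by
  have h1 : (inner ℂ (P v) (P v) : ℂ) = inner ℂ (F v) (F v) := by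
    have h2 : (inner ℂ (P v) (P v) : ℂ) = inner ℂ ((P * P) v) v := by
      have h3 : star P = P := hP
      rw [← ContinuousLinearMap.adjoint_inner_left, ← ContinuousLinearMap.star_eq_adjoint, h3]
      rfl
    rw [h2, h, ← ContinuousLinearMap.adjoint_inner_left, ← ContinuousLinearMap.star_eq_adjoint]
    rfl
  rw [inner_self_eq_norm_sq_to_K, inner_self_eq_norm_sq_to_K] at h1
  have h4 : ‖P v‖ ^ 2 = ‖F v‖ ^ 2 := by exact_mod_cast h1
  exact (sq_eq_sq₀ (norm_nonneg _) (norm_nonneg _)).1 h4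

theorem AY_pyth {p A B : H →L[ℂ] H} (hp : IsSelfAdjoint p) (hA : p * A = 0) (hB : p * B = B)
    (v : H) : ‖(A + B) v‖ ^ 2 = ‖A v‖ ^ 2 + ‖B v‖ ^ 2 := by
  have h1 : (inner ℂ (A v) (B v) : ℂ) = 0 := by
    have h2 : B v = p (B v) := (DFunLike.congr_fun hB v).symm
    have h3 : star p = p := hp
    rw [h2, ← ContinuousLinearMap.adjoint_inner_left, ← ContinuousLinearMap.star_eq_adjoint, h3]
    have h4 : p (A v) = 0 := DFunLike.congr_fun hA v
    rw [h4, inner_zero_left]
  rw [show (A + B) v = A v + B v from rfl, norm_add_sq (𝕜 := ℂ), h1]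
  simp

theorem AY_sqrt {p F P P' : H →L[ℂ] H} (hp : IsSelfAdjoint p) (h1 : p * F = F) (h2 : F * p = 0)
    (hP : IsSelfAdjoint P) (hP' : IsSelfAdjoint P') (hPP : P * P = star F * F)
    (hPP' : P' * P' = F * star F) :
    p * P = 0 ∧ p * P' = P' ∧ (P + P') * (P + P') = (F + star F) * (F + star F) := by
  have hps : star p = p := hp
  have hPs : star P = P := hP
  have hPs' : star P' = P' := hP'
  have a1 : P * p = 0 := by
    refine ContinuousLinearMap.ext fun v => ?_
    have h3 : ‖P (p v)‖ = ‖F (p v)‖ := AY_norm hP hPP (p v)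
    have h4 : F (p v) = 0 := DFunLike.congr_fun h2 v
    rw [h4, norm_zero] at h3
    exact norm_eq_zero.1 h3
  have a2 : p * P = 0 := by
    have h3 := congrArg star a1
    rwa [star_mul, hps, hPs, star_zero] at h3
  have a3 : P' * (1 - p) = 0 := by
    refine ContinuousLinearMap.ext fun v => ?_
    have h3 : ‖P' ((1 - p) v)‖ = ‖(star F) ((1 - p) v)‖ :=
      AY_norm hP' (by rw [hPP', star_star]) ((1 - p) v)
    have h4 : star F * (1 - p) = 0 := by
      have h5 : (1 - p) * F = 0 := by rw [sub_mul, one_mul, h1, sub_self]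
      have h6 := congrArg star h5
      rwa [star_mul, star_sub, star_one, hps, star_zero] at h6
    have h7 : (star F) ((1 - p) v) = 0 := DFunLike.congr_fun h4 v
    rw [h7, norm_zero] at h3
    exact norm_eq_zero.1 h3
  have a4 : P' * p = P' := by
    rw [mul_sub, mul_one, sub_eq_zero] at a3
    exact a3.symm
  have a5 : p * P' = P' := by
    have h3 := congrArg star a4
    rwa [star_mul, hps, hPs'] at h3
  have a6 : P * P' = 0 := by
    rw [← a5, ← mul_assoc, a1, zero_mul]
  have a7 : P' * P = 0 := by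
    have h3 := congrArg star a6
    rwa [star_mul, hPs, hPs', star_zero] at h3
  have a8 : F * F = 0 := by
    calc F * F = F * (p * F) := by rw [h1]
      _ = (F * p) * F := (mul_assoc _ _ _).symm
      _ = 0 := by rw [h2, zero_mul]
  have a9 : star F * star F = 0 := by
    rw [← star_mul, a8, star_zero]
  refine ⟨a2, a5, ?_⟩
  rw [add_mul, mul_add, mul_add, a6, a7, add_mul, mul_add, mul_add, a8, a9, hPP, hPP']
  abel

end

theorem p_AY (hTRA : Stmt_TRA) (hSQC : Stmt_SQC) : Stmt_AY := by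
  intro H _ _ _ J _ D p F G P Q hp hF hG hP hQ hps hpp hpF hFp hpG hGp hP0 hQ0 hPP hQQ
  have hPs : IsSelfAdjoint P := IsSelfAdjoint.of_nonneg hP0
  have hQs : IsSelfAdjoint Q := IsSelfAdjoint.of_nonneg hQ0
  set P' : H →L[ℂ] H := CFC.sqrt (F * star F) with hP'
  set Q' : H →L[ℂ] H := CFC.sqrt (G * star G) with hQ'
  have nF : (0 : H →L[ℂ] H) ≤ F * star F := mul_star_self_nonneg F
  have nG : (0 : H →L[ℂ] H) ≤ G * star G := mul_star_self_nonneg G
  have hP'0 : 0 ≤ P' := CFC.sqrt_nonneg _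
  have hQ'0 : 0 ≤ Q' := CFC.sqrt_nonneg _
  have hP's : IsSelfAdjoint P' := IsSelfAdjoint.of_nonneg hP'0
  have hQ's : IsSelfAdjoint Q' := IsSelfAdjoint.of_nonneg hQ'0
  have hPP' : P' * P' = F * star F := CFC.sqrt_mul_sqrt_self _ nF
  have hQQ' : Q' * Q' = G * star G := CFC.sqrt_mul_sqrt_self _ nG
  have mP' : D.Mem P' := hSQC H J D _ nF (hF.mul hF.star)
  have mQ' : D.Mem Q' := hSQC H J D _ nG (hG.mul hG.star)
  obtain ⟨p1, p2, p3⟩ := AY_sqrt hps hpF hFp hPs hP's hPP hPP'
  obtain ⟨q1, q2, q3⟩ := AY_sqrt hps hpG hGp hQs hQ's hQQ hQQ'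
  have sX : ∀ E : H →L[ℂ] H, IsSelfAdjoint (E + star E) := fun E => IsSelfAdjoint.add_star_self E
  have key := hTRA H J D (F + star F) (G + star G) (P + P') (Q + Q') (hF.add hF.star)
    (hG.add hG.star) (hP.add mP') (hQ.add mQ') (sX F) (sX G) (add_nonneg hP0 hP'0)
    (add_nonneg hQ0 hQ'0) p3 q3
  have e1 : (P + P') - (Q + Q') = (P - Q) + (P' - Q') := by abel
  have e2 : (F + star F) - (G + star G) = star (F - G) + (F - G) := by
    rw [star_sub]; abel
  have l1 : D.hs (P - Q) ≤ D.hs ((P - Q) + (P' - Q')) := by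
    unfold TD.hs
    refine Finset.sum_le_sum fun j _ => ?_
    rw [AY_pyth hps (by rw [mul_sub, p1, q1, sub_zero]) (by rw [mul_sub, p2, q2])]
    have := sq_nonneg ‖(P' - Q') (D.ξ j)‖
    linarith
  have l2 : D.hs (star (F - G) + (F - G)) = 2 * D.hs (F - G) := by
    have h1 : D.hs (star (F - G) + (F - G)) = D.hs (star (F - G)) + D.hs (F - G) := by
      unfold TD.hs
      rw [← Finset.sum_add_distrib]
      refine Finset.sum_congr rfl fun j _ => ?_
      refine AY_pyth hps ?_ (by rw [mul_sub, hpF, hpG]) _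
      have h2 : (F - G) * p = 0 := by rw [sub_mul, hFp, hGp, sub_zero]
      have h3 := congrArg star h2
      have h4 : star p = p := hps
      rwa [star_mul, h4, star_zero] at h3
    rw [h1, TD.hs_star (hF.sub hG)]
    ring
  rw [e1, e2, l2] at key
  exact l1.trans key

end Pool.TC
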