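import Pool.Agent.Work.MP_972ac7_C.Interface

/-! # Block CORE (helper64) -/

set_option autoImplicit false

open MeasureTheory
open scoped ENNReal

noncomputable section

namespace Pool.TC

open Pool.TFD

/-- The semifinite trace data on `L²(X; K)`. -/
def CORE_sd {X : Type} [MeasurableSpace X] (m : Measure X) [IsFiniteMeasure m]
    {K : Type} [NormedAddCommGroup K] [InnerProductSpace ℂ K] [CompleteSpace K] (S : SM K)
    {ι : Type} (b : HilbertBasis ι ℂ (Lp ℂ 2 m)) (hSTL : Stmt_STL) (hSWT : Stmt_SWT)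
    (hTOT : Stmt_TOT) : SD (Lp K 2 m) ι where
  R := {T | ∃ r ∈ S.R, T = r.compLpL 2 m}
  star_mem := by
    rintro _ ⟨r, hr, rfl⟩
    exact ⟨star r, S.star_mem r hr, hSTL X m K r⟩
  η := fun i => tn (b i) S.ξ
  trace := fun T hT => hSWT X m K S ι b T fun r hr => hT _ ⟨r, hr, rfl⟩
  total := fun v hv => hTOT X m K S ι b v fun r hr i => hv _ ⟨r, hr, rfl⟩ i

theorem CORE_sum {ι : Type} (f : ι → ℝ) (hf : ∀ i, 0 ≤ f i) (C : ℝ)
    (h : ∀ s : Finset ι, ∑ i ∈ s, f i ≤ C) : ∑' i, ENNReal.ofReal (f i) ≠ ⊤ := by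
  have h1 : ∑' i, ENNReal.ofReal (f i) ≤ ENNReal.ofReal C := by
    rw [ENNReal.tsum_eq_iSup_sum]
    refine iSup_le fun s => ?_
    rw [← ENNReal.ofReal_sum_of_nonneg fun i _ => hf i]
    exact ENNReal.ofReal_le_ofReal (h s)
  exact ne_top_of_le_ne_top ENNReal.ofReal_ne_top h1

/-- From orthonormal finite families to the trace over a Hilbert basis. -/
theorem CORE_S {X : Type} [MeasurableSpace X] (m : Measure X) [IsFiniteMeasure m]
    {K : Type} [NormedAddCommGroup K] [InnerProductSpace ℂ K] [CompleteSpace K] (S : SM K)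
    {ι : Type} (b : HilbertBasis ι ℂ (Lp ℂ 2 m)) (hSTL : Stmt_STL) (hSWT : Stmt_SWT)
    (hTOT : Stmt_TOT) (P : Lp K 2 m →L[ℂ] Lp K 2 m) (C : ℝ)
    (h : ∀ (L : ℕ) (φ : Fin L → Lp ℂ 2 m), Orthonormal ℂ φ →
      ∑ j, ‖P (tn (φ j) S.ξ)‖ ^ 2 ≤ C) : (CORE_sd m S b hSTL hSWT hTOT).S P ≠ ⊤ := by
  have h1 : (CORE_sd m S b hSTL hSWT hTOT).S P =
      ∑' i, ENNReal.ofReal (‖P (tn (b i) S.ξ)‖ ^ 2) := by
    unfold SD.S
    refine tsum_congr fun i => ?_
    show ‖P (tn (b i) S.ξ)‖ₑ ^ 2 = _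
    rw [ENNReal.ofReal_pow (norm_nonneg _), ofReal_norm]
  rw [h1]
  refine CORE_sum _ (fun i => by positivity) C fun s => ?_
  have h2 := h s.card (fun j => b (s.equivFin.symm j))
    (b.orthonormal.comp _ (Subtype.val_injective.comp s.equivFin.symm.injective))
  refine le_trans (le_of_eq ?_) h2
  rw [← Finset.sum_coe_sort]
  exact (Fintype.sum_equiv s.equivFin.symm _ _ fun j => rfl).symm

theorem p_CORE (hSEC : Stmt_SEC) (hCOC : Stmt_COC) (hERG : Stmt_ERG) (hGAPC : Stmt_GAPC)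
    (hREPK : Stmt_REPK) (hMCK : Stmt_MCK) (hUNK : Stmt_UNK) (hTOPK : Stmt_TOPK)
    (hPSP : Stmt_PSP) (hPAX : Stmt_PAX) (hSCN : Stmt_SCN) (hCTR : Stmt_CTR) (hSTL : Stmt_STL)
    (hSWT : Stmt_SWT) (hTOT : Stmt_TOT) (hSPX : Stmt_SPX) (hTRB : Stmt_TRB) (hPAF : Stmt_PAF)
    (hFIXK : Stmt_FIXK) (hTRK : Stmt_TRK) : Stmt_CORE := by
  intro GA GB _ _ _ _ _ _ _ _ _ _ _ _ _ _ _ _ Γ m hΓ hm hinv hd hA hB hgap
  obtain ⟨hc, σ, hσm, hσ⟩ := hSEC (GA × GB) Γ hΓ
  refine ⟨hc, ?_⟩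
  have hmeas := (hCOC (GA × GB) Γ σ hσ hσm).2.1
  have herg := hERG GA GB Γ m hinv hmeas hd
  obtain ⟨μ, hμ, κ, hκ, hG⟩ := hGAPC GA GB Γ m σ hσ hσm hinv hgap
  have ht : Measurable fun s : GB => ((1, s) : GA × GB) := measurable_const.prodMk measurable_id
  obtain ⟨Q, ε, hε, hQ⟩ := hTRK (GA × GB) Γ m σ hσ hσm hinv GB μ (fun s => ((1, s) : GA × GB))
    (κ / 4) ht (by positivity)
  refine ⟨Q, ε, hε, ?_⟩
  intro K _ _ _ S π hπ v hv
  -- `K` is second countable
  have hK : SecondCountableTopology K := by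
    have h1 : TopologicalSpace.SeparableSpace K := by
      refine ⟨⟨_, ?_, S.dense⟩⟩
      have h2 : {v : K | ∃ r ∈ S.R, r S.ξ = v} = (fun r : K →L[ℂ] K => r S.ξ) '' (S.R : Set _) := by
        ext u
        simp
      rw [h2]
      exact S.countable.image _
    exact UniformSpace.secondCountable_of_separable K
  obtain ⟨U, hU⟩ := hREPK (GA × GB) Γ m σ hσ hσm hinv K π
  have hMC := hMCK (GA × GB) Γ m σ hσ hσm hinv K π U hU
  have hSX : SecondCountableTopology (Lp K 2 m) := hSPX (GA × GB) Γ m σ hσ hσm K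
  have hUN : ∀ r ∈ S.R, ∀ g, opU (U g) * (r.compLpL 2 m) = (r.compLpL 2 m) * opU (U g) :=
    fun r hr => hUNK (GA × GB) Γ m σ hσ hinv K π U hU r fun γ => hπ γ r hr
  have hMCt : ∀ v w : Lp K 2 m, Measurable fun s : GB => (inner ℂ v (U ((1, s) : GA × GB) w) : ℂ) :=
    fun v w => (hMC v w).comp ht
  obtain ⟨T, hTsa, hTn, hTw, hTe, hTc⟩ := hTOPK (Lp K 2 m) GB μ (fun s => U ((1, s) : GA × GB)) hMCt
  set M : ℝ := μ.real Set.univ with hM
  set c : ℝ := M - κ / 8 with hcdef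
  obtain ⟨hPsa, hPc, hPz, -⟩ := hPSP (Lp K 2 m) T c hTsa
  set P := tpp T c with hPdef
  -- the basis
  obtain ⟨w, b, -⟩ := exists_hilbertBasis ℂ (Lp ℂ 2 m)
  set D := CORE_sd m S b hSTL hSWT hTOT with hD
  -- the two representations
  let WA : GA →* (Lp K 2 m ≃ₗᵢ[ℂ] Lp K 2 m) := U.comp (MonoidHom.inl GA GB)
  let WB : GB →* (Lp K 2 m ≃ₗᵢ[ℂ] Lp K 2 m) := U.comp (MonoidHom.inr GA GB)
  have hWA : ∀ a, WA a = U ((a, 1) : GA × GB) := fun a => rfl
  have hWB : ∀ s, WB s = U ((1, s) : GA × GB) := fun s => rfl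
  have hcomm : ∀ (a : GA) (s : GB), opU (U ((a, 1) : GA × GB)) * opU (U ((1, s) : GA × GB)) =
      opU (U ((1, s) : GA × GB)) * opU (U ((a, 1) : GA × GB)) := by
    intro a s
    have h1 : ∀ g h : GA × GB, opU (U g) * opU (U h) = opU (U (g * h)) := by
      intro g h
      ext1 f
      show U g (U h f) = U (g * h) f
      rw [map_mul]
      rfl
    rw [h1, h1]
    simp
  have hcA : ∀ v : Lp K 2 m, Continuous fun g => WA g v := by
    refine hSCN GA (Lp K 2 m) WA fun v w => ?_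
    have h1 : Measurable fun a : GA => ((a, 1) : GA × GB) := measurable_id.prodMk measurable_const
    exact (hMC v w).comp h1
  have hcB : ∀ v : Lp K 2 m, Continuous fun g => WB g v :=
    hSCN GB (Lp K 2 m) WB fun v w => hMCt v w
  have hmA : ∀ a, D.Mem (opU (WA a)) := by
    rintro a _ ⟨r, hr, rfl⟩
    exact hUN r hr _
  have hmB : ∀ a, D.Mem (opU (WB a)) := by
    rintro a _ ⟨r, hr, rfl⟩
    exact hUN r hr _
  -- `P` is in the commutant
  have hmP : D.Mem P := by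
    rintro _ ⟨r, hr, rfl⟩
    refine (hPc _ (hTc _ fun s => ?_)).symm
    exact (hUN r hr _).symm
  have hPA : ∀ a, opU (WA a) * P = P * opU (WA a) := by
    intro a
    refine hPc _ (hTc _ fun s => ?_)
    exact hcomm a s
  have hSP : D.S P ≠ ⊤ := by
    refine CORE_S m S b hSTL hSWT hTOT P
      ((M - c) ^ 2 * ‖S.ξ‖ ^ 2 / (1 - 4 * (M - c) / κ) ^ 2) fun L φ hφ => ?_
    refine hTRB (GA × GB) Γ m σ hσ hσm hinv K S π hπ U hU GB μ (fun s => ((1, s) : GA × GB)) κ c T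
      ht hκ hG hTsa hMCt hTw ?_ ?_ L φ hφ
    · rw [hcdef]
      linarith
    · rw [hcdef]
      ring_nf
      linarith
  have h1 : ∀ g f, WA g (P f) = P f :=
    hCTR (Lp K 2 m) _ GA D WA hcA hmA P hmP hPsa hSP hPA hA
  -- the projection to the vectors fixed by the first factor
  obtain ⟨E, hEsa, hEn, hE1, hE2, hE3⟩ := hPAX (Lp K 2 m) GA WA
  have hmE : D.Mem E := by
    rintro _ ⟨r, hr, rfl⟩
    refine (hE3 _ fun a => ?_).symm
    exact (hUN r hr _).symm
  have hSE : D.S E ≠ ⊤ := by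
    refine CORE_S m S b hSTL hSWT hTOT E (‖S.ξ‖ ^ 2) fun L φ hφ => ?_
    refine hPAF GA GB Γ m σ hσ hσm hinv herg K S π U hU E hEn ?_ hE1 L φ hφ
    intro r hr
    exact hmE _ ⟨r, hr, rfl⟩
  have h2 : ∀ g f, WB g (E f) = E f := by
    refine hCTR (Lp K 2 m) _ GB D WB hcB hmB E hmE hEsa hSE (fun s => ?_) hB
    exact hE3 _ fun a => (hcomm a s).symm
  have h3 : ∀ f, ∀ g, U g (P f) = P f := by
    intro f g
    have e1 : E (P f) = P f := hE2 _ fun a => h1 a f
    have e2 : g = ((g.1, 1) : GA × GB) * ((1, g.2) : GA × GB) := by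
      ext <;> simp
    rw [e2, map_mul]
    show U ((g.1, 1) : GA × GB) (U ((1, g.2) : GA × GB) (P f)) = P f
    have e3 : U ((1, g.2) : GA × GB) (P f) = P f := by
      have := h2 g.2 (P f)
      rw [e1] at this
      exact this
    rw [e3]
    exact h1 g.1 f
  -- `P` kills the constant section of `v`
  have h4 : P (cst m v) = 0 := by
    have h5 : (inner ℂ (P (cst m v)) (P (cst m v)) : ℂ) = 0 := by
      have h6 : (inner ℂ (P (cst m v)) (P (cst m v)) : ℂ) =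
          inner ℂ (cst m v) (P (P (cst m v))) := by
        have h7 := ContinuousLinearMap.adjoint_inner_right P (cst m v) (P (cst m v))
        rw [← ContinuousLinearMap.star_eq_adjoint, hPsa.star_eq] at h7
        rw [h7]
      rw [h6]
      obtain ⟨u, hu, hfu⟩ := hFIXK (GA × GB) Γ m σ hσ hσm hinv K π U hU (P (P (cst m v)))
        (h3 _)
      rw [hfu, L2.inner_def]
      have h8 : ∫ x, (inner ℂ ((cst m v : Lp K 2 m) x) ((cst m u : Lp K 2 m) x) : ℂ) ∂m =
          ∫ _x, (inner ℂ v u : ℂ) ∂m := by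
        refine integral_congr_ae ?_
        filter_upwards [cst_ae (m := m) v, cst_ae (m := m) u] with x hx1 hx2
        rw [hx1, hx2]
      rw [h8, integral_const]
      have h9 : (inner ℂ v u : ℂ) = 0 := by
        rw [← inner_conj_symm, hv u hu, map_zero]
      rw [h9, smul_zero]
    exact inner_self_eq_zero.1 h5
  have h5 := hPz _ h4
  refine hQ K π U hU v ?_
  rw [hTe]
  refine ENNReal.ofReal_le_ofReal ?_
  have h6 : ‖cst m v‖ ^ 2 = ‖v‖ ^ 2 := by
    have h7 : (inner ℂ (cst m v) (cst m v) : ℂ) = inner ℂ v v := by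
      rw [L2.inner_def]
      have h8 : ∫ x, (inner ℂ ((cst m v : Lp K 2 m) x) ((cst m v : Lp K 2 m) x) : ℂ) ∂m =
          ∫ _x, (inner ℂ v v : ℂ) ∂m := by
        refine integral_congr_ae ?_
        filter_upwards [cst_ae (m := m) v] with x hx1
        rw [hx1]
      rw [h8, integral_const]
      simp
    have h9 := congrArg Complex.re h7
    rw [inner_self_eq_norm_sq_to_K, inner_self_eq_norm_sq_to_K] at h9
    have h10 : ∀ x : ℝ, (((x : ℝ) : ℂ) ^ 2).re = x ^ 2 := fun x => by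
      rw [← Complex.ofReal_pow, Complex.ofReal_re]
    exact (h10 _).symm.trans (h9.trans (h10 _))
  have h7 : (inner ℂ (cst m v) (T (cst m v)) : ℂ).re ≤ c * ‖cst m v‖ ^ 2 := h5
  rw [h6] at h7 ⊢
  rw [hcdef] at h7
  nlinarith

end Pool.TC
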