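import Pool.Agent.Work.MP_972ac7_C.Interface

/-! # Block CTR: the contraction argument (MP_972ac7_al, note 2966) -/

set_option autoImplicit false

open MeasureTheory
open scoped ENNReal Topology

noncomputable section

namespace Pool.TC

open Pool.TFD

section

variable {H : Type} [NormedAddCommGroup H] [InnerProductSpace ℂ H] [CompleteSpace H] {ι : Type}
  {D : SD H ι}

theorem CTR_star {T : H →L[ℂ] H} (h : D.Mem T) : D.Mem (star T) := by
  intro r hr
  have h1 := h (star r) (D.star_mem r hr)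
  have h2 := congrArg star h1
  rw [star_mul, star_mul, star_star] at h2
  exact h2.symm

theorem CTR_mul {A B : H →L[ℂ] H} (hA : D.Mem A) (hB : D.Mem B) : D.Mem (A * B) := by
  intro r hr
  rw [mul_assoc, hB r hr, ← mul_assoc, hA r hr, mul_assoc]

theorem CTR_sub_one {A : H →L[ℂ] H} (hA : D.Mem A) : D.Mem (A - 1) := by
  intro r hr
  rw [sub_mul, mul_sub, hA r hr, one_mul, mul_one]

theorem CTR_starU (U : H ≃ₗᵢ[ℂ] H) : star (opU U) = opU U.symm := by
  rw [ContinuousLinearMap.star_eq_adjoint]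
  refine ContinuousLinearMap.ext fun v => ?_
  refine ext_inner_right ℂ fun w => ?_
  rw [ContinuousLinearMap.adjoint_inner_left, opU_apply, opU_apply]
  have h := U.symm.inner_map_map v (U w)
  rw [U.symm_apply_apply] at h
  exact h.symm

theorem CTR_iso (U : H ≃ₗᵢ[ℂ] H) (X : H →L[ℂ] H) : D.S (opU U * X) = D.S X := by
  unfold SD.S
  refine tsum_congr fun i => ?_
  have h1 : ‖(opU U * X) (D.η i)‖ₑ = ‖X (D.η i)‖ₑ := by
    rw [← ofReal_norm, ← ofReal_norm]
    congr 1
    exact U.norm_map _
  rw [h1]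

theorem CTR_inv {G : Type} [Group G] (W : G →* (H ≃ₗᵢ[ℂ] H)) (hW : ∀ g, D.Mem (opU (W g)))
    {P : H →L[ℂ] H} (hP : D.Mem P) (hs : IsSelfAdjoint P)
    (hc : ∀ g, opU (W g) * P = P * opU (W g)) (a b : G) :
    D.S ((opU (W (b * a * b⁻¹)) - 1) * P) = D.S ((opU (W a) - 1) * P) := by
  have hmul : ∀ g h : G, opU (W (g * h)) = opU (W g) * opU (W h) := by
    intro g h
    rw [map_mul]
    rfl
  have hone : opU (W (1 : G)) = 1 := by
    rw [map_one]
    rfl
  have hst : ∀ g : G, star (opU (W g)) = opU (W g⁻¹) := by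
    intro g
    rw [CTR_starU, map_inv]
    rfl
  have h1 : (opU (W (b * a * b⁻¹)) - 1) * P =
      opU (W b) * (((opU (W a) - 1) * P) * opU (W b⁻¹)) := by
    have h2 : opU (W b) * opU (W b⁻¹) = 1 := by
      rw [← hmul, mul_inv_cancel, hone]
    have h3 : opU (W b) * (((opU (W a) - 1) * P) * opU (W b⁻¹)) =
        (opU (W b) * (opU (W a) - 1)) * (P * opU (W b⁻¹)) := by
      simp only [mul_assoc]
    rw [h3, ← hc b⁻¹, mul_sub, mul_one, sub_mul, sub_mul, one_mul, ← mul_assoc, ← mul_assoc,
      ← hmul, ← hmul, h2, one_mul]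
  rw [h1, CTR_iso]
  have hX : D.Mem ((opU (W a) - 1) * P) := CTR_mul (CTR_sub_one (hW a)) hP
  have h4 : D.S (((opU (W a) - 1) * P) * opU (W b⁻¹)) =
      D.S (star (((opU (W a) - 1) * P) * opU (W b⁻¹))) :=
    D.trace _ (CTR_mul hX (hW b⁻¹))
  have h5 : D.S ((opU (W a) - 1) * P) = D.S (star ((opU (W a) - 1) * P)) := D.trace _ hX
  rw [h4, star_mul, hst, inv_inv, CTR_iso, ← h5]

end

theorem p_CTR : Stmt_CTR := by
  intro H ι G _ _ _ _ _ _ D W hcont hW P hP hs hfin hc hgen
  -- the sum as a real number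
  have hPs : Summable fun i => ‖P (D.η i)‖ ^ 2 := by
    have h1 : (∑' i, ENNReal.ofReal (‖P (D.η i)‖ ^ 2)) ≠ ⊤ := by
      have h2 : (∑' i, ENNReal.ofReal (‖P (D.η i)‖ ^ 2)) = D.S P := by
        unfold SD.S
        refine tsum_congr fun i => ?_
        rw [ENNReal.ofReal_pow (norm_nonneg _), ofReal_norm]
      rw [h2]
      exact hfin
    have h3 := ENNReal.summable_toReal h1
    refine h3.congr fun i => ?_
    rw [ENNReal.toReal_ofReal (by positivity)]
  have hbd : ∀ (a : G) (i : ι), ‖((opU (W a) - 1) * P) (D.η i)‖ ^ 2 ≤ 4 * ‖P (D.η i)‖ ^ 2 := by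
    intro a i
    have h1 : ‖((opU (W a) - 1) * P) (D.η i)‖ ≤ 2 * ‖P (D.η i)‖ := by
      have h2 : ((opU (W a) - 1) * P) (D.η i) = W a (P (D.η i)) - P (D.η i) := rfl
      rw [h2]
      calc _ ≤ ‖W a (P (D.η i))‖ + ‖P (D.η i)‖ := norm_sub_le _ _
        _ = 2 * ‖P (D.η i)‖ := by rw [(W a).norm_map]; ring
    calc _ ≤ (2 * ‖P (D.η i)‖) ^ 2 := pow_le_pow_left₀ (norm_nonneg _) h1 2
      _ = _ := by ring
  have hsum : ∀ a : G, Summable fun i => ‖((opU (W a) - 1) * P) (D.η i)‖ ^ 2 := fun a =>
    Summable.of_nonneg_of_le (fun i => by positivity) (hbd a) (hPs.mul_left 4)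
  have hof : ∀ a : G, D.S ((opU (W a) - 1) * P) =
      ENNReal.ofReal (∑' i, ‖((opU (W a) - 1) * P) (D.η i)‖ ^ 2) := by
    intro a
    rw [ENNReal.ofReal_tsum_of_nonneg (fun i => by positivity) (hsum a)]
    unfold SD.S
    refine tsum_congr fun i => ?_
    rw [ENNReal.ofReal_pow (norm_nonneg _), ofReal_norm]
  have hreal : ∀ a b : G, ∑' i, ‖((opU (W (b * a * b⁻¹)) - 1) * P) (D.η i)‖ ^ 2 =
      ∑' i, ‖((opU (W a) - 1) * P) (D.η i)‖ ^ 2 := by
    intro a b
    have h1 := CTR_inv W hW hP hs hc a b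
    rw [hof, hof] at h1
    exact (ENNReal.ofReal_eq_ofReal_iff (tsum_nonneg fun i => by positivity)
      (tsum_nonneg fun i => by positivity)).1 h1
  -- contractible elements
  have hcontr : ∀ a : G, (∃ b : ℕ → G, Filter.Tendsto (fun n => b n * a * (b n)⁻¹)
      Filter.atTop (nhds 1)) → ∀ f, W a (P f) = P f := by
    rintro a ⟨b, hb⟩
    have hlim : Filter.Tendsto
        (fun n => ∑' i, ‖((opU (W (b n * a * (b n)⁻¹)) - 1) * P) (D.η i)‖ ^ 2)
        Filter.atTop (nhds (∑' i : ι, (0 : ℝ))) := by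
      refine tendsto_tsum_of_dominated_convergence (bound := fun i => 4 * ‖P (D.η i)‖ ^ 2)
        (hPs.mul_left 4) (fun i => ?_) (Filter.Eventually.of_forall fun n i => ?_)
      · have h1 : Filter.Tendsto (fun n => W (b n * a * (b n)⁻¹) (P (D.η i))) Filter.atTop
            (nhds (W 1 (P (D.η i)))) := ((hcont (P (D.η i))).tendsto 1).comp hb
        have h2 : Filter.Tendsto (fun n => W (b n * a * (b n)⁻¹) (P (D.η i)) - P (D.η i))
            Filter.atTop (nhds (W 1 (P (D.η i)) - P (D.η i))) := h1.sub_const _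
        have h3 : W 1 (P (D.η i)) - P (D.η i) = 0 := by
          rw [map_one]
          exact sub_self _
        rw [h3] at h2
        have h4 := (h2.norm).pow 2
        rw [norm_zero, zero_pow two_ne_zero] at h4
        exact h4
      · rw [Real.norm_of_nonneg (by positivity)]
        exact hbd _ i
    have hconst : (fun n => ∑' i, ‖((opU (W (b n * a * (b n)⁻¹)) - 1) * P) (D.η i)‖ ^ 2) =
        fun _ => ∑' i, ‖((opU (W a) - 1) * P) (D.η i)‖ ^ 2 := by
      funext n
      exact hreal a (b n)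
    rw [hconst, tsum_zero] at hlim
    have hzero : ∑' i, ‖((opU (W a) - 1) * P) (D.η i)‖ ^ 2 = 0 :=
      tendsto_nhds_unique tendsto_const_nhds hlim
    have hz : ∀ i, ((opU (W a) - 1) * P) (D.η i) = 0 := by
      intro i
      have h1 := ((hsum a).hasSum_iff.2 hzero)
      have h2 := (hasSum_zero_iff_of_nonneg (fun i => by positivity)).1 h1
      have h3 := congrFun h2 i
      have h4 : ‖((opU (W a) - 1) * P) (D.η i)‖ ^ 2 = 0 := h3
      exact norm_eq_zero.1 (pow_eq_zero_iff two_ne_zero |>.1 h4)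
    have hX : D.Mem ((opU (W a) - 1) * P) := CTR_mul (CTR_sub_one (hW a)) hP
    have hstar : ∀ u, (star ((opU (W a) - 1) * P)) u = 0 := by
      intro u
      refine D.total _ fun r hr i => ?_
      rw [ContinuousLinearMap.star_eq_adjoint, ContinuousLinearMap.adjoint_inner_right]
      have h1 : ((opU (W a) - 1) * P) (r (D.η i)) = r (((opU (W a) - 1) * P) (D.η i)) :=
        DFunLike.congr_fun (hX r hr) (D.η i)
      rw [h1, hz i, map_zero, inner_zero_left]
    have hX0 : (opU (W a) - 1) * P = 0 := by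
      have h1 : star ((opU (W a) - 1) * P) = 0 := ContinuousLinearMap.ext hstar
      have h2 := congrArg star h1
      rwa [star_star, star_zero] at h2
    intro f
    have h1 : W a (P f) - P f = 0 := DFunLike.congr_fun hX0 f
    exact sub_eq_zero.1 h1
  -- the closed subgroup
  let S : Subgroup G :=
    { carrier := {a | ∀ f, W a (P f) = P f}
      one_mem' := by
        intro f
        rw [map_one]
        rfl
      mul_mem' := by
        intro a b ha hb f
        have ha' : ∀ f, W a (P f) = P f := ha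
        have hb' : ∀ f, W b (P f) = P f := hb
        rw [map_mul]
        show W a (W b (P f)) = P f
        rw [hb' f, ha' f]
      inv_mem' := by
        intro a ha f
        have ha' : ∀ f, W a (P f) = P f := ha
        rw [map_inv]
        show (W a).symm (P f) = P f
        rw [LinearIsometryEquiv.symm_apply_eq]
        exact (ha' f).symm }
  have hSclosed : IsClosed (S : Set G) := by
    have h1 : (S : Set G) = ⋂ f, {a | W a (P f) = P f} := by
      ext a
      simp only [Set.mem_iInter]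
      exact Iff.rfl
    rw [h1]
    exact isClosed_iInter fun f => isClosed_eq (hcont (P f)) continuous_const
  have hle : (Subgroup.closure {a : G | ∃ b : ℕ → G,
      Filter.Tendsto (fun n => b n * a * (b n)⁻¹) Filter.atTop (nhds 1)} : Subgroup G) ≤ S := by
    rw [Subgroup.closure_le]
    intro a ha
    exact hcontr a ha
  intro g f
  have h1 : g ∈ (S : Set G) := by
    have h2 := hgen g
    exact hSclosed.closure_subset_iff.2 hle h2
  exact h1 f

end Pool.TC
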