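import Pool.Agent.Work.MP_972ac7_C.Interface

/-! # Block DNS of Theorem C of MP_972ac7_al: faithfulness gives density -/

set_option autoImplicit false

open MeasureTheory
open scoped ENNReal

noncomputable section

namespace Pool.TC

open Pool.TFD

/-- DNS. -/
theorem p_DNS : Stmt_DNS := by
  intro K _ _ _ M ι ξ hf
  set E₀ : Submodule ℂ K := Submodule.span ℂ {v : K | ∃ r : K →L[ℂ] K,
    (∀ T ∈ M, T * r = r * T) ∧ ∃ i, v = r (ξ i)} with hE₀
  set E : Submodule ℂ K := E₀.topologicalClosure with hE
  have hcl : IsClosed (E : Set K) := Submodule.isClosed_topologicalClosure _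
  haveI : CompleteSpace E := hcl.completeSpace_coe
  set e : K →L[ℂ] K := E.starProjection with he
  have hinv₀ : ∀ y ∈ M.commutant, ∀ v ∈ E₀, y v ∈ E₀ := by
    intro y hy v hv
    rw [VonNeumannAlgebra.mem_commutant_iff] at hy
    rw [hE₀] at hv ⊢
    induction hv using Submodule.span_induction with
    | mem v hv =>
      obtain ⟨r, hr, i, rfl⟩ := hv
      refine Submodule.subset_span ⟨y * r, ?_, i, rfl⟩
      intro T hT
      rw [← mul_assoc, hy T hT, mul_assoc, hr T hT, mul_assoc]
    | zero => rw [map_zero]; exact Submodule.zero_mem _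
    | add u v _ _ hu hv => rw [map_add]; exact Submodule.add_mem _ hu hv
    | smul a v _ hv => rw [map_smul]; exact Submodule.smul_mem _ _ hv
  have hinv : ∀ y ∈ M.commutant, ∀ v ∈ E, y v ∈ E := by
    intro y hy v hv
    exact Set.MapsTo.closure (fun w hw => hinv₀ y hy w hw) y.continuous hv
  have heM : e ∈ M := by
    rw [VonNeumannAlgebra.IsStarProjection.mem_iff isStarProjection_starProjection]
    intro y hy
    rw [Module.End.mem_invtSubmodule]
    intro v hv
    rw [Submodule.mem_comap]
    rw [Submodule.range_starProjection] at hv ⊢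
    exact hinv y hy v hv
  have h1 : (1 : K →L[ℂ] K) - e = 0 := by
    refine hf _ (sub_mem (one_mem M) heM) (fun i => ?_)
    have h2 : ξ i ∈ E := by
      refine Submodule.le_topologicalClosure _ (Submodule.subset_span ⟨1, ?_, i, rfl⟩)
      intro T _
      rw [one_mul, mul_one]
    show ξ i - e (ξ i) = 0
    rw [he, Submodule.starProjection_eq_self_iff.mpr h2, sub_self]
  have h3 : ∀ v : K, v ∈ E := by
    intro v
    have h4 := congrArg (fun T : K →L[ℂ] K => T v) h1
    have h5 : v - e v = 0 := h4
    have h6 : e v = v := (sub_eq_zero.mp h5).symm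
    exact Submodule.starProjection_eq_self_iff.mp h6
  intro v
  have h7 : v ∈ (E : Set K) := h3 v
  rw [hE, Submodule.topologicalClosure_coe] at h7
  exact h7

end Pool.TC
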