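import Pool.Agent.Work.MP_972ac7_C.Interface

/-! # Block FIXK: a fixed vector of the induced representation is a constant section -/

set_option autoImplicit false

open MeasureTheory
open scoped ENNReal

noncomputable section

namespace Pool.TC

open Pool.TFD

theorem p_FIXK (h1 : Stmt_COC) (h2 : Stmt_NULL) : Stmt_FIXK := by
  intro G _ _ _ _ _ _ _ _ Γ _ m _ σ hσ hσm hinv V _ _ _ _ π U hU f hf
  let _ : MeasurableSpace V := borel V
  have _ : BorelSpace V := ⟨rfl⟩
  obtain ⟨hc1, hc2, hc3⟩ := h1 G Γ σ hσ hσm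
  let ν : Measure G := Measure.haar
  have hnull := h2 G Γ m ν hinv hc2
  have hmk : Measurable fun g : G => (g : G ⧸ Γ) := QuotientGroup.measurable_coe
  have hfm : Measurable (f : G ⧸ Γ → V) := (Lp.stronglyMeasurable f).measurable
  -- the element of `Γ`
  have hgam : ∀ h : G, (σ (h : G ⧸ Γ))⁻¹ * h ∈ Γ := by
    intro h
    have := hσ (h : G ⧸ Γ)
    exact QuotientGroup.eq.1 this
  let gam : G → Γ := fun h => ⟨(σ (h : G ⧸ Γ))⁻¹ * h, hgam h⟩
  have hgamm : Measurable gam := by
    apply Measurable.subtype_mk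
    exact ((hσm.comp hmk).inv).mul measurable_id
  let F : G → V := fun h => π (gam h)⁻¹ (f (h : G ⧸ Γ))
  have hFm : Measurable F := by
    have h3 : Measurable fun p : V × Γ => π (p.2)⁻¹ p.1 := by
      apply measurable_from_prod_countable_left
      intro γ
      exact (π γ⁻¹).continuous.measurable
    exact h3.comp ((hfm.comp hmk).prodMk hgamm)
  have hFγ : ∀ (h : G) (γ : Γ), F (h * γ) = π γ⁻¹ (F h) := by
    intro h γ
    have e1 : ((h * (γ : G) : G) : G ⧸ Γ) = (h : G ⧸ Γ) := by
      exact QuotientGroup.mk_mul_of_mem h γ.2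
    have e2 : gam (h * γ) = gam h * γ := by
      apply Subtype.ext
      simp only [gam, e1, Subgroup.coe_mul]
      group
    simp only [F, e1, e2]
    rw [_root_.mul_inv_rev, map_mul]
    rfl
  have hFg : ∀ g : G, ∀ᵐ h ∂ν, F (g * h) = F h := by
    intro g
    have h4 : (f : G ⧸ Γ → V) =ᵐ[m] fun x => π (coc Γ σ hσ g (g⁻¹ • x)) (f (g⁻¹ • x)) := by
      have := hU g f
      rwa [hf g] at this
    have h5 : ∀ᵐ y ∂m, f (g • y) = π (coc Γ σ hσ g y) (f y) := by
      have h6 := (hinv g).quasiMeasurePreserving.ae h4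
      filter_upwards [h6] with y hy
      simpa using hy
    have h7 : MeasurableSet {y : G ⧸ Γ | ¬ f (g • y) = π (coc Γ σ hσ g y) (f y)} := by
      have h8 : Measurable fun p : V × Γ => π p.2 p.1 := by
        apply measurable_from_prod_countable_left
        intro γ
        exact (π γ).continuous.measurable
      have h9 : Measurable fun y : G ⧸ Γ => π (coc Γ σ hσ g y) (f y) :=
        h8.comp (hfm.prodMk (hc3.comp (measurable_const.prodMk measurable_id)))
      have h10 : Measurable fun y : G ⧸ Γ => f (g • y) := hfm.comp (hinv g).measurable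
      exact (measurableSet_eq_fun h10 h9).compl
    have h11 := (hnull _ h7).1 (ae_iff.1 h5)
    rw [ae_iff]
    refine measure_mono_null ?_ h11
    intro h hh
    simp only [Set.mem_preimage, Set.mem_ofPred_eq] at hh ⊢
    intro h12
    apply hh
    have e1 : ((g * h : G) : G ⧸ Γ) = g • (h : G ⧸ Γ) := rfl
    have e2 : gam (g * h) = coc Γ σ hσ g (h : G ⧸ Γ) * gam h := by
      apply Subtype.ext
      simp only [gam, coc, e1, Subgroup.coe_mul]
      group
    simp only [F, e2]
    rw [e1, h12, _root_.mul_inv_rev, map_mul]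
    change π (gam h)⁻¹ (π (coc Γ σ hσ g (h : G ⧸ Γ))⁻¹ (π (coc Γ σ hσ g (h : G ⧸ Γ)) (f h))) = _
    congr 1
    rw [map_inv]
    exact LinearIsometryEquiv.symm_apply_apply _ _
  have hms : MeasurableSet {p : G × G | F (p.1 * p.2) = F p.2} :=
    measurableSet_eq_fun (hFm.comp measurable_mul) (hFm.comp measurable_snd)
  have hsw : ∀ᵐ h ∂ν, ∀ᵐ g ∂ν, F (g * h) = F h :=
    (Measure.ae_ae_comm (p := fun g h => F (g * h) = F h) hms).1 (Filter.Eventually.of_forall hFg)
  obtain ⟨h0, hh0⟩ := hsw.exists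
  have hFc : ∀ᵐ k ∂ν, F k = F h0 := by
    have h13 := (quasiMeasurePreserving_mul_right ν h0⁻¹).ae hh0
    filter_upwards [h13] with k hk
    simpa using hk
  have hfix : ∀ γ : Γ, π γ (F h0) = F h0 := by
    intro γ
    have h14 := (quasiMeasurePreserving_mul_right ν (γ : G)).ae hFc
    obtain ⟨k, hk1, hk2⟩ := (hFc.and h14).exists
    rw [hFγ, hk1] at hk2
    have h15 : π γ (π γ⁻¹ (F h0)) = π γ (F h0) := by rw [hk2]
    rw [← h15, map_inv]
    exact LinearIsometryEquiv.apply_symm_apply _ _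
  refine ⟨F h0, hfix, ?_⟩
  set w := F h0 with hw
  have h16 : ∀ᵐ k : G ∂ν, f ((k : G) : G ⧸ Γ) = w := by
    filter_upwards [hFc] with k hk
    have h17 : π (gam k)⁻¹ (f (k : G ⧸ Γ)) = w := hk
    have h18 : π (gam k) (π (gam k)⁻¹ (f (k : G ⧸ Γ))) = f (k : G ⧸ Γ) := by
      rw [map_inv]
      exact LinearIsometryEquiv.apply_symm_apply _ _
    rw [← h18, h17]
    exact hfix (gam k)
  have h17 : MeasurableSet {y : G ⧸ Γ | ¬ f y = w} :=
    (measurableSet_eq_fun hfm measurable_const).compl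
  have h18 : m {y : G ⧸ Γ | ¬ f y = w} = 0 := (hnull _ h17).2 (ae_iff.1 h16)
  apply Lp.ext
  have h19 : ∀ᵐ y ∂m, f y = w := ae_iff.2 h18
  filter_upwards [h19, cst_ae (m := m) w] with y hy1 hy2
  rw [hy1, hy2]

end Pool.TC
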