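import Pool.Agent.Work.MP_972ac7_C.Interface

/-! Block FTF: the gap for finite traces contains the gap for finite dimensional representations
(typed by helper88). -/

set_option autoImplicit false

open MeasureTheory
open scoped ENNReal

noncomputable section

namespace Pool.TC

open Pool.TFD

/-- All operators. -/
def FTF_top (V : Type) [NormedAddCommGroup V] [InnerProductSpace ℂ V] [CompleteSpace V] :
    VonNeumannAlgebra V :=
  { (⊤ : StarSubalgebra ℂ (V →L[ℂ] V)) with
    centralizer_centralizer' := by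
      ext x
      constructor
      · intro _
        exact Set.mem_univ x
      · intro _ m hm
        exact (hm x (Set.mem_univ x)).symm }

theorem FTF_mem_top {V : Type} [NormedAddCommGroup V] [InnerProductSpace ℂ V] [CompleteSpace V]
    (T : V →L[ℂ] V) : T ∈ FTF_top V := by
  change T ∈ (⊤ : StarSubalgebra ℂ (V →L[ℂ] V))
  exact StarSubalgebra.mem_top

theorem FTF_trace {V : Type} [NormedAddCommGroup V] [InnerProductSpace ℂ V] [FiniteDimensional ℂ V]
    {ι : Type} [Fintype ι] (b : OrthonormalBasis ι ℂ V) (T : V →L[ℂ] V) :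
    ∑ i, (inner ℂ (b i) (T (b i)) : ℂ) = LinearMap.trace ℂ V (T : V →ₗ[ℂ] V) := by
  classical
  rw [LinearMap.trace_eq_sum_inner (T : V →ₗ[ℂ] V) b]
  rfl

theorem p_FTF : Stmt_FTF := by
  intro Λ _ h
  obtain ⟨Q, ε, hε, hQ⟩ := h
  refine ⟨Q, ε, hε, ?_⟩
  intro V _ _ _ π hπ v
  haveI : CompleteSpace V := FiniteDimensional.complete ℂ V
  set b := stdOrthonormalBasis ℂ V with hb
  refine hQ V (FTF_top V) (Fin (Module.finrank ℂ V)) (fun i => b i) π (fun γ => FTF_mem_top _)
    (Summable.of_finite) ?_ ?_ v ?_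
  · intro S _ T _
    rw [tsum_fintype, tsum_fintype]
    have h1 := FTF_trace b (S * T)
    have h2 := FTF_trace b (T * S)
    have h3 : LinearMap.trace ℂ V ((S * T : V →L[ℂ] V) : V →ₗ[ℂ] V) =
        LinearMap.trace ℂ V ((T * S : V →L[ℂ] V) : V →ₗ[ℂ] V) :=
      LinearMap.trace_mul_comm ℂ (S : V →ₗ[ℂ] V) (T : V →ₗ[ℂ] V)
    rw [← h1, ← h2] at h3
    exact h3
  · intro T _ hT
    have h1 : (T : V →ₗ[ℂ] V) = 0 := b.toBasis.ext (fun i => by simpa using hT i)
    ext x
    have := LinearMap.congr_fun h1 x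
    simpa using this
  · intro w hw
    rw [hπ w hw, inner_zero_left]

end Pool.TC
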