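import Pool.Agent.Work.MP_972ac7_C.Interface

/-! # Block ITR: transfer of the gap through an intertwiner -/

set_option autoImplicit false

open MeasureTheory
open scoped ENNReal

noncomputable section

namespace Pool.TC

open Pool.TFD

theorem ITR_inv {H A : Type} [NormedAddCommGroup H] [InnerProductSpace ℂ H]
    [Group A] (W : A →* (H ≃ₗᵢ[ℂ] H)) (a : A) (f : H) : W a (W a⁻¹ f) = f := by
  have h1 : W a * W a⁻¹ = 1 := by rw [← map_mul, mul_inv_cancel, map_one]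
  have h2 := congrArg (fun U : H ≃ₗᵢ[ℂ] H => U f) h1
  exact h2

theorem p_ITR (hPAX : Stmt_PAX) : Stmt_ITR := by
  intro Λ _ K₁ K₂ _ _ _ _ _ _ π₁ π₂ Ψ Q ε hε hΨ hgap u
  obtain ⟨P, hPs, -, hP1, hP2, hP3⟩ := hPAX K₁ Λ π₁
  have hPs' : ContinuousLinearMap.adjoint P = P := by
    rw [← ContinuousLinearMap.star_eq_adjoint]; exact hPs.star_eq
  -- the gap for all vectors
  have hall : ∀ v : K₁, ε ^ 2 * ‖v - P v‖ ^ 2 ≤ ∑ q ∈ Q, ‖π₁ q v - v‖ ^ 2 := by
    intro v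
    obtain ⟨q, hq, hq2⟩ := hgap (v - P v) (by
      intro w hw
      rw [inner_sub_right, ← ContinuousLinearMap.adjoint_inner_left, hPs', hP2 w hw, sub_self])
    have h1 : π₁ q (v - P v) - (v - P v) = π₁ q v - v := by
      rw [map_sub, hP1 q v]
      abel
    rw [h1] at hq2
    calc ε ^ 2 * ‖v - P v‖ ^ 2 = (ε * ‖v - P v‖) ^ 2 := by ring
      _ ≤ ‖π₁ q v - v‖ ^ 2 := by gcongr
      _ ≤ ∑ q ∈ Q, ‖π₁ q v - v‖ ^ 2 :=
        Finset.single_le_sum (f := fun q => ‖π₁ q v - v‖ ^ 2) (fun _ _ => by positivity) hq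
  -- the modulus of the intertwiner
  set A : K₁ →L[ℂ] K₁ := ContinuousLinearMap.adjoint Ψ ∘L Ψ with hA
  have hA0 : 0 ≤ A := by
    rw [ContinuousLinearMap.nonneg_iff_isPositive]
    exact ContinuousLinearMap.isPositive_adjoint_comp_self Ψ
  set C : K₁ →L[ℂ] K₁ := CFC.sqrt A with hC
  have hC0 : 0 ≤ C := CFC.sqrt_nonneg A
  have hCs : ContinuousLinearMap.adjoint C = C := by
    rw [← ContinuousLinearMap.star_eq_adjoint]; exact (IsSelfAdjoint.of_nonneg hC0).star_eq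
  have hCC : C * C = A := CFC.sqrt_mul_sqrt_self A hA0
  have hnorm : ∀ v : K₁, ‖C v‖ = ‖Ψ v‖ := by
    intro v
    have h1 : (inner ℂ (C v) (C v) : ℂ) = inner ℂ (Ψ v) (Ψ v) := by
      have h2 : C (C v) = ContinuousLinearMap.adjoint Ψ (Ψ v) := by
        have := congrArg (fun T : K₁ →L[ℂ] K₁ => T v) hCC
        exact this
      rw [← ContinuousLinearMap.adjoint_inner_right, hCs, h2, ContinuousLinearMap.adjoint_inner_right]
    rw [inner_self_eq_norm_sq_to_K, inner_self_eq_norm_sq_to_K] at h1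
    have h3 : ‖C v‖ ^ 2 = ‖Ψ v‖ ^ 2 := by exact_mod_cast h1
    exact (sq_eq_sq₀ (norm_nonneg _) (norm_nonneg _)).1 h3
  have hint : ∀ (γ : Λ) (v : K₁), Ψ (π₁ γ v) = π₂ γ (Ψ v) := by
    intro γ v
    have := congrArg (fun T : K₁ →L[ℂ] K₂ => T v) (hΨ γ)
    exact this
  have hAc : ∀ γ, Commute A (opU (π₁ γ)) := by
    intro γ
    show A * opU (π₁ γ) = opU (π₁ γ) * A
    ext v
    refine ext_inner_left ℂ fun w => ?_
    show (inner ℂ w (ContinuousLinearMap.adjoint Ψ (Ψ (π₁ γ v))) : ℂ) =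
      inner ℂ w (π₁ γ (ContinuousLinearMap.adjoint Ψ (Ψ v)))
    rw [ContinuousLinearMap.adjoint_inner_right, hint]
    have h1 : (inner ℂ w (π₁ γ (ContinuousLinearMap.adjoint Ψ (Ψ v))) : ℂ) =
        inner ℂ (π₁ γ⁻¹ w) (ContinuousLinearMap.adjoint Ψ (Ψ v)) := by
      have h2 := (π₁ γ).inner_map_map (π₁ γ⁻¹ w) (ContinuousLinearMap.adjoint Ψ (Ψ v))
      rw [ITR_inv] at h2
      exact h2
    rw [h1, ContinuousLinearMap.adjoint_inner_right, hint]
    have h2 := (π₂ γ).inner_map_map (π₂ γ⁻¹ (Ψ w)) (Ψ v)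
    rw [ITR_inv] at h2
    exact h2
  have hCc : ∀ γ, C * opU (π₁ γ) = opU (π₁ γ) * C := by
    intro γ
    exact (hAc γ).cfcₙ_nnreal NNReal.sqrt
  have hCP : C * P = P * C := hP3 C hCc
  have hCPv : C (P u) = P (C u) := by
    have := congrArg (fun T : K₁ →L[ℂ] K₁ => T u) hCP
    exact this
  refine ⟨Ψ (P u), fun γ => ?_, ?_⟩
  · rw [← hint, hP1]
  · have h1 : ‖Ψ u - Ψ (P u)‖ = ‖C u - P (C u)‖ := by
      rw [← map_sub, ← hnorm, map_sub, hCPv]
    rw [h1]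
    refine (hall (C u)).trans (le_of_eq ?_)
    refine Finset.sum_congr rfl fun q _ => ?_
    have h2 : π₁ q (C u) = C (π₁ q u) := by
      have := congrArg (fun T : K₁ →L[ℂ] K₁ => T u) (hCc q)
      exact this.symm
    rw [h2, ← map_sub, hnorm, map_sub, hint]

end Pool.TC
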