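import Pool.Agent.Work.MP_972ac7_C.Interface

/-! # Block LAT: Lemma A (helper83) -/

set_option autoImplicit false

open MeasureTheory
open scoped ENNReal

noncomputable section

namespace Pool.TC

open Pool.TFD

/-- The variance of a Hilbert space valued function. -/
theorem LAT_var {H X : Type} [NormedAddCommGroup H] [InnerProductSpace ℂ H] [CompleteSpace H]
    [MeasurableSpace X] (m : Measure X) [IsProbabilityMeasure m] (f : X → H) (hf : MemLp f 2 m) :
    Integrable (fun x => ‖f x - ∫ y, f y ∂m‖ ^ 2) m ∧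
      ∫ x, ‖f x - ∫ y, f y ∂m‖ ^ 2 ∂m = ∫ x, ‖f x‖ ^ 2 ∂m - ‖∫ y, f y ∂m‖ ^ 2 := by
  set c : H := ∫ y, f y ∂m with hc
  have h1 : Integrable (fun x => ‖f x‖ ^ 2) m := (memLp_two_iff_integrable_sq_norm hf.1).1 hf
  have h2 : Integrable f m := hf.integrable one_le_two
  have h3 : Integrable (fun x => (inner ℂ c (f x) : ℂ)) m := h2.const_inner c
  have h3' : Integrable (fun x => (inner ℂ c (f x) : ℂ).re) m := h3.re
  have e : (fun x => ‖f x - c‖ ^ 2) =
      fun x => ‖f x‖ ^ 2 - 2 * (inner ℂ c (f x) : ℂ).re + ‖c‖ ^ 2 := by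
    funext x
    rw [norm_sub_sq (𝕜 := ℂ) (f x) c]
    have h5 : RCLike.re (inner ℂ (f x) c : ℂ) = (inner ℂ c (f x) : ℂ).re := by
      rw [← inner_conj_symm, RCLike.conj_re]
      rfl
    rw [h5]
  have h4 : Integrable (fun x => ‖f x‖ ^ 2 - 2 * (inner ℂ c (f x) : ℂ).re) m :=
    h1.sub (h3'.const_mul 2)
  constructor
  · rw [e]
    exact h4.add (integrable_const _)
  · rw [e, integral_add h4 (integrable_const _), integral_sub h1 (h3'.const_mul 2),
      integral_const_mul, integral_const]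
    have e1 : ∫ x, (inner ℂ c (f x) : ℂ).re ∂m = ‖c‖ ^ 2 := by
      have h5 := integral_re (𝕜 := ℂ) h3
      have h6 : ∫ x, (inner ℂ c (f x) : ℂ).re ∂m = (∫ x, (inner ℂ c (f x) : ℂ) ∂m).re := by
        simpa using h5
      rw [h6, integral_inner h2 c, ← hc, inner_self_eq_norm_sq_to_K]
      norm_cast
    rw [e1]
    simp
    ring

theorem LAT_jen {X : Type} [MeasurableSpace X] (m : Measure X) [IsProbabilityMeasure m]
    (g : X → ℝ) (hg : MemLp g 2 m) : (∫ x, g x ∂m) ^ 2 ≤ ∫ x, g x ^ 2 ∂m := by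
  have h := LAT_var m (fun x => (g x : ℂ)) hg.ofReal
  have h1 : 0 ≤ ∫ x, ‖(g x : ℂ) - ∫ y, (g y : ℂ) ∂m‖ ^ 2 ∂m :=
    integral_nonneg fun x => by positivity
  rw [h.2, integral_complex_ofReal] at h1
  simp only [Complex.norm_real, Real.norm_eq_abs, sq_abs] at h1
  linarith

/-- Superadditivity of the upper integral. -/
theorem LAT_sup {X : Type} [MeasurableSpace X] (m : Measure X) {J : Type} (s : Finset J)
    (f : J → X → ℝ≥0∞) : ∑ j ∈ s, ∫⁻ x, f j x ∂m ≤ ∫⁻ x, ∑ j ∈ s, f j x ∂m := by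
  classical
  induction s using Finset.induction_on with
  | empty => simp
  | insert a s ha ih =>
    rw [Finset.sum_insert ha]
    simp only [Finset.sum_insert ha]
    exact (add_le_add le_rfl ih).trans (le_lintegral_add _ _)

theorem LAT_enorm {H : Type} [NormedAddCommGroup H] (v : H) :
    ‖v‖ₑ ^ 2 = ENNReal.ofReal (‖v‖ ^ 2) := by
  rw [ENNReal.ofReal_pow (norm_nonneg v), ofReal_norm_eq_enorm]

section

variable {H : Type} [NormedAddCommGroup H] [InnerProductSpace ℂ H] [CompleteSpace H]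

theorem LAT_sq (F : H →L[ℂ] H) : CFC.sqrt (star F * F) * CFC.sqrt (star F * F) = star F * F :=
  CFC.sqrt_mul_sqrt_self _ (star_mul_self_nonneg F)

theorem LAT_norm (F : H →L[ℂ] H) (v : H) : ‖CFC.sqrt (star F * F) v‖ = ‖F v‖ := by
  set P := CFC.sqrt (star F * F) with hP
  have hs : star P = P := (IsSelfAdjoint.of_nonneg (CFC.sqrt_nonneg _)).star_eq
  have h1 : (inner ℂ (P v) (P v) : ℂ) = inner ℂ (F v) (F v) := by
    have h2 : (inner ℂ (P v) (P v) : ℂ) = inner ℂ v ((star P * P) v) := by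
      rw [ContinuousLinearMap.mul_apply, ContinuousLinearMap.star_eq_adjoint,
        ContinuousLinearMap.adjoint_inner_right]
    have h3 : (inner ℂ (F v) (F v) : ℂ) = inner ℂ v ((star F * F) v) := by
      rw [ContinuousLinearMap.mul_apply, ContinuousLinearMap.star_eq_adjoint,
        ContinuousLinearMap.adjoint_inner_right]
    rw [h2, h3, hs, LAT_sq F]
  have h4 : ‖P v‖ ^ 2 = ‖F v‖ ^ 2 := by
    rw [inner_self_eq_norm_sq_to_K, inner_self_eq_norm_sq_to_K] at h1
    exact_mod_cast h1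
  exact (pow_left_inj₀ (norm_nonneg _) (norm_nonneg _) two_ne_zero).1 h4

end

theorem p_LAT (hAY : Stmt_AY) (hPR : Stmt_PR) (hSQC : Stmt_SQC) (hSQM : Stmt_SQM)
    (hVG : Stmt_VG) : Stmt_LAT := by
  intro H _ _ _ J _ D p X Ω _ _ m μ _ T κ E F Fs hκ hE hgap hp hpa hpp hF hFm hFp hFp0 hFsm hFsp
    hFsp0 hFs hFv hint
  set P : X → H →L[ℂ] H := fun x => CFC.sqrt (star (F x) * F x) with hPdef
  have hP0 : ∀ x, 0 ≤ P x := fun x => CFC.sqrt_nonneg _
  have hPP : ∀ x, P x * P x = star (F x) * F x := fun x => LAT_sq (F x)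
  have hPm : ∀ x, D.Mem (P x) := fun x =>
    hSQC H J D _ (star_mul_self_nonneg (F x)) ((hFm x).star.mul (hFm x))
  have hPn : ∀ x v, ‖P x v‖ = ‖F x v‖ := fun x v => LAT_norm (F x) v
  have hPhs : ∀ x, D.hs (P x) = D.hs (F x) := by
    intro x
    unfold TD.hs
    simp only [hPn]
  have hPL : MemLp P 2 m := hSQM H X m F hF
  have hPi : Integrable P m := hPL.integrable one_le_two
  have hev : ∀ v : H, MemLp (fun x => P x v) 2 m := by
    intro v
    have := (ContinuousLinearMap.apply ℂ H v).comp_memLp' hPL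
    exact this
  have hevF : ∀ v : H, MemLp (fun x => F x v) 2 m := by
    intro v
    have := (ContinuousLinearMap.apply ℂ H v).comp_memLp' hF
    exact this
  set C : H →L[ℂ] H := ∫ x, P x ∂m with hC
  have hCv : ∀ v, C v = ∫ x, P x v ∂m := fun v => ContinuousLinearMap.integral_apply hPi v
  -- `C` is in the commutant
  have hCm : D.Mem C := by
    intro r hr
    ext v
    rw [ContinuousLinearMap.mul_apply, ContinuousLinearMap.mul_apply, hCv, hCv,
      ← ContinuousLinearMap.integral_comp_comm r ((hev v).integrable one_le_two)]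
    refine integral_congr_ae (Filter.Eventually.of_forall fun x => ?_)
    have := congrArg (fun A : H →L[ℂ] H => A v) (hPm x r hr)
    exact this
  -- the norm of `C`
  have hsqP : ∀ v : H, Integrable (fun x => ‖P x v‖ ^ 2) m := fun v =>
    (memLp_two_iff_integrable_sq_norm (hev v).1).1 (hev v)
  have hCn : ‖C‖ ≤ 1 := by
    refine C.opNorm_le_bound zero_le_one fun v => ?_
    rw [one_mul, hCv]
    have h1 : ‖∫ x, P x v ∂m‖ ≤ ∫ x, ‖P x v‖ ∂m := norm_integral_le_integral_norm _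
    have h2 : (∫ x, ‖P x v‖ ∂m) ^ 2 ≤ ∫ x, ‖P x v‖ ^ 2 ∂m := LAT_jen m _ (hev v).norm
    have h3 : ∫ x, ‖P x v‖ ^ 2 ∂m ≤ ‖v‖ ^ 2 := by
      simp only [hPn]
      exact hFv v
    have h4 : 0 ≤ ∫ x, ‖P x v‖ ∂m := integral_nonneg fun x => norm_nonneg _
    refine h1.trans ?_
    exact (pow_le_pow_iff_left₀ h4 (norm_nonneg v) two_ne_zero).1 (h2.trans h3)
  -- the integral of the Hilbert-Schmidt norm
  have hhsi : Integrable (fun x => D.hs (F x)) m := by
    unfold TD.hs
    exact integrable_finsetSum _ fun j _ => (memLp_two_iff_integrable_sq_norm (hevF _).1).1 (hevF _)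
  set l : ℝ := ∫ x, D.hs (F x) ∂m with hl
  have hl1 : l = ∑ j, ∫ x, ‖P x (D.ξ j)‖ ^ 2 ∂m := by
    rw [hl]
    simp only [← hPhs]
    unfold TD.hs
    exact integral_finsetSum _ fun j _ => hsqP _
  -- the deviation
  set V : ℝ := ∑ j, ∫ x, ‖P x (D.ξ j) - ∫ y, P y (D.ξ j) ∂m‖ ^ 2 ∂m with hV
  have hVC : D.hs C = l - V := by
    rw [hl1, hV, ← Finset.sum_sub_distrib]
    unfold TD.hs
    refine Finset.sum_congr rfl fun j _ => ?_
    rw [(LAT_var m (fun x => P x (D.ξ j)) (hev _)).2, hCv]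
    ring
  have hVE : κ * V ≤ 2 * E := by
    have h1 : ∀ j, ENNReal.ofReal κ * ENNReal.ofReal
        (∫ x, ‖P x (D.ξ j) - ∫ y, P y (D.ξ j) ∂m‖ ^ 2 ∂m) ≤
        ∫⁻ s, ∫⁻ x, ‖P (T s x) (D.ξ j) - P x (D.ξ j)‖ₑ ^ 2 ∂m ∂μ := by
      intro j
      have h2 := hVG H X Ω m μ T κ (fun x => P x (D.ξ j)) hgap (hev _)
      rw [ofReal_integral_eq_lintegral_ofReal (LAT_var m (fun x => P x (D.ξ j)) (hev _)).1
        (Filter.Eventually.of_forall fun x => by positivity)]
      simp only [LAT_enorm] at h2 ⊢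
      exact h2
    have h2 : ENNReal.ofReal (κ * V) ≤ ENNReal.ofReal (2 * E) := by
      calc ENNReal.ofReal (κ * V)
          = ∑ j, ENNReal.ofReal κ * ENNReal.ofReal
              (∫ x, ‖P x (D.ξ j) - ∫ y, P y (D.ξ j) ∂m‖ ^ 2 ∂m) := by
            rw [ENNReal.ofReal_mul hκ.le, hV, ENNReal.ofReal_sum_of_nonneg, Finset.mul_sum]
            intro j _
            exact integral_nonneg fun x => by positivity
        _ ≤ ∑ j, ∫⁻ s, ∫⁻ x, ‖P (T s x) (D.ξ j) - P x (D.ξ j)‖ₑ ^ 2 ∂m ∂μ :=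
            Finset.sum_le_sum fun j _ => h1 j
        _ ≤ ∫⁻ s, ∑ j, ∫⁻ x, ‖P (T s x) (D.ξ j) - P x (D.ξ j)‖ₑ ^ 2 ∂m ∂μ := LAT_sup μ _ _
        _ ≤ ∫⁻ s, ∫⁻ x, ENNReal.ofReal 2 * ENNReal.ofReal (D.hs (Fs s x - F x)) ∂m ∂μ := by
            refine lintegral_mono fun s => ?_
            refine (LAT_sup m _ _).trans ?_
            refine lintegral_mono_ae ?_
            filter_upwards [hFs s] with x hx
            rw [← ENNReal.ofReal_mul zero_le_two]
            have h3 := hAY H J D p (Fs s x) (F x) (P (T s x)) (P x) hp (hFsm s x) (hFm x)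
              (hPm _) (hPm _) hpa hpp (hFsp s x) (hFsp0 s x) (hFp x) (hFp0 x) (hP0 _) (hP0 _)
              (by rw [hPP, hx]) (hPP x)
            refine le_trans (le_of_eq ?_) (ENNReal.ofReal_le_ofReal h3)
            unfold TD.hs
            rw [ENNReal.ofReal_sum_of_nonneg fun j _ => by positivity]
            refine Finset.sum_congr rfl fun j _ => ?_
            rw [LAT_enorm, ContinuousLinearMap.sub_apply]
        _ = ENNReal.ofReal 2 * ∫⁻ s, ∫⁻ x, ENNReal.ofReal (D.hs (Fs s x - F x)) ∂m ∂μ := by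
            rw [← lintegral_const_mul' _ _ ENNReal.ofReal_ne_top]
            congr 1
            funext s
            rw [lintegral_const_mul' _ _ ENNReal.ofReal_ne_top]
        _ ≤ ENNReal.ofReal 2 * ENNReal.ofReal E := by gcongr
        _ = ENNReal.ofReal (2 * E) := by rw [ENNReal.ofReal_mul zero_le_two]
    exact (ENNReal.ofReal_le_ofReal_iff (by positivity)).1 h2
  -- the upper bound
  have hhs0 : ∀ x, 0 ≤ D.hs (F x) := fun x => D.hs_nonneg _
  have hsqm : MemLp (fun x => Real.sqrt (D.hs (F x))) 2 m := by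
    refine (memLp_two_iff_integrable_sq_norm ?_).2 ?_
    · exact (Real.continuous_sqrt.comp_aestronglyMeasurable hhsi.1)
    · simp only [Real.norm_eq_abs, sq_abs]
      have : (fun x => Real.sqrt (D.hs (F x)) ^ 2) = fun x => D.hs (F x) := by
        funext x
        exact Real.sq_sqrt (hhs0 x)
      rw [this]
      exact hhsi
  have hJ : ∫ x, Real.sqrt (D.hs (F x)) ∂m ≤ Real.sqrt l := by
    refine Real.le_sqrt_of_sq_le ?_
    refine (LAT_jen m _ hsqm).trans (le_of_eq ?_)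
    rw [hl]
    congr 1
    funext x
    exact Real.sq_sqrt (hhs0 x)
  have hin : ∀ j, Integrable (fun x => (inner ℂ (P x (D.ξ j)) (C (D.ξ j)) : ℂ)) m := fun j =>
    ((hev (D.ξ j)).integrable one_le_two).inner_const _
  have hCup : D.hs C ≤ Real.sqrt (D.hs p) * Real.sqrt l := by
    have h1 : D.hs C = ∫ x, (∑ j, (inner ℂ (P x (D.ξ j)) (C (D.ξ j)) : ℂ)).re ∂m := by
      have h2 : ((D.hs C : ℝ) : ℂ) = ∫ x, ∑ j, (inner ℂ (P x (D.ξ j)) (C (D.ξ j)) : ℂ) ∂m := by
        rw [integral_finsetSum _ fun j _ => hin j]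
        unfold TD.hs
        push_cast
        refine Finset.sum_congr rfl fun j _ => ?_
        have h3 : ∫ x, (inner ℂ (P x (D.ξ j)) (C (D.ξ j)) : ℂ) ∂m =
            inner ℂ (∫ x, P x (D.ξ j) ∂m) (C (D.ξ j)) := by
          have h4 := integral_inner ((hev (D.ξ j)).integrable one_le_two) (C (D.ξ j)) (𝕜 := ℂ)
          have h5 := congrArg (starRingEnd ℂ) h4
          rw [inner_conj_symm, ← integral_conj] at h5
          rw [← h5]
          congr 1
          funext x
          rw [inner_conj_symm]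
        rw [h3, ← hCv, inner_self_eq_norm_sq_to_K]
        rfl
      have h6 : Integrable (fun x => ∑ j, (inner ℂ (P x (D.ξ j)) (C (D.ξ j)) : ℂ)) m :=
        integrable_finsetSum _ fun j _ => hin j
      have h7 := integral_re (𝕜 := ℂ) h6
      have h8 : ∫ x, (∑ j, (inner ℂ (P x (D.ξ j)) (C (D.ξ j)) : ℂ)).re ∂m =
          (∫ x, ∑ j, (inner ℂ (P x (D.ξ j)) (C (D.ξ j)) : ℂ) ∂m).re := by
        simpa using h7
      rw [h8, ← h2, Complex.ofReal_re]
    rw [h1]
    calc ∫ x, (∑ j, (inner ℂ (P x (D.ξ j)) (C (D.ξ j)) : ℂ)).re ∂m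
        ≤ ∫ x, Real.sqrt (D.hs p) * Real.sqrt (D.hs (F x)) ∂m := by
          refine integral_mono (integrable_finsetSum _ fun j _ => hin j).re ?_ fun x => ?_
          · exact (hsqm.integrable one_le_two).const_mul _
          · have h3 := hPR H J D p (F x) (P x) C 1 hp (hFm x) (hPm x) hCm hpa hpp (hFp x)
              (hFp0 x) (hP0 x) (hPP x) hCn
            rw [one_mul] at h3
            exact (le_abs_self _).trans h3
      _ = Real.sqrt (D.hs p) * ∫ x, Real.sqrt (D.hs (F x)) ∂m := integral_const_mul _ _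
      _ ≤ Real.sqrt (D.hs p) * Real.sqrt l := mul_le_mul_of_nonneg_left hJ (Real.sqrt_nonneg _)
  have hVE' : V ≤ 2 * E / κ := by
    rw [le_div_iff₀ hκ]
    linarith
  linarith

end Pool.TC
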