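import Pool.Agent.Work.MP_972ac7_C.Interface

/-! # Block OVF: groups with a normal finite index subgroup with the gap -/

set_option autoImplicit false

open MeasureTheory

noncomputable section

namespace Pool.TC

open Pool.TFD

theorem p_OVF (h1 : Stmt_PAX) : Stmt_OVF := by
  intro Δ _ N _ hN ⟨Q, ε, hε, hQ⟩
  classical
  have : Fintype (Δ ⧸ N) := Subgroup.fintypeQuotientOfFiniteIndex
  set T : Finset Δ := (Finset.univ : Finset (Δ ⧸ N)).image fun x => x.out with hT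
  refine ⟨Q.image (fun q : N => (q : Δ)) ∪ T, min ε 1 / 2, by positivity, ?_⟩
  intro K _ _ _ M ι ξ π hM hsum htr hfa v hv
  obtain ⟨P, hP1, -, hP3, hP4, -⟩ := h1 K N (π.comp N.subtype)
  have hPs : ∀ x y : K, (inner ℂ (P x) y : ℂ) = inner ℂ x (P y) := by
    intro x y
    have := ContinuousLinearMap.adjoint_inner_left P y x
    rw [← ContinuousLinearMap.star_eq_adjoint, hP1.star_eq] at this
    exact this
  have hinv : ∀ g (w : K), π g (π g⁻¹ w) = w := by
    intro g w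
    have : π (g * g⁻¹) w = w := by rw [mul_inv_cancel, map_one]; rfl
    rw [map_mul] at this
    exact this
  set v₁ : K := P v with hv1
  set v₂ : K := v - P v with hv2
  have hvs : v = v₁ + v₂ := by rw [hv1, hv2]; abel
  have hfix : ∀ n : Δ, n ∈ N → π n v₁ = v₁ := fun n hn => hP3 ⟨n, hn⟩ v
  -- `v₂` is orthogonal to the fixed vectors
  have hort : ∀ w : K, (∀ n : Δ, n ∈ N → π n w = w) → (inner ℂ w v₂ : ℂ) = 0 := by
    intro w hw
    have e1 : P w = w := hP4 w fun a => hw a a.2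
    rw [hv2, inner_sub_right, ← hPs, e1, sub_self]
  -- the fixed vectors are preserved by `Δ`
  have hW1 : ∀ g w, (∀ n : Δ, n ∈ N → π n w = w) → ∀ n : Δ, n ∈ N → π n (π g w) = π g w := by
    intro g w hw n hn
    have h1 : π (g⁻¹ * n * g) w = w := hw _ (by
      have := (inferInstance : N.Normal).conj_mem n hn g⁻¹
      rwa [inv_inv] at this)
    calc π n (π g w) = π (g * (g⁻¹ * n * g)) w := by
          rw [show g * (g⁻¹ * n * g) = n * g by group, map_mul]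
          rfl
      _ = π g (π (g⁻¹ * n * g) w) := by
          rw [map_mul]
          rfl
      _ = π g w := by rw [h1]
  have hort2 : ∀ g w, (∀ n : Δ, n ∈ N → π n w = w) → (inner ℂ w (π g v₂) : ℂ) = 0 := by
    intro g w hw
    have e1 := hort (π g⁻¹ w) (hW1 g⁻¹ w hw)
    rw [← (π g).inner_map_map, hinv g w] at e1
    exact e1
  have hpy : ∀ a b : K, (inner ℂ a b : ℂ) = 0 → ‖a + b‖ ^ 2 = ‖a‖ ^ 2 + ‖b‖ ^ 2 := by
    intro a b hab
    have := norm_add_sq_eq_norm_sq_add_norm_sq_of_inner_eq_zero a b hab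
    nlinarith [this]
  have hfixsub : ∀ g, ∀ n : Δ, n ∈ N → π n (π g v₁ - v₁) = π g v₁ - v₁ := by
    intro g n hn
    rw [map_sub, hW1 g v₁ hfix n hn, hfix n hn]
  have hg : ∀ g, ‖π g v - v‖ ^ 2 = ‖π g v₁ - v₁‖ ^ 2 + ‖π g v₂ - v₂‖ ^ 2 := by
    intro g
    have e1 : π g v - v = (π g v₁ - v₁) + (π g v₂ - v₂) := by
      rw [hvs, map_add]
      abel
    rw [e1]
    refine hpy _ _ ?_
    rw [inner_sub_right, hort2 g _ (hfixsub g), hort _ (hfixsub g), sub_zero]
  have hvv : ‖v‖ ^ 2 = ‖v₁‖ ^ 2 + ‖v₂‖ ^ 2 := by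
    conv_lhs => rw [hvs]
    exact hpy _ _ (hort _ hfix)
  have hm1 : min ε 1 ≤ ε := min_le_left _ _
  have hm2 : min ε 1 ≤ 1 := min_le_right _ _
  have hm3 : 0 < min ε 1 := lt_min hε one_pos
  suffices h : ∃ q ∈ Q.image (fun q : N => (q : Δ)) ∪ T, (min ε 1) ^ 2 / 2 * ‖v‖ ^ 2 ≤
      ‖π q v - v‖ ^ 2 by
    obtain ⟨q, hq, h1⟩ := h
    refine ⟨q, hq, ?_⟩
    refine (pow_le_pow_iff_left₀ (by positivity) (norm_nonneg _) two_ne_zero).1 (le_trans ?_ h1)
    have : 0 ≤ (min ε 1) ^ 2 * ‖v‖ ^ 2 := by positivity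
    nlinarith [this]
  rcases le_total (‖v₂‖ ^ 2) (‖v₁‖ ^ 2) with hle | hle
  · -- the part fixed by `N`
    have hinvS : ∀ g, π g (∑ x : Δ ⧸ N, π x.out v₁) = ∑ x : Δ ⧸ N, π x.out v₁ := by
      intro g
      rw [map_sum]
      have h2 : ∀ x : Δ ⧸ N, π g (π x.out v₁) = π (g • x).out v₁ := by
        intro x
        have h3 : ((g • x).out : Δ)⁻¹ * (g * x.out) ∈ N := by
          have h4 : (((g • x).out : Δ) : Δ ⧸ N) = ((g * x.out : Δ) : Δ ⧸ N) := by
            rw [QuotientGroup.out_eq']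
            conv_lhs => rw [← QuotientGroup.out_eq' x]
            rfl
          exact QuotientGroup.eq.1 h4
        have h5 := hfix _ h3
        calc π g (π x.out v₁) = π ((g • x).out * (((g • x).out : Δ)⁻¹ * (g * x.out))) v₁ := by
              rw [mul_inv_cancel_left, map_mul]
              rfl
          _ = π (g • x).out (π (((g • x).out : Δ)⁻¹ * (g * x.out)) v₁) := by
              rw [map_mul]
              rfl
          _ = _ := by rw [h5]
      simp_rw [h2]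
      exact Fintype.sum_equiv (MulAction.toPerm g) _ _ fun x => rfl
    have hzero : ∀ w : K, (∀ g, π g w = w) → ∀ g, (inner ℂ w (π g v₁) : ℂ) = 0 := by
      intro w hw g
      have e1 : (inner ℂ w (π g v₁) : ℂ) = inner ℂ w v₁ := by
        conv_lhs => rw [← hw g]
        exact (π g).inner_map_map w v₁
      have e2 : (inner ℂ w v₁ : ℂ) = inner ℂ w v - inner ℂ w v₂ := by
        rw [← inner_sub_right, hvs]
        congr 1
        abel
      rw [e1, e2, hv w hw, hort w (fun n _ => hw n), sub_zero]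
    have h1 : ∑ x : Δ ⧸ N, π x.out v₁ = 0 := by
      have e1 : (inner ℂ (∑ x : Δ ⧸ N, π x.out v₁) (∑ x : Δ ⧸ N, π x.out v₁) : ℂ) = 0 := by
        conv_lhs => rw [inner_sum]
        exact Finset.sum_eq_zero fun x _ => hzero _ hinvS _
      exact inner_self_eq_zero.1 e1
    have h2 : (∑ _x : Δ ⧸ N, 2 * ‖v₁‖ ^ 2) ≤ ∑ x : Δ ⧸ N, ‖π x.out v₁ - v₁‖ ^ 2 := by
      have h3 : ∀ x : Δ ⧸ N, ‖π x.out v₁ - v₁‖ ^ 2 =
          2 * ‖v₁‖ ^ 2 - 2 * (inner ℂ v₁ (π x.out v₁) : ℂ).re := by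
        intro x
        rw [@norm_sub_sq ℂ, (π x.out).norm_map, ← inner_conj_symm, ]
        simp only [Complex.conj_re, RCLike.re_to_complex]
        ring
      simp_rw [h3]
      rw [Finset.sum_sub_distrib, ← Finset.mul_sum (s := Finset.univ)
        (f := fun x : Δ ⧸ N => (inner ℂ v₁ (π x.out v₁) : ℂ).re), ← Complex.re_sum,
        ← inner_sum, h1, inner_zero_right]
      simp
    obtain ⟨x, -, hx⟩ := Finset.exists_le_of_sum_le (Finset.univ_nonempty (α := Δ ⧸ N)) h2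
    refine ⟨x.out, Finset.mem_union_right _ (Finset.mem_image.2 ⟨x, Finset.mem_univ _, rfl⟩), ?_⟩
    rw [hg, hvv]
    have h3 : 0 ≤ ‖π x.out v₂ - v₂‖ ^ 2 := by positivity
    have h4 : (min ε 1) ^ 2 ≤ 1 := by nlinarith
    have h5 : 0 ≤ ‖v₁‖ ^ 2 := by positivity
    nlinarith [mul_nonneg (sub_nonneg.2 h4) (add_nonneg h5 (sq_nonneg ‖v₂‖))]
  · -- the part without vectors fixed by `N`
    obtain ⟨q, hq, h6⟩ := hQ K M ι ξ (π.comp N.subtype) (fun n => hM n) hsum htr hfa v₂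
      (fun w hw => hort w fun n hn => hw ⟨n, hn⟩)
    have h7 : ε * ‖v₂‖ ≤ ‖π (q : Δ) v₂ - v₂‖ := h6
    refine ⟨(q : Δ), Finset.mem_union_left _ (Finset.mem_image.2 ⟨q, hq, rfl⟩), ?_⟩
    rw [hg, hvv]
    have h8 : (min ε 1 * ‖v₂‖) ^ 2 ≤ ‖π (q : Δ) v₂ - v₂‖ ^ 2 := by
      refine pow_le_pow_left₀ (by positivity) (le_trans ?_ h7) 2
      exact mul_le_mul_of_nonneg_right hm1 (norm_nonneg _)
    have h9 : 0 ≤ ‖π (q : Δ) v₁ - v₁‖ ^ 2 := by positivity
    have h10 : (min ε 1) ^ 2 * ‖v₁‖ ^ 2 ≤ (min ε 1) ^ 2 * ‖v₂‖ ^ 2 :=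
      mul_le_mul_of_nonneg_left hle (by positivity)
    rw [mul_pow] at h8
    nlinarith

end Pool.TC
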