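import Pool.Agent.Work.MP_972ac7_C.Interface

set_option autoImplicit false

open MeasureTheory
open scoped ENNReal InnerProductSpace

noncomputable section

namespace Pool.TC

open Pool.TFD

section PAR

variable {X : Type} [MeasurableSpace X] {m : Measure X}
  {K : Type} [NormedAddCommGroup K] [InnerProductSpace ℂ K]

/-- inner product of elementary tensors -/
theorem PAR_inner (φ ψ : Lp ℂ 2 m) (v w : K) :
    (inner ℂ (tn φ v) (tn ψ w) : ℂ) = inner ℂ φ ψ * inner ℂ v w := by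
  rw [L2.inner_def, L2.inner_def, ← integral_mul_const]
  refine integral_congr_ae ?_
  filter_upwards [tn_ae φ v, tn_ae ψ w] with x h1 h2
  rw [h1, h2, inner_smul_left, inner_smul_right, RCLike.inner_apply]
  ring

theorem PAR_add (φ ψ : Lp ℂ 2 m) (v : K) : tn (φ + ψ) v = tn φ v + tn ψ v := by
  apply Lp.ext
  filter_upwards [tn_ae (φ + ψ) v, tn_ae φ v, tn_ae ψ v, Lp.coeFn_add φ ψ,
    Lp.coeFn_add (tn φ v) (tn ψ v)] with x h1 h2 h3 h4 h5
  rw [h1, h5, Pi.add_apply, h2, h3, h4, Pi.add_apply, add_smul]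

theorem PAR_smul (c : ℂ) (φ : Lp ℂ 2 m) (v : K) : tn (c • φ) v = c • tn φ v := by
  apply Lp.ext
  filter_upwards [tn_ae (c • φ) v, tn_ae φ v, Lp.coeFn_smul c φ,
    Lp.coeFn_smul c (tn φ v)] with x h1 h2 h3 h4
  rw [h1, h4, Pi.smul_apply, h2, h3, Pi.smul_apply, smul_assoc]

/-- `φ ↦ φ ⊗ v` -/
def PAR_l (v : K) : Lp ℂ 2 m →ₗ[ℂ] Lp K 2 m where
  toFun φ := tn φ v
  map_add' φ ψ := PAR_add φ ψ v
  map_smul' c φ := PAR_smul c φ v

theorem PAR_norm (φ : Lp ℂ 2 m) (v : K) : ‖tn φ v‖ = ‖φ‖ * ‖v‖ := by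
  have h1 : (inner ℂ (tn φ v) (tn φ v) : ℂ) = inner ℂ φ φ * inner ℂ v v := PAR_inner φ φ v v
  rw [inner_self_eq_norm_sq_to_K, inner_self_eq_norm_sq_to_K, inner_self_eq_norm_sq_to_K] at h1
  have h2 : ‖tn φ v‖ ^ 2 = (‖φ‖ * ‖v‖) ^ 2 := by
    rw [mul_pow]
    exact_mod_cast h1
  exact (sq_eq_sq₀ (norm_nonneg _) (by positivity)).1 h2

def PAR_c (v : K) : Lp ℂ 2 m →L[ℂ] Lp K 2 m :=
  LinearMap.mkContinuous (PAR_l v) ‖v‖ fun φ => by
    show ‖tn φ v‖ ≤ _
    rw [PAR_norm, mul_comm]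

theorem PAR_c_apply (φ : Lp ℂ 2 m) (v : K) : PAR_c v φ = tn φ v := rfl

variable [CompleteSpace K]

theorem PAR_adj (φ ψ : Lp ℂ 2 m) (w : K) :
    (ContinuousLinearMap.adjoint (tn (K := K) φ)) (tn ψ w) = (inner ℂ φ ψ : ℂ) • w := by
  refine ext_inner_left ℂ fun v => ?_
  rw [ContinuousLinearMap.adjoint_inner_right, PAR_inner, inner_smul_right]

/-- the partial sums -/
def PAR_A {ι : Type} (b : ι → Lp ℂ 2 m) (s : Finset ι) : Lp K 2 m →L[ℂ] Lp K 2 m :=
  ∑ i ∈ s, (tn (K := K) (b i)) ∘L (ContinuousLinearMap.adjoint (tn (K := K) (b i)))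

theorem PAR_A_apply {ι : Type} (b : ι → Lp ℂ 2 m) (s : Finset ι) (g : Lp K 2 m) :
    PAR_A b s g = ∑ i ∈ s, tn (b i) ((ContinuousLinearMap.adjoint (tn (K := K) (b i))) g) := by
  simp [PAR_A]

theorem PAR_A_inner {ι : Type} (b : ι → Lp ℂ 2 m) (s : Finset ι) (g : Lp K 2 m) :
    (inner ℂ (PAR_A b s g) g : ℂ) =
      ((∑ i ∈ s, ‖(ContinuousLinearMap.adjoint (tn (K := K) (b i))) g‖ ^ 2 : ℝ) : ℂ) := by
  rw [PAR_A_apply, sum_inner, Complex.ofReal_sum]
  refine Finset.sum_congr rfl fun i _ => ?_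
  rw [← ContinuousLinearMap.adjoint_inner_right, inner_self_eq_norm_sq_to_K]
  push_cast
  rfl

theorem PAR_A_norm {ι : Type} (b : ι → Lp ℂ 2 m) (hb : Orthonormal ℂ b) (s : Finset ι)
    (g : Lp K 2 m) : ‖PAR_A b s g‖ ^ 2 =
      ∑ i ∈ s, ‖(ContinuousLinearMap.adjoint (tn (K := K) (b i))) g‖ ^ 2 := by
  classical
  have h1 : (inner ℂ (PAR_A b s g) (PAR_A b s g) : ℂ) =
      ((∑ i ∈ s, ‖(ContinuousLinearMap.adjoint (tn (K := K) (b i))) g‖ ^ 2 : ℝ) : ℂ) := by
    conv_lhs => rw [PAR_A_apply]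
    rw [sum_inner, Complex.ofReal_sum]
    refine Finset.sum_congr rfl fun i hi => ?_
    rw [inner_sum, Finset.sum_eq_single i]
    · rw [PAR_inner, inner_self_eq_norm_sq_to_K, inner_self_eq_norm_sq_to_K, hb.1 i]
      push_cast
      simp
    · intro j _ hj
      rw [PAR_inner, hb.2 (Ne.symm hj), zero_mul]
    · intro h
      exact absurd hi h
  rw [@norm_sq_eq_re_inner ℂ, h1]
  exact Complex.ofReal_re _

theorem PAR_A_le {ι : Type} (b : ι → Lp ℂ 2 m) (hb : Orthonormal ℂ b) (s : Finset ι)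
    (g : Lp K 2 m) : ‖PAR_A b s g‖ ≤ ‖g‖ := by
  have h1 : ‖PAR_A b s g‖ ^ 2 ≤ ‖PAR_A b s g‖ * ‖g‖ := by
    rw [PAR_A_norm b hb s g]
    have h2 := norm_inner_le_norm (𝕜 := ℂ) (PAR_A b s g) g
    rw [PAR_A_inner, Complex.norm_real, Real.norm_eq_abs] at h2
    exact (le_abs_self _).trans h2
  rcases (norm_nonneg (PAR_A b s g)).eq_or_lt with h0 | h0
  · rw [← h0]
    exact norm_nonneg _
  · rw [sq] at h1
    exact le_of_mul_le_mul_left h1 h0

theorem PAR_tendsto [IsFiniteMeasure m] {ι : Type} (b : HilbertBasis ι ℂ (Lp ℂ 2 m))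
    (g : Lp K 2 m) :
    Filter.Tendsto (fun s => PAR_A (K := K) b s g) Filter.atTop (nhds g) := by
  classical
  have hb := b.orthonormal
  refine Lp.induction (p := 2) (by norm_num)
    (motive := fun g : Lp K 2 m =>
      Filter.Tendsto (fun s => PAR_A (K := K) b s g) Filter.atTop (nhds g)) ?_ ?_ ?_ g
  · intro c s hs hμs
    have h1 : ((Lp.simpleFunc.indicatorConst 2 hs hμs.ne c : Lp.simpleFunc K 2 m) : Lp K 2 m) =
        tn (indicatorConstLp 2 hs hμs.ne (1 : ℂ)) c := by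
      rw [Lp.simpleFunc.coe_indicatorConst]
      apply Lp.ext
      filter_upwards [tn_ae (indicatorConstLp 2 hs hμs.ne (1 : ℂ)) c,
        indicatorConstLp_coeFn (μ := m) (p := 2) (hs := hs) (hμs := hμs.ne) (c := c),
        indicatorConstLp_coeFn (μ := m) (p := 2) (hs := hs) (hμs := hμs.ne) (c := (1 : ℂ))]
        with x h1 h2 h3
      rw [h1, h2, h3]
      by_cases hx : x ∈ s
      · simp [hx]
      · simp [hx]
    rw [h1]
    set ψ := indicatorConstLp 2 hs hμs.ne (1 : ℂ) with hψ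
    have h2 : ∀ s : Finset ι, PAR_A (K := K) b s (tn ψ c) =
        PAR_c c (∑ i ∈ s, (b.repr ψ i) • b i) := by
      intro s
      rw [PAR_A_apply, map_sum]
      refine Finset.sum_congr rfl fun i _ => ?_
      rw [PAR_adj, map_smul, map_smul, PAR_c_apply, b.repr_apply_apply]
    simp only [h2]
    exact ((PAR_c c).continuous.tendsto ψ).comp (b.hasSum_repr ψ)
  · intro f h hf hh _ h1 h2
    simp only [map_add]
    exact h1.add h2
  · refine isClosed_of_closure_subset fun g hg => ?_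
    rw [Set.mem_ofPred_eq, Metric.tendsto_atTop]
    intro ε hε
    rw [Metric.mem_closure_iff] at hg
    obtain ⟨h, hh, hgh⟩ := hg (ε / 3) (by positivity)
    rw [Set.mem_ofPred_eq, Metric.tendsto_atTop] at hh
    obtain ⟨N, hN⟩ := hh (ε / 3) (by positivity)
    refine ⟨N, fun n hn => ?_⟩
    have h1 := hN n hn
    have h2 : dist (PAR_A (K := K) b n g) (PAR_A (K := K) b n h) ≤ dist g h := by
      rw [dist_eq_norm, dist_eq_norm, ← map_sub]
      exact PAR_A_le b hb n _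
    have h3 := dist_triangle (PAR_A (K := K) b n g) (PAR_A (K := K) b n h) g
    have h4 := dist_triangle (PAR_A (K := K) b n h) h g
    rw [dist_comm h g] at h4
    linarith

/-- Parseval -/
theorem p_PAR : Stmt_PAR := by
  intro X _ m _ K _ _ _ ι b g
  have h1 := (PAR_tendsto (K := K) b g).norm.pow 2
  refine h1.congr fun s => ?_
  exact PAR_A_norm b b.orthonormal s g

end PAR

end Pool.TC
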