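import Pool.Agent.Work.MP_972ac7_C.Interface

/-! # Block PAX: the projection onto the fixed vectors -/

set_option autoImplicit false

open MeasureTheory
open scoped ENNReal

noncomputable section

namespace Pool.TC

open Pool.TFD

/-- the fixed vectors -/
def PAX_F {H A : Type} [NormedAddCommGroup H] [InnerProductSpace ℂ H]
    [Group A] (W : A →* (H ≃ₗᵢ[ℂ] H)) : Submodule ℂ H where
  carrier := {f | ∀ a, W a f = f}
  add_mem' := by
    intro f g hf hg a
    rw [map_add, hf a, hg a]
  zero_mem' := by
    intro a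
    rw [map_zero]
  smul_mem' := by
    intro c f hf a
    rw [map_smul, hf a]

theorem PAX_closed {H A : Type} [NormedAddCommGroup H] [InnerProductSpace ℂ H]
    [Group A] (W : A →* (H ≃ₗᵢ[ℂ] H)) : IsClosed ((PAX_F W : Submodule ℂ H) : Set H) := by
  have h1 : ((PAX_F W : Submodule ℂ H) : Set H) = ⋂ a, {f | W a f = f} := by
    ext f
    simp only [Set.mem_iInter, Set.mem_setOf_eq]
    exact Iff.rfl
  rw [h1]
  exact isClosed_iInter fun a => isClosed_eq (W a).continuous continuous_id

theorem PAX_inv {H A : Type} [NormedAddCommGroup H] [InnerProductSpace ℂ H]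
    [Group A] (W : A →* (H ≃ₗᵢ[ℂ] H)) (a : A) (f : H) : W a (W a⁻¹ f) = f := by
  have h1 : W a * W a⁻¹ = 1 := by rw [← map_mul, mul_inv_cancel, map_one]
  have h2 := congrArg (fun U : H ≃ₗᵢ[ℂ] H => U f) h1
  exact h2

theorem PAX_star {H A : Type} [NormedAddCommGroup H] [InnerProductSpace ℂ H] [CompleteSpace H]
    [Group A] (W : A →* (H ≃ₗᵢ[ℂ] H)) (a : A) : star (opU (W a)) = opU (W a⁻¹) := by
  rw [ContinuousLinearMap.star_eq_adjoint, eq_comm, ContinuousLinearMap.eq_adjoint_iff]
  intro x y
  rw [opU_apply, opU_apply]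
  have h1 := (W a).inner_map_map (W a⁻¹ x) y
  rw [PAX_inv] at h1
  exact h1.symm

theorem p_PAX : Stmt_PAX := by
  intro H A _ _ _ _ W
  haveI : CompleteSpace (PAX_F W) := (PAX_closed W).completeSpace_coe
  set F := PAX_F W with hF
  have memF : ∀ f, f ∈ F ↔ ∀ a, W a f = f := fun f => Iff.rfl
  have key : ∀ B : H →L[ℂ] H, (∀ a, B * opU (W a) = opU (W a) * B) → ∀ f ∈ F, B f ∈ F := by
    intro B hB f hf a
    have h1 := congrArg (fun T : H →L[ℂ] H => T f) (hB a)
    have h2 : B (W a f) = W a (B f) := h1
    rw [← h2, hf a]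
  refine ⟨F.starProjection, isSelfAdjoint_starProjection F, F.starProjection_norm_le, ?_, ?_, ?_⟩
  · intro a f
    exact (memF _).1 (F.starProjection_apply_mem f) a
  · intro f hf
    exact F.starProjection_eq_self_iff.2 ((memF f).2 hf)
  · intro B hB
    have hBs : ∀ a, star B * opU (W a) = opU (W a) * star B := by
      intro a
      have h1 := congrArg star (hB a⁻¹)
      rw [star_mul, star_mul, PAX_star, inv_inv] at h1
      exact h1.symm
    ext f
    rw [ContinuousLinearMap.mul_apply, ContinuousLinearMap.mul_apply]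
    refine (F.eq_starProjection_of_mem_of_inner_eq_zero (key B hB _ (F.starProjection_apply_mem f)) ?_).symm
    intro w hw
    rw [← map_sub, ← ContinuousLinearMap.adjoint_inner_right, ← ContinuousLinearMap.star_eq_adjoint]
    exact F.starProjection_inner_eq_zero f _ (key (star B) hBs w hw)

end Pool.TC
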