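import Pool.Agent.Work.MP_972ac7_C.Interface

/-! # Block POL of Theorem C of MP_972ac7_al: polarization -/

set_option autoImplicit false

open MeasureTheory
open scoped ENNReal

noncomputable section

namespace Pool.TC

open Pool.TFD

theorem POL_re {H : Type} [NormedAddCommGroup H] [InnerProductSpace ℂ H]
    [CompleteSpace H] {J : Type} [Fintype J] (D : TD H J) (S T : H →L[ℂ] H) (hS : D.Mem S)
    (hT : D.Mem T) :
    (∑ j, (inner ℂ (S (D.ξ j)) (T (D.ξ j)) : ℂ)).re =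
      (∑ j, (inner ℂ ((star T) (D.ξ j)) ((star S) (D.ξ j)) : ℂ)).re := by
  have h := D.trace (S + T) (hS.add hT)
  have hS' := D.trace S hS
  have hT' := D.trace T hT
  have e1 : ∀ j, ‖(S + T) (D.ξ j)‖ ^ 2 = ‖S (D.ξ j)‖ ^ 2 +
      2 * (inner ℂ (S (D.ξ j)) (T (D.ξ j)) : ℂ).re + ‖T (D.ξ j)‖ ^ 2 := by
    intro j
    rw [ContinuousLinearMap.add_apply]
    exact norm_add_sq (𝕜 := ℂ) _ _
  have e2 : ∀ j, ‖(star (S + T)) (D.ξ j)‖ ^ 2 = ‖(star T) (D.ξ j)‖ ^ 2 +
      2 * (inner ℂ ((star T) (D.ξ j)) ((star S) (D.ξ j)) : ℂ).re + ‖(star S) (D.ξ j)‖ ^ 2 := by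
    intro j
    rw [star_add, add_comm (star S), ContinuousLinearMap.add_apply]
    exact norm_add_sq (𝕜 := ℂ) _ _
  simp only [e1, e2, Finset.sum_add_distrib, ← Finset.mul_sum] at h
  rw [Complex.re_sum, Complex.re_sum]
  linarith

/-- POL. -/
theorem p_POL : Stmt_POL := by
  intro H _ _ _ J _ D S T hS hT
  apply Complex.ext
  · exact POL_re D S T hS hT
  · have h := POL_re D S (Complex.I • T) hS (hT.smul _)
    have e1 : ∑ j, (inner ℂ (S (D.ξ j)) ((Complex.I • T) (D.ξ j)) : ℂ) =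
        Complex.I * ∑ j, (inner ℂ (S (D.ξ j)) (T (D.ξ j)) : ℂ) := by
      rw [Finset.mul_sum]
      refine Finset.sum_congr rfl (fun j _ => ?_)
      rw [ContinuousLinearMap.smul_apply, inner_smul_right]
    have e2 : ∑ j, (inner ℂ ((star (Complex.I • T)) (D.ξ j)) ((star S) (D.ξ j)) : ℂ) =
        Complex.I * ∑ j, (inner ℂ ((star T) (D.ξ j)) ((star S) (D.ξ j)) : ℂ) := by
      rw [Finset.mul_sum]
      refine Finset.sum_congr rfl (fun j _ => ?_)
      rw [star_smul, ContinuousLinearMap.smul_apply, inner_smul_left]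
      congr 1
      simp
    rw [e1, e2, Complex.I_mul_re, Complex.I_mul_re] at h
    linarith

end Pool.TC
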