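import Pool.Agent.Work.MP_972ac7_C.Interface

/-! # Block POS: the trace of a product of positive operators -/

set_option autoImplicit false

open MeasureTheory
open scoped ENNReal

noncomputable section

namespace Pool.TC

open Pool.TFD

theorem p_POS (hPOL : Stmt_POL) (hSQC : Stmt_SQC) : Stmt_POS := by
  intro H _ _ _ J _ D S T hS hT hS0 hT0
  set C := CFC.sqrt S with hC
  have hC0 : 0 ≤ C := CFC.sqrt_nonneg S
  have hCsa : star C = C := (IsSelfAdjoint.of_nonneg hC0).star_eq
  have hTsa : star T = T := (IsSelfAdjoint.of_nonneg hT0).star_eq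
  have hCC : C * C = S := CFC.sqrt_mul_sqrt_self S hS0
  have hCm : D.Mem C := hSQC H J D S hS0 hS
  have h1 := hPOL H J D C (C * T) hCm (hCm.mul hT)
  have h2 : ∀ j, (inner ℂ (D.ξ j) (S (T (D.ξ j))) : ℂ) = inner ℂ (C (D.ξ j)) ((C * T) (D.ξ j)) := by
    intro j
    have h3 : S (T (D.ξ j)) = C ((C * T) (D.ξ j)) := by
      rw [← hCC]; rfl
    rw [h3, ← ContinuousLinearMap.adjoint_inner_left, ← ContinuousLinearMap.star_eq_adjoint, hCsa]
  rw [Finset.sum_congr rfl fun j _ => h2 j, h1, Complex.re_sum]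
  refine Finset.sum_nonneg fun j _ => ?_
  have h4 : (star (C * T)) (D.ξ j) = T (C (D.ξ j)) := by
    rw [star_mul, hCsa, hTsa]; rfl
  rw [h4, hCsa]
  have h5 := (ContinuousLinearMap.nonneg_iff_isPositive T).1 hT0
  exact h5.re_inner_nonneg_left (C (D.ξ j))

end Pool.TC
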