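import Pool.Agent.Work.MP_972ac7_C.Interface

/-! # Block PR: the pairing bound (MP_972ac7_al, note 2966) -/

set_option autoImplicit false

open MeasureTheory
open scoped ENNReal Topology

noncomputable section

namespace Pool.TC

open Pool.TFD

section

variable {H : Type} [NormedAddCommGroup H] [InnerProductSpace ℂ H] [CompleteSpace H]

theorem PR_cont (d : ℝ) (hd : 0 < d) : Continuous fun t : ℝ => (|t| + d)⁻¹ :=
  (continuous_abs.add continuous_const).inv₀ fun t =>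
    (add_pos_of_nonneg_of_pos (abs_nonneg t) hd).ne'

theorem PR_B {P : H →L[ℂ] H} (hP : 0 ≤ P) (d : ℝ) (hd : 0 < d) :
    ‖cfc (fun t : ℝ => (|t| + d)⁻¹) P * (P * P) - P‖ ≤ d ∧
    ‖cfc (fun t : ℝ => (|t| + d)⁻¹) P * (P * P) * cfc (fun t : ℝ => (|t| + d)⁻¹) P‖ ≤ 1 := by
  have hs : IsSelfAdjoint P := IsSelfAdjoint.of_nonneg hP
  have hc := PR_cont d hd
  have h1 : cfc (fun t : ℝ => (|t| + d)⁻¹) P * (P * P) =
      cfc (fun t : ℝ => (|t| + d)⁻¹ * (t * t)) P := by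
    have h2 : P * P = cfc (fun t : ℝ => t * t) P := by
      rw [cfc_mul (fun t : ℝ => t) (fun t : ℝ => t) P (by fun_prop) (by fun_prop), cfc_id' ℝ P hs]
    rw [cfc_mul (fun t : ℝ => (|t| + d)⁻¹) (fun t : ℝ => t * t) P hc.continuousOn (by fun_prop),
      ← h2]
  have hspec : ∀ t ∈ spectrum ℝ P, 0 ≤ t := fun t ht => spectrum_nonneg_of_nonneg hP ht
  constructor
  · have h3 : cfc (fun t : ℝ => (|t| + d)⁻¹) P * (P * P) - P =
        cfc (fun t : ℝ => (|t| + d)⁻¹ * (t * t) - t) P := by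
      rw [cfc_sub (fun t : ℝ => (|t| + d)⁻¹ * (t * t)) (fun t : ℝ => t) P
        ((hc.mul (by fun_prop)).continuousOn) (by fun_prop), cfc_id' ℝ P hs, h1]
    rw [h3]
    refine norm_cfc_le hd.le fun t ht => ?_
    have ht0 := hspec t ht
    have h4 : (|t| + d)⁻¹ * (t * t) - t = -(t * d) / (t + d) := by
      rw [abs_of_nonneg ht0]
      field_simp
      ring
    rw [h4, Real.norm_eq_abs, abs_div, abs_neg, abs_of_nonneg (by positivity : 0 ≤ t * d),
      abs_of_nonneg (by positivity : 0 ≤ t + d), div_le_iff₀ (by positivity)]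
    nlinarith
  · have h3 : cfc (fun t : ℝ => (|t| + d)⁻¹) P * (P * P) * cfc (fun t : ℝ => (|t| + d)⁻¹) P =
        cfc (fun t : ℝ => (|t| + d)⁻¹ * (t * t) * (|t| + d)⁻¹) P := by
      rw [h1, ← cfc_mul (fun t : ℝ => (|t| + d)⁻¹ * (t * t)) (fun t : ℝ => (|t| + d)⁻¹) P
        ((hc.mul (by fun_prop)).continuousOn) hc.continuousOn]
    rw [h3]
    refine norm_cfc_le zero_le_one fun t ht => ?_
    have ht0 := hspec t ht
    have h4 : (|t| + d)⁻¹ * (t * t) * (|t| + d)⁻¹ = (t / (t + d)) ^ 2 := by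
      rw [abs_of_nonneg ht0]
      field_simp
    rw [h4, Real.norm_eq_abs, abs_of_nonneg (sq_nonneg _)]
    have h5 : t / (t + d) ≤ 1 := by
      rw [div_le_one (by positivity)]
      linarith
    have h6 : 0 ≤ t / (t + d) := by positivity
    nlinarith

end

theorem p_PR (hPOL : Stmt_POL) (_hSQC : Stmt_SQC) : Stmt_PR := by
  intro H _ _ _ J _ D p F P C c hp hF hP hC hps hpp hpF hFp hP0 hPP hCc
  have hPs : IsSelfAdjoint P := IsSelfAdjoint.of_nonneg hP0
  have hc0 : 0 ≤ c := (norm_nonneg _).trans hCc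
  have hst : star p = p := hps
  set N : ℝ := ∑ j, ‖D.ξ j‖ ^ 2 with hN
  have hN0 : 0 ≤ N := Finset.sum_nonneg fun _ _ => by positivity
  -- the approximation
  have key : ∀ d : ℝ, 0 < d → |(∑ j, (inner ℂ (P (D.ξ j)) (C (D.ξ j)) : ℂ)).re| ≤
      c * (Real.sqrt (D.hs p) * Real.sqrt (D.hs F)) + d * (c * N) := by
    intro d hd
    obtain ⟨b1, b2⟩ := PR_B hP0 d hd
    set B : H →L[ℂ] H := cfc (fun t : ℝ => (|t| + d)⁻¹) P with hB
    have hBs : star B = B := (cfc_predicate (R := ℝ) (fun t : ℝ => (|t| + d)⁻¹) P)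
    have hBm : D.Mem B := by
      intro r hr
      have h1 : Commute P r := hP r hr
      exact (hPs.commute_cfc h1 _)
    set V : H →L[ℂ] H := F * B with hV
    have hVm : D.Mem V := hF.mul hBm
    have hpV : p * V = V := by rw [hV, ← mul_assoc, hpF]
    have hVp : star V * p = star V := by
      have h1 := congrArg star hpV
      rwa [star_mul, hst] at h1
    have hVF : star V * F = B * (P * P) := by
      rw [hV, star_mul, hBs, mul_assoc, hPP]
    have hVV : star V * V = B * (P * P) * B := by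
      rw [hV, ← mul_assoc, ← hV, hVF]
    have hVn : ‖V‖ ≤ 1 := by
      have h1 : ‖V‖ * ‖V‖ ≤ 1 := by
        rw [← CStarRing.norm_star_mul_self, hVV]
        exact b2
      nlinarith [norm_nonneg V]
    -- the main term
    have m1 : (∑ j, (inner ℂ ((star V * F) (D.ξ j)) (C (D.ξ j)) : ℂ)) =
        ∑ j, (inner ℂ ((star (V * C)) (D.ξ j)) ((star F) (D.ξ j)) : ℂ) := by
      rw [← hPOL H J D F (V * C) hF (hVm.mul hC)]
      refine Finset.sum_congr rfl fun j _ => ?_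
      have h1 : (star V * F) (D.ξ j) = (ContinuousLinearMap.adjoint V) (F (D.ξ j)) := rfl
      rw [h1, ContinuousLinearMap.adjoint_inner_left]
      rfl
    have m2 : ∀ j, ‖(star (V * C)) (D.ξ j)‖ ≤ c * ‖p (D.ξ j)‖ := by
      intro j
      have h1 : (star (V * C)) (D.ξ j) = (star C) ((star V) (p (D.ξ j))) := by
        rw [star_mul]
        conv_lhs => rw [← hVp]
        rfl
      rw [h1]
      calc _ ≤ ‖star C‖ * ‖(star V) (p (D.ξ j))‖ := ContinuousLinearMap.le_opNorm _ _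
        _ ≤ ‖star C‖ * (‖star V‖ * ‖p (D.ξ j)‖) :=
          mul_le_mul_of_nonneg_left (ContinuousLinearMap.le_opNorm _ _) (norm_nonneg _)
        _ = ‖C‖ * (‖V‖ * ‖p (D.ξ j)‖) := by rw [norm_star, norm_star]
        _ ≤ c * (1 * ‖p (D.ξ j)‖) := by gcongr
        _ = _ := by rw [one_mul]
    have m3 : ‖∑ j, (inner ℂ ((star V * F) (D.ξ j)) (C (D.ξ j)) : ℂ)‖ ≤
        c * (Real.sqrt (D.hs p) * Real.sqrt (D.hs F)) := by
      rw [m1]
      calc _ ≤ ∑ j, ‖(inner ℂ ((star (V * C)) (D.ξ j)) ((star F) (D.ξ j)) : ℂ)‖ :=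
            norm_sum_le _ _
        _ ≤ ∑ j, (c * (‖p (D.ξ j)‖ * ‖(star F) (D.ξ j)‖)) := by
          refine Finset.sum_le_sum fun j _ => ?_
          calc _ ≤ ‖(star (V * C)) (D.ξ j)‖ * ‖(star F) (D.ξ j)‖ := norm_inner_le_norm _ _
            _ ≤ c * ‖p (D.ξ j)‖ * ‖(star F) (D.ξ j)‖ :=
              mul_le_mul_of_nonneg_right (m2 j) (norm_nonneg _)
            _ = _ := by ring
        _ = c * ∑ j, ‖p (D.ξ j)‖ * ‖(star F) (D.ξ j)‖ := by rw [Finset.mul_sum]
        _ ≤ c * (Real.sqrt (∑ j, ‖p (D.ξ j)‖ ^ 2) * Real.sqrt (∑ j, ‖(star F) (D.ξ j)‖ ^ 2)) :=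
          mul_le_mul_of_nonneg_left (Real.sum_mul_le_sqrt_mul_sqrt _ _ _) hc0
        _ = _ := by
          rw [← TD.hs_star hF]
          rfl
    -- the error
    have e1 : ‖(∑ j, (inner ℂ (P (D.ξ j)) (C (D.ξ j)) : ℂ)) -
        ∑ j, (inner ℂ ((star V * F) (D.ξ j)) (C (D.ξ j)) : ℂ)‖ ≤ d * (c * N) := by
      rw [← Finset.sum_sub_distrib]
      calc _ ≤ ∑ j, ‖(inner ℂ (P (D.ξ j)) (C (D.ξ j)) : ℂ) -
              inner ℂ ((star V * F) (D.ξ j)) (C (D.ξ j))‖ := norm_sum_le _ _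
        _ ≤ ∑ j, d * (c * ‖D.ξ j‖ ^ 2) := by
          refine Finset.sum_le_sum fun j _ => ?_
          rw [← inner_sub_left]
          have h1 : ‖P (D.ξ j) - (star V * F) (D.ξ j)‖ ≤ d * ‖D.ξ j‖ := by
            have h2 : P (D.ξ j) - (star V * F) (D.ξ j) = -((B * (P * P) - P) (D.ξ j)) := by
              rw [hVF]
              show _ = -((B * (P * P)) (D.ξ j) - P (D.ξ j))
              rw [neg_sub]
            rw [h2, norm_neg]
            exact (ContinuousLinearMap.le_opNorm _ _).trans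
              (mul_le_mul_of_nonneg_right b1 (norm_nonneg _))
          have h3 : ‖C (D.ξ j)‖ ≤ c * ‖D.ξ j‖ :=
            (ContinuousLinearMap.le_opNorm _ _).trans
              (mul_le_mul_of_nonneg_right hCc (norm_nonneg _))
          calc _ ≤ ‖P (D.ξ j) - (star V * F) (D.ξ j)‖ * ‖C (D.ξ j)‖ := norm_inner_le_norm _ _
            _ ≤ (d * ‖D.ξ j‖) * (c * ‖D.ξ j‖) :=
              mul_le_mul h1 h3 (norm_nonneg _) (by positivity)
            _ = _ := by ring
        _ = d * (c * N) := by rw [hN, Finset.mul_sum, Finset.mul_sum]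
    calc |(∑ j, (inner ℂ (P (D.ξ j)) (C (D.ξ j)) : ℂ)).re|
        ≤ ‖∑ j, (inner ℂ (P (D.ξ j)) (C (D.ξ j)) : ℂ)‖ := Complex.abs_re_le_norm _
      _ = ‖(∑ j, (inner ℂ ((star V * F) (D.ξ j)) (C (D.ξ j)) : ℂ)) +
          ((∑ j, (inner ℂ (P (D.ξ j)) (C (D.ξ j)) : ℂ)) -
          ∑ j, (inner ℂ ((star V * F) (D.ξ j)) (C (D.ξ j)) : ℂ))‖ := by
        rw [add_sub_cancel]
      _ ≤ _ := norm_add_le _ _
      _ ≤ _ := add_le_add m3 e1
  refine le_of_forall_pos_le_add fun ε hε => ?_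
  have h1 := key (ε / (c * N + 1)) (by positivity)
  refine h1.trans (by
    have h2 : ε / (c * N + 1) * (c * N) ≤ ε := by
      rw [div_mul_eq_mul_div, div_le_iff₀ (by positivity)]
      nlinarith [mul_nonneg hc0 hN0]
    linarith)

end Pool.TC
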