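import Pool.Agent.Work.MP_972ac7_C.Interface

/-! Block PSP (helper65): the positive part of `T - c`. -/

set_option autoImplicit false

noncomputable section

namespace Pool.TC

open Pool.TFD

theorem p_PSP : Stmt_PSP := by
  intro H _ _ _ T c hT
  have hcs : IsSelfAdjoint ((c : ℂ)) := by
    show star (c : ℂ) = c
    exact Complex.conj_ofReal c
  set A : H →L[ℂ] H := T - (c : ℂ) • (1 : H →L[ℂ] H) with hA
  have hAs : IsSelfAdjoint A := hT.sub (hcs.smul (IsSelfAdjoint.one _))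
  have hP : tpp T c = A⁺ := rfl
  have hP0 : 0 ≤ A⁺ := CFC.posPart_nonneg A
  have hN0 : 0 ≤ A⁻ := CFC.negPart_nonneg A
  have hsub : A⁺ - A⁻ = A := CFC.posPart_sub_negPart A hAs
  have hTA : ∀ v : H, T v = A v + (c : ℂ) • v := by
    intro v
    rw [hA]
    simp
  have hcv : ∀ v : H, (inner ℂ v ((c : ℂ) • v) : ℂ).re = c * ‖v‖ ^ 2 := by
    intro v
    rw [inner_smul_right, Complex.re_ofReal_mul]
    congr 1
    rw [← inner_self_eq_norm_sq (𝕜 := ℂ)]
    rfl
  have hpos : ∀ (B : H →L[ℂ] H), 0 ≤ B → ∀ v : H, 0 ≤ (inner ℂ v (B v) : ℂ).re := by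
    intro B hB v
    exact ((ContinuousLinearMap.nonneg_iff_isPositive B).1 hB).re_inner_nonneg_right v
  rw [hP]
  refine ⟨IsSelfAdjoint.of_nonneg hP0, ?_, ?_, ?_⟩
  · intro B hB
    have h1 : Commute T B := hB.symm
    have h2 : Commute A B := h1.sub_left ((Commute.one_left B).smul_left (c : ℂ))
    exact (h2.cfcₙ_real (·⁺)).eq.symm
  · intro v hv
    have h1 : A v = -(A⁻ v) := by
      have : (A⁺ - A⁻) v = A v := by rw [hsub]
      rw [← this, ContinuousLinearMap.sub_apply, hv, zero_sub]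
    rw [hTA v, inner_add_right, Complex.add_re, hcv, h1, inner_neg_right, Complex.neg_re]
    have := hpos _ hN0 v
    linarith
  · intro u
    have h1 : A (A⁺ u) = A⁺ (A⁺ u) := by
      have h2 : (A⁺ - A⁻) (A⁺ u) = A (A⁺ u) := by rw [hsub]
      have h3 : A⁻ (A⁺ u) = 0 := by
        have h4 : (A⁻ * A⁺) u = 0 := by rw [CFC.negPart_mul_posPart]; rfl
        exact h4
      rw [← h2, ContinuousLinearMap.sub_apply, h3, sub_zero]
    rw [hTA (A⁺ u), inner_add_right, Complex.add_re, hcv, h1]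
    have := hpos _ hP0 (A⁺ u)
    linarith

end Pool.TC
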