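import Pool.Agent.Work.MP_972ac7_C.Interface

/-! # Block QUF: homomorphic images -/

set_option autoImplicit false

open MeasureTheory
open scoped ENNReal

noncomputable section

namespace Pool.TC

open Pool.TFD

theorem p_QUF : Stmt_QUF := by
  classical
  intro Λ Δ _ _ f hf hΛ
  obtain ⟨Q, ε, hε, h⟩ := hΛ
  refine ⟨Q.image f, ε, hε, ?_⟩
  intro K _ _ _ M ι ξ π hM hs htr hfa v hv
  obtain ⟨q, hq, hqv⟩ := h K M ι ξ (π.comp f) (fun γ => hM (f γ)) hs htr hfa v (by
    intro w hw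
    apply hv w
    intro δ
    obtain ⟨γ, rfl⟩ := hf δ
    exact hw γ)
  exact ⟨f q, Finset.mem_image_of_mem f hq, hqv⟩

end Pool.TC
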