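import Pool.Agent.Work.MP_972ac7_C.Interface

/-! Block REPK (helper65): the induced representation, copy of B_REP for a second countable space. -/

set_option autoImplicit false

open MeasureTheory Matrix
open scoped ENNReal ComplexOrder

noncomputable section

namespace Pool.TC

open Pool.TFD

section REPK

variable {G : Type} [Group G] [TopologicalSpace G] [IsTopologicalGroup G]
  [SecondCountableTopology G] [MeasurableSpace G] [BorelSpace G] [T2Space G] (Γ : Subgroup G)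
  [Countable Γ] (m : Measure (G ⧸ Γ)) (σ : G ⧸ Γ → G)
  (hσ : ∀ x, (σ x : G ⧸ Γ) = x)
  (V : Type) [NormedAddCommGroup V] [InnerProductSpace ℂ V] [CompleteSpace V]
  [SecondCountableTopology V]
  (π : Γ →* (V ≃ₗᵢ[ℂ] V))

/-- Pointwise application of `π` is measurable. -/
theorem REPK_meas {X : Type} [MeasurableSpace X] {c : X → Γ} (hc : Measurable c) {f : X → V}
    (hf : StronglyMeasurable f) : StronglyMeasurable fun x => π (c x) (f x) := by
  borelize V
  have h1 : Measurable fun p : Γ × V => π p.1 p.2 :=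
    measurable_from_prod_countable_right fun γ => (π γ).continuous.measurable
  have h2 : Measurable fun x => π (c x) (f x) :=
    h1.comp (hc.prodMk hf.measurable)
  exact h2.stronglyMeasurable

variable {Γ m σ hσ V π}

theorem REPK_coc (hCOC : Pool.TFD.Stmt_COC) (hσm : Measurable σ) (g : G) :
    Measurable fun x : G ⧸ Γ => coc Γ σ hσ g (g⁻¹ • x) := by
  obtain ⟨-, h2, h3⟩ := hCOC G Γ σ hσ hσm
  have h4 : Measurable fun x : G ⧸ Γ => (g, g⁻¹ • x) :=
    measurable_const.prodMk (h2.comp (measurable_const.prodMk measurable_id))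
  exact h3.comp h4

theorem REPK_memLp (hCOC : Pool.TFD.Stmt_COC) (hσm : Measurable σ)
    (hm : ∀ g : G, MeasurePreserving (fun x => g • x) m m) (g : G) (f : Lp V 2 m) :
    MemLp (fun x => π (coc Γ σ hσ g (g⁻¹ • x)) (f (g⁻¹ • x))) 2 m := by
  have h1 : MemLp (fun x => f (g⁻¹ • x)) 2 m := (Lp.memLp f).comp_measurePreserving (hm g⁻¹)
  have h2 : StronglyMeasurable fun x => f (g⁻¹ • x) :=
    (Lp.stronglyMeasurable f).comp_measurable (hm g⁻¹).measurable
  refine h1.congr_norm (REPK_meas Γ V π (REPK_coc hCOC hσm g) h2).aestronglyMeasurable ?_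
  filter_upwards with x
  exact ((π _).norm_map _).symm

/-- The operator. -/
def REPK_op (hCOC : Pool.TFD.Stmt_COC) (hσm : Measurable σ)
    (hm : ∀ g : G, MeasurePreserving (fun x => g • x) m m) (g : G) (f : Lp V 2 m) : Lp V 2 m :=
  (REPK_memLp (hσ := hσ) (π := π) hCOC hσm hm g f).toLp

theorem REPK_op_ae (hCOC : Pool.TFD.Stmt_COC) (hσm : Measurable σ)
    (hm : ∀ g : G, MeasurePreserving (fun x => g • x) m m) (g : G) (f : Lp V 2 m) :
    ⇑(REPK_op (hσ := hσ) (π := π) hCOC hσm hm g f) =ᵐ[m]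
      fun x => π (coc Γ σ hσ g (g⁻¹ • x)) (f (g⁻¹ • x)) :=
  (REPK_memLp (hσ := hσ) (π := π) hCOC hσm hm g f).coeFn_toLp

theorem REPK_op_add (hCOC : Pool.TFD.Stmt_COC) (hσm : Measurable σ)
    (hm : ∀ g : G, MeasurePreserving (fun x => g • x) m m) (g : G) (f f' : Lp V 2 m) :
    REPK_op (hσ := hσ) (π := π) hCOC hσm hm g (f + f') =
      REPK_op (hσ := hσ) (π := π) hCOC hσm hm g f + REPK_op (hσ := hσ) (π := π) hCOC hσm hm g f' := by
  apply Lp.ext
  have h1 := (hm g⁻¹).quasiMeasurePreserving.ae (Lp.coeFn_add f f')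
  filter_upwards [REPK_op_ae (hσ := hσ) (π := π) hCOC hσm hm g (f + f'),
    REPK_op_ae (hσ := hσ) (π := π) hCOC hσm hm g f, REPK_op_ae (hσ := hσ) (π := π) hCOC hσm hm g f',
    Lp.coeFn_add (REPK_op (hσ := hσ) (π := π) hCOC hσm hm g f)
      (REPK_op (hσ := hσ) (π := π) hCOC hσm hm g f'), h1] with x h2 h3 h4 h5 h6
  rw [h2, h5, Pi.add_apply, h3, h4, h6, Pi.add_apply, map_add]

theorem REPK_op_smul (hCOC : Pool.TFD.Stmt_COC) (hσm : Measurable σ)
    (hm : ∀ g : G, MeasurePreserving (fun x => g • x) m m) (g : G) (a : ℂ) (f : Lp V 2 m) :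
    REPK_op (hσ := hσ) (π := π) hCOC hσm hm g (a • f) =
      a • REPK_op (hσ := hσ) (π := π) hCOC hσm hm g f := by
  apply Lp.ext
  have h1 := (hm g⁻¹).quasiMeasurePreserving.ae (Lp.coeFn_smul a f)
  filter_upwards [REPK_op_ae (hσ := hσ) (π := π) hCOC hσm hm g (a • f),
    REPK_op_ae (hσ := hσ) (π := π) hCOC hσm hm g f,
    Lp.coeFn_smul a (REPK_op (hσ := hσ) (π := π) hCOC hσm hm g f), h1] with x h2 h3 h5 h6
  rw [h2, h5, Pi.smul_apply, h3, h6, Pi.smul_apply, map_smul]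

theorem REPK_op_norm (hCOC : Pool.TFD.Stmt_COC) (hσm : Measurable σ)
    (hm : ∀ g : G, MeasurePreserving (fun x => g • x) m m) (g : G) (f : Lp V 2 m) :
    ‖REPK_op (hσ := hσ) (π := π) hCOC hσm hm g f‖ = ‖f‖ := by
  have h1 : eLpNorm (fun x => f (g⁻¹ • x)) 2 m = eLpNorm f 2 m :=
    eLpNorm_comp_measurePreserving (Lp.aestronglyMeasurable f) (hm g⁻¹)
  rw [Lp.norm_def, Lp.norm_def, eLpNorm_congr_ae (REPK_op_ae (hσ := hσ) (π := π) hCOC hσm hm g f),
    ← h1]
  congr 1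
  exact eLpNorm_congr_norm_ae (by filter_upwards with x using (π _).norm_map _)

theorem REPK_op_mul (hCOC : Pool.TFD.Stmt_COC) (hσm : Measurable σ)
    (hm : ∀ g : G, MeasurePreserving (fun x => g • x) m m) (g h : G) (f : Lp V 2 m) :
    REPK_op (hσ := hσ) (π := π) hCOC hσm hm (g * h) f =
      REPK_op (hσ := hσ) (π := π) hCOC hσm hm g (REPK_op (hσ := hσ) (π := π) hCOC hσm hm h f) := by
  apply Lp.ext
  obtain ⟨hc, -, -⟩ := hCOC G Γ σ hσ hσm
  have h1 := (hm g⁻¹).quasiMeasurePreserving.ae (REPK_op_ae (hσ := hσ) (π := π) hCOC hσm hm h f)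
  filter_upwards [REPK_op_ae (hσ := hσ) (π := π) hCOC hσm hm (g * h) f,
    REPK_op_ae (hσ := hσ) (π := π) hCOC hσm hm g (REPK_op (hσ := hσ) (π := π) hCOC hσm hm h f),
    h1] with x h2 h3 h4
  have e1 : (g * h)⁻¹ • x = h⁻¹ • (g⁻¹ • x) := by rw [_root_.mul_inv_rev, mul_smul]
  have e2 : h • (h⁻¹ • (g⁻¹ • x)) = g⁻¹ • x := smul_inv_smul h _
  rw [h2, h3, h4, hc, e1, e2, map_mul]
  rfl

theorem REPK_op_one (hCOC : Pool.TFD.Stmt_COC) (hσm : Measurable σ)
    (hm : ∀ g : G, MeasurePreserving (fun x => g • x) m m) (f : Lp V 2 m) :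
    REPK_op (hσ := hσ) (π := π) hCOC hσm hm 1 f = f := by
  apply Lp.ext
  obtain ⟨hc, -, -⟩ := hCOC G Γ σ hσ hσm
  filter_upwards [REPK_op_ae (hσ := hσ) (π := π) hCOC hσm hm 1 f] with x h2
  have e1 : (1 : G)⁻¹ • x = x := by rw [inv_one, one_smul]
  have e2 : coc Γ σ hσ 1 x = 1 := by
    have := hc 1 1 x
    rw [one_mul, one_smul] at this
    exact mul_left_cancel (a := coc Γ σ hσ 1 x) (by rw [mul_one]; exact this.symm)
  rw [h2, e1, e2, map_one]
  rfl

end REPK

theorem p_REPK (hCOC : Pool.TFD.Stmt_COC) : Stmt_REPK := by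
  intro G _ _ _ _ _ _ _ Γ _ m _ σ hσ hσm hm V _ _ _ _ π
  let A : G → (Lp V 2 m →ₗ[ℂ] Lp V 2 m) := fun g =>
    { toFun := REPK_op (hσ := hσ) (π := π) hCOC hσm hm g
      map_add' := REPK_op_add hCOC hσm hm g
      map_smul' := REPK_op_smul hCOC hσm hm g }
  have hinv : ∀ g f, A g (A g⁻¹ f) = f := by
    intro g f
    show REPK_op (hσ := hσ) (π := π) hCOC hσm hm g
      (REPK_op (hσ := hσ) (π := π) hCOC hσm hm g⁻¹ f) = f
    rw [← REPK_op_mul, mul_inv_cancel, REPK_op_one]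
  let U : G → (Lp V 2 m ≃ₗᵢ[ℂ] Lp V 2 m) := fun g =>
    { toLinearEquiv := LinearEquiv.ofLinear (A g) (A g⁻¹)
        (LinearMap.ext fun f => hinv g f)
        (LinearMap.ext fun f => by
          have := hinv g⁻¹ f
          rwa [inv_inv] at this)
      norm_map' := fun f => REPK_op_norm hCOC hσm hm g f }
  refine ⟨{ toFun := U, map_one' := ?_, map_mul' := ?_ }, ?_⟩
  · ext1 f
    exact REPK_op_one hCOC hσm hm f
  · intro g h
    ext1 f
    exact REPK_op_mul hCOC hσm hm g h f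
  · intro g f
    exact REPK_op_ae hCOC hσm hm g f

end Pool.TC
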