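import Pool.Agent.Work.MP_972ac7_C.Interface

/-! # Block RS: finite approximation of the averaged operator (helper83) -/

set_option autoImplicit false

open MeasureTheory
open scoped ENNReal

noncomputable section

namespace Pool.TC

open Pool.TFD

/-- Weak means lie in the closed convex hull. -/
theorem RS_hull {E Ω : Type} [NormedAddCommGroup E] [InnerProductSpace ℂ E] [CompleteSpace E]
    [MeasurableSpace Ω] (μ : Measure Ω) [IsFiniteMeasure μ] (hμ : 0 < μ.real Set.univ)
    (x : Ω → E) (t : E) (hi : ∀ z : E, Integrable (fun s => (inner ℂ z (x s) : ℂ)) μ)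
    (ht : ∀ z : E, (μ.real Set.univ : ℂ) * inner ℂ z t = ∫ s, (inner ℂ z (x s) : ℂ) ∂μ) :
    t ∈ closure (convexHull ℝ (Set.range x)) := by
  by_contra hcon
  obtain ⟨f, u, h1, h2⟩ := RCLike.geometric_hahn_banach_point_closed (𝕜 := ℂ)
    (convex_convexHull ℝ (Set.range x)).closure isClosed_closure hcon
  set z : E := (InnerProductSpace.toDual ℂ E).symm f with hz
  have hf : ∀ v, f v = inner ℂ z v := by
    intro v
    rw [hz, InnerProductSpace.toDual_symm_apply]
  have h3 : ∀ s, u ≤ (inner ℂ z (x s) : ℂ).re := by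
    intro s
    have := h2 (x s) (subset_closure (subset_convexHull ℝ _ ⟨s, rfl⟩))
    rw [hf] at this
    exact this.le
  have h4 : (inner ℂ z t : ℂ).re < u := by
    rw [hf] at h1
    exact h1
  have h5 := ht z
  have h6 : μ.real Set.univ * (inner ℂ z t : ℂ).re = ∫ s, (inner ℂ z (x s) : ℂ).re ∂μ := by
    have h7 := integral_re (𝕜 := ℂ) (hi z)
    have h8 : ∫ s, (inner ℂ z (x s) : ℂ).re ∂μ = (∫ s, (inner ℂ z (x s) : ℂ) ∂μ).re := by
      simpa using h7
    rw [h8, ← h5, Complex.re_ofReal_mul]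
  have h7 : ∫ _ : Ω, u ∂μ ≤ ∫ s, (inner ℂ z (x s) : ℂ).re ∂μ :=
    integral_mono (integrable_const _) (hi z).re h3
  rw [integral_const, smul_eq_mul, ← h6] at h7
  have h8 := le_of_mul_le_mul_left h7 hμ
  linarith

theorem RS_int {H Ω : Type} [NormedAddCommGroup H] [InnerProductSpace ℂ H]
    [MeasurableSpace Ω] (μ : Measure Ω) [IsFiniteMeasure μ] (U : Ω → (H ≃ₗᵢ[ℂ] H))
    (hm : ∀ v w : H, Measurable fun s => (inner ℂ v (U s w) : ℂ)) (v w : H) :
    Integrable (fun s => (inner ℂ v (U s w) : ℂ)) μ ∧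
      Integrable (fun s => (inner ℂ v ((U s).symm w) : ℂ)) μ := by
  constructor
  · refine Integrable.of_bound (hm v w).aestronglyMeasurable (‖v‖ * ‖w‖)
      (Filter.Eventually.of_forall fun s => ?_)
    refine (norm_inner_le_norm _ _).trans ?_
    rw [LinearIsometryEquiv.norm_map]
  · have h1 : (fun s => (inner ℂ v ((U s).symm w) : ℂ)) =
        fun s => (starRingEnd ℂ) (inner ℂ w (U s v) : ℂ) := by
      funext s
      rw [inner_conj_symm, ← LinearIsometryEquiv.inner_map_map (U s) v,
        LinearIsometryEquiv.apply_symm_apply]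
    refine Integrable.of_bound ?_ (‖v‖ * ‖w‖) (Filter.Eventually.of_forall fun s => ?_)
    · rw [h1]
      exact (Complex.continuous_conj.measurable.comp (hm w v)).aestronglyMeasurable
    · refine (norm_inner_le_norm _ _).trans ?_
      rw [LinearIsometryEquiv.norm_map]

theorem p_RS : Stmt_RS := by
  intro H Ω _ _ _ _ μ _ U T hm hT n w δ hδ
  by_cases hμ : μ.real Set.univ = 0
  · refine ⟨0, Fin.elim0, Fin.elim0, fun i => i.elim0, by simp [hμ], fun r => ?_⟩
    have hμ0 : μ = 0 := by
      rw [← Measure.measure_univ_eq_zero]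
      exact (measureReal_eq_zero_iff).1 hμ
    have h1 : T (w r) = 0 := by
      refine ext_inner_left ℂ fun v => ?_
      rw [hT v (w r), hμ0, integral_zero_measure, inner_zero_right]
    simp [h1, hδ.le]
  · have hM : 0 < μ.real Set.univ := lt_of_le_of_ne measureReal_nonneg (Ne.symm hμ)
    set M : ℝ := μ.real Set.univ with hMdef
    set x : Ω → PiLp 2 (fun _ : Fin n => H) := fun s =>
      WithLp.toLp 2 fun r => (M : ℂ) • ((1 / 2 : ℂ) • (U s (w r) + (U s).symm (w r))) with hx
    set t : PiLp 2 (fun _ : Fin n => H) := WithLp.toLp 2 fun r => T (w r) with ht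
    have hin : ∀ (z : PiLp 2 (fun _ : Fin n => H)) (s : Ω), (inner ℂ z (x s) : ℂ) =
        ∑ r, (M : ℂ) * (((inner ℂ (z r) (U s (w r)) : ℂ) +
          (inner ℂ (z r) ((U s).symm (w r)) : ℂ)) / 2) := by
      intro z s
      rw [PiLp.inner_apply]
      refine Finset.sum_congr rfl fun r _ => ?_
      show (inner ℂ (z r) ((M : ℂ) • ((1 / 2 : ℂ) • (U s (w r) + (U s).symm (w r)))) : ℂ) = _
      rw [inner_smul_right, inner_smul_right, inner_add_right]
      ring
    have hi1 : ∀ (z : PiLp 2 (fun _ : Fin n => H)) (r : Fin n), Integrable (fun s =>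
        (M : ℂ) * (((inner ℂ (z r) (U s (w r)) : ℂ) +
          (inner ℂ (z r) ((U s).symm (w r)) : ℂ)) / 2)) μ := fun z r =>
      (((RS_int μ U hm (z r) (w r)).1.add (RS_int μ U hm (z r) (w r)).2).div_const 2).const_mul _
    have hmem : t ∈ closure (convexHull ℝ (Set.range x)) := by
      refine RS_hull μ hM x t ?_ ?_
      · intro z
        simp only [hin]
        exact integrable_finsetSum _ fun r _ => hi1 z r
      · intro z
        simp only [hin]
        rw [integral_finsetSum _ fun r _ => hi1 z r, PiLp.inner_apply, Finset.mul_sum]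
        refine Finset.sum_congr rfl fun r _ => ?_
        rw [integral_const_mul, ← hT (z r) (w r)]
    obtain ⟨y, hy1, hy2⟩ := Metric.mem_closure_iff.1 hmem δ hδ
    rw [mem_convexHull_iff_exists_fintype] at hy1
    obtain ⟨ι, hι, c, z, hc0, hc1, hz, rfl⟩ := hy1
    choose s hs using hz
    set e : Fin (Fintype.card ι) ≃ ι := (Fintype.equivFin ι).symm with he
    refine ⟨Fintype.card ι, fun i => s (e i), fun i => c (e i) * M, fun i =>
      mul_nonneg (hc0 _) hM.le, ?_, ?_⟩
    · rw [← Finset.sum_mul, Equiv.sum_comp e c, hc1, one_mul]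
    · intro r
      have h1 : ‖(t - ∑ i, c i • z i) r‖ ≤ ‖t - ∑ i, c i • z i‖ := PiLp.norm_apply_le _ _
      have h2 : (t - ∑ i, c i • z i) r = T (w r) - ∑ i, ((c (e i) * M : ℝ) : ℂ) •
          ((1 / 2 : ℂ) • (U (s (e i)) (w r) + (U (s (e i))).symm (w r))) := by
        rw [Equiv.sum_comp e (fun i => ((c i * M : ℝ) : ℂ) •
          ((1 / 2 : ℂ) • (U (s i) (w r) + (U (s i)).symm (w r))))]
        have h3 : (∑ i, c i • z i : PiLp 2 (fun _ : Fin n => H)) r =
            ∑ i, (c i • z i : PiLp 2 (fun _ : Fin n => H)) r := by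
          simp
        rw [PiLp.sub_apply, h3]
        congr 1
        refine Finset.sum_congr rfl fun i _ => ?_
        rw [← hs i, PiLp.smul_apply]
        show c i • ((M : ℂ) • ((1 / 2 : ℂ) • (U (s i) (w r) + (U (s i)).symm (w r)))) = _
        rw [← Complex.coe_smul, smul_smul, ← Complex.ofReal_mul]
      rw [dist_eq_norm] at hy2
      rw [← h2]
      exact h1.trans hy2.le

end Pool.TC
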