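import Pool.Agent.Work.MP_972ac7_C.Interface

/-! Block SCN (helper84): a weakly measurable unitary representation on a separable Hilbert space is strongly
continuous (Steinhaus).  `E n = {g | ‖v - W g (h n)‖ < ε / 2}`, `h` dense. -/

set_option autoImplicit false

open MeasureTheory
open scoped ENNReal Topology Pointwise

noncomputable section

namespace Pool.TC

open Pool.TFD

section

variable {G : Type} [Group G] [TopologicalSpace G] [IsTopologicalGroup G]
  [LocallyCompactSpace G] [SecondCountableTopology G] [T2Space G] [MeasurableSpace G]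
  [BorelSpace G] {H : Type} [NormedAddCommGroup H] [InnerProductSpace ℂ H] [CompleteSpace H]
  [SecondCountableTopology H] (W : G →* (H ≃ₗᵢ[ℂ] H))
  (hW : ∀ v w : H, Measurable fun g => (inner ℂ v (W g w) : ℂ))

include hW in
theorem SCN_meas (v w : H) : Measurable fun g => ‖v - W g w‖ ^ 2 := by
  have h1 : (fun g => ‖v - W g w‖ ^ 2) = fun g => ‖v‖ ^ 2 - 2 * (inner ℂ v (W g w) : ℂ).re + ‖w‖ ^ 2 := by
    funext g
    have h2 := norm_sub_sq (𝕜 := ℂ) v (W g w)
    rw [(W g).norm_map] at h2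
    exact h2
  rw [h1]
  exact (measurable_const.sub ((Complex.measurable_re.comp (hW v w)).const_mul 2)).add measurable_const

include hW in
theorem SCN_one (v : H) (ε : ℝ) (hε : 0 < ε) : {g : G | ‖W g v - v‖ < ε} ∈ 𝓝 (1 : G) := by
  haveI : Nonempty H := ⟨0⟩
  let h : ℕ → H := TopologicalSpace.denseSeq H
  let E : ℕ → Set G := fun n => {g | ‖v - W g (h n)‖ < ε / 2}
  have hE : ∀ n, MeasurableSet (E n) := by
    intro n
    have h1 : E n = (fun g => ‖v - W g (h n)‖ ^ 2) ⁻¹' (Set.Iio ((ε / 2) ^ 2)) := by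
      ext g
      show ‖v - W g (h n)‖ < ε / 2 ↔ ‖v - W g (h n)‖ ^ 2 < (ε / 2) ^ 2
      exact (sq_lt_sq₀ (norm_nonneg _) (by positivity)).symm
    rw [h1]
    exact SCN_meas W hW v (h n) measurableSet_Iio
  have hU : (⋃ n, E n) = Set.univ := by
    refine Set.eq_univ_of_forall fun g => ?_
    obtain ⟨n, hn⟩ := (TopologicalSpace.denseRange_denseSeq H).exists_dist_lt ((W g).symm v)
      (half_pos hε)
    refine Set.mem_iUnion.2 ⟨n, ?_⟩
    show ‖v - W g (h n)‖ < ε / 2
    have h2 : v - W g (h n) = W g ((W g).symm v - h n) := by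
      rw [map_sub, LinearIsometryEquiv.apply_symm_apply]
    rw [h2, (W g).norm_map, ← dist_eq_norm]
    exact hn
  let ν : Measure G := Measure.haar
  obtain ⟨n, hn⟩ : ∃ n, 0 < ν (E n) := by
    by_contra hcon
    have h0 : ν (⋃ n, E n) = 0 := measure_iUnion_null fun n => by
      by_contra hne
      exact hcon ⟨n, pos_iff_ne_zero.2 hne⟩
    rw [hU] at h0
    exact (isOpen_univ.measure_pos ν Set.univ_nonempty).ne' h0
  have hdiv : E n / E n ∈ 𝓝 (1 : G) := Measure.div_mem_nhds_one_of_haar_pos ν (E n) (hE n) hn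
  refine Filter.mem_of_superset hdiv ?_
  rintro _ ⟨a, ha, b, hb, rfl⟩
  have ha' : ‖v - W a (h n)‖ < ε / 2 := ha
  have hb' : ‖v - W b (h n)‖ < ε / 2 := hb
  show ‖W (a / b) v - v‖ < ε
  have h3 : W (a / b) (W b (h n)) = W a (h n) := by
    have h4 : W (a / b) * W b = W a := by rw [← map_mul, div_mul_cancel]
    rw [← h4]
    rfl
  have h5 : W (a / b) v - v = W (a / b) (v - W b (h n)) - (v - W a (h n)) := by
    rw [map_sub, h3]
    abel
  rw [h5]
  calc _ ≤ ‖W (a / b) (v - W b (h n))‖ + ‖v - W a (h n)‖ := norm_sub_le _ _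
    _ = ‖v - W b (h n)‖ + ‖v - W a (h n)‖ := by rw [(W (a / b)).norm_map]
    _ < ε := by linarith

end

theorem p_SCN : Stmt_SCN := by
  intro G _ _ _ _ _ _ _ _ H _ _ _ _ W hW v
  rw [continuous_iff_continuousAt]
  intro g₀
  rw [Metric.continuousAt_iff']
  intro ε hε
  have h1 := SCN_one W hW v ε hε
  have h2 : Filter.Tendsto (fun g : G => g₀⁻¹ * g) (𝓝 g₀) (𝓝 1) := by
    have h3 : Continuous fun g : G => g₀⁻¹ * g := continuous_const.mul continuous_id
    have h4 := h3.tendsto g₀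
    rwa [inv_mul_cancel] at h4
  filter_upwards [h2 h1] with g hg
  have hg' : ‖W (g₀⁻¹ * g) v - v‖ < ε := hg
  rw [dist_eq_norm]
  have h5 : W g v - W g₀ v = W g₀ (W (g₀⁻¹ * g) v - v) := by
    rw [map_sub]
    have h6 : W g₀ * W (g₀⁻¹ * g) = W g := by rw [← map_mul, mul_inv_cancel_left]
    rw [← h6]
    rfl
  rw [h5, (W g₀).norm_map]
  exact hg'

end Pool.TC
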