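import Pool.Agent.Work.MP_972ac7_C.Interface

/-! Block SQC (helper65): the square root stays in the commutant. -/

set_option autoImplicit false

noncomputable section

namespace Pool.TC

open Pool.TFD

theorem p_SQC : Stmt_SQC := by
  intro H _ _ _ J _ D T _ hD r hr
  have h : Commute T r := hD r hr
  exact (h.cfcₙ_nnreal NNReal.sqrt).eq

end Pool.TC
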