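import Pool.Agent.Work.MP_972ac7_C.Interface

/-! # Block SQM: the modulus of a square integrable operator function -/

set_option autoImplicit false

open MeasureTheory
open scoped ENNReal

noncomputable section

namespace Pool.TC

open Pool.TFD

theorem p_SQM : Stmt_SQM := by
  intro H _ _ _ X _ m F hF
  have h1 : (fun x => CFC.sqrt (star (F x) * F x)) = fun x => CFC.abs (F x) := rfl
  rw [h1]
  refine hF.of_le (CFC.continuous_abs.comp_aestronglyMeasurable hF.1) ?_
  exact Filter.Eventually.of_forall fun x => by rw [CFC.norm_abs]

end Pool.TC
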