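import Pool.Agent.Work.MP_972ac7_C.Interface

/-! # Block STF: the standard form (note 2966)

The closed span `K₂` of the vectors `(π γ (ξ i))ᵢ` in `ℓ²(ι; K)`; left and right translations of the
index `γ` are unitary by the trace property; `R` is the ring generated by the right translations and
the scalars in `ℚ(i)`. -/

set_option autoImplicit false

open MeasureTheory
open scoped ENNReal

noncomputable section

namespace Pool.TC

open Pool.TFD

section STF_general

variable {Λ : Type} {H₁ H₂ : Type} [NormedAddCommGroup H₁] [InnerProductSpace ℂ H₁]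
  [NormedAddCommGroup H₂] [InnerProductSpace ℂ H₂]

/-- Linear combinations of the vectors `u γ`. -/
abbrev STF_lc (u : Λ → H₁) : (Λ →₀ ℂ) →ₗ[ℂ] H₁ := Finsupp.linearCombination ℂ u

theorem STF_inner (u : Λ → H₁) (v : Λ → H₂)
    (h : ∀ γ δ, (inner ℂ (u γ) (u δ) : ℂ) = inner ℂ (v γ) (v δ)) (f g : Λ →₀ ℂ) :
    (inner ℂ (STF_lc u f) (STF_lc u g) : ℂ) = inner ℂ (STF_lc v f) (STF_lc v g) := by
  induction f using Finsupp.induction_linear with
  | zero => simp
  | add f₁ f₂ h1 h2 => rw [map_add, map_add, inner_add_left, inner_add_left, h1, h2]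
  | single γ c =>
    induction g using Finsupp.induction_linear with
    | zero => simp
    | add g₁ g₂ h1 h2 => rw [map_add, map_add, inner_add_right, inner_add_right, h1, h2]
    | single δ d =>
      simp only [Finsupp.linearCombination_single, inner_smul_left, inner_smul_right]
      rw [h]

theorem STF_norm (u : Λ → H₁) (v : Λ → H₂)
    (h : ∀ γ δ, (inner ℂ (u γ) (u δ) : ℂ) = inner ℂ (v γ) (v δ)) (f : Λ →₀ ℂ) :
    ‖STF_lc u f‖ = ‖STF_lc v f‖ := by
  have h1 := STF_inner u v h f f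
  rw [inner_self_eq_norm_sq_to_K, inner_self_eq_norm_sq_to_K] at h1
  have h2 : ‖STF_lc u f‖ ^ 2 = ‖STF_lc v f‖ ^ 2 := by exact_mod_cast h1
  exact (pow_left_inj₀ (norm_nonneg _) (norm_nonneg _) two_ne_zero).1 h2

theorem STF_ext [CompleteSpace H₂] (u : Λ → H₁) (hu : DenseRange (STF_lc u)) (v : Λ → H₂) (C : ℝ)
    (h : ∀ f, ‖STF_lc v f‖ ≤ C * ‖STF_lc u f‖) :
    ∃ Ψ : H₁ →L[ℂ] H₂, ∀ γ, Ψ (u γ) = v γ := by
  refine ⟨(STF_lc v).extendOfNorm (STF_lc u), fun γ => ?_⟩
  have h1 := LinearMap.extendOfNorm_eq (f := STF_lc v) (e := STF_lc u) hu ⟨C, h⟩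
    (Finsupp.single γ 1)
  simpa using h1

theorem STF_map (u : Λ → H₁) (v : Λ → H₂) (A : H₁ →L[ℂ] H₂) (h : ∀ γ, A (u γ) = v γ)
    (f : Λ →₀ ℂ) : A (STF_lc u f) = STF_lc v f := by
  induction f using Finsupp.induction_linear with
  | zero => simp
  | add f₁ f₂ h1 h2 => rw [map_add, map_add, map_add, h1, h2]
  | single γ c => simp [h]

theorem STF_uniq (u : Λ → H₁) (hu : DenseRange (STF_lc u)) (A B : H₁ →L[ℂ] H₂)
    (h : ∀ γ, A (u γ) = B (u γ)) : A = B := by
  have h1 : ∀ f, A (STF_lc u f) = B (STF_lc u f) := fun f => by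
    rw [STF_map u (fun γ => B (u γ)) A h f, STF_map u (fun γ => B (u γ)) B (fun _ => rfl) f]
  have h2 : (A : H₁ → H₂) = B := hu.equalizer A.continuous B.continuous (funext h1)
  exact ContinuousLinearMap.ext fun x => congrFun h2 x

theorem STF_unitary [CompleteSpace H₁] (u : Λ → H₁) (hu : DenseRange (STF_lc u))
    (σ : Equiv.Perm Λ)
    (h : ∀ γ δ, (inner ℂ (u (σ γ)) (u (σ δ)) : ℂ) = inner ℂ (u γ) (u δ)) :
    ∃ W : H₁ ≃ₗᵢ[ℂ] H₁, ∀ γ, W (u γ) = u (σ γ) := by
  have hn : ∀ f, ‖STF_lc (fun γ => u (σ γ)) f‖ = ‖STF_lc u f‖ := fun f => STF_norm _ _ h f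
  have hn' : ∀ f, ‖STF_lc (fun γ => u (σ.symm γ)) f‖ = ‖STF_lc u f‖ := fun f =>
    STF_norm _ _ (fun γ δ => by rw [← h, Equiv.apply_symm_apply, Equiv.apply_symm_apply]) f
  obtain ⟨A, hA⟩ := STF_ext u hu (fun γ => u (σ γ)) 1 (fun f => by rw [hn, one_mul])
  obtain ⟨B, hB⟩ := STF_ext u hu (fun γ => u (σ.symm γ)) 1 (fun f => by rw [hn', one_mul])
  have hAB : A ∘L B = ContinuousLinearMap.id ℂ H₁ := STF_uniq u hu _ _ fun γ => by
    simp [hA, hB]
  have hBA : B ∘L A = ContinuousLinearMap.id ℂ H₁ := STF_uniq u hu _ _ fun γ => by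
    simp [hA, hB]
  have hnorm : ∀ x, ‖A x‖ = ‖x‖ := by
    intro x
    refine DenseRange.induction_on hu x (isClosed_eq (by fun_prop) (by fun_prop)) fun f => ?_
    rw [STF_map u (fun γ => u (σ γ)) A hA f, hn]
  exact ⟨⟨LinearEquiv.ofLinear A.toLinearMap B.toLinearMap
    (LinearMap.ext fun x => congrArg (fun T : H₁ →L[ℂ] H₁ => T x) hAB)
    (LinearMap.ext fun x => congrArg (fun T : H₁ →L[ℂ] H₁ => T x) hBA), hnorm⟩, hA⟩

/-- The closed span of a family. -/
theorem STF_span (U : Λ → H₁) : ∃ u : Λ → (LinearMap.range (STF_lc U)).topologicalClosure,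
    DenseRange (STF_lc u) ∧ ∀ γ, (u γ : H₁) = U γ := by
  have hm : ∀ γ, U γ ∈ (LinearMap.range (STF_lc U)).topologicalClosure := fun γ =>
    Submodule.le_topologicalClosure _ ⟨Finsupp.single γ 1, by simp⟩
  refine ⟨fun γ => ⟨U γ, hm γ⟩, ?_, fun _ => rfl⟩
  intro x
  rw [closure_subtype]
  have hx : (x : H₁) ∈ closure ((LinearMap.range (STF_lc U) : Submodule ℂ H₁) : Set H₁) := x.2
  refine closure_mono ?_ hx
  rintro _ ⟨f, rfl⟩
  refine ⟨STF_lc (fun γ => (⟨U γ, hm γ⟩ : (LinearMap.range (STF_lc U)).topologicalClosure)) f,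
    ⟨f, rfl⟩, ?_⟩
  exact STF_map _ U (LinearMap.range (STF_lc U)).topologicalClosure.subtypeL (fun _ => rfl) f

end STF_general

/-- The Gaussian rationals. -/
def STF_Q : Subring ℂ where
  carrier := {z | ∃ a b : ℚ, z = a + b * Complex.I}
  mul_mem' := by
    rintro _ _ ⟨a, b, rfl⟩ ⟨c, d, rfl⟩
    refine ⟨a * c - b * d, a * d + b * c, ?_⟩
    push_cast
    linear_combination (b * d : ℂ) * Complex.I_sq
  one_mem' := ⟨1, 0, by simp⟩
  add_mem' := by
    rintro _ _ ⟨a, b, rfl⟩ ⟨c, d, rfl⟩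
    refine ⟨a + c, b + d, ?_⟩
    push_cast
    ring
  zero_mem' := ⟨0, 0, by simp⟩
  neg_mem' := by
    rintro _ ⟨a, b, rfl⟩
    refine ⟨-a, -b, ?_⟩
    push_cast
    ring

theorem STF_Q_I : Complex.I ∈ STF_Q := ⟨0, 1, by simp⟩

theorem STF_Q_star (z : ℂ) (hz : z ∈ STF_Q) : star z ∈ STF_Q := by
  obtain ⟨a, b, rfl⟩ := hz
  refine ⟨a, -b, ?_⟩
  simp

theorem STF_Q_countable : Countable STF_Q := by
  have h : (STF_Q : Set ℂ) = Set.range (fun x : ℚ × ℚ => (x.1 : ℂ) + x.2 * Complex.I) := by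
    ext z
    constructor
    · rintro ⟨a, b, rfl⟩
      exact ⟨(a, b), rfl⟩
    · rintro ⟨⟨a, b⟩, rfl⟩
      exact ⟨a, b, rfl⟩
  have h2 : (STF_Q : Set ℂ).Countable := by
    rw [h]
    exact Set.countable_range _
  exact h2.to_subtype

theorem STF_Q_dense : Dense (STF_Q : Set ℂ) := by
  have h1 : DenseRange (fun x : ℚ × ℚ => ((x.1 : ℝ), (x.2 : ℝ))) :=
    Rat.denseRange_cast.prodMap Rat.denseRange_cast
  have h2 : DenseRange (fun x : ℝ × ℝ => (x.1 : ℂ) + x.2 * Complex.I) := by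
    refine Function.Surjective.denseRange fun z => ⟨(z.re, z.im), ?_⟩
    simp
  have h3 := h2.comp h1 (by fun_prop)
  refine h3.mono ?_
  rintro _ ⟨⟨a, b⟩, rfl⟩
  exact ⟨a, b, by simp⟩

section STF_ring

variable {Λ : Type} [Group Λ] {H : Type} [NormedAddCommGroup H] [InnerProductSpace ℂ H]
  [CompleteSpace H]

/-- The ring homomorphism from the group algebra over the Gaussian rationals. -/
def STF_Φ (ρ : Λ →* (H →L[ℂ] H)) : MonoidAlgebra STF_Q Λ →+* (H →L[ℂ] H) :=
  MonoidAlgebra.liftNCRingHom ((algebraMap ℂ (H →L[ℂ] H)).comp STF_Q.subtype) ρ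
    fun x y => Algebra.commutes _ _

theorem STF_Φ_single (ρ : Λ →* (H →L[ℂ] H)) (g : Λ) (c : STF_Q) :
    STF_Φ ρ (MonoidAlgebra.single g c) = (c : ℂ) • ρ g := by
  show MonoidAlgebra.liftNC _ _ _ = _
  rw [MonoidAlgebra.liftNC_single, Algebra.smul_def]
  rfl

theorem STF_Φ_ind (ρ : Λ →* (H →L[ℂ] H)) (P : (H →L[ℂ] H) → Prop) (h0 : P 0)
    (hadd : ∀ a b, P a → P b → P (a + b)) (hs : ∀ g : Λ, ∀ c ∈ STF_Q, P (c • ρ g)) :
    ∀ r ∈ (STF_Φ ρ).range, P r := by
  rintro _ ⟨a, rfl⟩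
  induction a using MonoidAlgebra.induction_linear with
  | zero =>
    have : STF_Φ ρ 0 = 0 := map_zero _
    exact this ▸ h0
  | add f g h1 h2 =>
    have : STF_Φ ρ (f + g) = STF_Φ ρ f + STF_Φ ρ g := map_add _ _ _
    exact this ▸ hadd _ _ h1 h2
  | single g c =>
    have := STF_Φ_single ρ g c
    exact this ▸ hs g c c.2

theorem STF_Φ_mem (ρ : Λ →* (H →L[ℂ] H)) (g : Λ) (c : ℂ) (hc : c ∈ STF_Q) :
    c • ρ g ∈ (STF_Φ ρ).range := ⟨MonoidAlgebra.single g ⟨c, hc⟩, STF_Φ_single ρ g ⟨c, hc⟩⟩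

theorem STF_Φ_countable [Countable Λ] (ρ : Λ →* (H →L[ℂ] H)) :
    ((STF_Φ ρ).range : Set (H →L[ℂ] H)).Countable := by
  haveI := STF_Q_countable
  haveI : Countable (MonoidAlgebra STF_Q Λ) := MonoidAlgebra.coeffEquiv.injective.countable
  rw [RingHom.coe_range]
  exact Set.countable_range _

/-- The module of a family of vectors `u` with an invariant kernel. -/
theorem STF_core [Countable Λ] (u : Λ → H) (hu : DenseRange (STF_lc u)) (τ : Λ → ℂ)
    (hτ : ∀ γ δ, (inner ℂ (u γ) (u δ) : ℂ) = τ (γ⁻¹ * δ)) (htr : ∀ a b, τ (a * b) = τ (b * a)) :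
    ∃ (S : SM H) (π₂ : Λ →* (H ≃ₗᵢ[ℂ] H)), (∀ γ, S.Mem (opU (π₂ γ))) ∧ S.ξ = u 1 ∧
      ∀ γ δ, π₂ γ (u δ) = u (γ * δ) := by
  -- left translations
  have hL : ∀ g : Λ, ∃ W : H ≃ₗᵢ[ℂ] H, ∀ γ, W (u γ) = u (g * γ) := fun g =>
    STF_unitary u hu (Equiv.mulLeft g) fun γ δ => by
      rw [hτ, hτ, Equiv.coe_mulLeft]
      congr 1
      group
  choose L hL using hL
  -- right translations
  have hR : ∀ g : Λ, ∃ W : H ≃ₗᵢ[ℂ] H, ∀ γ, W (u γ) = u (γ * g⁻¹) := fun g =>
    STF_unitary u hu (Equiv.mulRight g⁻¹) fun γ δ => by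
      rw [hτ, hτ, Equiv.coe_mulRight]
      rw [mul_inv_rev, inv_inv, mul_assoc, htr]
      congr 1
      group
  choose R hR using hR
  have huniq : ∀ A B : H ≃ₗᵢ[ℂ] H, (∀ γ, A (u γ) = B (u γ)) → A = B := by
    intro A B h
    have h1 : opU A = opU B := STF_uniq u hu _ _ h
    ext x
    exact congrArg (fun T : H →L[ℂ] H => T x) h1
  let π₂ : Λ →* (H ≃ₗᵢ[ℂ] H) :=
    { toFun := L
      map_one' := huniq _ _ fun γ => by rw [hL, one_mul]; rfl
      map_mul' := fun a b => huniq _ _ fun γ => by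
        rw [hL, LinearIsometryEquiv.coe_mul, Function.comp_apply, hL, hL, mul_assoc] }
  let ρ : Λ →* (H →L[ℂ] H) :=
    { toFun := fun g => opU (R g)
      map_one' := STF_uniq u hu _ _ fun γ => by
        rw [opU_apply, hR, inv_one, mul_one]; rfl
      map_mul' := fun a b => STF_uniq u hu _ _ fun γ => by
        rw [ContinuousLinearMap.mul_apply, opU_apply, opU_apply, opU_apply, hR, hR, hR,
          mul_inv_rev, mul_assoc] }
  have hρ : ∀ g γ, ρ g (u γ) = u (γ * g⁻¹) := fun g γ => hR g γ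
  have hρs : ∀ g, star (ρ g) = ρ g⁻¹ := by
    intro g
    have h1 : ρ g * ρ g⁻¹ = 1 := by rw [← map_mul, mul_inv_cancel, map_one]
    have h2 : star (ρ g) * ρ g = 1 := by
      refine ContinuousLinearMap.ext fun x => ext_inner_right ℂ fun y => ?_
      rw [ContinuousLinearMap.mul_apply, ContinuousLinearMap.star_eq_adjoint,
        ContinuousLinearMap.adjoint_inner_left]
      exact (R g).inner_map_map x y
    calc star (ρ g) = star (ρ g) * (ρ g * ρ g⁻¹) := by rw [h1, mul_one]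
      _ = ρ g⁻¹ := by rw [← mul_assoc, h2, one_mul]
  let S : SM H :=
    { R := (STF_Φ ρ).range
      star_mem := by
        refine STF_Φ_ind ρ _ ?_ ?_ ?_
        · rw [star_zero]; exact Subring.zero_mem _
        · intro a b ha hb
          rw [star_add]; exact Subring.add_mem _ ha hb
        · intro g c hc
          rw [star_smul, hρs]
          exact STF_Φ_mem ρ _ _ (STF_Q_star c hc)
      I_mem := by
        intro r hr
        have h1 : Complex.I • r = (Complex.I • ρ 1) * r := by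
          rw [map_one, smul_mul_assoc, one_mul]
        rw [h1]
        exact Subring.mul_mem _ (STF_Φ_mem ρ 1 _ STF_Q_I) hr
      countable := STF_Φ_countable ρ
      ξ := u 1
      trace := by
        refine STF_Φ_ind ρ _ ?_ ?_ ?_
        · intro s _; simp
        · intro a b ha hb s hs
          rw [ContinuousLinearMap.add_apply, ContinuousLinearMap.add_apply, map_add,
            inner_add_right, inner_add_right, ha s hs, hb s hs]
        · intro g c _
          refine STF_Φ_ind ρ _ ?_ ?_ ?_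
          · simp
          · intro a b ha hb
            rw [ContinuousLinearMap.add_apply, ContinuousLinearMap.add_apply, map_add,
              inner_add_right, inner_add_right, ha, hb]
          · intro h d _
            simp only [ContinuousLinearMap.smul_apply, map_smul, inner_smul_right, hρ, hτ,
              one_mul, inv_one]
            rw [htr, mul_left_comm]
      dense := by
        let D : AddSubgroup H :=
          { carrier := {v : H | ∃ r ∈ (STF_Φ ρ).range, r (u 1) = v}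
            add_mem' := by
              rintro _ _ ⟨r, hr, rfl⟩ ⟨s, hs, rfl⟩
              exact ⟨r + s, Subring.add_mem _ hr hs, rfl⟩
            zero_mem' := ⟨0, Subring.zero_mem _, rfl⟩
            neg_mem' := by
              rintro _ ⟨r, hr, rfl⟩
              exact ⟨-r, Subring.neg_mem _ hr, rfl⟩ }
        have h1 : ∀ (γ : Λ) (c : ℂ), c • u γ ∈ D.topologicalClosure := by
          intro γ c
          have h2 : c ∈ closure (STF_Q : Set ℂ) := STF_Q_dense c
          have h3 : Continuous fun c : ℂ => c • u γ := by fun_prop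
          have h4 := image_closure_subset_closure_image h3 ⟨c, h2, rfl⟩
          refine closure_mono ?_ h4
          rintro _ ⟨d, hd, rfl⟩
          refine ⟨d • ρ γ⁻¹, STF_Φ_mem ρ _ _ hd, ?_⟩
          rw [ContinuousLinearMap.smul_apply, hρ, inv_inv, one_mul]
        have h5 : ∀ f, STF_lc u f ∈ D.topologicalClosure := by
          intro f
          induction f using Finsupp.induction_linear with
          | zero => rw [map_zero]; exact AddSubgroup.zero_mem _
          | add f₁ f₂ h1 h2 => rw [map_add]; exact AddSubgroup.add_mem _ h1 h2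
          | single γ c => rw [Finsupp.linearCombination_single]; exact h1 γ c
        have h6 : Dense (closure (D : Set H)) := by
          refine hu.mono ?_
          rintro _ ⟨f, rfl⟩
          exact h5 f
        exact dense_closure.1 h6 }
  refine ⟨S, π₂, ?_, rfl, hL⟩
  intro γ
  refine STF_Φ_ind ρ _ ?_ ?_ ?_
  · rw [mul_zero, zero_mul]
  · intro a b ha hb
    rw [mul_add, add_mul, ha, hb]
  · intro g c _
    rw [mul_smul_comm, smul_mul_assoc]
    congr 1
    refine STF_uniq u hu _ _ fun δ => ?_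
    rw [ContinuousLinearMap.mul_apply, ContinuousLinearMap.mul_apply, hρ, opU_apply, opU_apply]
    show L γ (u (δ * g⁻¹)) = ρ g (L γ (u δ))
    rw [hL, hL, hρ, mul_assoc]

end STF_ring

theorem p_STF : Stmt_STF := by
  intro Λ _ _ K _ _ _ M ι ξ π hπ hξ htr
  -- the vectors `(π γ (ξ i))ᵢ`
  have hmem : ∀ γ : Λ, Memℓp (fun i => π γ (ξ i)) 2 := by
    intro γ
    refine memℓp_gen ?_
    have h1 : (fun i => ‖π γ (ξ i)‖ ^ (2 : ℝ≥0∞).toReal) = fun i => ‖ξ i‖ ^ 2 := by
      funext i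
      rw [LinearIsometryEquiv.norm_map]
      norm_num
    rw [h1]
    exact hξ
  let U : Λ → lp (fun _ : ι => K) 2 := fun γ => ⟨fun i => π γ (ξ i), hmem γ⟩
  have hUi : ∀ γ i, U γ i = π γ (ξ i) := fun _ _ => rfl
  let τ : Λ → ℂ := fun γ => ∑' i, (inner ℂ (ξ i) (π γ (ξ i)) : ℂ)
  have hτU : ∀ γ δ, (inner ℂ (U γ) (U δ) : ℂ) = τ (γ⁻¹ * δ) := by
    intro γ δ
    rw [lp.inner_eq_tsum]
    refine tsum_congr fun i => ?_
    rw [hUi, hUi, map_mul, LinearIsometryEquiv.coe_mul, Function.comp_apply]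
    have h1 : π γ (π γ⁻¹ (π δ (ξ i))) = π δ (ξ i) := by
      have h2 : π γ * π γ⁻¹ = 1 := by rw [← map_mul, mul_inv_cancel, map_one]
      have h3 := congrArg (fun T : K ≃ₗᵢ[ℂ] K => T (π δ (ξ i))) h2
      exact h3
    conv_lhs => rw [← h1]
    exact (π γ).inner_map_map _ _
  have hττ : ∀ a b, τ (a * b) = τ (b * a) := by
    intro a b
    have h1 := htr (opU (π a)) (hπ a) (opU (π b)) (hπ b)
    have h2 : ∀ a b : Λ, τ (a * b) = ∑' i, (inner ℂ (ξ i) (opU (π a) (opU (π b) (ξ i))) : ℂ) := by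
      intro a b
      refine tsum_congr fun i => ?_
      rw [map_mul]
      rfl
    rw [h2, h2, h1]
  obtain ⟨u, hu, huU⟩ := STF_span U
  have hτu : ∀ γ δ, (inner ℂ (u γ) (u δ) : ℂ) = τ (γ⁻¹ * δ) := by
    intro γ δ
    rw [← hτU, ← huU, ← huU]
    rfl
  haveI : CompleteSpace (LinearMap.range (STF_lc U)).topologicalClosure :=
    Submodule.topologicalClosure.completeSpace _
  obtain ⟨S, π₂, h1, h2, h3⟩ := STF_core u hu τ hτu hττ
  refine ⟨_, _, _, inferInstance, S, π₂, h1, ?_⟩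
  intro r hr i
  have hrπ : ∀ γ v, r (π γ v) = π γ (r v) := by
    intro γ v
    have h4 := congrArg (fun T : K →L[ℂ] K => T v) (hr (opU (π γ)) (hπ γ))
    exact h4.symm
  obtain ⟨Ψ, hΨ⟩ := STF_ext u hu (fun γ => π γ (r (ξ i))) ‖r‖ (by
    intro f
    have h5 : STF_lc (fun γ => π γ (r (ξ i))) f = r ((STF_lc U f) i) := by
      induction f using Finsupp.induction_linear with
      | zero => simp
      | add f₁ f₂ h1 h2 =>
        rw [map_add, map_add, h1, h2, lp.coeFn_add, Pi.add_apply, map_add]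
      | single γ c =>
        rw [Finsupp.linearCombination_single, Finsupp.linearCombination_single, lp.coeFn_smul,
          Pi.smul_apply, map_smul, hUi, hrπ]
    have h6 : ‖STF_lc u f‖ = ‖STF_lc U f‖ := STF_norm u U (fun γ δ => by rw [hτu, hτU]) f
    rw [h5, h6]
    exact (r.le_opNorm _).trans (mul_le_mul_of_nonneg_left
      (lp.norm_apply_le_norm two_ne_zero _ _) (norm_nonneg _)))
  refine ⟨Ψ, ?_, ?_⟩
  · intro γ
    refine STF_uniq u hu _ _ fun δ => ?_
    rw [ContinuousLinearMap.comp_apply, ContinuousLinearMap.comp_apply, opU_apply, opU_apply, h3,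
      hΨ, hΨ, map_mul]
    rfl
  · rw [h2, hΨ, map_one]
    rfl

end Pool.TC
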