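import Pool.Agent.Work.MP_972ac7_C.Interface

set_option autoImplicit false

open MeasureTheory
open scoped ENNReal InnerProductSpace

noncomputable section

namespace Pool.TC

open Pool.TFD

theorem p_STL : Stmt_STL := by
  intro X _ m K _ _ _ r
  symm
  refine (ContinuousLinearMap.eq_adjoint_iff _ _).2 ?_
  intro f g
  rw [L2.inner_def, L2.inner_def]
  refine integral_congr_ae ?_
  filter_upwards [ContinuousLinearMap.coeFn_compLpL (star r) f,
    ContinuousLinearMap.coeFn_compLpL r g] with x h1 h2
  rw [h1, h2, ContinuousLinearMap.star_eq_adjoint, ContinuousLinearMap.adjoint_inner_left]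

end Pool.TC
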