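import Pool.Agent.Work.MP_972ac7_C.B_TOT
import Pool.Agent.Work.MP_972ac7_C.B_STL

set_option autoImplicit false

open MeasureTheory
open scoped ENNReal InnerProductSpace

noncomputable section

namespace Pool.TC

open Pool.TFD

section SWT

variable {X : Type} [MeasurableSpace X] {m : Measure X} {K : Type} [NormedAddCommGroup K]
    [InnerProductSpace ℂ K] [CompleteSpace K]

theorem SWT_adj (r : K →L[ℂ] K) (φ : Lp ℂ 2 m) (g : Lp K 2 m) :
    (ContinuousLinearMap.adjoint (tn (K := K) φ))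
      ((r.compLpL 2 m : Lp K 2 m →L[ℂ] Lp K 2 m) g) =
      r ((ContinuousLinearMap.adjoint (tn (K := K) φ)) g) := by
  refine ext_inner_left ℂ fun u => ?_
  have h0 : (r.compLpL 2 m : Lp K 2 m →L[ℂ] Lp K 2 m) = star ((star r).compLpL 2 m) := by
    rw [p_STL, star_star]
  rw [ContinuousLinearMap.adjoint_inner_right, h0, ContinuousLinearMap.star_eq_adjoint,
    ContinuousLinearMap.adjoint_inner_right, TOT_tn,
    ← ContinuousLinearMap.adjoint_inner_right, ContinuousLinearMap.star_eq_adjoint,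
    ContinuousLinearMap.adjoint_inner_left]

theorem SWT_par [IsFiniteMeasure m] (hPAR : Stmt_PAR) {ι : Type}
    (b : HilbertBasis ι ℂ (Lp ℂ 2 m)) (g : Lp K 2 m) :
    ‖g‖ₑ ^ 2 = ∑' i, ‖(ContinuousLinearMap.adjoint (tn (K := K) (b i))) g‖ₑ ^ 2 := by
  have h1 := hPAR X m K ι b g
  have h2 : ∀ {E : Type} [NormedAddCommGroup E] (x : E), ‖x‖ₑ ^ 2 = ENNReal.ofReal (‖x‖ ^ 2) := by
    intro E _ x
    rw [ENNReal.ofReal_pow (norm_nonneg _), ofReal_norm_eq_enorm]
  simp only [h2]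
  rw [← h1.tsum_eq, ENNReal.ofReal_tsum_of_nonneg (fun i => by positivity) h1.summable]

end SWT

theorem p_SWT (hTP : Stmt_TP) (hPAR : Stmt_PAR) : Stmt_SWT := by
  intro X _ m _ K _ _ _ S ι b T hT
  -- the entries
  set E : ι → ι → K →L[ℂ] K := fun i j =>
    (ContinuousLinearMap.adjoint (tn (K := K) (b i))) ∘L T ∘L tn (K := K) (b j) with hE
  have hEmem : ∀ i j, S.Mem (E i j) := by
    intro i j r hr
    ext v
    show (ContinuousLinearMap.adjoint (tn (K := K) (b i))) (T (tn (K := K) (b j) (r v))) =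
      r ((ContinuousLinearMap.adjoint (tn (K := K) (b i))) (T (tn (K := K) (b j) v)))
    rw [← TOT_tn, ← SWT_adj]
    have h1 := DFunLike.congr_fun (hT r hr) (tn (K := K) (b j) v)
    rw [ContinuousLinearMap.mul_apply, ContinuousLinearMap.mul_apply] at h1
    rw [h1]
  have hEstar : ∀ i j, star (E i j) =
      (ContinuousLinearMap.adjoint (tn (K := K) (b j))) ∘L (star T) ∘L tn (K := K) (b i) := by
    intro i j
    simp only [hE]
    rw [ContinuousLinearMap.star_eq_adjoint, ContinuousLinearMap.star_eq_adjoint,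
      ContinuousLinearMap.adjoint_comp, ContinuousLinearMap.adjoint_comp,
      ContinuousLinearMap.adjoint_adjoint]
    rfl
  have h1 : ∀ j, ‖T (tn (b j) S.ξ)‖ₑ ^ 2 = ∑' i, ‖E i j S.ξ‖ₑ ^ 2 := fun j =>
    SWT_par hPAR b (T (tn (b j) S.ξ))
  have h2 : ∀ i, ‖(star T) (tn (b i) S.ξ)‖ₑ ^ 2 = ∑' j, ‖(star (E i j)) S.ξ‖ₑ ^ 2 := by
    intro i
    rw [SWT_par hPAR b ((star T) (tn (b i) S.ξ))]
    refine tsum_congr fun j => ?_
    rw [hEstar]
    rfl
  have h3 : ∀ i j, ‖(star (E i j)) S.ξ‖ₑ = ‖E i j S.ξ‖ₑ := by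
    intro i j
    rw [← ofReal_norm_eq_enorm, ← ofReal_norm_eq_enorm, hTP K S (E i j) (hEmem i j)]
  simp only [h1, h2, h3]
  exact ENNReal.tsum_comm

end Pool.TC
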