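import Pool.Agent.Work.MP_972ac7_C.Interface
import Pool.Agent.Work.MP_972ac7_gen.B_TOP

/-! Block TOPK (helper84): the averaged operator.  The operator `S` of `Pool.TFD.p_TOP` (helper65), the weak formula
and the commutation with bounded operators from the weak formula. -/

set_option autoImplicit false

open MeasureTheory
open scoped ENNReal

noncomputable section

namespace Pool.TC

open Pool.TFD

section

variable {H Ω : Type} [NormedAddCommGroup H] [InnerProductSpace ℂ H] [CompleteSpace H]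
  [MeasurableSpace Ω] (μ : Measure Ω) [IsFiniteMeasure μ] (U : Ω → (H ≃ₗᵢ[ℂ] H))
  (hU : ∀ v w : H, Measurable fun s => (inner ℂ v (U s w) : ℂ))

/-- the averaged operator -/
def TOPK_T : H →L[ℂ] H :=
  ((1 / 2 : ℝ) : ℂ) • (TOP_S μ U hU + ContinuousLinearMap.adjoint (TOP_S μ U hU))

theorem TOPK_sa : IsSelfAdjoint (TOPK_T μ U hU) := by
  unfold TOPK_T
  rw [IsSelfAdjoint, star_smul, star_add, ContinuousLinearMap.star_eq_adjoint,
    ContinuousLinearMap.star_eq_adjoint, ContinuousLinearMap.adjoint_adjoint, add_comm]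
  congr 1
  rw [Complex.star_def, Complex.conj_ofReal]

theorem TOPK_S_norm : ‖TOP_S μ U hU‖ ≤ μ.real Set.univ := by
  refine ContinuousLinearMap.opNorm_le_bound _ measureReal_nonneg (fun v => ?_)
  have h1 : ‖(inner ℂ (TOP_S μ U hU v) (TOP_S μ U hU v) : ℂ)‖ ≤
      (‖v‖ * ‖TOP_S μ U hU v‖) * μ.real Set.univ := by
    rw [TOP_S_apply]
    refine norm_integral_le_of_norm_le_const (Filter.Eventually.of_forall (fun s => ?_))
    refine (norm_inner_le_norm v _).trans ?_
    rw [(U s).norm_map]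
  rw [inner_self_eq_norm_sq_to_K] at h1
  have h2 : ‖TOP_S μ U hU v‖ ^ 2 ≤ (‖v‖ * ‖TOP_S μ U hU v‖) * μ.real Set.univ := by
    simpa using h1
  rcases (norm_nonneg (TOP_S μ U hU v)).eq_or_lt with h | h
  · rw [← h]
    exact mul_nonneg measureReal_nonneg (norm_nonneg _)
  · nlinarith [h2, h]

theorem TOPK_norm : ‖TOPK_T μ U hU‖ ≤ μ.real Set.univ := by
  unfold TOPK_T
  rw [norm_smul]
  have h1 := TOPK_S_norm μ U hU
  have h2 : ‖ContinuousLinearMap.adjoint (TOP_S μ U hU)‖ = ‖TOP_S μ U hU‖ :=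
    LinearIsometryEquiv.norm_map _ _
  have h3 : ‖TOP_S μ U hU + ContinuousLinearMap.adjoint (TOP_S μ U hU)‖ ≤
      μ.real Set.univ + μ.real Set.univ := (norm_add_le _ _).trans (by rw [h2]; linarith)
  have h4 : ‖((1 / 2 : ℝ) : ℂ)‖ = 1 / 2 := by
    rw [Complex.norm_real]
    norm_num
  rw [h4]
  linarith

theorem TOPK_weak : WeakAvg μ U (TOPK_T μ U hU) := by
  intro v w
  have e1 : (inner ℂ v (TOP_S μ U hU w) : ℂ) = ∫ s, (inner ℂ v ((U s).symm w) : ℂ) ∂μ := by
    rw [← inner_conj_symm, TOP_S_apply, ← integral_conj]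
    refine integral_congr_ae (Filter.Eventually.of_forall (fun s => ?_))
    show (starRingEnd ℂ) (inner ℂ w (U s v) : ℂ) = inner ℂ v ((U s).symm w)
    rw [inner_conj_symm]
    have h := (U s).inner_map_map v ((U s).symm w)
    rw [(U s).apply_symm_apply] at h
    exact h
  have e2 : (inner ℂ v (ContinuousLinearMap.adjoint (TOP_S μ U hU) w) : ℂ) =
      ∫ s, (inner ℂ v (U s w) : ℂ) ∂μ := by
    rw [ContinuousLinearMap.adjoint_inner_right, TOP_S_apply]
  have i1 : Integrable (fun s => (inner ℂ v (U s w) : ℂ)) μ := TOP_int μ U hU v w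
  have i2 : Integrable (fun s => (inner ℂ v ((U s).symm w) : ℂ)) μ := by
    have h1 : (fun s => (inner ℂ v ((U s).symm w) : ℂ)) =
        fun s => (starRingEnd ℂ) (inner ℂ w (U s v) : ℂ) := by
      funext s
      rw [inner_conj_symm]
      have h := (U s).inner_map_map v ((U s).symm w)
      rw [(U s).apply_symm_apply] at h
      exact h.symm
    rw [h1]
    exact (Complex.conjCLE.toContinuousLinearMap.integrable_comp (TOP_int μ U hU w v))
  unfold TOPK_T
  rw [_root_.smul_apply, _root_.add_apply, inner_smul_right, inner_add_right, e1, e2,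
    integral_div, integral_add i1 i2]
  push_cast
  ring

theorem TOPK_symm (B : H →L[ℂ] H) (V : H ≃ₗᵢ[ℂ] H) (hB : B * opU V = opU V * B) (w : H) :
    B (V.symm w) = V.symm (B w) := by
  have h1 := congrArg (fun T : H →L[ℂ] H => T (V.symm w)) hB
  have h2 : B (V (V.symm w)) = V (B (V.symm w)) := h1
  rw [V.apply_symm_apply] at h2
  rw [h2, V.symm_apply_apply]

theorem TOPK_comm (T : H →L[ℂ] H) (hT : WeakAvg μ U T) (B : H →L[ℂ] H)
    (hB : ∀ s, B * opU (U s) = opU (U s) * B) : B * T = T * B := by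
  ext w
  refine ext_inner_left ℂ (fun v => ?_)
  show (inner ℂ v (B (T w)) : ℂ) = inner ℂ v (T (B w))
  rw [← ContinuousLinearMap.adjoint_inner_left, hT, hT]
  refine integral_congr_ae (Filter.Eventually.of_forall (fun s => ?_))
  show ((inner ℂ (ContinuousLinearMap.adjoint B v) (U s w) : ℂ) +
    (inner ℂ (ContinuousLinearMap.adjoint B v) ((U s).symm w) : ℂ)) / 2 =
    ((inner ℂ v (U s (B w)) : ℂ) + (inner ℂ v ((U s).symm (B w)) : ℂ)) / 2
  rw [ContinuousLinearMap.adjoint_inner_left, ContinuousLinearMap.adjoint_inner_left,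
    TOPK_symm B (U s) (hB s) w]
  have h1 := congrArg (fun T : H →L[ℂ] H => T w) (hB s)
  have h2 : B (U s w) = U s (B w) := h1
  rw [h2]

theorem TOPK_energy (v : H) : ∫⁻ s, ENNReal.ofReal (‖U s v - v‖ ^ 2) ∂μ =
    ENNReal.ofReal (2 * (μ.real Set.univ * ‖v‖ ^ 2 - (inner ℂ v (TOPK_T μ U hU v)).re)) := by
  have hre : (inner ℂ v (TOPK_T μ U hU v) : ℂ).re = ∫ s, (inner ℂ v (U s v) : ℂ).re ∂μ := by
    have e1 : (inner ℂ v (TOP_S μ U hU v) : ℂ).re = (inner ℂ (TOP_S μ U hU v) v : ℂ).re :=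
      inner_re_symm (𝕜 := ℂ) v (TOP_S μ U hU v)
    have e2 : (inner ℂ v (ContinuousLinearMap.adjoint (TOP_S μ U hU) v) : ℂ) =
        inner ℂ (TOP_S μ U hU v) v := ContinuousLinearMap.adjoint_inner_right _ _ _
    have e3 : (inner ℂ (TOP_S μ U hU v) v : ℂ).re = ∫ s, (inner ℂ v (U s v) : ℂ).re ∂μ := by
      rw [TOP_S_apply]
      exact (integral_re (𝕜 := ℂ) (TOP_int μ U hU v v)).symm
    unfold TOPK_T
    rw [_root_.smul_apply, _root_.add_apply, inner_smul_right,
      inner_add_right, Complex.re_ofReal_mul, Complex.add_re, e1, e2, e3]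
    ring
  have hnorm : ∀ s, ‖U s v - v‖ ^ 2 = 2 * ‖v‖ ^ 2 - 2 * (inner ℂ v (U s v) : ℂ).re := by
    intro s
    have h1 := norm_sub_sq (𝕜 := ℂ) (U s v) v
    rw [(U s).norm_map] at h1
    have h2 : RCLike.re (inner ℂ (U s v) v : ℂ) = (inner ℂ v (U s v) : ℂ).re :=
      inner_re_symm (𝕜 := ℂ) (U s v) v
    rw [h1, h2]
    ring
  have hint : Integrable (fun s => (inner ℂ v (U s v) : ℂ).re) μ := (TOP_int μ U hU v v).re
  have hint2 : Integrable (fun s => ‖U s v - v‖ ^ 2) μ := by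
    simp only [hnorm]
    exact (integrable_const _).sub (hint.const_mul 2)
  rw [← ofReal_integral_eq_lintegral_ofReal hint2 (Filter.Eventually.of_forall (fun s => sq_nonneg _))]
  congr 1
  rw [hre]
  simp only [hnorm]
  have e4 : ∫ s, 2 * (inner ℂ v (U s v) : ℂ).re ∂μ = 2 * ∫ s, (inner ℂ v (U s v) : ℂ).re ∂μ :=
    integral_const_mul _ _
  rw [integral_sub (integrable_const _) (hint.const_mul 2), e4, integral_const, smul_eq_mul]
  ring

end

theorem p_TOPK : Stmt_TOPK := by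
  intro H Ω _ _ _ _ μ _ U hU
  exact ⟨TOPK_T μ U hU, TOPK_sa μ U hU, TOPK_norm μ U hU, TOPK_weak μ U hU, TOPK_energy μ U hU,
    fun B hB => TOPK_comm μ U _ (TOPK_weak μ U hU) B hB⟩

end Pool.TC
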