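import Pool.Agent.Work.MP_972ac7_C.B_PAR

set_option autoImplicit false

open MeasureTheory
open scoped ENNReal InnerProductSpace

noncomputable section

namespace Pool.TC

open Pool.TFD

theorem TOT_tn {X : Type} [MeasurableSpace X] {m : Measure X} {K : Type} [NormedAddCommGroup K]
    [InnerProductSpace ℂ K] (r : K →L[ℂ] K) (φ : Lp ℂ 2 m) (v : K) :
    (r.compLpL 2 m : Lp K 2 m →L[ℂ] Lp K 2 m) (tn φ v) = tn φ (r v) := by
  apply Lp.ext
  filter_upwards [ContinuousLinearMap.coeFn_compLpL r (tn φ v), tn_ae φ v, tn_ae φ (r v)]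
    with x h1 h2 h3
  rw [h1, h2, h3, map_smul]

theorem p_TOT (hPAR : Stmt_PAR) : Stmt_TOT := by
  intro X _ m _ K _ _ _ S ι b v hv
  have h1 : ∀ i, (ContinuousLinearMap.adjoint (tn (K := K) (b i))) v = 0 := by
    intro i
    set u := (ContinuousLinearMap.adjoint (tn (K := K) (b i))) v with hu
    have h2 : (fun w : K => (inner ℂ w u : ℂ)) = fun _ => 0 := by
      refine Continuous.ext_on S.dense (by fun_prop) continuous_const ?_
      rintro w ⟨r, hr, rfl⟩
      show (inner ℂ (r S.ξ) u : ℂ) = 0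
      rw [hu, ContinuousLinearMap.adjoint_inner_right, ← TOT_tn]
      exact hv r hr i
    exact inner_self_eq_zero.1 (congrFun h2 u)
  have h2 := hPAR X m K ι b v
  simp only [h1, norm_zero, ne_eq, OfNat.ofNat_ne_zero, not_false_eq_true, zero_pow] at h2
  have h3 := h2.unique hasSum_zero
  have h4 : ‖v‖ = 0 := by
    rwa [sq_eq_zero_iff] at h3
  exact norm_eq_zero.1 h4

end Pool.TC
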