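import Pool.Agent.Work.MP_972ac7_C.Interface

/-! Block TP (helper84): `‖x ξ‖ = ‖x* ξ‖` for `x` in the commutant of a standard tracial module.
`|⟪x* ξ, r ξ⟫| = |⟪r* ξ, x ξ⟫| ≤ ‖r ξ‖ ‖x ξ‖` for `r ∈ R`, hence for all vectors by density. -/

set_option autoImplicit false

open MeasureTheory
open scoped ENNReal

noncomputable section

namespace Pool.TC

open Pool.TFD

section

variable {K : Type} [NormedAddCommGroup K] [InnerProductSpace ℂ K] [CompleteSpace K]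

theorem TP_star_right (A : K →L[ℂ] K) (v w : K) : (inner ℂ v (A w) : ℂ) = inner ℂ ((star A) v) w := by
  rw [ContinuousLinearMap.star_eq_adjoint, ContinuousLinearMap.adjoint_inner_left]

theorem TP_norm (S : SM K) (r : K →L[ℂ] K) (hr : r ∈ S.R) : ‖(star r) S.ξ‖ = ‖r S.ξ‖ := by
  have h1 := S.trace r hr (star r) (S.star_mem r hr)
  rw [TP_star_right r, TP_star_right (star r) S.ξ (r S.ξ), star_star, inner_self_eq_norm_sq_to_K,
    inner_self_eq_norm_sq_to_K] at h1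
  have h2 : ‖(star r) S.ξ‖ ^ 2 = ‖r S.ξ‖ ^ 2 := by exact_mod_cast h1
  exact (sq_eq_sq₀ (norm_nonneg _) (norm_nonneg _)).1 h2

theorem TP_le (S : SM K) (x : K →L[ℂ] K) (hx : S.Mem x) : ‖(star x) S.ξ‖ ≤ ‖x S.ξ‖ := by
  have h1 : ∀ v : K, ‖(inner ℂ ((star x) S.ξ) v : ℂ)‖ ≤ ‖x S.ξ‖ * ‖v‖ := by
    have hc : IsClosed {v : K | ‖(inner ℂ ((star x) S.ξ) v : ℂ)‖ ≤ ‖x S.ξ‖ * ‖v‖} :=
      isClosed_le (by fun_prop) (by fun_prop)
    have hsub : {v : K | ∃ r ∈ S.R, r S.ξ = v} ⊆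
        {v : K | ‖(inner ℂ ((star x) S.ξ) v : ℂ)‖ ≤ ‖x S.ξ‖ * ‖v‖} := by
      rintro v ⟨r, hr, rfl⟩
      show ‖(inner ℂ ((star x) S.ξ) (r S.ξ) : ℂ)‖ ≤ ‖x S.ξ‖ * ‖r S.ξ‖
      have h2 : (inner ℂ ((star x) S.ξ) (r S.ξ) : ℂ) = inner ℂ ((star r) S.ξ) (x S.ξ) := by
        rw [← TP_star_right, ← TP_star_right]
        have h3 := congrArg (fun T : K →L[ℂ] K => T S.ξ) (hx r hr)
        have h4 : x (r S.ξ) = r (x S.ξ) := h3
        rw [h4]
      rw [h2, mul_comm, ← TP_norm S r hr]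
      exact norm_inner_le_norm _ _
    intro v
    have h5 : v ∈ closure {v : K | ∃ r ∈ S.R, r S.ξ = v} := by
      rw [S.dense.closure_eq]
      exact Set.mem_univ _
    exact (closure_minimal hsub hc) h5
  have h6 := h1 ((star x) S.ξ)
  rw [inner_self_eq_norm_sq_to_K] at h6
  have h7 : ‖(star x) S.ξ‖ ^ 2 ≤ ‖x S.ξ‖ * ‖(star x) S.ξ‖ := by
    simpa using h6
  rcases (norm_nonneg ((star x) S.ξ)).eq_or_lt with h | h
  · rw [← h]
    exact norm_nonneg _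
  · nlinarith [h7, h]

end

theorem p_TP : Stmt_TP := by
  intro K _ _ _ S x hx
  apply le_antisymm
  · have h := TP_le S (star x) hx.star
    rwa [star_star] at h
  · exact TP_le S x hx

end Pool.TC
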