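import Pool.Agent.Work.MP_972ac7_C.Interface

/-! # Block TRA: the modulus is a contraction in the Hilbert-Schmidt norm (selfadjoint case) -/

set_option autoImplicit false

open MeasureTheory
open scoped ENNReal

noncomputable section

namespace Pool.TC

open Pool.TFD

/-- trace of a product -/
def TRA_tr {H : Type} [NormedAddCommGroup H] [InnerProductSpace ℂ H] [CompleteSpace H]
    {J : Type} [Fintype J] (D : TD H J) (S T : H →L[ℂ] H) : ℝ :=
  (∑ j, (inner ℂ (D.ξ j) (S (T (D.ξ j))) : ℂ)).re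

theorem TRA_pm {H : Type} [NormedAddCommGroup H] [InnerProductSpace ℂ H] [CompleteSpace H]
    (X P : H →L[ℂ] H) (hX : IsSelfAdjoint X) (hP : 0 ≤ P) (h : P * P = X * X) :
    0 ≤ P + X ∧ 0 ≤ P - X := by
  have h1 : CFC.abs X = P := by
    rw [CFC.abs, hX.star_eq]
    exact CFC.sqrt_unique h hP
  have h2 := CFC.abs_add_self X hX
  have h3 := CFC.abs_sub_self X hX
  rw [h1] at h2 h3
  rw [h2, h3]
  exact ⟨nsmul_nonneg (CFC.posPart_nonneg X) 2, nsmul_nonneg (CFC.negPart_nonneg X) 2⟩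

theorem TRA_hs {H : Type} [NormedAddCommGroup H] [InnerProductSpace ℂ H] [CompleteSpace H]
    {J : Type} [Fintype J] (D : TD H J) (A : H →L[ℂ] H) (hA : star A = A) :
    D.hs A = TRA_tr D A A := by
  unfold TD.hs TRA_tr
  rw [Complex.re_sum]
  refine Finset.sum_congr rfl fun j _ => ?_
  rw [← ContinuousLinearMap.adjoint_inner_left, ← ContinuousLinearMap.star_eq_adjoint, hA,
    inner_self_eq_norm_sq_to_K]
  norm_cast

theorem p_TRA (hPOL : Stmt_POL) (hPOS : Stmt_POS) (hSQC : Stmt_SQC) : Stmt_TRA := by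
  intro H _ _ _ J _ D X Y P Q hX hY hP hQ hXs hYs hP0 hQ0 hPX hQY
  have hPs : star P = P := (IsSelfAdjoint.of_nonneg hP0).star_eq
  have hQs : star Q = Q := (IsSelfAdjoint.of_nonneg hQ0).star_eq
  obtain ⟨a1, a2⟩ := TRA_pm X P hXs hP0 hPX
  obtain ⟨b1, b2⟩ := TRA_pm Y Q hYs hQ0 hQY
  have c1 := hPOS H J D (P - X) (Q + Y) (hP.sub hX) (hQ.add hY) a2 b1
  have c2 := hPOS H J D (P + X) (Q - Y) (hP.add hX) (hQ.sub hY) a1 b2
  rw [Complex.re_sum] at c1 c2
  have hXs' := hXs.star_eq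
  have hYs' := hYs.star_eq
  rw [TRA_hs D (P - Q) (by rw [star_sub, hPs, hQs]), TRA_hs D (X - Y) (by rw [star_sub, hXs', hYs'])]
  unfold TRA_tr
  rw [Complex.re_sum, Complex.re_sum]
  -- symmetric trace of two selfadjoint operators
  have sym : ∀ A B : H →L[ℂ] H, star A = A → star B = B → ∀ j,
      (inner ℂ (D.ξ j) (A (B (D.ξ j))) : ℂ).re = (inner ℂ (D.ξ j) (B (A (D.ξ j))) : ℂ).re := by
    intro A B hA hB j
    have h1 : (inner ℂ (D.ξ j) (A (B (D.ξ j))) : ℂ) = inner ℂ (A (D.ξ j)) (B (D.ξ j)) := by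
      rw [← ContinuousLinearMap.adjoint_inner_left, ← ContinuousLinearMap.star_eq_adjoint, hA]
    have h2 : (inner ℂ (D.ξ j) (B (A (D.ξ j))) : ℂ) = inner ℂ (B (D.ξ j)) (A (D.ξ j)) := by
      rw [← ContinuousLinearMap.adjoint_inner_left, ← ContinuousLinearMap.star_eq_adjoint, hB]
    rw [h1, h2, ← inner_conj_symm (A (D.ξ j)) (B (D.ξ j)), Complex.conj_re]
  have e1 : ∀ j, P (P (D.ξ j)) = X (X (D.ξ j)) := fun j => by
    have := congrArg (fun A : H →L[ℂ] H => A (D.ξ j)) hPX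
    exact this
  have e2 : ∀ j, Q (Q (D.ξ j)) = Y (Y (D.ξ j)) := fun j => by
    have := congrArg (fun A : H →L[ℂ] H => A (D.ξ j)) hQY
    exact this
  have key : ∑ j, (inner ℂ (D.ξ j) ((X - Y) ((X - Y) (D.ξ j))) : ℂ).re -
      ∑ j, (inner ℂ (D.ξ j) ((P - Q) ((P - Q) (D.ξ j))) : ℂ).re =
      ∑ j, (inner ℂ (D.ξ j) ((P - X) ((Q + Y) (D.ξ j))) : ℂ).re +
      ∑ j, (inner ℂ (D.ξ j) ((P + X) ((Q - Y) (D.ξ j))) : ℂ).re := by
    rw [← Finset.sum_sub_distrib, ← Finset.sum_add_distrib]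
    refine Finset.sum_congr rfl fun j _ => ?_
    have s1 := sym P Q hPs hQs j
    have s2 := sym X Y hXs' hYs' j
    simp only [ContinuousLinearMap.sub_apply, ContinuousLinearMap.add_apply, map_sub, map_add,
      inner_sub_right, inner_add_right, Complex.sub_re, Complex.add_re, e1 j, e2 j]
    linarith
  linarith

end Pool.TC
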