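import Pool.Agent.Work.MP_972ac7_C.Interface

/-! # Block TRB (helper64) -/

set_option autoImplicit false

open MeasureTheory
open scoped ENNReal

noncomputable section

namespace Pool.TC

open Pool.TFD

section alg

variable {K : Type} [NormedAddCommGroup K] [InnerProductSpace ℂ K] [CompleteSpace K]

theorem TRB_norm_sl {J : Type} [Fintype J] (j : J) (v : K) :
    ‖(sl j v : PiLp 2 fun _ : J => K)‖ = ‖v‖ := by
  have h1 : (inner ℂ (sl j v : PiLp 2 fun _ : J => K) (sl j v) : ℂ) = inner ℂ v v := by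
    conv_lhs => rw [sl]
    rw [ContinuousLinearMap.adjoint_inner_left]
    show (inner ℂ v ((sl j v : PiLp 2 fun _ : J => K) j) : ℂ) = inner ℂ v v
    rw [sl_self]
  have h2 := congrArg Complex.re h1
  rw [inner_self_eq_norm_sq_to_K, inner_self_eq_norm_sq_to_K] at h2
  have h10 : ∀ x : ℝ, (((x : ℝ) : ℂ) ^ 2).re = x ^ 2 := fun x => by
    rw [← Complex.ofReal_pow, Complex.ofReal_re]
  have h3 := (h10 _).symm.trans (h2.trans (h10 _))
  exact (pow_left_inj₀ (norm_nonneg _) (norm_nonneg _) two_ne_zero).1 h3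

variable {ι : Type} [Fintype ι]

theorem TRB_row_apply (Φ : ι → K →L[ℂ] K) (v : PiLp 2 fun _ : Option ι => K) :
    row Φ v = sl none (∑ i, Φ i (v (some i))) := by
  simp [row, map_sum]

theorem TRB_row_some (Φ : ι → K →L[ℂ] K) (j : ι) (v : K) :
    row Φ (sl (some j) v) = sl none (Φ j v) := by
  rw [TRB_row_apply]
  congr 1
  rw [Finset.sum_eq_single j]
  · rw [sl_self]
  · intro i _ hi
    rw [sl_ne (fun h => hi (Option.some.inj h)), map_zero]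
  · intro h
    exact absurd (Finset.mem_univ j) h

theorem TRB_row_none (Φ : ι → K →L[ℂ] K) (v : K) : row Φ (sl none v) = 0 := by
  rw [TRB_row_apply]
  have : ∑ i, Φ i ((sl none v : PiLp 2 fun _ : Option ι => K) (some i)) = 0 := by
    refine Finset.sum_eq_zero fun i _ => ?_
    rw [sl_ne (by simp), map_zero]
  rw [this, map_zero]

theorem TRB_p0_apply (v : PiLp 2 fun _ : Option ι => K) :
    (p0 : (PiLp 2 fun _ : Option ι => K) →L[ℂ] _) v = sl none (v none) := rfl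

theorem TRB_p0_row (Φ : ι → K →L[ℂ] K) : p0 * row Φ = row Φ := by
  ext1 v
  show (p0 : (PiLp 2 fun _ : Option ι => K) →L[ℂ] _) (row Φ v) = row Φ v
  rw [TRB_p0_apply, TRB_row_apply, sl_self]

theorem TRB_row_p0 (Φ : ι → K →L[ℂ] K) : row Φ * p0 = 0 := by
  ext1 v
  show row Φ ((p0 : (PiLp 2 fun _ : Option ι => K) →L[ℂ] _) v) = 0
  rw [TRB_p0_apply, TRB_row_none]

theorem TRB_p0_sq : (p0 : (PiLp 2 fun _ : Option ι => K) →L[ℂ] _) * p0 = p0 := by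
  ext1 v
  show (p0 : (PiLp 2 fun _ : Option ι => K) →L[ℂ] _) (p0 v) = p0 v
  rw [TRB_p0_apply, TRB_p0_apply, sl_self]

theorem TRB_p0_sa : IsSelfAdjoint (p0 : (PiLp 2 fun _ : Option ι => K) →L[ℂ] _) := by
  rw [IsSelfAdjoint, ContinuousLinearMap.star_eq_adjoint]
  unfold p0
  rw [ContinuousLinearMap.adjoint_comp, sl, ContinuousLinearMap.adjoint_adjoint]

theorem TRB_dg_sl {J : Type} [Fintype J] (r : K →L[ℂ] K) (j : J) (v : K) :
    (dg r : (PiLp 2 fun _ : J => K) →L[ℂ] _) (sl j v) = sl j (r v) := by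
  ext i
  rw [dg_apply]
  by_cases h : i = j
  · subst h
    rw [sl_self, sl_self]
  · rw [sl_ne h, sl_ne h, map_zero]

theorem TRB_row_dg (Φ : ι → K →L[ℂ] K) (r : K →L[ℂ] K) (h : ∀ i, Φ i * r = r * Φ i) :
    row Φ * dg r = dg r * row Φ := by
  ext1 v
  show row Φ (dg r v) = dg r (row Φ v)
  have h2 : r (∑ i, Φ i (v (some i))) = ∑ i, r (Φ i (v (some i))) := map_sum r _ _
  rw [TRB_row_apply, TRB_row_apply, TRB_dg_sl, h2]
  congr 1
  refine Finset.sum_congr rfl fun i _ => ?_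
  rw [dg_apply]
  exact congrArg (fun T : K →L[ℂ] K => T (v (some i))) (h i)

theorem TRB_dg_row (Φ : ι → K →L[ℂ] K) (u : K →L[ℂ] K) :
    row (fun i => u * Φ i) = dg u * row Φ := by
  ext1 v
  show row (fun i => u * Φ i) v = dg u (row Φ v)
  have h2 : u (∑ i, Φ i (v (some i))) = ∑ i, u (Φ i (v (some i))) := map_sum u _ _
  rw [TRB_row_apply, TRB_row_apply, TRB_dg_sl, h2]
  rfl

theorem TRB_p0_dg (r : K →L[ℂ] K) :
    (p0 : (PiLp 2 fun _ : Option ι => K) →L[ℂ] _) * dg r = dg r * p0 := by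
  ext1 v
  show (p0 : (PiLp 2 fun _ : Option ι => K) →L[ℂ] _) (dg r v) = dg r (p0 v)
  rw [TRB_p0_apply, TRB_p0_apply, TRB_dg_sl, dg_apply]

theorem TRB_row_sub (Φ Ψ : ι → K →L[ℂ] K) : row Φ - row Ψ = row (fun i => Φ i - Ψ i) := by
  ext1 v
  show row Φ v - row Ψ v = _
  rw [TRB_row_apply, TRB_row_apply, TRB_row_apply, ← map_sub, ← Finset.sum_sub_distrib]
  rfl

theorem TRB_dg_unit {J : Type} [Fintype J] (u : K ≃ₗᵢ[ℂ] K) :
    star (dg (opU u) : (PiLp 2 fun _ : J => K) →L[ℂ] _) * dg (opU u) = 1 := by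
  refine ContinuousLinearMap.ext fun v => ?_
  refine ext_inner_left ℂ fun w => ?_
  show (inner ℂ w (star (dg (opU u) : (PiLp 2 fun _ : J => K) →L[ℂ] _) (dg (opU u) v)) : ℂ) =
    inner ℂ w v
  rw [ContinuousLinearMap.star_eq_adjoint, ContinuousLinearMap.adjoint_inner_right,
    PiLp.inner_apply, PiLp.inner_apply]
  refine Finset.sum_congr rfl fun i _ => ?_
  rw [dg_apply, dg_apply]
  exact u.inner_map_map _ _

theorem TRB_hs_row (S : SM K) (h : Stmt_AMP) (Φ : ι → K →L[ℂ] K) :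
    (S.amp (Option ι) h).hs (row Φ) = ∑ i, ‖Φ i S.ξ‖ ^ 2 := by
  unfold TD.hs
  rw [Fintype.sum_option]
  have h1 : row Φ ((S.amp (Option ι) h).ξ none) = 0 := TRB_row_none Φ S.ξ
  rw [h1, norm_zero]
  have h2 : ∀ i, ‖row Φ ((S.amp (Option ι) h).ξ (some i))‖ = ‖Φ i S.ξ‖ := by
    intro i
    have : row Φ ((S.amp (Option ι) h).ξ (some i)) = sl none (Φ i S.ξ) := TRB_row_some Φ i S.ξ
    rw [this, TRB_norm_sl]
  simp only [h2]
  ring

theorem TRB_hs_p0 (S : SM K) (h : Stmt_AMP) :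
    (S.amp (Option ι) h).hs p0 = ‖S.ξ‖ ^ 2 := by
  unfold TD.hs
  rw [Fintype.sum_option]
  have h1 : (p0 : (PiLp 2 fun _ : Option ι => K) →L[ℂ] _) ((S.amp (Option ι) h).ξ none) =
      sl none S.ξ := by
    show (p0 : (PiLp 2 fun _ : Option ι => K) →L[ℂ] _) (sl none S.ξ) = _
    rw [TRB_p0_apply, sl_self]
  have h2 : ∀ i, (p0 : (PiLp 2 fun _ : Option ι => K) →L[ℂ] _)
      ((S.amp (Option ι) h).ξ (some i)) = 0 := by
    intro i
    show (p0 : (PiLp 2 fun _ : Option ι => K) →L[ℂ] _) (sl (some i) S.ξ) = _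
    rw [TRB_p0_apply, sl_ne (by simp), map_zero]
  rw [h1, TRB_norm_sl]
  simp [h2]

theorem TRB_mem_row (S : SM K) (h : Stmt_AMP) (Φ : ι → K →L[ℂ] K) (hΦ : ∀ i, S.Mem (Φ i)) :
    (S.amp (Option ι) h).Mem (row Φ) := by
  rintro _ ⟨r, hr, rfl⟩
  exact TRB_row_dg Φ r fun i => hΦ i r hr

theorem TRB_mem_p0 (S : SM K) (h : Stmt_AMP) : (S.amp (Option ι) h).Mem p0 := by
  rintro _ ⟨r, hr, rfl⟩
  exact TRB_p0_dg r

end alg

/-- The square of the norm in `L²`. -/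
theorem TRB_norm_sq {X : Type} [MeasurableSpace X] {m : Measure X} {K : Type}
    [NormedAddCommGroup K] [InnerProductSpace ℂ K] (f : Lp K 2 m) :
    ∫ x, ‖f x‖ ^ 2 ∂m = ‖f‖ ^ 2 := by
  have h1 : (inner ℂ f f : ℂ) = ∫ x, (inner ℂ (f x) (f x) : ℂ) ∂m := L2.inner_def f f
  have h2 : (∫ x, (inner ℂ (f x) (f x) : ℂ) ∂m) = ((∫ x, ‖f x‖ ^ 2 ∂m : ℝ) : ℂ) := by
    rw [← integral_complex_ofReal]
    refine integral_congr_ae (Filter.Eventually.of_forall fun x => ?_)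
    show (inner ℂ (f x) (f x) : ℂ) = ((‖f x‖ ^ 2 : ℝ) : ℂ)
    rw [inner_self_eq_norm_sq_to_K]
    push_cast
    rfl
  rw [h2, inner_self_eq_norm_sq_to_K] at h1
  have h3 : ((‖f‖ ^ 2 : ℝ) : ℂ) = ((∫ x, ‖f x‖ ^ 2 ∂m : ℝ) : ℂ) := by
    rw [← h1]
    push_cast
    rfl
  exact (Complex.ofReal_injective h3).symm

theorem TRB_lint_sq {X : Type} [MeasurableSpace X] {m : Measure X} {K : Type}
    [NormedAddCommGroup K] [InnerProductSpace ℂ K] (f : Lp K 2 m) :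
    ∫⁻ x, ENNReal.ofReal (‖f x‖ ^ 2) ∂m = ENNReal.ofReal (‖f‖ ^ 2) := by
  rw [← TRB_norm_sq, ofReal_integral_eq_lintegral_ofReal]
  · exact (Lp.memLp f).integrable_norm_pow (by norm_num)
  · exact Filter.Eventually.of_forall fun x => by positivity

/-- The energy identity. -/
theorem TRB_energy_int {H Ω : Type} [NormedAddCommGroup H] [InnerProductSpace ℂ H]
    [CompleteSpace H] [MeasurableSpace Ω] (μ : Measure Ω) [IsFiniteMeasure μ]
    (U : Ω → (H ≃ₗᵢ[ℂ] H)) (T : H →L[ℂ] H)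
    (hm : ∀ v w : H, Measurable fun s => (inner ℂ v (U s w) : ℂ)) (hT : WeakAvg μ U T) (v : H) :
    Integrable (fun s => ‖U s v - v‖ ^ 2) μ ∧ ∫ s, ‖U s v - v‖ ^ 2 ∂μ =
      2 * (μ.real Set.univ * ‖v‖ ^ 2 - (inner ℂ v (T v)).re) := by
  have h0 : ∀ s, ‖(inner ℂ v (U s v) : ℂ)‖ ≤ ‖v‖ * ‖v‖ := by
    intro s
    refine (norm_inner_le_norm _ _).trans ?_
    rw [(U s).norm_map]
  have hint : Integrable (fun s => (inner ℂ v (U s v) : ℂ)) μ :=
    Integrable.of_bound (hm v v).aestronglyMeasurable _ (Filter.Eventually.of_forall h0)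
  have hint' : Integrable (fun s => (inner ℂ v (U s v) : ℂ).re) μ := hint.re
  have h1 : ∀ s, ‖U s v - v‖ ^ 2 = 2 * ‖v‖ ^ 2 - 2 * (inner ℂ v (U s v) : ℂ).re := by
    intro s
    have h1 := norm_sub_sq (𝕜 := ℂ) (U s v) v
    rw [(U s).norm_map] at h1
    have h2 : RCLike.re (inner ℂ (U s v) v : ℂ) = (inner ℂ v (U s v) : ℂ).re :=
      inner_re_symm (𝕜 := ℂ) (U s v) v
    rw [h1, h2]
    ring
  have h2 : (inner ℂ v (T v) : ℂ).re = ∫ s, (inner ℂ v (U s v) : ℂ).re ∂μ := by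
    rw [hT v v]
    have h3 : ∀ s, (inner ℂ v ((U s).symm v) : ℂ) = (starRingEnd ℂ) (inner ℂ v (U s v)) := by
      intro s
      rw [inner_conj_symm, ← (U s).inner_map_map v ((U s).symm v)]
      rw [LinearIsometryEquiv.apply_symm_apply]
    have h4 : (fun s => ((inner ℂ v (U s v) : ℂ) + (inner ℂ v ((U s).symm v) : ℂ)) / 2) =
        fun s => (((inner ℂ v (U s v) : ℂ).re : ℝ) : ℂ) := by
      funext s
      rw [h3 s, Complex.add_conj]
      push_cast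
      ring
    rw [h4, integral_complex_ofReal, Complex.ofReal_re]
  have hint2 : Integrable (fun s => ‖U s v - v‖ ^ 2) μ := by
    simp only [h1]
    exact (integrable_const _).sub (hint'.const_mul 2)
  refine ⟨hint2, ?_⟩
  rw [h2]
  simp only [h1]
  have e4 : ∫ s, 2 * (inner ℂ v (U s v) : ℂ).re ∂μ = 2 * ∫ s, (inner ℂ v (U s v) : ℂ).re ∂μ :=
    integral_const_mul _ _
  rw [integral_sub (integrable_const _) (hint'.const_mul 2), e4, integral_const, smul_eq_mul]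
  ring

theorem TRB_energy {H Ω : Type} [NormedAddCommGroup H] [InnerProductSpace ℂ H]
    [CompleteSpace H] [MeasurableSpace Ω] (μ : Measure Ω) [IsFiniteMeasure μ]
    (U : Ω → (H ≃ₗᵢ[ℂ] H)) (T : H →L[ℂ] H)
    (hm : ∀ v w : H, Measurable fun s => (inner ℂ v (U s w) : ℂ)) (hT : WeakAvg μ U T) (v : H) :
    ∫⁻ s, ENNReal.ofReal (‖U s v - v‖ ^ 2) ∂μ =
      ENNReal.ofReal (2 * (μ.real Set.univ * ‖v‖ ^ 2 - (inner ℂ v (T v)).re)) := by
  obtain ⟨h1, h2⟩ := TRB_energy_int μ U T hm hT v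
  rw [← ofReal_integral_eq_lintegral_ofReal h1
    (Filter.Eventually.of_forall fun s => by positivity), h2]

theorem TRB_energy_nonneg {H Ω : Type} [NormedAddCommGroup H] [InnerProductSpace ℂ H]
    [CompleteSpace H] [MeasurableSpace Ω] (μ : Measure Ω) [IsFiniteMeasure μ]
    (U : Ω → (H ≃ₗᵢ[ℂ] H)) (T : H →L[ℂ] H)
    (hm : ∀ v w : H, Measurable fun s => (inner ℂ v (U s w) : ℂ)) (hT : WeakAvg μ U T) (v : H) :
    0 ≤ 2 * (μ.real Set.univ * ‖v‖ ^ 2 - (inner ℂ v (T v)).re) := by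
  obtain ⟨h1, h2⟩ := TRB_energy_int μ U T hm hT v
  rw [← h2]
  exact integral_nonneg fun s => by positivity

/-! ### Tensors -/

section tens

variable {X : Type} [MeasurableSpace X] {m : Measure X}
  {K : Type} [NormedAddCommGroup K] [InnerProductSpace ℂ K]

theorem TRB_tn_inner (φ ψ : Lp ℂ 2 m) (v w : K) :
    (inner ℂ (tn φ v) (tn ψ w) : ℂ) = inner ℂ φ ψ * inner ℂ v w := by
  rw [L2.inner_def, L2.inner_def, ← integral_mul_const]
  refine integral_congr_ae ?_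
  filter_upwards [tn_ae φ v, tn_ae ψ w] with x h1 h2
  rw [h1, h2, inner_smul_left, inner_smul_right]
  simp only [RCLike.inner_apply]
  ring

theorem TRB_tn_sum {L : ℕ} (φ : Fin L → Lp ℂ 2 m) (hφ : Orthonormal ℂ φ) (v : Fin L → K) :
    ‖∑ j, tn (φ j) (v j)‖ ^ 2 = ∑ j, ‖v j‖ ^ 2 := by
  have h1 : (inner ℂ (∑ j, tn (φ j) (v j)) (∑ j, tn (φ j) (v j)) : ℂ) =
      ∑ j, (inner ℂ (v j) (v j) : ℂ) := by
    rw [sum_inner]
    refine Finset.sum_congr rfl fun i _ => ?_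
    rw [inner_sum, Finset.sum_eq_single i]
    · rw [TRB_tn_inner, orthonormal_iff_ite.1 hφ i i, if_pos rfl, one_mul]
    · intro j _ hj
      rw [TRB_tn_inner, orthonormal_iff_ite.1 hφ i j, if_neg (Ne.symm hj), zero_mul]
    · intro h
      exact absurd (Finset.mem_univ i) h
  have h2 : ∀ {E : Type} [NormedAddCommGroup E] [InnerProductSpace ℂ E] (x : E),
      (inner ℂ x x : ℂ) = ((‖x‖ ^ 2 : ℝ) : ℂ) := by
    intro E _ _ x
    rw [inner_self_eq_norm_sq_to_K]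
    push_cast
    rfl
  rw [h2] at h1
  simp only [h2] at h1
  have h3 : ((‖∑ j, tn (φ j) (v j)‖ ^ 2 : ℝ) : ℂ) = ((∑ j, ‖v j‖ ^ 2 : ℝ) : ℂ) := by
    rw [h1]
    push_cast
    rfl
  exact Complex.ofReal_injective h3

omit [InnerProductSpace ℂ K] in
theorem TRB_coe_sum {k : ℕ} (s : Finset (Fin k)) (f : Fin k → Lp K 2 m) :
    ⇑(∑ i ∈ s, f i) =ᵐ[m] fun x => ∑ i ∈ s, f i x := by
  classical
  induction s using Finset.induction_on with
  | empty =>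
    simp only [Finset.sum_empty]
    exact Lp.coeFn_zero _ _ _
  | insert a s ha ih =>
    rw [Finset.sum_insert ha]
    filter_upwards [Lp.coeFn_add (f a) (∑ i ∈ s, f i), ih] with x h1 h2
    rw [h1, Pi.add_apply, h2, Finset.sum_insert ha]

end tens

theorem TRB_memSum {X E : Type} [MeasurableSpace X] {m : Measure X} [NormedAddCommGroup E]
    {k : ℕ} (f : Fin k → X → E) (h : ∀ i, MemLp (f i) 2 m) :
    MemLp (fun x => ∑ i, f i x) 2 m :=
  memLp_finsetSum Finset.univ fun i _ => h i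

theorem TRB_memSmul {X E : Type} [MeasurableSpace X] {m : Measure X} [NormedAddCommGroup E]
    [NormedSpace ℂ E] (c : ℂ) (f : X → E) (h : MemLp f 2 m) :
    MemLp (fun x => c • f x) 2 m := h.const_smul c

theorem TRB_memBd {X E : Type} [MeasurableSpace X] {m : Measure X} [NormedAddCommGroup E]
    [NormedSpace ℂ E] (u : X → ℂ) (f : X → E) (h : MemLp u 2 m) (hf : StronglyMeasurable f)
    (hb : ∀ x, ‖f x‖ ≤ 1) : MemLp (fun x => u x • f x) 2 m := by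
  refine MemLp.of_le_mul (c := 1) h (h.aestronglyMeasurable.smul hf.aestronglyMeasurable) ?_
  refine Filter.Eventually.of_forall fun x => ?_
  rw [norm_smul, mul_comm]
  exact mul_le_mul_of_nonneg_right (hb x) (norm_nonneg _)

theorem TRB_memLin {X E F : Type} [MeasurableSpace X] {m : Measure X} [NormedAddCommGroup E]
    [NormedAddCommGroup F] (c : ℝ) (A : E → F) (hA : Continuous A) (hb : ∀ x, ‖A x‖ ≤ c * ‖x‖)
    (f : X → E) (h : MemLp f 2 m) : MemLp (fun x => A (f x)) 2 m :=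
  MemLp.of_le_mul (c := c) h (hA.comp_aestronglyMeasurable h.aestronglyMeasurable)
    (Filter.Eventually.of_forall fun _ => hb _)

/-! ### The operators `Φ j x` -/

section main

variable {G : Type} [Group G] {Γ : Subgroup G} {σ : G ⧸ Γ → G} {hσ : ∀ x, (σ x : G ⧸ Γ) = x}
  {K : Type} [NormedAddCommGroup K] [InnerProductSpace ℂ K]

/-- `Φ x = lam⁻¹ ∑ a i φ((g i)⁻¹ x) π(c(g i, (g i)⁻¹ x))`. -/
def TRB_Phi (hσ : ∀ x, (σ x : G ⧸ Γ) = x) (π : Γ →* (K ≃ₗᵢ[ℂ] K)) (lam : ℝ) {k : ℕ}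
    (g : Fin k → G) (a : Fin k → ℂ) (φ : G ⧸ Γ → ℂ) (x : G ⧸ Γ) : K →L[ℂ] K :=
  (((lam : ℝ) : ℂ)⁻¹) • ∑ i, (a i * φ ((g i)⁻¹ • x)) • opU (π (coc Γ σ hσ (g i) ((g i)⁻¹ • x)))

theorem TRB_Phi_apply (π : Γ →* (K ≃ₗᵢ[ℂ] K)) (lam : ℝ) {k : ℕ}
    (g : Fin k → G) (a : Fin k → ℂ) (φ : G ⧸ Γ → ℂ) (x : G ⧸ Γ) (v : K) :
    TRB_Phi hσ π lam g a φ x v =
      (((lam : ℝ) : ℂ)⁻¹) • ∑ i, (a i * φ ((g i)⁻¹ • x)) •
        π (coc Γ σ hσ (g i) ((g i)⁻¹ • x)) v := by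
  simp [TRB_Phi]

theorem TRB_norm_opU (U : K ≃ₗᵢ[ℂ] K) : ‖opU U‖ ≤ 1 :=
  ContinuousLinearMap.opNorm_le_bound _ zero_le_one fun v => by
    rw [opU_apply, U.norm_map, one_mul]

theorem TRB_Phi_mem [CompleteSpace K] (S : SM K) (π : Γ →* (K ≃ₗᵢ[ℂ] K))
    (hπ : ∀ γ, S.Mem (opU (π γ))) (lam : ℝ) {k : ℕ}
    (g : Fin k → G) (a : Fin k → ℂ) (φ : G ⧸ Γ → ℂ) (x : G ⧸ Γ) :
    S.Mem (TRB_Phi hσ π lam g a φ x) := by
  intro r hr
  unfold TRB_Phi
  rw [smul_mul_assoc, mul_smul_comm, Finset.sum_mul, Finset.mul_sum]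
  congr 1
  refine Finset.sum_congr rfl fun i _ => ?_
  rw [smul_mul_assoc, mul_smul_comm, hπ _ r hr]

variable [MeasurableSpace G] {m : Measure (G ⧸ Γ)}

/-- The operator `W = ∑ a i U(g i)` on `tn φ v`. -/
theorem TRB_W_ae [CompleteSpace K] (π : Γ →* (K ≃ₗᵢ[ℂ] K)) (U : G →* (Lp K 2 m ≃ₗᵢ[ℂ] Lp K 2 m))
    (hm : ∀ g : G, MeasurePreserving (fun x => g • x) m m)
    (hU : IsInd Γ m σ hσ K π U) (lam : ℝ) (hlam : lam ≠ 0) {k : ℕ} (g : Fin k → G)
    (a : Fin k → ℂ) (φ : Lp ℂ 2 m) (v : K) :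
    ⇑((∑ i, a i • opU (U (g i))) (tn φ v)) =ᵐ[m]
      fun x => ((lam : ℝ) : ℂ) • TRB_Phi hσ π lam g a φ x v := by
  have h1 : (∑ i, a i • opU (U (g i))) (tn φ v) = ∑ i, a i • U (g i) (tn φ v) := by
    simp
  rw [h1]
  have h2 : ∀ i, ∀ᵐ x ∂m, (a i • U (g i) (tn φ v) : Lp K 2 m) x =
      (a i * φ ((g i)⁻¹ • x)) • π (coc Γ σ hσ (g i) ((g i)⁻¹ • x)) v := by
    intro i
    have h3 : (fun x => tn φ v ((g i)⁻¹ • x)) =ᵐ[m] fun x => φ ((g i)⁻¹ • x) • v :=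
      (hm (g i)⁻¹).quasiMeasurePreserving.ae_eq_comp (tn_ae φ v)
    filter_upwards [Lp.coeFn_smul (a i) (U (g i) (tn φ v)), hU (g i) (tn φ v), h3]
      with x e1 e2 e3
    rw [e1, Pi.smul_apply, e2, e3, map_smul, smul_smul]
  filter_upwards [TRB_coe_sum Finset.univ fun i => a i • U (g i) (tn φ v), ae_all_iff.2 h2]
    with x e1 e2
  rw [e1, TRB_Phi_apply, smul_smul, mul_inv_cancel₀ (by exact_mod_cast hlam), one_smul]
  exact Finset.sum_congr rfl fun i _ => e2 i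

/-- The operator `U g W` on `tn φ v`. -/
theorem TRB_UW_ae [CompleteSpace K] (π : Γ →* (K ≃ₗᵢ[ℂ] K)) (U : G →* (Lp K 2 m ≃ₗᵢ[ℂ] Lp K 2 m))
    (hm : ∀ g : G, MeasurePreserving (fun x => g • x) m m)
    (hU : IsInd Γ m σ hσ K π U) (lam : ℝ) (hlam : lam ≠ 0) {k : ℕ} (g : Fin k → G)
    (a : Fin k → ℂ) (φ : Lp ℂ 2 m) (v : K) (t : G) :
    ⇑(U t ((∑ i, a i • opU (U (g i))) (tn φ v))) =ᵐ[m]
      fun x => ((lam : ℝ) : ℂ) • π (coc Γ σ hσ t (t⁻¹ • x))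
        (TRB_Phi hσ π lam g a φ (t⁻¹ • x) v) := by
  have h3 := (hm t⁻¹).quasiMeasurePreserving.ae_eq_comp
    (TRB_W_ae (hσ := hσ) π U hm hU lam hlam g a φ v)
  filter_upwards [hU t ((∑ i, a i • opU (U (g i))) (tn φ v)), h3] with x e1 e2
  rw [e1]
  have e3 : ((∑ i, a i • opU (U (g i))) (tn φ v)) (t⁻¹ • x) =
    ((lam : ℝ) : ℂ) • TRB_Phi hσ π lam g a φ (t⁻¹ • x) v := e2
  rw [e3, map_smul]

end main

section meas

variable {G : Type} [Group G] [TopologicalSpace G] [IsTopologicalGroup G]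
  [SecondCountableTopology G] [MeasurableSpace G] [BorelSpace G] [T2Space G] {Γ : Subgroup G}
  [Countable Γ] {σ : G ⧸ Γ → G} {hσ : ∀ x, (σ x : G ⧸ Γ) = x}
  {K : Type} [NormedAddCommGroup K] [InnerProductSpace ℂ K] {m : Measure (G ⧸ Γ)}

omit [T2Space G] [Countable Γ] in
theorem TRB_coc_meas (h1 : Stmt_COC) (hσm : Measurable σ) (g : G) :
    Measurable fun x : G ⧸ Γ => coc Γ σ hσ g (g⁻¹ • x) := by
  obtain ⟨-, h2, h3⟩ := h1 G Γ σ hσ hσm
  have h4 : Measurable fun x : G ⧸ Γ => g⁻¹ • x :=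
    h2.comp (measurable_const.prodMk measurable_id)
  exact h3.comp (measurable_const.prodMk h4)

theorem TRB_Phi_memLp (h1 : Stmt_COC) (hσm : Measurable σ)
    (hm : ∀ g : G, MeasurePreserving (fun x => g • x) m m)
    (π : Γ →* (K ≃ₗᵢ[ℂ] K)) (lam : ℝ) {k : ℕ}
    (g : Fin k → G) (a : Fin k → ℂ) (φ : Lp ℂ 2 m) :
    MemLp (fun x => TRB_Phi hσ π lam g a φ x) 2 m := by
  have h4 : StronglyMeasurable fun γ : Γ => opU (π γ) := StronglyMeasurable.of_discrete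
  have h2 : ∀ i, MemLp (fun x => (a i * φ ((g i)⁻¹ • x)) •
      opU (π (coc Γ σ hσ (g i) ((g i)⁻¹ • x)))) 2 m := by
    intro i
    have h3 : MemLp (fun x => a i * φ ((g i)⁻¹ • x)) 2 m :=
      ((Lp.memLp φ).comp_measurePreserving (hm (g i)⁻¹)).const_mul (a i)
    have h5 : StronglyMeasurable fun x : G ⧸ Γ => opU (π (coc Γ σ hσ (g i) ((g i)⁻¹ • x))) :=
      h4.comp_measurable (TRB_coc_meas h1 hσm (g i))
    exact TRB_memBd _ _ h3 h5 fun x => TRB_norm_opU _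
  have h6 := TRB_memSum _ h2
  unfold TRB_Phi
  exact TRB_memSmul _ _ h6

end meas

theorem TRB_row_memLp {X K : Type} [MeasurableSpace X] {m : Measure X} [NormedAddCommGroup K]
    [InnerProductSpace ℂ K] [CompleteSpace K] {L : ℕ} (Φ : Fin L → X → (K →L[ℂ] K))
    (h : ∀ j, MemLp (Φ j) 2 m) : MemLp (fun x => row fun j => Φ j x) 2 m := by
  have h2 : ∀ j, MemLp (fun x => (sl none : K →L[ℂ] (PiLp 2 fun _ : Option (Fin L) => K)) ∘L
      Φ j x ∘L pr (some j)) 2 m := by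
    intro j
    have hc : Continuous fun A : K →L[ℂ] K =>
        (sl none : K →L[ℂ] (PiLp 2 fun _ : Option (Fin L) => K)) ∘L A ∘L
          (pr (some j) : (PiLp 2 fun _ : Option (Fin L) => K) →L[ℂ] K) :=
      continuous_const.clm_comp (continuous_id.clm_comp continuous_const)
    refine TRB_memLin (‖(sl none : K →L[ℂ] (PiLp 2 fun _ : Option (Fin L) => K))‖ *
      ‖(pr (some j) : (PiLp 2 fun _ : Option (Fin L) => K) →L[ℂ] K)‖) _ hc ?_ (Φ j) (h j)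
    intro A
    refine (ContinuousLinearMap.opNorm_comp_le _ _).trans ?_
    refine (mul_le_mul_of_nonneg_left (ContinuousLinearMap.opNorm_comp_le _ _)
      (norm_nonneg _)).trans (le_of_eq ?_)
    ring
  exact TRB_memSum _ h2

theorem TRB_norm_row {K : Type} [NormedAddCommGroup K] [InnerProductSpace ℂ K] [CompleteSpace K]
    {ι : Type} [Fintype ι] (Φ : ι → K →L[ℂ] K) (v : PiLp 2 fun _ : Option ι => K) :
    ‖row Φ v‖ = ‖∑ i, Φ i (v (some i))‖ := by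
  rw [TRB_row_apply, TRB_norm_sl]

/-! ### The limit -/

/-- The inequality from Lemma A, as a closed condition. -/
def TRB_ineq {H : Type} [NormedAddCommGroup H] [InnerProductSpace ℂ H] (T : H →L[ℂ] H)
    (M κ r lam : ℝ) {L : ℕ} (z : Fin L → H) : Prop :=
  (∑ j, ‖z j‖ ^ 2) / lam ^ 2 -
      2 * (∑ j, 2 * (M * ‖z j‖ ^ 2 - (inner ℂ (z j) (T (z j)) : ℂ).re)) / lam ^ 2 / κ ≤
    r * Real.sqrt ((∑ j, ‖z j‖ ^ 2) / lam ^ 2)

theorem TRB_limit {H : Type} [NormedAddCommGroup H] [InnerProductSpace ℂ H] (T : H →L[ℂ] H)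
    (M κ r lam₀ : ℝ) {L : ℕ} (z₀ : Fin L → H) (hl : 0 < lam₀)
    (h : ∀ lam, lam₀ < lam → ∀ δ, 0 < δ → ∃ z : Fin L → H, (∀ j, ‖z j - z₀ j‖ ≤ δ) ∧
      TRB_ineq T M κ r lam z) : TRB_ineq T M κ r lam₀ z₀ := by
  have hδ : ∀ n : ℕ, (0 : ℝ) < 1 / ((n : ℝ) + 1) := fun n => Nat.one_div_pos_of_nat
  choose z hz1 hz2 using fun n : ℕ => h (lam₀ + 1 / ((n : ℝ) + 1))
    (by linarith [hδ n]) (1 / ((n : ℝ) + 1)) (hδ n)
  have hl1 : Filter.Tendsto (fun n : ℕ => lam₀ + 1 / ((n : ℝ) + 1)) Filter.atTop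
      (nhds lam₀) := by
    have := (tendsto_one_div_add_atTop_nhds_zero_nat (𝕜 := ℝ)).const_add lam₀
    rwa [add_zero] at this
  have hz : ∀ j, Filter.Tendsto (fun n => z n j) Filter.atTop (nhds (z₀ j)) := by
    intro j
    rw [tendsto_iff_norm_sub_tendsto_zero]
    exact squeeze_zero (fun n => norm_nonneg _) (fun n => hz1 n j)
      tendsto_one_div_add_atTop_nhds_zero_nat
  have hS : Filter.Tendsto (fun n => ∑ j, ‖z n j‖ ^ 2) Filter.atTop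
      (nhds (∑ j, ‖z₀ j‖ ^ 2)) := tendsto_finsetSum _ fun j _ => ((hz j).norm).pow 2
  have hE : Filter.Tendsto (fun n => ∑ j, 2 * (M * ‖z n j‖ ^ 2 -
      (inner ℂ (z n j) (T (z n j)) : ℂ).re)) Filter.atTop
      (nhds (∑ j, 2 * (M * ‖z₀ j‖ ^ 2 - (inner ℂ (z₀ j) (T (z₀ j)) : ℂ).re))) := by
    refine tendsto_finsetSum _ fun j _ => ?_
    have hT : Filter.Tendsto (fun n => T (z n j)) Filter.atTop (nhds (T (z₀ j))) :=
      (T.continuous.tendsto _).comp (hz j)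
    have hi : Filter.Tendsto (fun n => (inner ℂ (z n j) (T (z n j)) : ℂ).re) Filter.atTop
        (nhds (inner ℂ (z₀ j) (T (z₀ j)) : ℂ).re) :=
      (Complex.continuous_re.tendsto _).comp ((hz j).inner hT)
    exact ((((hz j).norm).pow 2).const_mul M |>.sub hi).const_mul 2
  have hl2 := hl1.pow 2
  have hne : lam₀ ^ 2 ≠ 0 := by positivity
  have h1 := hS.div hl2 hne
  have h2 := (hE.const_mul 2).div hl2 hne
  refine le_of_tendsto_of_tendsto' (h1.sub (h2.div_const κ)) ((h1.sqrt).const_mul r) ?_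
  intro n
  exact hz2 n

theorem TRB_final (S S' x κ lam₀ E : ℝ) (hS : 0 ≤ S) (hl : 0 < lam₀) (hκ : 4 * lam₀ < κ)
    (hx : 0 ≤ x) (hE : E ≤ 2 * (lam₀ * S)) (hS' : S' = S / lam₀ ^ 2)
    (h : S' - 2 * E / lam₀ ^ 2 / κ ≤ x * Real.sqrt S') :
    S ≤ lam₀ ^ 2 * x ^ 2 / (1 - 4 * lam₀ / κ) ^ 2 := by
  have hκ0 : 0 < κ := by linarith
  have hq : 0 < 1 - 4 * lam₀ / κ := by
    rw [sub_pos, div_lt_one hκ0]
    exact hκ
  have hS0 : 0 ≤ S' := by rw [hS']; positivity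
  have h1 : S' * (1 - 4 * lam₀ / κ) ≤ x * Real.sqrt S' := by
    refine le_trans ?_ h
    have h2 : 2 * E / lam₀ ^ 2 / κ ≤ 2 * (2 * (lam₀ * S)) / lam₀ ^ 2 / κ := by gcongr
    have h3 : 2 * (2 * (lam₀ * S)) / lam₀ ^ 2 / κ = S' * (4 * lam₀ / κ) := by
      rw [hS']
      ring
    rw [mul_sub, mul_one]
    linarith
  have h2 : Real.sqrt S' * (1 - 4 * lam₀ / κ) ≤ x := by
    rcases (Real.sqrt_nonneg S').eq_or_lt with h0 | h0
    · rw [← h0, zero_mul]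
      exact hx
    · have h3 : Real.sqrt S' * Real.sqrt S' = S' := Real.mul_self_sqrt hS0
      have h4 : (Real.sqrt S' * (1 - 4 * lam₀ / κ)) * Real.sqrt S' ≤ x * Real.sqrt S' := by
        calc (Real.sqrt S' * (1 - 4 * lam₀ / κ)) * Real.sqrt S' =
            (Real.sqrt S' * Real.sqrt S') * (1 - 4 * lam₀ / κ) := by ring
          _ ≤ _ := by rw [h3]; exact h1
      exact le_of_mul_le_mul_right h4 h0
  have h3 : S' * (1 - 4 * lam₀ / κ) ^ 2 ≤ x ^ 2 := by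
    have h4 := pow_le_pow_left₀ (by positivity) h2 2
    rw [mul_pow, Real.sq_sqrt hS0] at h4
    exact h4
  rw [le_div_iff₀ (by positivity)]
  have h4 : S = S' * lam₀ ^ 2 := by
    rw [hS']
    field_simp
  calc S * (1 - 4 * lam₀ / κ) ^ 2 = lam₀ ^ 2 * (S' * (1 - 4 * lam₀ / κ) ^ 2) := by
        rw [h4]; ring
    _ ≤ lam₀ ^ 2 * x ^ 2 := by gcongr

/-! ### The step -/

/-- A function which is `lam` times `u` almost everywhere. -/
theorem TRB_scaled {X K : Type} [MeasurableSpace X] {m : Measure X} [NormedAddCommGroup K]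
    [InnerProductSpace ℂ K] (f : Lp K 2 m) (u : X → K) (lam : ℝ) (hl : 0 < lam)
    (h : ⇑f =ᵐ[m] fun x => ((lam : ℝ) : ℂ) • u x) :
    Integrable (fun x => ‖u x‖ ^ 2) m ∧ ∫ x, ‖u x‖ ^ 2 ∂m = ‖f‖ ^ 2 / lam ^ 2 := by
  have h1 : (fun x => ‖u x‖ ^ 2) =ᵐ[m] fun x => ‖f x‖ ^ 2 / lam ^ 2 := by
    filter_upwards [h] with x hx
    rw [hx, norm_smul, Complex.norm_real, Real.norm_of_nonneg hl.le]
    field_simp
  have h2 : Integrable (fun x => ‖f x‖ ^ 2) m := (Lp.memLp f).integrable_norm_pow (by norm_num)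
  refine ⟨(h2.div_const _).congr h1.symm, ?_⟩
  rw [integral_congr_ae h1, integral_div, TRB_norm_sq]

theorem TRB_opnorm {H : Type} [NormedAddCommGroup H] [InnerProductSpace ℂ H] (W : H →L[ℂ] H)
    (lam : ℝ) (hl : 0 < lam) (hW : ‖W‖ ≤ lam) (f : H) : ‖W f‖ ^ 2 / lam ^ 2 ≤ ‖f‖ ^ 2 := by
  rw [div_le_iff₀ (by positivity), ← mul_pow, mul_comm ‖f‖]
  exact pow_le_pow_left₀ (norm_nonneg _) (W.le_of_opNorm_le hW f) 2

theorem TRB_step (h1 : Stmt_COC) (h2 : Stmt_AMP) (h3 : Stmt_LAT) (G : Type) [Group G]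
    [TopologicalSpace G] [IsTopologicalGroup G]
    [SecondCountableTopology G] [MeasurableSpace G] [BorelSpace G] [T2Space G] (Γ : Subgroup G)
    [Countable Γ] (m : Measure (G ⧸ Γ)) [IsProbabilityMeasure m] (σ : G ⧸ Γ → G)
    (hσ : ∀ x, (σ x : G ⧸ Γ) = x) (hσm : Measurable σ)
    (hm : ∀ g : G, MeasurePreserving (fun x => g • x) m m) (K : Type) [NormedAddCommGroup K]
    [InnerProductSpace ℂ K] [CompleteSpace K] (S : SM K)
    (π : Γ →* (K ≃ₗᵢ[ℂ] K)) (hπ : ∀ γ, S.Mem (opU (π γ)))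
    (U : G →* (Lp K 2 m ≃ₗᵢ[ℂ] Lp K 2 m)) (hU : IsInd Γ m σ hσ K π U)
    (Ω : Type) [MeasurableSpace Ω] (μ : Measure Ω) [IsFiniteMeasure μ] (t : Ω → G) (κ : ℝ)
    (T : Lp K 2 m →L[ℂ] Lp K 2 m) (hκ : 0 < κ)
    (hgap : GapX m μ (fun s x => (t s)⁻¹ • x) κ)
    (hmU : ∀ v w : Lp K 2 m, Measurable fun s => (inner ℂ v (U (t s) w) : ℂ))
    (hT : WeakAvg μ (fun s => U (t s)) T) (L : ℕ) (φ : Fin L → Lp ℂ 2 m)
    (hφ : Orthonormal ℂ φ) (lam : ℝ) (hl : 0 < lam) {k : ℕ} (g : Fin k → G) (a : Fin k → ℂ)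
    (hW : ‖∑ i, a i • opU (U (g i))‖ ≤ lam) :
    TRB_ineq T (μ.real Set.univ) κ ‖S.ξ‖ lam
      (fun j => (∑ i, a i • opU (U (g i))) (tn (φ j) S.ξ)) := by
  set W : Lp K 2 m →L[ℂ] Lp K 2 m := ∑ i, a i • opU (U (g i)) with hWdef
  set Φ : Fin L → G ⧸ Γ → (K →L[ℂ] K) := fun j => TRB_Phi hσ π lam g a (φ j) with hΦ
  set u : Ω → G ⧸ Γ → (K →L[ℂ] K) := fun s x => opU (π (coc Γ σ hσ (t s) ((t s)⁻¹ • x))) with hu
  set D : TD (PiLp 2 fun _ : Option (Fin L) => K) (Option (Fin L)) :=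
    S.amp (Option (Fin L)) h2 with hD
  have hWae : ∀ j v, ⇑(W (tn (φ j) v)) =ᵐ[m] fun x => ((lam : ℝ) : ℂ) • Φ j x v :=
    fun j v => TRB_W_ae (hσ := hσ) π U hm hU lam hl.ne' g a (φ j) v
  have hUWae : ∀ j v s, ⇑(U (t s) (W (tn (φ j) v))) =ᵐ[m]
      fun x => ((lam : ℝ) : ℂ) • u s x (Φ j ((t s)⁻¹ • x) v) :=
    fun j v s => TRB_UW_ae (hσ := hσ) π U hm hU lam hl.ne' g a (φ j) v (t s)
  have hΦm : ∀ j x, S.Mem (Φ j x) := fun j x => TRB_Phi_mem S π hπ lam g a (φ j) x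
  have hum : ∀ s j x, S.Mem (u s x * Φ j ((t s)⁻¹ • x)) := fun s j x => (hπ _).mul (hΦm j _)
  set E : ℝ := ∑ j, 2 * (μ.real Set.univ * ‖W (tn (φ j) S.ξ)‖ ^ 2 -
    (inner ℂ (W (tn (φ j) S.ξ)) (T (W (tn (φ j) S.ξ))) : ℂ).re) / lam ^ 2 with hE
  have hE0 : 0 ≤ E := Finset.sum_nonneg fun j _ => div_nonneg
    (TRB_energy_nonneg μ (fun s => U (t s)) T hmU hT _) (by positivity)
  have hhs : ∀ x, D.hs (row fun j => Φ j x) = ∑ j, ‖Φ j x S.ξ‖ ^ 2 :=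
    fun x => TRB_hs_row S h2 _
  have hint : ∫ x, D.hs (row fun j => Φ j x) ∂m =
      (∑ j, ‖W (tn (φ j) S.ξ)‖ ^ 2) / lam ^ 2 := by
    simp only [hhs]
    rw [integral_finsetSum _ fun j _ => (TRB_scaled _ _ lam hl (hWae j S.ξ)).1,
      Finset.sum_div]
    exact Finset.sum_congr rfl fun j _ => (TRB_scaled _ _ lam hl (hWae j S.ξ)).2
  have hcontr : ∀ v : PiLp 2 fun _ : Option (Fin L) => K,
      ∫ x, ‖(row fun j => Φ j x) v‖ ^ 2 ∂m ≤ ‖v‖ ^ 2 := by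
    intro v
    have e1 : ⇑(W (∑ j, tn (φ j) (v (some j)))) =ᵐ[m]
        fun x => ((lam : ℝ) : ℂ) • ∑ j, Φ j x (v (some j)) := by
      rw [map_sum]
      filter_upwards [TRB_coe_sum Finset.univ fun j => W (tn (φ j) (v (some j))),
        ae_all_iff.2 fun j => hWae j (v (some j))] with x e1 e2
      rw [e1, Finset.smul_sum]
      exact Finset.sum_congr rfl fun j _ => e2 j
    have e2 := (TRB_scaled _ _ lam hl e1).2
    simp only [TRB_norm_row]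
    rw [e2]
    refine (TRB_opnorm W lam hl hW _).trans ?_
    rw [TRB_tn_sum φ hφ, PiLp.norm_sq_eq_of_L2, Fintype.sum_option]
    have : 0 ≤ ‖v none‖ ^ 2 := by positivity
    linarith
  have hen : ∫⁻ s, ∫⁻ x, ENNReal.ofReal (D.hs ((row fun j => u s x * Φ j ((t s)⁻¹ • x)) -
      row fun j => Φ j x)) ∂m ∂μ ≤ ENNReal.ofReal E := by
    have e1 : ∀ s, ∫⁻ x, ENNReal.ofReal (D.hs ((row fun j => u s x * Φ j ((t s)⁻¹ • x)) -
        row fun j => Φ j x)) ∂m =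
        ENNReal.ofReal (∑ j, ‖U (t s) (W (tn (φ j) S.ξ)) - W (tn (φ j) S.ξ)‖ ^ 2 / lam ^ 2) := by
      intro s
      have e2 : ∀ x, D.hs ((row fun j => u s x * Φ j ((t s)⁻¹ • x)) - row fun j => Φ j x) =
          ∑ j, ‖u s x (Φ j ((t s)⁻¹ • x) S.ξ) - Φ j x S.ξ‖ ^ 2 := by
        intro x
        rw [TRB_row_sub]
        exact TRB_hs_row S h2 _
      have e3 : ∀ j, ⇑(U (t s) (W (tn (φ j) S.ξ)) - W (tn (φ j) S.ξ)) =ᵐ[m]
          fun x => ((lam : ℝ) : ℂ) • (u s x (Φ j ((t s)⁻¹ • x) S.ξ) - Φ j x S.ξ) := by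
        intro j
        filter_upwards [Lp.coeFn_sub (U (t s) (W (tn (φ j) S.ξ))) (W (tn (φ j) S.ξ)),
          hWae j S.ξ, hUWae j S.ξ s] with x a1 a2 a3
        rw [a1, Pi.sub_apply, a2, a3, smul_sub]
      simp only [e2]
      rw [← ofReal_integral_eq_lintegral_ofReal
        (integrable_finsetSum _ fun j _ => (TRB_scaled _ _ lam hl (e3 j)).1)
        (Filter.Eventually.of_forall fun x => Finset.sum_nonneg fun j _ => by positivity),
        integral_finsetSum _ fun j _ => (TRB_scaled _ _ lam hl (e3 j)).1]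
      congr 1
      exact Finset.sum_congr rfl fun j _ => (TRB_scaled _ _ lam hl (e3 j)).2
    simp only [e1]
    have e4 : ∀ j, Integrable (fun s => ‖U (t s) (W (tn (φ j) S.ξ)) - W (tn (φ j) S.ξ)‖ ^ 2 /
        lam ^ 2) μ := fun j =>
      (TRB_energy_int μ (fun s => U (t s)) T hmU hT (W (tn (φ j) S.ξ))).1.div_const _
    rw [← ofReal_integral_eq_lintegral_ofReal (integrable_finsetSum _ fun j _ => e4 j)
      (Filter.Eventually.of_forall fun x => Finset.sum_nonneg fun j _ => by positivity),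
      integral_finsetSum _ fun j _ => e4 j]
    refine ENNReal.ofReal_le_ofReal (le_of_eq ?_)
    rw [hE]
    refine Finset.sum_congr rfl fun j _ => ?_
    rw [integral_div, (TRB_energy_int μ (fun s => U (t s)) T hmU hT (W (tn (φ j) S.ξ))).2]
  have hfin := h3 (PiLp 2 fun _ : Option (Fin L) => K) (Option (Fin L)) D p0 (G ⧸ Γ) Ω m μ
    (fun s x => (t s)⁻¹ • x) κ E (fun x => row fun j => Φ j x)
    (fun s x => row fun j => u s x * Φ j ((t s)⁻¹ • x)) hκ hE0 hgap (TRB_mem_p0 S h2)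
    TRB_p0_sa TRB_p0_sq
    (TRB_row_memLp Φ fun j => TRB_Phi_memLp h1 hσm hm π lam g a (φ j))
    (fun x => TRB_mem_row S h2 _ fun j => hΦm j x) (fun x => TRB_p0_row _)
    (fun x => TRB_row_p0 _) (fun s x => TRB_mem_row S h2 _ fun j => hum s j x)
    (fun s x => TRB_p0_row _) (fun s x => TRB_row_p0 _)
    (fun s => Filter.Eventually.of_forall fun x => by
      show star (row fun j => u s x * Φ j ((t s)⁻¹ • x)) *
        (row fun j => u s x * Φ j ((t s)⁻¹ • x)) = _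
      rw [TRB_dg_row, star_mul, mul_assoc, ← mul_assoc (star (dg (u s x))), TRB_dg_unit,
        one_mul]) hcontr hen
  rw [hint] at hfin
  have hp : D.hs p0 = ‖S.ξ‖ ^ 2 := TRB_hs_p0 S h2
  rw [hp, Real.sqrt_sq (norm_nonneg _)] at hfin
  unfold TRB_ineq
  refine le_trans (le_of_eq ?_) hfin
  rw [hE, ← Finset.sum_div]
  ring

theorem p_TRB (h1 : Stmt_COC) (h2 : Stmt_AMP) (h3 : Stmt_LAT) (h4 : Stmt_WAP)
    (h5 : Stmt_PSP) : Stmt_TRB := by
  intro G _ _ _ _ _ _ _ Γ _ m _ σ hσ hσm hm K _ _ _ _ S π hπ U hU Ω _ μ _ t κ c T ht hκ hgap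
    hTsa hmU hT hc hcκ L φ hφ
  have hl : 0 < μ.real Set.univ - c := by linarith
  have h6 := TRB_limit T (μ.real Set.univ) κ ‖S.ξ‖ (μ.real Set.univ - c)
    (fun j => tpp T c (tn (φ j) S.ξ)) hl (by
      intro lam hlam δ hδ
      obtain ⟨k, g, a, hW, hwd⟩ := h4 (Lp K 2 m) Ω G μ U t T c lam hmU hTsa hT hc hlam L
        (fun j => tn (φ j) S.ξ) δ hδ
      exact ⟨_, hwd, TRB_step h1 h2 h3 G Γ m σ hσ hσm hm K S π hπ U hU Ω μ t κ T hκ hgap hmU hT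
        L φ hφ lam (hl.trans hlam) g a hW⟩)
  unfold TRB_ineq at h6
  refine TRB_final _ _ ‖S.ξ‖ κ (μ.real Set.univ - c) _
    (Finset.sum_nonneg fun j _ => by positivity) hl hcκ (norm_nonneg _) ?_ rfl h6
  rw [Finset.mul_sum, Finset.mul_sum]
  refine Finset.sum_le_sum fun j _ => ?_
  have h7 := (h5 (Lp K 2 m) T c hTsa).2.2.2 (tn (φ j) S.ξ)
  have h8 : μ.real Set.univ * ‖tpp T c (tn (φ j) S.ξ)‖ ^ 2 -
      (inner ℂ (tpp T c (tn (φ j) S.ξ)) (T (tpp T c (tn (φ j) S.ξ))) : ℂ).re ≤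
      (μ.real Set.univ - c) * ‖tpp T c (tn (φ j) S.ξ)‖ ^ 2 := by
    rw [sub_mul]
    linarith
  linarith

end Pool.TC
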