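import Pool.Agent.Work.MP_972ac7_C.Interface
import Pool.Agent.Work.MP_972ac7_gen.B_TRANS

/-! # TRK: from a vector moved by the induced representation to an element of a finite set -/

set_option autoImplicit false

open MeasureTheory
open scoped ENNReal

noncomputable section

namespace Pool.TC

open Pool.TFD

theorem p_TRK (h1 : Stmt_COC) : Stmt_TRK := by
  intro G _ _ _ _ _ _ _ Γ _ m _ σ hσ hσm hm Ω _ μ _ t κ ht hκ
  obtain ⟨-, hs, hc⟩ := h1 G Γ σ hσ hσm
  set c : Ω × (G ⧸ Γ) → Γ := fun p => coc Γ σ hσ (t p.1) ((t p.1)⁻¹ • p.2) with hcdef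
  have hcm : Measurable c := TRANS_meas Γ σ hσ t ht hs hc
  set P : Measure Γ := (μ.prod m).map c with hP
  have : IsFiniteMeasure P := by rw [hP]; infer_instance
  obtain ⟨Q0, hQ0⟩ := TRANS_fin P (ENNReal.ofReal (κ / 16)) (by positivity)
  set M : ℝ := (P Set.univ).toReal with hM
  have hM0 : 0 ≤ M := ENNReal.toReal_nonneg
  set ε : ℝ := Real.sqrt (κ / (4 * (M + 1))) with hε
  have hεp : 0 < ε := by rw [hε]; positivity
  have hε2 : ε ^ 2 = κ / (4 * (M + 1)) := by rw [hε, Real.sq_sqrt (by positivity)]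
  classical
  refine ⟨insert 1 Q0, ε, hεp, ?_⟩
  intro V _ _ _ _ π U hU v h4
  refine TRANS_key π P (insert 1 Q0) ε (κ / 16) M κ hεp (by positivity) hM0 ?_
    (Finset.mem_insert_self _ _) ?_ ?_ v ?_
  · refine le_trans (measure_mono ?_) hQ0.le
    intro x hx hx'
    apply hx
    simp only [Finset.coe_insert, Set.mem_insert_iff]
    exact Or.inr hx'
  · rw [hM, ENNReal.ofReal_toReal (measure_ne_top _ _)]
  · rw [hε2]
    have h3 : κ / (4 * (M + 1)) * M ≤ κ / 4 := by
      rw [div_mul_eq_mul_div, div_le_div_iff₀ (by positivity) (by norm_num)]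
      nlinarith
    linarith
  · refine le_trans h4 (le_of_eq ?_)
    set f : Lp V 2 m := cst m v with hf
    have hmeas : Measurable fun γ : Γ => ‖π γ v - v‖ₑ ^ 2 := measurable_of_countable _
    have h9 : ∫⁻ a : Ω × (G ⧸ Γ), ‖π (c a) v - v‖ₑ ^ 2 ∂(μ.prod m) =
        ∫⁻ s, ∫⁻ x, ‖π (c (s, x)) v - v‖ₑ ^ 2 ∂m ∂μ :=
      lintegral_prod _ (hmeas.comp hcm).aemeasurable
    rw [hP, lintegral_map hmeas hcm, h9]
    apply lintegral_congr
    intro s
    rw [TRANS_norm]
    apply lintegral_congr_ae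
    have h5 := hU (t s) f
    have h6 := Lp.coeFn_sub (U (t s) f) f
    have h7 : ⇑f =ᵐ[m] fun _ => v := cst_ae v
    have h8 : (fun x => f ((t s)⁻¹ • x)) =ᵐ[m] fun _ => v :=
      (hm (t s)⁻¹).quasiMeasurePreserving.ae_eq_comp h7
    filter_upwards [h5, h6, h7, h8] with x h5 h6 h7 h8
    rw [h6]
    simp only [Pi.sub_apply]
    rw [h5, h7, h8]

end Pool.TC
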