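import Pool.Agent.Work.MP_972ac7_C.Interface

/-! # Block VG: the gap for Hilbert space valued functions -/

set_option autoImplicit false

open MeasureTheory TopologicalSpace
open scoped ENNReal

noncomputable section

namespace Pool.TC

open Pool.TFD

theorem VG_countable {K : Type} [NormedAddCommGroup K] [InnerProductSpace ℂ K] [SeparableSpace K]
    {ι : Type} {b : ι → K} (hb : Orthonormal ℂ b) : Countable ι := by
  have h : (Set.univ : Set ι).PairwiseDisjoint (fun i => Metric.ball (b i) (1 / 2)) := by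
    intro i _ j _ hij
    apply Metric.ball_disjoint_ball
    have h1 : ‖b i - b j‖ ^ 2 = 2 := by
      rw [norm_sub_sq (𝕜 := ℂ), hb.1 i, hb.1 j, hb.2 hij]
      norm_num
    rw [dist_eq_norm]
    nlinarith [norm_nonneg (b i - b j)]
  have h2 := h.countable_of_isOpen (fun i _ => Metric.isOpen_ball)
    (fun i _ => ⟨b i, Metric.mem_ball_self (by norm_num)⟩)
  exact Set.countable_univ_iff.1 h2

theorem VG_sum {X ι : Type} [MeasurableSpace X] (m : Measure X) (s : Finset ι)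
    (F : ι → X → ℝ≥0∞) : ∑ i ∈ s, ∫⁻ x, F i x ∂m ≤ ∫⁻ x, ∑ i ∈ s, F i x ∂m := by
  classical
  induction s using Finset.induction_on with
  | empty => simp
  | insert a s ha ih =>
    rw [Finset.sum_insert ha]
    calc ∫⁻ x, F a x ∂m + ∑ i ∈ s, ∫⁻ x, F i x ∂m
        ≤ ∫⁻ x, F a x ∂m + ∫⁻ x, ∑ i ∈ s, F i x ∂m := add_le_add le_rfl ih
      _ ≤ ∫⁻ x, (F a x + ∑ i ∈ s, F i x) ∂m := le_lintegral_add _ _
      _ = _ := by
          refine lintegral_congr fun x => ?_
          rw [Finset.sum_insert ha]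

theorem VG_enorm {E : Type} [NormedAddCommGroup E] (v : E) :
    ‖v‖ₑ ^ 2 = ENNReal.ofReal (‖v‖ ^ 2) := by
  rw [ENNReal.ofReal_pow (norm_nonneg _), ofReal_norm]

theorem VG_par {K : Type} [NormedAddCommGroup K] [InnerProductSpace ℂ K] {ι : Type}
    (b : HilbertBasis ι ℂ K) (x : K) :
    ∑' i, ‖(inner ℂ (b i) x : ℂ)‖ₑ ^ 2 = ‖x‖ₑ ^ 2 := by
  have h1 := b.hasSum_inner_mul_inner x x
  have h2 : HasSum (fun i => ‖(inner ℂ (b i) x : ℂ)‖ ^ 2) (‖x‖ ^ 2) := by
    have h3 : HasSum (fun i => ((‖(inner ℂ (b i) x : ℂ)‖ ^ 2 : ℝ) : ℂ)) ((‖x‖ ^ 2 : ℝ) : ℂ) := by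
      have e1 : ((‖x‖ ^ 2 : ℝ) : ℂ) = inner ℂ x x := by
        rw [inner_self_eq_norm_sq_to_K]
        push_cast
        rfl
      have e2 : (fun i => ((‖(inner ℂ (b i) x : ℂ)‖ ^ 2 : ℝ) : ℂ)) =
          fun i => (inner ℂ x (b i) : ℂ) * inner ℂ (b i) x := by
        funext i
        rw [← inner_conj_symm x (b i), Complex.conj_mul']
        push_cast
        rfl
      rw [e1, e2]
      exact h1
    exact_mod_cast h3
  rw [VG_enorm x, ← h2.tsum_eq, ENNReal.ofReal_tsum_of_nonneg (fun _ => by positivity) h2.summable]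
  exact tsum_congr fun i => VG_enorm _

theorem p_VG : Stmt_VG := by
  intro H _ _ _ X Ω _ _ m μ _ T κ f hgap hf
  have hfi : Integrable f m := hf.integrable (by norm_num)
  obtain ⟨t, ht, hft⟩ := hf.1.isSeparable_ae_range
  set c : H := ∫ y, f y ∂m with hc
  set K : Submodule ℂ H := (Submodule.span ℂ (t ∪ {c})).topologicalClosure with hK
  have hKs : IsSeparable (K : Set H) := by
    rw [hK, Submodule.topologicalClosure_coe]
    exact ((ht.union (Set.countable_singleton c).isSeparable).span (R := ℂ)).closure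
  have : SeparableSpace K := hKs.separableSpace
  have : CompleteSpace K := (Submodule.isClosed_topologicalClosure _).completeSpace_coe
  have hle : Submodule.span ℂ (t ∪ {c}) ≤ K := Submodule.le_topologicalClosure _
  have hcK : c ∈ K := hle (Submodule.subset_span (Or.inr rfl))
  have hfK : ∀ᵐ x ∂m, f x - c ∈ K := by
    filter_upwards [hft] with x hx
    exact K.sub_mem (hle (Submodule.subset_span (Or.inl hx))) hcK
  obtain ⟨w, b, -⟩ := exists_hilbertBasis ℂ K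
  have : Countable w := VG_countable b.orthonormal
  set e : w → H := fun i => ((b i : K) : H) with he
  have heo : Orthonormal ℂ e := b.orthonormal.comp_linearIsometry K.subtypeₗᵢ
  -- left side
  have h1 : ∫⁻ x, ‖f x - c‖ₑ ^ 2 ∂m = ∑' i : w, ∫⁻ x, ‖(inner ℂ (e i) (f x) : ℂ) - ∫ y, inner ℂ (e i) (f y) ∂m‖ₑ ^ 2 ∂m := by
    have h2 : ∫⁻ x, ‖f x - c‖ₑ ^ 2 ∂m = ∫⁻ x, ∑' i : w, ‖(inner ℂ (e i) (f x - c) : ℂ)‖ₑ ^ 2 ∂m := by
      refine lintegral_congr_ae ?_
      filter_upwards [hfK] with x hx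
      have h3 := VG_par b (⟨f x - c, hx⟩ : K)
      exact h3.symm
    rw [h2, lintegral_tsum]
    · refine tsum_congr fun i => lintegral_congr fun x => ?_
      rw [inner_sub_right, hc, ← integral_inner hfi]
    · intro i
      exact (((hf.1.sub aestronglyMeasurable_const).const_inner).enorm).pow_const 2
  rw [h1, ← ENNReal.tsum_mul_left]
  have h4 : ∀ i : w, ENNReal.ofReal κ * ∫⁻ x, ‖(inner ℂ (e i) (f x) : ℂ) - ∫ y, inner ℂ (e i) (f y) ∂m‖ₑ ^ 2 ∂m ≤
      ∫⁻ s, ∫⁻ x, ‖(inner ℂ (e i) (f (T s x)) : ℂ) - inner ℂ (e i) (f x)‖ₑ ^ 2 ∂m ∂μ := fun i =>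
    hgap (fun x => inner ℂ (e i) (f x)) (hf.const_inner (e i))
  refine (ENNReal.tsum_le_tsum h4).trans ?_
  rw [ENNReal.tsum_eq_iSup_sum]
  refine iSup_le fun s => ?_
  refine (VG_sum μ s _).trans (lintegral_mono fun u => ?_)
  refine (VG_sum m s _).trans (lintegral_mono fun x => ?_)
  have h5 := heo.sum_inner_products_le (f (T u x) - f x) (s := s)
  have h6 : ∑ i ∈ s, ‖(inner ℂ (e i) (f (T u x)) : ℂ) - inner ℂ (e i) (f x)‖ₑ ^ 2 =
      ENNReal.ofReal (∑ i ∈ s, ‖(inner ℂ (e i) (f (T u x) - f x) : ℂ)‖ ^ 2) := by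
    rw [ENNReal.ofReal_sum_of_nonneg (fun _ _ => by positivity)]
    refine Finset.sum_congr rfl fun i _ => ?_
    rw [← inner_sub_right, VG_enorm]
  show ∑ i ∈ s, ‖(inner ℂ (e i) (f (T u x)) : ℂ) - inner ℂ (e i) (f x)‖ₑ ^ 2 ≤ ‖f (T u x) - f x‖ₑ ^ 2
  rw [h6, VG_enorm]
  exact ENNReal.ofReal_le_ofReal h5

end Pool.TC
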