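import Pool.Agent.Work.MP_972ac7_C.Interface

/-! # Block VNG: from standard tracial modules to finite von Neumann algebras -/

set_option autoImplicit false

open MeasureTheory

noncomputable section

namespace Pool.TC

open Pool.TFD

theorem p_VNG (h1 : Stmt_STF) (h2 : Stmt_ITR) (h3 : Stmt_DNS) : Stmt_VNG := by
  intro Λ _ _ ⟨Q, ε, hε, hQ⟩
  classical
  refine ⟨insert 1 Q, ε / Real.sqrt ((Q.card : ℝ) + 1), by positivity, ?_⟩
  intro K _ _ _ M ι ξ π hM hsum htr hfa v hv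
  obtain ⟨K₂, i1, i2, i3, S, π₂, hS, hΨ⟩ := h1 Λ K M ι ξ π hM hsum htr
  -- all vectors of the span are images of the cyclic vector under intertwiners
  have hspan : ∀ u ∈ (Submodule.span ℂ {v : K | ∃ r : K →L[ℂ] K, (∀ T ∈ M, T * r = r * T) ∧
      ∃ i, v = r (ξ i)} : Submodule ℂ K), ∃ Ψ : K₂ →L[ℂ] K,
      (∀ γ, Ψ ∘L opU (π₂ γ) = opU (π γ) ∘L Ψ) ∧ Ψ S.ξ = u := by
    intro u hu
    induction hu using Submodule.span_induction with
    | mem x hx =>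
      obtain ⟨r, hr, i, rfl⟩ := hx
      exact hΨ r hr i
    | zero =>
      refine ⟨0, fun γ => ?_, ?_⟩
      · ext x
        simp
      · simp
    | add x y _ _ hx hy =>
      obtain ⟨Ψ₁, ha, hb⟩ := hx
      obtain ⟨Ψ₂, hc, hd⟩ := hy
      refine ⟨Ψ₁ + Ψ₂, fun γ => ?_, ?_⟩
      · ext x
        have e1 := congrArg (fun f : K₂ →L[ℂ] K => f x) (ha γ)
        have e2 := congrArg (fun f : K₂ →L[ℂ] K => f x) (hc γ)
        simp only [ContinuousLinearMap.comp_apply, opU_apply] at e1 e2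
        simp only [ContinuousLinearMap.comp_apply, opU_apply, ContinuousLinearMap.add_apply,
          map_add, e1, e2]
      · rw [ContinuousLinearMap.add_apply, hb, hd]
    | smul a x _ hx =>
      obtain ⟨Ψ₁, ha, hb⟩ := hx
      refine ⟨a • Ψ₁, fun γ => ?_, ?_⟩
      · ext x
        have e1 := congrArg (fun f : K₂ →L[ℂ] K => f x) (ha γ)
        simp only [ContinuousLinearMap.comp_apply, opU_apply] at e1
        simp only [ContinuousLinearMap.comp_apply, opU_apply, ContinuousLinearMap.smul_apply,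
          map_smul, e1]
      · rw [ContinuousLinearMap.smul_apply, hb]
  have hnv : ∀ w : K, (∀ γ, π γ w = w) → ‖v‖ ≤ ‖v - w‖ := by
    intro w hw
    have e1 : (inner ℂ v w : ℂ) = 0 := by
      rw [← inner_conj_symm, hv w hw, map_zero]
    have e2 : ‖v - w‖ ^ 2 = ‖v‖ ^ 2 + ‖w‖ ^ 2 := by
      rw [@norm_sub_sq ℂ, e1]
      simp
    have e3 : ‖v‖ ^ 2 ≤ ‖v - w‖ ^ 2 := by
      rw [e2]
      nlinarith [sq_nonneg ‖w‖]
    exact (pow_le_pow_iff_left₀ (norm_nonneg _) (norm_nonneg _) two_ne_zero).1 e3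
  have hle : ∀ u ∈ (Submodule.span ℂ {v : K | ∃ r : K →L[ℂ] K, (∀ T ∈ M, T * r = r * T) ∧
      ∃ i, v = r (ξ i)} : Submodule ℂ K), ε * (‖v‖ - ‖v - u‖) ≤
      Real.sqrt (∑ q ∈ Q, ‖π q u - u‖ ^ 2) := by
    intro u hu
    obtain ⟨Ψ, ha, hb⟩ := hspan u hu
    obtain ⟨w, hw, hw2⟩ := h2 Λ K₂ K π₂ π Ψ Q ε hε ha (hQ K₂ S π₂ hS) S.ξ
    rw [hb] at hw2
    have e1 : ε * ‖u - w‖ ≤ Real.sqrt (∑ q ∈ Q, ‖π q u - u‖ ^ 2) := by
      refine Real.le_sqrt_of_sq_le ?_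
      rw [mul_pow]
      exact hw2
    have e2 : ‖v‖ - ‖v - u‖ ≤ ‖u - w‖ := by
      have e3 := hnv w hw
      have e4 : ‖v - w‖ ≤ ‖v - u‖ + ‖u - w‖ := by
        have := norm_add_le (v - u) (u - w)
        rwa [sub_add_sub_cancel] at this
      linarith
    exact le_trans (mul_le_mul_of_nonneg_left e2 hε.le) e1
  have hcl : IsClosed {u : K | ε * (‖v‖ - ‖v - u‖) ≤
      Real.sqrt (∑ q ∈ Q, ‖π q u - u‖ ^ 2)} := by
    refine isClosed_le (by fun_prop) ?_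
    refine Continuous.sqrt ?_
    refine continuous_finsetSum _ fun q _ => ?_
    exact (((π q).continuous.sub continuous_id).norm).pow 2
  have hall : ε * (‖v‖ - ‖v - v‖) ≤ Real.sqrt (∑ q ∈ Q, ‖π q v - v‖ ^ 2) := by
    have hd := h3 K M ι ξ hfa
    have e1 : closure ((Submodule.span ℂ {v : K | ∃ r : K →L[ℂ] K, (∀ T ∈ M, T * r = r * T) ∧
      ∃ i, v = r (ξ i)} : Submodule ℂ K) : Set K) ⊆ {u : K | ε * (‖v‖ - ‖v - u‖) ≤
      Real.sqrt (∑ q ∈ Q, ‖π q u - u‖ ^ 2)} := hcl.closure_subset_iff.2 hle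
    rw [hd.closure_eq] at e1
    exact e1 (Set.mem_univ v)
  rw [sub_self, norm_zero, sub_zero] at hall
  by_contra hcon
  push Not at hcon
  have hn : 0 < ‖v‖ := by
    rw [norm_pos_iff]
    rintro rfl
    have := hcon 1 (Finset.mem_insert_self _ _)
    simp at this
  have hs : 0 ≤ ∑ q ∈ Q, ‖π q v - v‖ ^ 2 := Finset.sum_nonneg fun _ _ => by positivity
  have e1 : ε ^ 2 * ‖v‖ ^ 2 ≤ ∑ q ∈ Q, ‖π q v - v‖ ^ 2 := by
    have := pow_le_pow_left₀ (by positivity) hall 2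
    rwa [Real.sq_sqrt hs, mul_pow] at this
  have e2 : ∑ q ∈ Q, ‖π q v - v‖ ^ 2 ≤
      ∑ _q ∈ Q, ε ^ 2 / ((Q.card : ℝ) + 1) * ‖v‖ ^ 2 := by
    refine Finset.sum_le_sum fun q hq => ?_
    have e3 := (hcon q (Finset.mem_insert_of_mem hq)).le
    have e4 := pow_le_pow_left₀ (norm_nonneg _) e3 2
    rwa [mul_pow, div_pow, Real.sq_sqrt (by positivity)] at e4
  rw [Finset.sum_const, nsmul_eq_mul] at e2
  have e5 : (Q.card : ℝ) * (ε ^ 2 / ((Q.card : ℝ) + 1) * ‖v‖ ^ 2) < ε ^ 2 * ‖v‖ ^ 2 := by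
    have e6 : (Q.card : ℝ) * (ε ^ 2 / ((Q.card : ℝ) + 1) * ‖v‖ ^ 2) =
        (Q.card : ℝ) / ((Q.card : ℝ) + 1) * (ε ^ 2 * ‖v‖ ^ 2) := by ring
    rw [e6]
    have e7 : (Q.card : ℝ) / ((Q.card : ℝ) + 1) < 1 := by
      rw [div_lt_one (by positivity)]
      linarith
    have e8 : 0 < ε ^ 2 * ‖v‖ ^ 2 := by positivity
    nlinarith
  linarith

end Pool.TC
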