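import Pool.Agent.Work.MP_972ac7_C.Interface

/-! # Block WAP: finite approximation of the positive part (helper83) -/

set_option autoImplicit false

open MeasureTheory
open scoped ENNReal

noncomputable section

namespace Pool.TC

open Pool.TFD

section

variable {H : Type} [NormedAddCommGroup H] [InnerProductSpace ℂ H] [CompleteSpace H]

theorem WAP_spec {T : H →L[ℂ] H} {M : ℝ} (hM : ‖T‖ ≤ M) {x : ℝ} (hx : x ∈ spectrum ℝ T) :
    x ∈ Set.Icc (-M) M := by
  have h1 := spectrum.norm_le_norm_mul_of_mem (𝕜 := ℝ) hx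
  have h2 : ‖(1 : H →L[ℂ] H)‖ ≤ 1 := ContinuousLinearMap.norm_id_le
  have h3 : ‖T‖ * ‖(1 : H →L[ℂ] H)‖ ≤ M := by
    calc ‖T‖ * ‖(1 : H →L[ℂ] H)‖ ≤ ‖T‖ * 1 := mul_le_mul_of_nonneg_left h2 (norm_nonneg _)
      _ ≤ M := by rw [mul_one]; exact hM
  rw [Real.norm_eq_abs] at h1
  exact abs_le.1 (h1.trans h3)

theorem WAP_cfc {T : H →L[ℂ] H} {M b : ℝ} (hM : ‖T‖ ≤ M) (hb : 0 ≤ b)
    (f : ℝ → ℝ) (h : ∀ x ∈ Set.Icc (-M) M, |f x| ≤ b) : ‖cfc f T‖ ≤ b :=
  norm_cfc_le hb fun x hx => h x (WAP_spec hM hx)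

theorem WAP_tpp {T : H →L[ℂ] H} (hT : IsSelfAdjoint T) (c : ℝ) :
    tpp T c = cfc (fun x : ℝ => max (x - c) 0) T := by
  have h1 : T - (c : ℂ) • (1 : H →L[ℂ] H) = cfc (fun x : ℝ => x - c) T := by
    rw [cfc_sub (R := ℝ) (fun x => x) (fun _ => c) T, cfc_id' ℝ T, cfc_const c T,
      Complex.coe_smul, Algebra.algebraMap_eq_smul_one]
  unfold tpp
  rw [h1, CFC.posPart_def, cfcₙ_eq_cfc, ← cfc_comp' (fun x : ℝ => x⁺) (fun x : ℝ => x - c) T]
  rfl

theorem WAP_pow {T T' : H →L[ℂ] H} {M η : ℝ} (hM : 0 ≤ M) (hη : 0 ≤ η) (hT' : ‖T'‖ ≤ M) (v : H)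
    (N : ℕ) (h : ∀ i < N, ‖T ((T ^ i) v) - T' ((T ^ i) v)‖ ≤ η) :
    ∀ i ≤ N, ‖(T' ^ i) v - (T ^ i) v‖ ≤ (i : ℝ) * (M + 1) ^ i * η := by
  intro i
  induction i with
  | zero => intro _; simp
  | succ i ih =>
    intro hi
    have h1 := ih (by omega)
    have h2 := h i (by omega)
    have e : (T' ^ (i + 1)) v - (T ^ (i + 1)) v =
        T' ((T' ^ i) v - (T ^ i) v) - (T ((T ^ i) v) - T' ((T ^ i) v)) := by
      rw [pow_succ', pow_succ', map_sub]
      show T' ((T' ^ i) v) - T ((T ^ i) v) = _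
      abel
    rw [e]
    calc ‖T' ((T' ^ i) v - (T ^ i) v) - (T ((T ^ i) v) - T' ((T ^ i) v))‖
        ≤ ‖T' ((T' ^ i) v - (T ^ i) v)‖ + ‖T ((T ^ i) v) - T' ((T ^ i) v)‖ := norm_sub_le _ _
      _ ≤ M * ((i : ℝ) * (M + 1) ^ i * η) + η := by
          refine add_le_add ?_ h2
          exact (T'.le_opNorm _).trans (mul_le_mul hT' h1 (norm_nonneg _) hM)
      _ ≤ ((i + 1 : ℕ) : ℝ) * (M + 1) ^ (i + 1) * η := by
          have h3 : (1 : ℝ) ≤ (M + 1) ^ (i + 1) := one_le_pow₀ (by linarith)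
          have h4 : M * ((i : ℝ) * (M + 1) ^ i * η) ≤ (i : ℝ) * (M + 1) ^ (i + 1) * η := by
            have : (0 : ℝ) ≤ (i : ℝ) * (M + 1) ^ i * η := by positivity
            calc M * ((i : ℝ) * (M + 1) ^ i * η) ≤ (M + 1) * ((i : ℝ) * (M + 1) ^ i * η) := by
                  nlinarith
              _ = _ := by ring
          have h5 : η ≤ (M + 1) ^ (i + 1) * η := le_mul_of_one_le_left hη h3
          push_cast
          nlinarith

/-- Polynomials of an operator. -/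
def WAP_q (q : Polynomial ℝ) (T : H →L[ℂ] H) : H →L[ℂ] H :=
  ∑ i ∈ Finset.range (q.natDegree + 1), (q.coeff i : ℂ) • T ^ i

theorem WAP_q_eq {T : H →L[ℂ] H} (hT : IsSelfAdjoint T) (q : Polynomial ℝ) :
    WAP_q q T = cfc (fun x : ℝ => q.eval x) T := by
  have h1 := cfc_polynomial (R := ℝ) q T hT
  rw [h1, Polynomial.aeval_eq_sum_range]
  unfold WAP_q
  refine Finset.sum_congr rfl fun i _ => ?_
  rw [Complex.coe_smul]

theorem WAP_q_near {T T' : H →L[ℂ] H} {M η : ℝ} (hM : 0 ≤ M) (hη : 0 ≤ η) (hT' : ‖T'‖ ≤ M)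
    (q : Polynomial ℝ) (v : H)
    (h : ∀ i < q.natDegree + 1, ‖T ((T ^ i) v) - T' ((T ^ i) v)‖ ≤ η) :
    ‖WAP_q q T' v - WAP_q q T v‖ ≤
      (∑ i ∈ Finset.range (q.natDegree + 1), |q.coeff i| * ((i : ℝ) * (M + 1) ^ i)) * η := by
  have e : WAP_q q T' v - WAP_q q T v = ∑ i ∈ Finset.range (q.natDegree + 1),
      (q.coeff i : ℂ) • ((T' ^ i) v - (T ^ i) v) := by
    unfold WAP_q
    simp only [ContinuousLinearMap.sum_apply, ContinuousLinearMap.smul_apply, smul_sub,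
      Finset.sum_sub_distrib]
  rw [e, Finset.sum_mul]
  refine norm_sum_le_of_le _ fun i hi => ?_
  have h1 := WAP_pow hM hη hT' v (q.natDegree + 1) h i (Finset.mem_range.1 hi).le
  rw [norm_smul, Complex.norm_real, Real.norm_eq_abs, mul_assoc]
  exact mul_le_mul_of_nonneg_left h1 (abs_nonneg _)

/-- The span of a group of unitary operators. -/
def WAP_S {G : Type} [Group G] (U : G →* (H ≃ₗᵢ[ℂ] H)) : Submodule ℂ (H →L[ℂ] H) :=
  Submodule.span ℂ (Set.range fun g => opU (U g))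

theorem WAP_mul {G : Type} [Group G] (U : G →* (H ≃ₗᵢ[ℂ] H)) {A B : H →L[ℂ] H}
    (hA : A ∈ WAP_S U) (hB : B ∈ WAP_S U) : A * B ∈ WAP_S U := by
  unfold WAP_S at *
  have h1 := Submodule.mul_mem_mul hA hB
  rw [Submodule.span_mul_span] at h1
  refine Submodule.span_mono ?_ h1
  rintro _ ⟨_, ⟨g, rfl⟩, _, ⟨h, rfl⟩, rfl⟩
  refine ⟨g * h, ?_⟩
  ext v
  show U (g * h) v = U g (U h v)
  rw [map_mul]
  rfl

theorem WAP_one {G : Type} [Group G] (U : G →* (H ≃ₗᵢ[ℂ] H)) :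
    (1 : H →L[ℂ] H) ∈ WAP_S U := by
  refine Submodule.subset_span ⟨1, ?_⟩
  ext v
  show U 1 v = v
  rw [map_one]
  rfl

theorem WAP_qmem {G : Type} [Group G] (U : G →* (H ≃ₗᵢ[ℂ] H)) {A : H →L[ℂ] H}
    (hA : A ∈ WAP_S U) (q : Polynomial ℝ) : WAP_q q A ∈ WAP_S U := by
  unfold WAP_q
  have h : ∀ i : ℕ, A ^ i ∈ WAP_S U := by
    intro i
    induction i with
    | zero => rw [pow_zero]; exact WAP_one U
    | succ i ih => rw [pow_succ]; exact WAP_mul U ih hA
  exact Submodule.sum_mem _ fun i _ => Submodule.smul_mem _ _ (h i)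

theorem WAP_rep {G : Type} [Group G] (U : G →* (H ≃ₗᵢ[ℂ] H)) {A : H →L[ℂ] H}
    (hA : A ∈ WAP_S U) :
    ∃ (k : ℕ) (g : Fin k → G) (a : Fin k → ℂ), A = ∑ i, a i • opU (U (g i)) := by
  unfold WAP_S at hA
  rw [Finsupp.mem_span_range_iff_exists_finsupp] at hA
  obtain ⟨c, rfl⟩ := hA
  set e : Fin c.support.card ≃ c.support := c.support.equivFin.symm with he
  refine ⟨c.support.card, fun i => (e i : G), fun i => c (e i), ?_⟩
  rw [Equiv.sum_comp e (fun x : c.support => c (x : G) • opU (U (x : G)))]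
  rw [Finsupp.sum, ← Finset.sum_coe_sort c.support (fun g => c g • opU (U g))]

theorem WAP_opU_norm (V : H ≃ₗᵢ[ℂ] H) : ‖opU V‖ ≤ 1 := by
  refine (opU V).opNorm_le_bound zero_le_one fun v => ?_
  rw [opU_apply, LinearIsometryEquiv.norm_map, one_mul]

theorem WAP_opU_star (V : H ≃ₗᵢ[ℂ] H) : star (opU V) = opU V.symm := by
  rw [ContinuousLinearMap.star_eq_adjoint]
  refine ((ContinuousLinearMap.eq_adjoint_iff _ _).2 fun x y => ?_).symm
  rw [opU_apply, opU_apply, ← LinearIsometryEquiv.inner_map_map V (V.symm x) y,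
    LinearIsometryEquiv.apply_symm_apply]

end

theorem p_WAP (hRS : Stmt_RS) : Stmt_WAP := by
  intro H Ω G _ _ _ _ _ μ _ U t T c lam hm hT hW hc hlam n w δ hδ
  set M : ℝ := μ.real Set.univ with hMdef
  have hM0 : 0 ≤ M := measureReal_nonneg
  -- the norm of `T`
  have hTn : ‖T‖ ≤ M := by
    refine T.opNorm_le_bound hM0 fun v => ?_
    have h1 : ∀ u : H, ‖(inner ℂ u (T v) : ℂ)‖ ≤ M * (‖u‖ * ‖v‖) := by
      intro u
      rw [hW u v]
      have h2 : ∀ s, ‖((inner ℂ u (U (t s) v) : ℂ) + (inner ℂ u ((U (t s)).symm v) : ℂ)) / 2‖ ≤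
          ‖u‖ * ‖v‖ := by
        intro s
        have h3 : ‖(inner ℂ u (U (t s) v) : ℂ)‖ ≤ ‖u‖ * ‖v‖ := by
          refine (norm_inner_le_norm _ _).trans ?_
          rw [LinearIsometryEquiv.norm_map]
        have h4 : ‖(inner ℂ u ((U (t s)).symm v) : ℂ)‖ ≤ ‖u‖ * ‖v‖ := by
          refine (norm_inner_le_norm _ _).trans ?_
          rw [LinearIsometryEquiv.norm_map]
        rw [norm_div, Complex.norm_ofNat]
        have h5 := norm_add_le (inner ℂ u (U (t s) v) : ℂ) (inner ℂ u ((U (t s)).symm v) : ℂ)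
        linarith
      have h6 := norm_integral_le_of_norm_le_const (μ := μ)
        (Filter.Eventually.of_forall h2)
      calc _ ≤ (‖u‖ * ‖v‖) * μ.real Set.univ := h6
        _ = _ := by rw [mul_comm]
    have h2 := h1 (T v)
    rw [inner_self_eq_norm_sq_to_K] at h2
    have h3 : ‖T v‖ ^ 2 ≤ M * (‖T v‖ * ‖v‖) := by
      have h4 : ‖((‖T v‖ : ℂ)) ^ 2‖ = ‖T v‖ ^ 2 := by simp
      rw [← h4]
      exact h2
    rcases (norm_nonneg (T v)).eq_or_lt with h5 | h5
    · rw [← h5]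
      positivity
    · have h6 : ‖T v‖ * ‖T v‖ ≤ ‖T v‖ * (M * ‖v‖) := by nlinarith
      exact le_of_mul_le_mul_left h6 h5
  -- the polynomial
  set f : ℝ → ℝ := fun x => max (x - c) 0 with hf
  set B1 : ℝ := ∑ r, ‖w r‖ with hB1
  have hB1r : ∀ r, ‖w r‖ ≤ B1 := fun r =>
    Finset.single_le_sum (f := fun r => ‖w r‖) (fun _ _ => norm_nonneg _) (Finset.mem_univ r)
  have hB10 : 0 ≤ B1 := Finset.sum_nonneg fun _ _ => norm_nonneg _
  set d : ℝ := min (lam - (M - c)) (δ / (2 * (B1 + 1))) with hd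
  have hd0 : 0 < d := lt_min (by linarith) (by positivity)
  obtain ⟨q, hq⟩ := exists_polynomial_near_of_continuousOn (-M) M f
    ((continuous_id.sub continuous_const).max continuous_const).continuousOn d hd0
  set B2 : ℝ := ∑ i ∈ Finset.range (q.natDegree + 1), |q.coeff i| * ((i : ℝ) * (M + 1) ^ i) with hB2
  have hB20 : 0 ≤ B2 := Finset.sum_nonneg fun i _ => by positivity
  set η : ℝ := δ / (2 * (B2 + 1)) with hη
  have hη0 : 0 < η := by positivity
  -- the approximation of `T`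
  obtain ⟨k, s, a, ha0, ha1, ha2⟩ := hRS H Ω μ (fun s => U (t s)) T hm hW
    ((q.natDegree + 1) * n) (fun j => (T ^ (finProdFinEquiv.symm j).1.val)
      (w (finProdFinEquiv.symm j).2)) η hη0
  set T' : H →L[ℂ] H := ∑ i, (a i : ℂ) • ((1 / 2 : ℂ) • (opU (U (t (s i))) +
    opU (U (t (s i))).symm)) with hT'
  have hT'a : ∀ v, T' v = ∑ i, (a i : ℂ) • ((1 / 2 : ℂ) • (U (t (s i)) v +
      (U (t (s i))).symm v)) := by
    intro v
    rw [hT']
    simp only [ContinuousLinearMap.sum_apply, ContinuousLinearMap.smul_apply,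
      ContinuousLinearMap.add_apply, opU_apply]
  have hT'sa : IsSelfAdjoint T' := by
    rw [hT']
    refine isSelfAdjoint_sum _ fun i _ => ?_
    have h1 : IsSelfAdjoint (opU (U (t (s i))) + opU (U (t (s i))).symm) := by
      rw [IsSelfAdjoint, star_add, WAP_opU_star, WAP_opU_star, LinearIsometryEquiv.symm_symm,
        add_comm]
    have h2 : IsSelfAdjoint ((1 / 2 : ℂ)) := by
      have h4 : (1 / 2 : ℂ) = ((1 / 2 : ℝ) : ℂ) := by norm_num
      rw [h4, IsSelfAdjoint, Complex.star_def, Complex.conj_ofReal]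
    have h3 : IsSelfAdjoint ((a i : ℂ)) := by
      rw [IsSelfAdjoint, Complex.star_def, Complex.conj_ofReal]
    exact h3.smul (h2.smul h1)
  have hT'n : ‖T'‖ ≤ M := by
    rw [hT']
    refine (norm_sum_le_of_le _ (f := fun i => (a i : ℂ) • ((1 / 2 : ℂ) •
      (opU (U (t (s i))) + opU (U (t (s i))).symm))) (n := a) fun i _ => ?_).trans ha1
    rw [norm_smul, norm_smul, Complex.norm_real, Real.norm_eq_abs, abs_of_nonneg (ha0 i)]
    have h1 := norm_add_le (opU (U (t (s i)))) (opU (U (t (s i))).symm)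
    have h2 := WAP_opU_norm (U (t (s i)))
    have h3 := WAP_opU_norm (U (t (s i))).symm
    have h4 : ‖(1 / 2 : ℂ)‖ = 1 / 2 := by simp
    rw [h4]
    calc a i * (1 / 2 * ‖opU (U (t (s i))) + opU (U (t (s i))).symm‖) ≤ a i * 1 := by
          refine mul_le_mul_of_nonneg_left ?_ (ha0 i)
          linarith
      _ = a i := mul_one _
  have hT'S : T' ∈ WAP_S U := by
    rw [hT']
    refine Submodule.sum_mem _ fun i _ => Submodule.smul_mem _ _ (Submodule.smul_mem _ _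
      (Submodule.add_mem _ (Submodule.subset_span ⟨t (s i), rfl⟩)
        (Submodule.subset_span ⟨(t (s i))⁻¹, ?_⟩)))
    show opU (U (t (s i))⁻¹) = _
    rw [map_inv]
    rfl
  have hnear : ∀ r, ∀ i < q.natDegree + 1, ‖T ((T ^ i) (w r)) - T' ((T ^ i) (w r))‖ ≤ η := by
    intro r i hi
    have h1 := ha2 (finProdFinEquiv (⟨i, hi⟩, r))
    simp only [Equiv.symm_apply_apply] at h1
    rw [hT'a]
    exact h1
  obtain ⟨k', g, b, hb⟩ := WAP_rep U (WAP_qmem U hT'S q)
  refine ⟨k', g, b, ?_, ?_⟩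
  · rw [← hb, WAP_q_eq hT'sa]
    refine WAP_cfc hT'n (by linarith) _ fun x hx => ?_
    have h1 := (hq x hx).le
    have h2 : |f x| ≤ M - c := by
      rw [hf, abs_of_nonneg (le_max_right _ _)]
      exact max_le (by linarith [hx.2]) (by linarith)
    have h3 : d ≤ lam - (M - c) := min_le_left _ _
    have h4 : |q.eval x| ≤ |q.eval x - f x| + |f x| := by
      have := abs_add_le (q.eval x - f x) (f x)
      rwa [sub_add_cancel] at this
    linarith
  · intro r
    rw [← hb]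
    have h1 := WAP_q_near hM0 hη0.le hT'n q (w r) (hnear r)
    have h2 : ‖WAP_q q T (w r) - tpp T c (w r)‖ ≤ d * ‖w r‖ := by
      rw [WAP_q_eq hT, WAP_tpp hT, ← ContinuousLinearMap.sub_apply, ← cfc_sub (R := ℝ)
        (fun x => q.eval x) (fun x => max (x - c) 0) T q.continuous.continuousOn
        ((continuous_id.sub continuous_const).max continuous_const).continuousOn]
      refine (ContinuousLinearMap.le_opNorm _ _).trans
        (mul_le_mul_of_nonneg_right ?_ (norm_nonneg _))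
      exact WAP_cfc hTn hd0.le _ fun x hx => (hq x hx).le
    have h3 : ‖WAP_q q T' (w r) - tpp T c (w r)‖ ≤
        ‖WAP_q q T' (w r) - WAP_q q T (w r)‖ + ‖WAP_q q T (w r) - tpp T c (w r)‖ :=
      norm_sub_le_norm_sub_add_norm_sub _ _ _
    have h4 : B2 * η ≤ δ / 2 := by
      rw [hη, ← mul_div_assoc, div_le_div_iff₀ (by positivity) (by positivity)]
      nlinarith
    have h5 : d * ‖w r‖ ≤ δ / 2 := by
      have h6 : d ≤ δ / (2 * (B1 + 1)) := min_le_right _ _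
      calc d * ‖w r‖ ≤ δ / (2 * (B1 + 1)) * B1 := by
            exact mul_le_mul h6 (hB1r r) (norm_nonneg _) (by positivity)
        _ ≤ δ / 2 := by
            rw [div_mul_eq_mul_div, div_le_div_iff₀ (by positivity) (by positivity)]
            nlinarith
    linarith

end Pool.TC
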