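import Pool.Agent.Work.MP_972ac7_C.B_AMP
import Pool.Agent.Work.MP_972ac7_C.B_AY
import Pool.Agent.Work.MP_972ac7_C.B_CORE
import Pool.Agent.Work.MP_972ac7_C.B_CTR
import Pool.Agent.Work.MP_972ac7_C.B_DNS
import Pool.Agent.Work.MP_972ac7_C.B_FIXK
import Pool.Agent.Work.MP_972ac7_C.B_FTF
import Pool.Agent.Work.MP_972ac7_C.B_ITR
import Pool.Agent.Work.MP_972ac7_C.B_LAT
import Pool.Agent.Work.MP_972ac7_C.B_MCK
import Pool.Agent.Work.MP_972ac7_C.B_OVF
import Pool.Agent.Work.MP_972ac7_C.B_PAF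
import Pool.Agent.Work.MP_972ac7_C.B_PAR
import Pool.Agent.Work.MP_972ac7_C.B_PAX
import Pool.Agent.Work.MP_972ac7_C.B_POL
import Pool.Agent.Work.MP_972ac7_C.B_POS
import Pool.Agent.Work.MP_972ac7_C.B_PR
import Pool.Agent.Work.MP_972ac7_C.B_PSP
import Pool.Agent.Work.MP_972ac7_C.B_QUF
import Pool.Agent.Work.MP_972ac7_C.B_REPK
import Pool.Agent.Work.MP_972ac7_C.B_RS
import Pool.Agent.Work.MP_972ac7_C.B_SBF
import Pool.Agent.Work.MP_972ac7_C.B_SCN
import Pool.Agent.Work.MP_972ac7_C.B_SPX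
import Pool.Agent.Work.MP_972ac7_C.B_SQC
import Pool.Agent.Work.MP_972ac7_C.B_SQM
import Pool.Agent.Work.MP_972ac7_C.B_STF
import Pool.Agent.Work.MP_972ac7_C.B_STL
import Pool.Agent.Work.MP_972ac7_C.B_SWT
import Pool.Agent.Work.MP_972ac7_C.B_TOPK
import Pool.Agent.Work.MP_972ac7_C.B_TOT
import Pool.Agent.Work.MP_972ac7_C.B_TP
import Pool.Agent.Work.MP_972ac7_C.B_TRA
import Pool.Agent.Work.MP_972ac7_C.B_TRB
import Pool.Agent.Work.MP_972ac7_C.B_TRK
import Pool.Agent.Work.MP_972ac7_C.B_UNK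
import Pool.Agent.Work.MP_972ac7_C.B_VG
import Pool.Agent.Work.MP_972ac7_C.B_VNG
import Pool.Agent.Work.MP_972ac7_C.B_WAP
import Pool.Agent.Work.MP_972ac7_gen.AllG

/-! # Assembly of Theorem C (MP_972ac7_al, note 2966) -/

set_option autoImplicit false

open MeasureTheory

namespace Pool.TC

open Pool.TFD

theorem allC_POS : Stmt_POS := p_POS p_POL p_SQC

theorem allC_TRA : Stmt_TRA := p_TRA p_POL allC_POS p_SQC

theorem allC_AY : Stmt_AY := p_AY allC_TRA p_SQC

theorem allC_PR : Stmt_PR := p_PR p_POL p_SQC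

theorem allC_AMP : Stmt_AMP := p_AMP p_TP

theorem allC_LAT : Stmt_LAT := p_LAT allC_AY allC_PR p_SQC p_SQM p_VG

theorem allC_WAP : Stmt_WAP := p_WAP p_RS

theorem allC_SWT : Stmt_SWT := p_SWT p_TP p_PAR

theorem allC_TOT : Stmt_TOT := p_TOT p_PAR

theorem allC_TRB : Stmt_TRB := p_TRB p_COC allC_AMP allC_LAT allC_WAP p_PSP

theorem allC_PAF : Stmt_PAF := p_PAF p_COC p_TP

theorem allC_FIXK : Stmt_FIXK := p_FIXK p_COC p_NULL

theorem allC_CORE : Stmt_CORE :=
  p_CORE p_SEC p_COC all_ERG all_GAPC (p_REPK p_COC) (p_MCK p_COC) p_UNK p_TOPK p_PSP p_PAX p_SCN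
    p_CTR p_STL allC_SWT allC_TOT p_SPX allC_TRB allC_PAF allC_FIXK (p_TRK p_COC)

theorem allC_VNG : Stmt_VNG := p_VNG p_STF (p_ITR p_PAX) p_DNS

theorem allC_OVF : Stmt_OVF := p_OVF p_PAX

/-- Finite index overgroups. -/
theorem allC_over (Δ : Type) [Group Δ] (H : Subgroup Δ) (hH : H.FiniteIndex)
    (h : FTGap H) : FTGap Δ := by
  have h1 : (H.normalCore.subgroupOf H).FiniteIndex := inferInstance
  have h2 : FTGap (H.normalCore.subgroupOf H) := p_SBF H _ h1 h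
  have h3 : FTGap H.normalCore :=
    p_QUF _ _ (Subgroup.subgroupOfEquivOfLe H.normalCore_le).toMonoidHom
      (Subgroup.subgroupOfEquivOfLe H.normalCore_le).surjective h2
  exact allC_OVF Δ H.normalCore inferInstance h3

/-- A group with a finite index subgroup which is a homomorphic image of a finite index subgroup of
`Λ` inherits the gap from `Λ`. -/
theorem allC_comm (Λ Δ : Type) [Group Λ] [Group Δ] (K : Subgroup Λ) (hK : K.FiniteIndex)
    (f : K →* Δ) (hf : f.range.FiniteIndex) (h : FTGap Λ) : FTGap Δ :=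
  allC_over Δ f.range hf
    (p_QUF K f.range f.rangeRestrict f.rangeRestrict_surjective (p_SBF Λ K hK h))

/-- Theorem C. -/
theorem allC (GA GB : Type)
    [Group GA] [TopologicalSpace GA] [IsTopologicalGroup GA] [LocallyCompactSpace GA]
    [SecondCountableTopology GA] [T2Space GA] [MeasurableSpace GA] [BorelSpace GA]
    [Group GB] [TopologicalSpace GB] [IsTopologicalGroup GB] [LocallyCompactSpace GB]
    [SecondCountableTopology GB] [T2Space GB] [MeasurableSpace GB] [BorelSpace GB]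
    (Γ : Subgroup (GA × GB)) (m : Measure ((GA × GB) ⧸ Γ))
    (hΓ : DiscreteTopology Γ) (hm : IsProbabilityMeasure m)
    (hinv : ∀ g : GA × GB, MeasurePreserving (fun x => g • x) m m)
    (hd : Dense (Set.range fun γ : Γ => (γ : GA × GB).2)) (hA : ContrGen GA) (hB : ContrGen GB)
    (hgap : StrongGap Γ m) (Δ : Type) [Group Δ] (K : Subgroup Γ) (f : K →* Δ)
    (hK : K.FiniteIndex) (hf : f.range.FiniteIndex) : FTGap Δ ∧ PropTau Δ := by
  obtain ⟨hc, hs⟩ := allC_CORE GA GB Γ m hΓ hm hinv hd hA hB hgap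
  have h := allC_comm Γ Δ K hK f hf (allC_VNG Γ hs)
  exact ⟨h, p_TAU Δ (p_FTF Δ h)⟩

end Pool.TC
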