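import Pool.Agent.Work.MP_972ac7_C.Interface

/-! Block AMP: the trace property of the amplification. -/

set_option autoImplicit false

open MeasureTheory
open scoped ENNReal

noncomputable section

namespace Pool.TC

open Pool.TFD

section

variable {K : Type} [NormedAddCommGroup K] [InnerProductSpace ℂ K] [CompleteSpace K]
  {J : Type} [Fintype J]

theorem AMP_dg_sl (r : K →L[ℂ] K) (j : J) (v : K) :
    dg r (sl j v : PiLp 2 fun _ : J => K) = sl j (r v) := by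
  ext i
  rw [dg_apply]
  by_cases h : i = j
  · subst h
    rw [sl_self, sl_self]
  · rw [sl_ne h, sl_ne h, map_zero]

/-- The entries. -/
def AMP_E (T : (PiLp 2 fun _ : J => K) →L[ℂ] (PiLp 2 fun _ : J => K)) (i j : J) : K →L[ℂ] K :=
  pr i ∘L T ∘L sl j

theorem AMP_E_apply (T : (PiLp 2 fun _ : J => K) →L[ℂ] (PiLp 2 fun _ : J => K)) (i j : J)
    (v : K) : AMP_E T i j v = T (sl j v) i := rfl

theorem AMP_E_star (T : (PiLp 2 fun _ : J => K) →L[ℂ] (PiLp 2 fun _ : J => K)) (i j : J)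
    (v : K) : (star (AMP_E T i j)) v = (star T) (sl i v) j := by
  have h : star (AMP_E T i j) = pr j ∘L star T ∘L sl i := by
    rw [AMP_E, ContinuousLinearMap.star_eq_adjoint, ContinuousLinearMap.adjoint_comp,
      ContinuousLinearMap.adjoint_comp, sl, ContinuousLinearMap.adjoint_adjoint,
      ContinuousLinearMap.star_eq_adjoint]
    rfl
  rw [h]
  rfl

omit [InnerProductSpace ℂ K] [CompleteSpace K] in
theorem AMP_norm_sq (v : PiLp 2 fun _ : J => K) : ‖v‖ ^ 2 = ∑ i, ‖v i‖ ^ 2 :=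
  PiLp.norm_sq_eq_of_L2 _ v

end

theorem p_AMP (hTP : Stmt_TP) : Stmt_AMP := by
  intro K _ _ _ S J _ T hT
  have hmem : ∀ i j, S.Mem (AMP_E T i j) := by
    intro i j r hr
    ext v
    have h2 : T (dg r (sl j v)) = dg r (T (sl j v)) :=
      congrArg (fun A : (PiLp 2 fun _ : J => K) →L[ℂ] (PiLp 2 fun _ : J => K) => A (sl j v))
        (hT r hr)
    rw [AMP_dg_sl] at h2
    have h3 : T (sl j (r v)) i = dg r (T (sl j v)) i := by rw [h2]
    rw [dg_apply] at h3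
    exact h3
  have h1 : ∀ j, ‖T (sl j S.ξ)‖ ^ 2 = ∑ i, ‖AMP_E T i j S.ξ‖ ^ 2 := fun j => AMP_norm_sq _
  have h2 : ∀ i, ‖(star T) (sl i S.ξ)‖ ^ 2 = ∑ j, ‖(star (AMP_E T i j)) S.ξ‖ ^ 2 := by
    intro i
    rw [AMP_norm_sq]
    apply Finset.sum_congr rfl
    intro j _
    rw [AMP_E_star]
  calc ∑ j, ‖T (sl j S.ξ)‖ ^ 2 = ∑ j, ∑ i, ‖AMP_E T i j S.ξ‖ ^ 2 :=
        Finset.sum_congr rfl fun j _ => h1 j
    _ = ∑ i, ∑ j, ‖AMP_E T i j S.ξ‖ ^ 2 := Finset.sum_comm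
    _ = ∑ i, ∑ j, ‖(star (AMP_E T i j)) S.ξ‖ ^ 2 :=
        Finset.sum_congr rfl fun i _ => Finset.sum_congr rfl fun j _ => by
          rw [hTP K S _ (hmem i j)]
    _ = ∑ i, ‖(star T) (sl i S.ξ)‖ ^ 2 := Finset.sum_congr rfl fun i _ => (h2 i).symm

end Pool.TC
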