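import Pool.Agent.Work.MP_972ac7_C.Interface
import Pool.Agent.Work.MP_972ac7_gen.B_TRANS

/-! # PAF: the trace of the projection to the vectors fixed by the first factor -/

set_option autoImplicit false

open MeasureTheory
open scoped ENNReal

noncomputable section

namespace Pool.TC

open Pool.TFD

/-! ## Operators in the commutant -/

theorem PAF_int {K : Type} [NormedAddCommGroup K] [InnerProductSpace ℂ K] (F : K →+ K)
    (hF : Continuous F) (hI : ∀ v, F (Complex.I • v) = Complex.I • F v) (c : ℂ) (v : K) :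
    F (c • v) = c • F v := by
  have hre : ∀ (a : ℝ) (u : K), F ((a : ℂ) • u) = (a : ℂ) • F u := by
    intro a u
    have h := (F.toRealLinearMap hF).map_smul a u
    rw [AddMonoidHom.coe_toRealLinearMap] at h
    rw [RCLike.real_smul_eq_coe_smul (K := ℂ) a u, RCLike.real_smul_eq_coe_smul (K := ℂ) a (F u)] at h
    exact h
  have h1 : c • v = (c.re : ℂ) • v + (c.im : ℂ) • (Complex.I • v) := by
    rw [smul_smul, ← add_smul]
    congr 1
    exact (Complex.re_add_im c).symm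
  have h2 : c • F v = (c.re : ℂ) • F v + (c.im : ℂ) • (Complex.I • F v) := by
    rw [smul_smul, ← add_smul]
    congr 1
    exact (Complex.re_add_im c).symm
  rw [h1, h2, map_add, hre, hre, hI]

theorem PAF_ext {K : Type} [NormedAddCommGroup K] [InnerProductSpace ℂ K] [CompleteSpace K]
    (S : SM K) (w : K) (hw : ∀ r ∈ S.R, ‖r w‖ ≤ ‖r S.ξ‖) :
    ∃ V : K →L[ℂ] K, S.Mem V ∧ ∀ r ∈ S.R, V (r S.ξ) = r w := by
  set α : S.R →+ K :=
    { toFun := fun r => (r : K →L[ℂ] K) S.ξ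
      map_zero' := by simp
      map_add' := fun r s => by simp } with hα
  set β : S.R →+ K :=
    { toFun := fun r => (r : K →L[ℂ] K) w
      map_zero' := by simp
      map_add' := fun r s => by simp } with hβ
  have hker : ∀ r : S.R, ‖β r‖ ≤ ‖α r‖ := fun r => hw r r.2
  have hker' : (α.rangeRestrict).ker ≤ β.ker := by
    intro r hr
    rw [AddMonoidHom.mem_ker] at hr ⊢
    have h1 : α r = 0 := by
      have := congrArg Subtype.val hr
      simpa using this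
    have h2 := hker r
    rw [h1, norm_zero] at h2
    exact norm_le_zero_iff.1 h2
  set f0 : α.range →+ K :=
    (α.rangeRestrict).liftOfSurjective α.rangeRestrict_surjective ⟨β, hker'⟩ with hf0
  have hf0' : ∀ r : S.R, f0 (α.rangeRestrict r) = β r := fun r =>
    AddMonoidHom.liftOfRightInverse_comp_apply _ _ _ ⟨β, hker'⟩ r
  have hb : ∀ a : α.range, ‖f0 a‖ ≤ ‖a‖ := by
    intro a
    obtain ⟨r, rfl⟩ := α.rangeRestrict_surjective a
    rw [hf0']
    exact hker r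
  have hc0 : Continuous f0 := by
    refine AddMonoidHomClass.continuous_of_bound f0 1 fun a => ?_
    rw [one_mul]
    exact hb a
  set f1 : α.range →L[ℤ] K := ⟨f0.toIntLinearMap, hc0⟩ with hf1
  set e : α.range →L[ℤ] K := ⟨α.range.subtype.toIntLinearMap, continuous_subtype_val⟩ with he
  have hdense : DenseRange e := by
    have h1 : Set.range e = {v : K | ∃ r ∈ S.R, r S.ξ = v} := by
      ext v
      constructor
      · rintro ⟨⟨_, r, rfl⟩, rfl⟩
        exact ⟨r, r.2, rfl⟩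
      · rintro ⟨r, hr, rfl⟩
        exact ⟨⟨_, ⟨r, hr⟩, rfl⟩, rfl⟩
    unfold DenseRange
    rw [h1]
    exact S.dense
  have hunif : IsUniformInducing e := isUniformInducing_val _
  set F : K →L[ℤ] K := f1.extend e with hF
  have hFr : ∀ r ∈ S.R, F (r S.ξ) = r w := by
    intro r hr
    have h1 := ContinuousLinearMap.extend_eq f1 hdense hunif (α.rangeRestrict ⟨r, hr⟩)
    have h2 : e (α.rangeRestrict ⟨r, hr⟩) = r S.ξ := rfl
    have h3 : f1 (α.rangeRestrict ⟨r, hr⟩) = r w := hf0' ⟨r, hr⟩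
    rw [h2, h3] at h1
    exact h1
  have hFc : Continuous F := F.cont
  have hFI : ∀ v, F (Complex.I • v) = Complex.I • F v := by
    intro v
    have hcl : IsClosed {v : K | F (Complex.I • v) = Complex.I • F v} :=
      isClosed_eq (hFc.comp (continuous_const_smul _)) ((continuous_const_smul _).comp hFc)
    have hsub : {v : K | ∃ r ∈ S.R, r S.ξ = v} ⊆
        {v : K | F (Complex.I • v) = Complex.I • F v} := by
      rintro _ ⟨r, hr, rfl⟩
      have h1 := hFr _ (S.I_mem r hr)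
      simp only [Set.mem_ofPred_eq]
      rw [hFr r hr]
      exact h1
    exact (hcl.closure_subset_iff.2 hsub) (S.dense v)
  have hsm := PAF_int (F : K →+ K) hFc hFI
  refine ⟨⟨⟨⟨F, map_add F⟩, hsm⟩, hFc⟩, ?_, hFr⟩
  intro r hr
  apply ContinuousLinearMap.ext
  intro v
  have hcl : IsClosed {v : K | F (r v) = r (F v)} :=
    isClosed_eq (hFc.comp r.continuous) (r.continuous.comp hFc)
  have hsub : {v : K | ∃ s ∈ S.R, s S.ξ = v} ⊆ {v : K | F (r v) = r (F v)} := by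
    rintro _ ⟨s, hs, rfl⟩
    have h1 := hFr (r * s) (S.R.mul_mem hr hs)
    simp only [Set.mem_ofPred_eq]
    rw [hFr s hs]
    exact h1
  exact (hcl.closure_subset_iff.2 hsub) (S.dense v)

theorem PAF_row (hTP : Stmt_TP) {K : Type} [NormedAddCommGroup K] [InnerProductSpace ℂ K]
    [CompleteSpace K] (S : SM K) {L : ℕ} (w : Fin L → K)
    (hw : ∀ r : Fin L → S.R, ‖∑ j, (r j : K →L[ℂ] K) (w j)‖ ^ 2 ≤
      ∑ j, ‖(r j : K →L[ℂ] K) S.ξ‖ ^ 2) :
    ∑ j, ‖w j‖ ^ 2 ≤ ‖S.ξ‖ ^ 2 := by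
  classical
  have hone : ∀ j, ∀ r ∈ S.R, ‖r (w j)‖ ≤ ‖r S.ξ‖ := by
    intro j r hr
    have h1 := hw (fun i => if i = j then ⟨r, hr⟩ else 0)
    rw [Finset.sum_eq_single j, Finset.sum_eq_single j] at h1
    · simp only [if_true] at h1
      exact (sq_le_sq₀ (norm_nonneg _) (norm_nonneg _)).1 h1
    · intro i _ hi
      simp [hi]
    · intro h
      exact absurd (Finset.mem_univ j) h
    · intro i _ hi
      simp [hi]
    · intro h
      exact absurd (Finset.mem_univ j) h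
  choose V hVm hV using fun j => PAF_ext S (w j) (hone j)
  have hrow : ∀ v : Fin L → K, ‖∑ j, V j (v j)‖ ^ 2 ≤ ∑ j, ‖v j‖ ^ 2 := by
    intro v
    have hcl : IsClosed {v : Fin L → K | ‖∑ j, V j (v j)‖ ^ 2 ≤ ∑ j, ‖v j‖ ^ 2} := by
      apply isClosed_le
      · exact (continuous_finsetSum _ fun j _ => (V j).continuous.comp (continuous_apply j)).norm.pow 2
      · exact continuous_finsetSum _ fun j _ => (continuous_apply j).norm.pow 2
    have hd : Dense (Set.univ.pi fun _ : Fin L => {v : K | ∃ r ∈ S.R, r S.ξ = v}) :=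
      dense_pi _ fun _ _ => S.dense
    have hsub : (Set.univ.pi fun _ : Fin L => {v : K | ∃ r ∈ S.R, r S.ξ = v}) ⊆
        {v : Fin L → K | ‖∑ j, V j (v j)‖ ^ 2 ≤ ∑ j, ‖v j‖ ^ 2} := by
      intro u hu
      choose r hr hru using fun j => hu j (Set.mem_univ j)
      have h1 := hw fun j => ⟨r j, hr j⟩
      simp only [Set.mem_ofPred_eq]
      have h2 : ∀ j, V j (u j) = r j (w j) := by
        intro j
        rw [← hru j]
        exact hV j (r j) (hr j)
      have h3 : ∀ j, ‖u j‖ = ‖r j S.ξ‖ := by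
        intro j
        rw [← hru j]
      simp only [h2, h3]
      exact h1
    exact (hcl.closure_subset_iff.2 hsub) (hd v)
  set u : Fin L → K := fun j => (star (V j)) S.ξ with hu
  have hun : ∀ j, ‖u j‖ = ‖w j‖ := by
    intro j
    have h1 := hTP K S (V j) (hVm j)
    have h2 := hV j 1 S.R.one_mem
    have h3 : V j S.ξ = w j := h2
    rw [hu]
    simp only
    rw [← h1, h3]
  have hsum : (∑ j, ((‖u j‖ ^ 2 : ℝ) : ℂ)) = inner ℂ S.ξ (∑ j, V j (u j)) := by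
    rw [inner_sum]
    apply Finset.sum_congr rfl
    intro j _
    have h1 : (inner ℂ (u j) (u j) : ℂ) = inner ℂ S.ξ (V j (u j)) :=
      ContinuousLinearMap.adjoint_inner_left (V j) (u j) S.ξ
    rw [← h1, inner_self_eq_norm_sq_to_K]
    simp
  have hle : ∑ j, ‖u j‖ ^ 2 ≤ ‖S.ξ‖ * ‖∑ j, V j (u j)‖ := by
    have h1 : ‖(∑ j, ((‖u j‖ ^ 2 : ℝ) : ℂ))‖ = ∑ j, ‖u j‖ ^ 2 := by
      rw [← Complex.ofReal_sum, Complex.norm_real, Real.norm_eq_abs,
        abs_of_nonneg (Finset.sum_nonneg fun _ _ => by positivity)]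
    rw [← h1, hsum]
    exact norm_inner_le_norm _ _
  set s := ∑ j, ‖u j‖ ^ 2 with hs
  have hs0 : 0 ≤ s := Finset.sum_nonneg fun _ _ => by positivity
  have h4 : s ^ 2 ≤ ‖S.ξ‖ ^ 2 * s := by
    calc s ^ 2 ≤ (‖S.ξ‖ * ‖∑ j, V j (u j)‖) ^ 2 := pow_le_pow_left₀ hs0 hle 2
      _ = ‖S.ξ‖ ^ 2 * ‖∑ j, V j (u j)‖ ^ 2 := by ring
      _ ≤ ‖S.ξ‖ ^ 2 * s := mul_le_mul_of_nonneg_left (hrow u) (by positivity)
  have h5 : s ≤ ‖S.ξ‖ ^ 2 := by
    rcases hs0.eq_or_lt with h | h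
    · rw [← h]
      positivity
    · have h6 : s * s ≤ ‖S.ξ‖ ^ 2 * s := by
        rw [← sq]
        exact h4
      exact le_of_mul_le_mul_right h6 h
  calc ∑ j, ‖w j‖ ^ 2 = s := by
        rw [hs]
        exact Finset.sum_congr rfl fun j _ => by rw [hun j]
    _ ≤ _ := h5

/-! ## Tensors -/

section tensor

variable {X : Type} [MeasurableSpace X] {m : Measure X}
  {K : Type} [NormedAddCommGroup K] [InnerProductSpace ℂ K]

theorem PAF_inner (φ ψ : Lp ℂ 2 m) (v w : K) :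
    (inner ℂ (tn φ v) (tn ψ w) : ℂ) = inner ℂ φ ψ * inner ℂ v w := by
  rw [L2.inner_def, L2.inner_def, ← integral_mul_const]
  apply integral_congr_ae
  filter_upwards [tn_ae φ v, tn_ae ψ w] with x h1 h2
  rw [h1, h2, inner_smul_left, inner_smul_right]
  simp only [RCLike.inner_apply]
  ring

theorem PAF_norm {L : ℕ} (φ : Fin L → Lp ℂ 2 m) (hφ : Orthonormal ℂ φ) (v : Fin L → K) :
    ‖∑ j, tn (φ j) (v j)‖ ^ 2 = ∑ j, ‖v j‖ ^ 2 := by
  have h1 : (inner ℂ (∑ j, tn (φ j) (v j)) (∑ j, tn (φ j) (v j)) : ℂ) =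
      ∑ j, ((‖v j‖ ^ 2 : ℝ) : ℂ) := by
    rw [sum_inner]
    apply Finset.sum_congr rfl
    intro i _
    rw [inner_sum, Finset.sum_eq_single i]
    · rw [PAF_inner, inner_self_eq_norm_sq_to_K, inner_self_eq_norm_sq_to_K, hφ.1 i]
      simp
    · intro j _ hj
      rw [PAF_inner, hφ.2 (Ne.symm hj), zero_mul]
    · intro h
      exact absurd (Finset.mem_univ i) h
  rw [inner_self_eq_norm_sq_to_K, ← Complex.ofReal_sum] at h1
  have h2 : ((‖∑ j, tn (φ j) (v j)‖ ^ 2 : ℝ) : ℂ) = ((∑ j, ‖v j‖ ^ 2 : ℝ) : ℂ) := by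
    rw [← h1]
    simp
  exact Complex.ofReal_injective h2

theorem PAF_comp (r : K →L[ℂ] K) (φ : Lp ℂ 2 m) (v : K) :
    (r.compLpL 2 m : Lp K 2 m →L[ℂ] Lp K 2 m) (tn φ v) = tn φ (r v) := by
  apply Lp.ext
  filter_upwards [r.coeFn_compLpL (p := 2) (μ := m) (tn φ v), tn_ae φ v, tn_ae φ (r v)]
    with x h1 h2 h3
  rw [h1, h2, h3, map_smul]

theorem PAF_sum {L : ℕ} (r : Fin L → (K →L[ℂ] K)) (g : Fin L → Lp K 2 m) :
    ⇑(∑ j, (r j).compLpL 2 m (g j)) =ᵐ[m] fun x => ∑ j, r j (g j x) := by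
  have h1 : ∀ j, ⇑((r j).compLpL 2 m (g j)) =ᵐ[m] fun x => r j (g j x) := fun j =>
    (r j).coeFn_compLpL (g j)
  have h2 := ae_all_iff.2 h1
  have h3 := Lp.coeFn_finsetSum Finset.univ fun j => (r j).compLpL 2 m (g j)
  filter_upwards [h2, h3] with x h2 h3
  rw [h3, Finset.sum_apply]
  exact Finset.sum_congr rfl fun j _ => h2 j

end tensor

/-! ## Vectors fixed by the first factor -/

theorem PAF_const {GA GB : Type} [Group GA] [MeasurableSpace GA] [Group GB] [MeasurableSpace GB]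
    (Γ : Subgroup (GA × GB)) (m : Measure ((GA × GB) ⧸ Γ)) [IsProbabilityMeasure m]
    (σ : (GA × GB) ⧸ Γ → GA × GB) (hσ : ∀ x, (σ x : (GA × GB) ⧸ Γ) = x) (hE : ErgA Γ m)
    {K : Type} [NormedAddCommGroup K] [InnerProductSpace ℂ K]
    (π : Γ →* (K ≃ₗᵢ[ℂ] K)) (U : (GA × GB) →* (Lp K 2 m ≃ₗᵢ[ℂ] Lp K 2 m))
    (hU : IsInd Γ m σ hσ K π U) (f : Lp K 2 m) (hf : ∀ a : GA, U ((a, 1) : GA × GB) f = f) :
    ∀ᵐ x ∂m, ‖f x‖ ^ 2 = ‖f‖ ^ 2 := by
  have hmeas : Measurable fun x => ((‖f x‖ ^ 2 : ℝ) : ℂ) :=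
    Complex.measurable_ofReal.comp ((Lp.stronglyMeasurable f).norm.measurable.pow_const 2)
  obtain ⟨c, hc⟩ := hE (fun x => ((‖f x‖ ^ 2 : ℝ) : ℂ)) hmeas (by
    intro a
    have h1 := hU ((a⁻¹, 1) : GA × GB) f
    rw [hf a⁻¹] at h1
    have h2 : ((a⁻¹, 1) : GA × GB)⁻¹ = (a, 1) := by simp
    rw [h2] at h1
    filter_upwards [h1] with x hx
    rw [hx, LinearIsometryEquiv.norm_map])
  have hc' : ∀ᵐ x ∂m, ‖f x‖ ^ 2 = c.re := by
    filter_upwards [hc] with x hx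
    rw [← hx, Complex.ofReal_re]
  have hc0 : 0 ≤ c.re := by
    obtain ⟨x, hx⟩ := hc'.exists
    rw [← hx]
    positivity
  have h3 : ENNReal.ofReal (‖f‖ ^ 2) = ENNReal.ofReal c.re := by
    rw [TRANS_norm]
    have h4 : ∫⁻ x, ‖f x‖ₑ ^ 2 ∂m = ∫⁻ _, ENNReal.ofReal c.re ∂m := by
      apply lintegral_congr_ae
      filter_upwards [hc'] with x hx
      rw [← hx, ENNReal.ofReal_pow (norm_nonneg _), ofReal_norm]
    rw [h4, lintegral_const, measure_univ, mul_one]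
  have h5 : ‖f‖ ^ 2 = c.re := (ENNReal.ofReal_eq_ofReal_iff (by positivity) hc0).1 h3
  filter_upwards [hc'] with x hx
  rw [hx, h5]

theorem p_PAF (_h1 : Stmt_COC) (h2 : Stmt_TP) : Stmt_PAF := by
  intro GA GB _ _ _ _ _ _ _ _ _ _ _ _ _ _ _ _ Γ _ m _ σ hσ _ _ hE K _ _ _ _ S π U hU P hP hPr
    hPf L φ hφ
  have hcount : Countable S.R := S.countable.to_subtype
  set g : Fin L → Lp K 2 m := fun j => P (tn (φ j) S.ξ) with hg
  have key : ∀ r : Fin L → S.R, ∀ᵐ x ∂m, ‖∑ j, (r j : K →L[ℂ] K) (g j x)‖ ^ 2 ≤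
      ∑ j, ‖(r j : K →L[ℂ] K) S.ξ‖ ^ 2 := by
    intro r
    set f : Lp K 2 m := P (∑ j, tn (φ j) ((r j : K →L[ℂ] K) S.ξ)) with hf
    have e1 : f = ∑ j, (r j : K →L[ℂ] K).compLpL 2 m (g j) := by
      rw [hf, map_sum]
      apply Finset.sum_congr rfl
      intro j _
      rw [← PAF_comp]
      have h := DFunLike.congr_fun (hPr (r j) (r j).2) (tn (φ j) S.ξ)
      exact h
    have e2 : ‖f‖ ^ 2 ≤ ∑ j, ‖(r j : K →L[ℂ] K) S.ξ‖ ^ 2 := by
      rw [← PAF_norm φ hφ]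
      apply pow_le_pow_left₀ (norm_nonneg _)
      calc ‖f‖ ≤ ‖P‖ * ‖∑ j, tn (φ j) ((r j : K →L[ℂ] K) S.ξ)‖ := P.le_opNorm _
        _ ≤ 1 * ‖∑ j, tn (φ j) ((r j : K →L[ℂ] K) S.ξ)‖ :=
            mul_le_mul_of_nonneg_right hP (norm_nonneg _)
        _ = _ := one_mul _
    have e3 := PAF_const Γ m σ hσ hE π U hU f fun a => hPf a _
    have e4 := PAF_sum (m := m) (fun j => (r j : K →L[ℂ] K)) g
    rw [← e1] at e4
    filter_upwards [e3, e4] with x h3 h4
    rw [← h4, h3]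
    exact e2
  have hx : ∀ᵐ x ∂m, ∑ j, ‖g j x‖ ^ 2 ≤ ‖S.ξ‖ ^ 2 := by
    filter_upwards [ae_all_iff.2 key] with x hx
    exact PAF_row h2 S (fun j => g j x) hx
  have hsum : ENNReal.ofReal (∑ j, ‖g j‖ ^ 2) ≤ ENNReal.ofReal (‖S.ξ‖ ^ 2) := by
    rw [ENNReal.ofReal_sum_of_nonneg fun j _ => by positivity]
    simp only [TRANS_norm]
    rw [← lintegral_finsetSum']
    · calc ∫⁻ x, ∑ j, ‖g j x‖ₑ ^ 2 ∂m ≤ ∫⁻ _, ENNReal.ofReal (‖S.ξ‖ ^ 2) ∂m := by
            apply lintegral_mono_ae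
            filter_upwards [hx] with x hx
            refine le_trans (le_of_eq ?_) (ENNReal.ofReal_le_ofReal hx)
            rw [ENNReal.ofReal_sum_of_nonneg fun j _ => by positivity]
            apply Finset.sum_congr rfl
            intro j _
            rw [ENNReal.ofReal_pow (norm_nonneg _), ofReal_norm]
        _ = ENNReal.ofReal (‖S.ξ‖ ^ 2) := by rw [lintegral_const, measure_univ, mul_one]
    · intro j _
      exact ((Lp.aestronglyMeasurable (g j)).enorm).pow_const 2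
  exact (ENNReal.ofReal_le_ofReal_iff (by positivity)).1 hsum

end Pool.TC
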