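import Pool.Agent.Work.MP_972ac7_C.Interface

set_option autoImplicit false

open MeasureTheory
open scoped ENNReal InnerProductSpace

noncomputable section

namespace Pool.TC

open Pool.TFD

theorem p_SPX : Stmt_SPX := by
  intro G _ _ _ _ _ Γ m _ σ hσ hσm K _ _ _ _
  have hmk : Measurable (fun g : G => (g : G ⧸ Γ)) := by
    intro s hs
    exact hs
  have h2 : MeasurableSpace.CountablyGenerated (G ⧸ Γ) := by
    refine Eq.subst (motive := fun M => @MeasurableSpace.CountablyGenerated (G ⧸ Γ) M) ?_
      (MeasurableSpace.CountablyGenerated.comap (m := inferInstanceAs (MeasurableSpace G)) σ)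
    symm
    refine le_antisymm ?_ ?_
    · intro s hs
      refine ⟨(fun g : G => (g : G ⧸ Γ)) ⁻¹' s, hmk hs, ?_⟩
      ext x
      simp [hσ]
    · exact hσm.comap_le
  have : Fact ((2 : ℝ≥0∞) ≠ ∞) := ⟨by norm_num⟩
  infer_instance

end Pool.TC
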