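import Pool.Agent.Work.MP_972ac7_C.Interface

/-! # Block UNK of Theorem C of MP_972ac7_al -/

set_option autoImplicit false

open MeasureTheory
open scoped ENNReal

noncomputable section

namespace Pool.TC

open Pool.TFD

/-- UNK. -/
theorem p_UNK : Stmt_UNK := by
  intro G _ _ Γ m σ hσ hmp K _ _ _ π U hU r hr g
  ext1 f
  rw [ContinuousLinearMap.mul_apply, ContinuousLinearMap.mul_apply, opU_apply, opU_apply]
  apply Lp.ext
  have h1 := hU g (r.compLpL 2 m f)
  have h2 := hU g f
  have h3 := ContinuousLinearMap.coeFn_compLpL (p := 2) (μ := m) r (U g f)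
  have h4 := (hmp g⁻¹).quasiMeasurePreserving.ae_eq_comp
    (ContinuousLinearMap.coeFn_compLpL (p := 2) (μ := m) r f)
  filter_upwards [h1, h2, h3, h4] with x a1 a2 a3 a4
  simp only [Function.comp] at a4
  rw [a1, a3, a2, a4]
  have h5 := congrArg (fun T : K →L[ℂ] K => T (f (g⁻¹ • x))) (hr (coc Γ σ hσ g (g⁻¹ • x)))
  simpa [ContinuousLinearMap.mul_apply] using h5

end Pool.TC
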