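import Pool.Agent.Work.MP_972ac7_gen.Interface

/-! # Spectral gap for all representations in finite von Neumann algebras (MP_972ac7_al, note 2966) -/

set_option autoImplicit false

open MeasureTheory
open scoped ENNReal

noncomputable section

namespace Pool.TC

open Pool.TFD

/-- The topological group `G` is topologically generated by contractible elements: `a` is
contractible if `b n * a * (b n)⁻¹` tends to `1` for some sequence `b`. -/
def ContrGen (G : Type) [Group G] [TopologicalSpace G] : Prop :=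
  Dense ((Subgroup.closure {a : G | ∃ b : ℕ → G,
    Filter.Tendsto (fun n => b n * a * (b n)⁻¹) Filter.atTop (nhds 1)} : Subgroup G) : Set G)

section ops

variable {K : Type} [NormedAddCommGroup K] [InnerProductSpace ℂ K]

/-- A unitary operator as a bounded operator. -/
def opU (U : K ≃ₗᵢ[ℂ] K) : K →L[ℂ] K := (U.toContinuousLinearEquiv : K →L[ℂ] K)

@[simp] theorem opU_apply (U : K ≃ₗᵢ[ℂ] K) (v : K) : opU U v = U v := rfl

end ops

/-- Uniform spectral gap for all unitary representations `π` with values in a von Neumann algebra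
`M` on a Hilbert space `K` such that `T ↦ ∑ i, ⟪ξ i, T (ξ i)⟫` is a faithful finite trace on `M`:
every vector orthogonal to the invariant vectors is moved by `ε` times its norm by an element of the
finite set `Q`; `Q` and `ε` do not depend on the representation. -/
def FTGap (Λ : Type) [Group Λ] : Prop :=
  ∃ (Q : Finset Λ) (ε : ℝ), 0 < ε ∧
    ∀ (K : Type) [NormedAddCommGroup K] [InnerProductSpace ℂ K] [CompleteSpace K]
      (M : VonNeumannAlgebra K) (ι : Type) (ξ : ι → K) (π : Λ →* (K ≃ₗᵢ[ℂ] K)),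
      (∀ γ, opU (π γ) ∈ M) → Summable (fun i => ‖ξ i‖ ^ 2) →
      (∀ S ∈ M, ∀ T ∈ M, ∑' i, (inner ℂ (ξ i) (S (T (ξ i))) : ℂ) =
        ∑' i, (inner ℂ (ξ i) (T (S (ξ i))) : ℂ)) →
      (∀ T ∈ M, (∀ i, T (ξ i) = 0) → T = 0) →
      ∀ v : K, (∀ w, (∀ γ, π γ w = w) → (inner ℂ w v : ℂ) = 0) →
      ∃ q ∈ Q, ε * ‖v‖ ≤ ‖π q v - v‖

/-! ## Trace data -/

/-- Trace data: a set `R` of operators closed under adjoints and finitely many vectors `ξ j` such
that `T ↦ ∑ j, ‖T (ξ j)‖ ^ 2` is invariant under adjoints on the commutant of `R`. -/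
structure TD (H : Type) [NormedAddCommGroup H] [InnerProductSpace ℂ H] [CompleteSpace H]
    (J : Type) [Fintype J] where
  R : Set (H →L[ℂ] H)
  star_mem : ∀ r ∈ R, star r ∈ R
  ξ : J → H
  trace : ∀ T : H →L[ℂ] H, (∀ r ∈ R, T * r = r * T) →
    ∑ j, ‖T (ξ j)‖ ^ 2 = ∑ j, ‖(star T) (ξ j)‖ ^ 2

section TD

variable {H : Type} [NormedAddCommGroup H] [InnerProductSpace ℂ H] [CompleteSpace H]
  {J : Type} [Fintype J]

/-- The commutant of `R`. -/
def TD.Mem (D : TD H J) (T : H →L[ℂ] H) : Prop := ∀ r ∈ D.R, T * r = r * T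

/-- The square of the Hilbert-Schmidt norm of the trace. -/
def TD.hs (D : TD H J) (T : H →L[ℂ] H) : ℝ := ∑ j, ‖T (D.ξ j)‖ ^ 2

theorem TD.hs_nonneg (D : TD H J) (T : H →L[ℂ] H) : 0 ≤ D.hs T :=
  Finset.sum_nonneg fun _ _ => by positivity

theorem TD.Mem.star {D : TD H J} {T : H →L[ℂ] H} (h : D.Mem T) : D.Mem (star T) := by
  intro r hr
  have h1 := h (Star.star r) (D.star_mem r hr)
  have h2 := congrArg Star.star h1
  rw [star_mul, star_mul, star_star] at h2
  exact h2.symm

theorem TD.Mem.mul {D : TD H J} {S T : H →L[ℂ] H} (hS : D.Mem S) (hT : D.Mem T) :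
    D.Mem (S * T) := by
  intro r hr
  rw [mul_assoc, hT r hr, ← mul_assoc, hS r hr, mul_assoc]

theorem TD.Mem.add {D : TD H J} {S T : H →L[ℂ] H} (hS : D.Mem S) (hT : D.Mem T) :
    D.Mem (S + T) := by
  intro r hr
  rw [add_mul, mul_add, hS r hr, hT r hr]

theorem TD.Mem.sub {D : TD H J} {S T : H →L[ℂ] H} (hS : D.Mem S) (hT : D.Mem T) :
    D.Mem (S - T) := by
  intro r hr
  rw [sub_mul, mul_sub, hS r hr, hT r hr]

theorem TD.Mem.smul {D : TD H J} {T : H →L[ℂ] H} (c : ℂ) (hT : D.Mem T) : D.Mem (c • T) := by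
  intro r hr
  rw [smul_mul_assoc, mul_smul_comm, hT r hr]

theorem TD.mem_one (D : TD H J) : D.Mem 1 := by
  intro r hr
  rw [one_mul, mul_one]

theorem TD.mem_zero (D : TD H J) : D.Mem 0 := by
  intro r hr
  rw [zero_mul, mul_zero]

theorem TD.hs_star {D : TD H J} {T : H →L[ℂ] H} (hT : D.Mem T) : D.hs (Star.star T) = D.hs T :=
  (D.trace T hT).symm

end TD

/-- A standard tracial module: a countable ring `R` of operators, closed under adjoints and under
multiplication by `i`, with a cyclic trace vector `ξ`. -/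
structure SM (K : Type) [NormedAddCommGroup K] [InnerProductSpace ℂ K] [CompleteSpace K] where
  R : Subring (K →L[ℂ] K)
  star_mem : ∀ r ∈ R, star r ∈ R
  I_mem : ∀ r ∈ R, Complex.I • r ∈ R
  countable : (R : Set (K →L[ℂ] K)).Countable
  ξ : K
  trace : ∀ r ∈ R, ∀ s ∈ R, (inner ℂ ξ (r (s ξ)) : ℂ) = inner ℂ ξ (s (r ξ))
  dense : Dense {v : K | ∃ r ∈ R, r ξ = v}

/-- The commutant of `R`. -/
def SM.Mem {K : Type} [NormedAddCommGroup K] [InnerProductSpace ℂ K] [CompleteSpace K]
    (S : SM K) (T : K →L[ℂ] K) : Prop := ∀ r ∈ S.R, T * r = r * T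

section SM

variable {K : Type} [NormedAddCommGroup K] [InnerProductSpace ℂ K] [CompleteSpace K] {S : SM K}

theorem SM.Mem.star {T : K →L[ℂ] K} (h : S.Mem T) : S.Mem (star T) := by
  intro r hr
  have h1 := h (Star.star r) (S.star_mem r hr)
  have h2 := congrArg Star.star h1
  rw [star_mul, star_mul, star_star] at h2
  exact h2.symm

theorem SM.Mem.mul {A B : K →L[ℂ] K} (hA : S.Mem A) (hB : S.Mem B) : S.Mem (A * B) := by
  intro r hr
  rw [mul_assoc, hB r hr, ← mul_assoc, hA r hr, mul_assoc]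

theorem SM.Mem.add {A B : K →L[ℂ] K} (hA : S.Mem A) (hB : S.Mem B) : S.Mem (A + B) := by
  intro r hr
  rw [add_mul, mul_add, hA r hr, hB r hr]

theorem SM.Mem.smul {T : K →L[ℂ] K} (c : ℂ) (hT : S.Mem T) : S.Mem (c • T) := by
  intro r hr
  rw [smul_mul_assoc, mul_smul_comm, hT r hr]

end SM

/-- Uniform gap for the representations in the commutant of a standard tracial module. -/
def SMGap (Λ : Type) [Group Λ] : Prop :=
  ∃ (Q : Finset Λ) (ε : ℝ), 0 < ε ∧
    ∀ (K : Type) [NormedAddCommGroup K] [InnerProductSpace ℂ K] [CompleteSpace K] (S : SM K)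
      (π : Λ →* (K ≃ₗᵢ[ℂ] K)), (∀ γ, S.Mem (opU (π γ))) →
      ∀ v : K, (∀ w, (∀ γ, π γ w = w) → (inner ℂ w v : ℂ) = 0) →
      ∃ q ∈ Q, ε * ‖v‖ ≤ ‖π q v - v‖

/-! ## Amplification -/

section amp

variable {K : Type} [NormedAddCommGroup K] [InnerProductSpace ℂ K] [CompleteSpace K]
  {J : Type} [Fintype J]

/-- The `j`-th coordinate. -/
def pr (j : J) : (PiLp 2 fun _ : J => K) →L[ℂ] K := PiLp.proj 2 (fun _ : J => K) j

@[simp] theorem pr_apply (j : J) (v : PiLp 2 fun _ : J => K) : pr j v = v j := rfl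

/-- The `j`-th slot. -/
def sl (j : J) : K →L[ℂ] (PiLp 2 fun _ : J => K) := ContinuousLinearMap.adjoint (pr j)

theorem sl_apply [DecidableEq J] (j : J) (v : K) :
    (sl j v : PiLp 2 fun _ : J => K) = WithLp.toLp 2 (Pi.single j v) := by
  refine ext_inner_right ℂ fun w => ?_
  rw [sl, ContinuousLinearMap.adjoint_inner_left, PiLp.inner_apply, Finset.sum_eq_single j]
  · simp
  · intro i _ hi
    simp [Pi.single_eq_of_ne hi]
  · intro h
    exact absurd (Finset.mem_univ j) h

theorem sl_self (j : J) (v : K) : (sl j v : PiLp 2 fun _ : J => K) j = v := by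
  classical
  rw [sl_apply]
  simp

theorem sl_ne {i j : J} (h : i ≠ j) (v : K) : (sl j v : PiLp 2 fun _ : J => K) i = 0 := by
  classical
  rw [sl_apply]
  simp [Pi.single_eq_of_ne h]

/-- The diagonal operator. -/
def dg (r : K →L[ℂ] K) : (PiLp 2 fun _ : J => K) →L[ℂ] (PiLp 2 fun _ : J => K) :=
  ∑ j : J, sl j ∘L r ∘L pr j

theorem dg_apply (r : K →L[ℂ] K) (v : PiLp 2 fun _ : J => K) (j : J) :
    dg r v j = r (v j) := by
  have h1 : dg r v = ∑ i : J, sl i (r (v i)) := by
    simp [dg]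
  rw [h1]
  have h2 : (∑ i : J, sl i (r (v i)) : PiLp 2 fun _ : J => K) j =
      ∑ i : J, (sl i (r (v i)) : PiLp 2 fun _ : J => K) j := by
    simp
  rw [h2, Finset.sum_eq_single j]
  · exact sl_self j _
  · intro i _ hi
    exact sl_ne (Ne.symm hi) _
  · intro h
    exact absurd (Finset.mem_univ j) h

theorem dg_star (r : K →L[ℂ] K) :
    star (dg r : (PiLp 2 fun _ : J => K) →L[ℂ] (PiLp 2 fun _ : J => K)) = dg (star r) := by
  have h1 : ∀ j : J, star (sl j ∘L r ∘L pr j :
      (PiLp 2 fun _ : J => K) →L[ℂ] (PiLp 2 fun _ : J => K)) = sl j ∘L star r ∘L pr j := by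
    intro j
    rw [ContinuousLinearMap.star_eq_adjoint, ContinuousLinearMap.adjoint_comp,
      ContinuousLinearMap.adjoint_comp, sl, ContinuousLinearMap.adjoint_adjoint,
      ContinuousLinearMap.star_eq_adjoint]
    rfl
  have h2 : star (dg r : (PiLp 2 fun _ : J => K) →L[ℂ] (PiLp 2 fun _ : J => K)) =
      ∑ j : J, star (sl j ∘L r ∘L pr j :
        (PiLp 2 fun _ : J => K) →L[ℂ] (PiLp 2 fun _ : J => K)) :=
    map_sum (starAddEquiv : ((PiLp 2 fun _ : J => K) →L[ℂ] (PiLp 2 fun _ : J => K)) ≃+ _) _ _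
  rw [h2]
  exact Finset.sum_congr rfl fun j _ => h1 j

variable {ι : Type} [Fintype ι]

/-- The row operator with entries `Φ i` (from the slots `some i` to the slot `none`). -/
def row (Φ : ι → K →L[ℂ] K) :
    (PiLp 2 fun _ : Option ι => K) →L[ℂ] (PiLp 2 fun _ : Option ι => K) :=
  ∑ i : ι, sl none ∘L Φ i ∘L pr (some i)

/-- The projection to the slot `none`. -/
def p0 : (PiLp 2 fun _ : Option ι => K) →L[ℂ] (PiLp 2 fun _ : Option ι => K) :=
  sl none ∘L pr none

end amp

/-- The positive part of `T - c`. -/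
def tpp {H : Type} [NormedAddCommGroup H] [InnerProductSpace ℂ H] [CompleteSpace H]
    (T : H →L[ℂ] H) (c : ℝ) : H →L[ℂ] H := (T - (c : ℂ) • (1 : H →L[ℂ] H))⁺

/-! ## Infinite trace data -/

/-- Semifinite trace data. -/
structure SD (H : Type) [NormedAddCommGroup H] [InnerProductSpace ℂ H] [CompleteSpace H]
    (ι : Type) where
  R : Set (H →L[ℂ] H)
  star_mem : ∀ r ∈ R, star r ∈ R
  η : ι → H
  trace : ∀ T : H →L[ℂ] H, (∀ r ∈ R, T * r = r * T) →
    ∑' i, ‖T (η i)‖ₑ ^ 2 = ∑' i, ‖(star T) (η i)‖ₑ ^ 2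
  total : ∀ v : H, (∀ r ∈ R, ∀ i, (inner ℂ (r (η i)) v : ℂ) = 0) → v = 0

/-- The commutant of `R`. -/
def SD.Mem {H : Type} [NormedAddCommGroup H] [InnerProductSpace ℂ H] [CompleteSpace H]
    {ι : Type} (D : SD H ι) (T : H →L[ℂ] H) : Prop := ∀ r ∈ D.R, T * r = r * T

/-- The square of the Hilbert-Schmidt norm. -/
def SD.S {H : Type} [NormedAddCommGroup H] [InnerProductSpace ℂ H] [CompleteSpace H]
    {ι : Type} (D : SD H ι) (T : H →L[ℂ] H) : ℝ≥0∞ := ∑' i, ‖T (D.η i)‖ₑ ^ 2

/-! ## Tensors in `L²(X; K)` -/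

section tensor

variable {X : Type} [MeasurableSpace X] {m : Measure X}
  {K : Type} [NormedAddCommGroup K] [InnerProductSpace ℂ K]

/-- `φ ⊗ v`, the function `x ↦ φ x • v`. -/
def tn (φ : Lp ℂ 2 m) : K →L[ℂ] Lp K 2 m :=
  LinearMap.mkContinuous
    { toFun := fun v => (ContinuousLinearMap.toSpanSingleton ℂ v).compLp φ
      map_add' := fun v w => by
        apply Lp.ext
        filter_upwards [ContinuousLinearMap.coeFn_compLp (ContinuousLinearMap.toSpanSingleton ℂ v) φ,
          ContinuousLinearMap.coeFn_compLp (ContinuousLinearMap.toSpanSingleton ℂ w) φ,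
          ContinuousLinearMap.coeFn_compLp (ContinuousLinearMap.toSpanSingleton ℂ (v + w)) φ,
          Lp.coeFn_add ((ContinuousLinearMap.toSpanSingleton ℂ v).compLp φ)
            ((ContinuousLinearMap.toSpanSingleton ℂ w).compLp φ)] with x h1 h2 h3 h4
        rw [h3, h4, Pi.add_apply, h1, h2]
        simp
      map_smul' := fun a v => by
        apply Lp.ext
        filter_upwards [ContinuousLinearMap.coeFn_compLp (ContinuousLinearMap.toSpanSingleton ℂ v) φ,
          ContinuousLinearMap.coeFn_compLp (ContinuousLinearMap.toSpanSingleton ℂ (a • v)) φ,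
          Lp.coeFn_smul a ((ContinuousLinearMap.toSpanSingleton ℂ v).compLp φ)] with x h1 h3 h4
        rw [h3, RingHom.id_apply, h4, Pi.smul_apply, h1]
        simp [smul_smul, mul_comm] }
    ‖φ‖ (fun v => by
      have h1 : ‖(ContinuousLinearMap.toSpanSingleton ℂ v).compLp φ‖ ≤
          ‖ContinuousLinearMap.toSpanSingleton ℂ v‖ * ‖φ‖ :=
        ContinuousLinearMap.norm_compLp_le _ _
      rw [ContinuousLinearMap.norm_toSpanSingleton] at h1
      calc _ ≤ ‖v‖ * ‖φ‖ := h1
        _ = _ := mul_comm _ _)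

theorem tn_ae (φ : Lp ℂ 2 m) (v : K) : ⇑(tn φ v) =ᵐ[m] fun x => φ x • v := by
  filter_upwards [ContinuousLinearMap.coeFn_compLp (ContinuousLinearMap.toSpanSingleton ℂ v) φ]
    with x h1
  have h2 : tn φ v = (ContinuousLinearMap.toSpanSingleton ℂ v).compLp φ := rfl
  rw [h2, h1]
  simp

/-- The constant section. -/
def cst (m : Measure X) [IsFiniteMeasure m] (v : K) : Lp K 2 m := (memLp_const v).toLp

theorem cst_ae [IsFiniteMeasure m] (v : K) : ⇑(cst m v) =ᵐ[m] fun _ => v :=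
  (memLp_const v).coeFn_toLp

end tensor

end Pool.TC
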