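import Pool.Agent.Work.MP_972ac7_C.Defs

/-! # Statements of the blocks (Theorem C, note 2966), helper64

Files `B_X.lean` (import this file), namespace `Pool.TC`, `theorem p_X (h1 : Stmt_Y) ... : Stmt_X`
with the blocks used in the order of the column `uses`. Helper lemmas prefixed `X_`.
The docstrings contain the proofs. -/

set_option autoImplicit false

open MeasureTheory
open scoped ENNReal

noncomputable section

namespace Pool.TC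

open Pool.TFD

/-! ## Part 1: traces -/

/-- TP. For `r ∈ R`: `⟪x* ξ, r ξ⟫ = ⟪ξ, x r ξ⟫ = ⟪ξ, r x ξ⟫ = ⟪r* ξ, x ξ⟫`. Take `r_n ∈ R` with
`r_n ξ → x ξ`. By the trace property `‖r ξ‖ = ‖r* ξ‖` on `R` (a ring), so `r_n* ξ` is Cauchy, with
limit `z`, `‖z‖ = ‖x ξ‖`, and `⟪z, s ξ⟫ = lim ⟪ξ, r_n s ξ⟫ = lim ⟪ξ, s r_n ξ⟫ = ⟪s* ξ, x ξ⟫ =
⟪x* ξ, s ξ⟫` for `s ∈ R`; density: `z = x* ξ`. -/
def Stmt_TP : Prop := ∀ (K : Type) [NormedAddCommGroup K] [InnerProductSpace ℂ K]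
  [CompleteSpace K] (S : SM K) (x : K →L[ℂ] K), S.Mem x → ‖x S.ξ‖ = ‖(star x) S.ξ‖

/-- AMP (uses TP). Entries `T i j = pr i ∘ T ∘ sl j` are in the commutant of `R` (`pr i ∘ dg r =
r ∘ pr i`, `dg r ∘ sl j = sl j ∘ r`), `‖T (sl j ξ)‖² = ∑ i ‖T i j ξ‖²`, and
`(star T) j i = star (T i j)`. -/
def Stmt_AMP : Prop := ∀ (K : Type) [NormedAddCommGroup K] [InnerProductSpace ℂ K]
  [CompleteSpace K] (S : SM K) (J : Type) [Fintype J]
  (T : (PiLp 2 fun _ : J => K) →L[ℂ] (PiLp 2 fun _ : J => K)),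
  (∀ r ∈ S.R, T * dg r = dg r * T) →
  ∑ j, ‖T (sl j S.ξ)‖ ^ 2 = ∑ j, ‖(star T) (sl j S.ξ)‖ ^ 2

/-- The trace data of the amplification. -/
def SM.amp {K : Type} [NormedAddCommGroup K] [InnerProductSpace ℂ K] [CompleteSpace K]
    (S : SM K) (J : Type) [Fintype J] (h : Stmt_AMP) : TD (PiLp 2 fun _ : J => K) J where
  R := {T | ∃ r ∈ S.R, T = dg r}
  star_mem := by
    rintro _ ⟨r, hr, rfl⟩
    exact ⟨star r, S.star_mem r hr, dg_star r⟩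
  ξ := fun j => sl j S.ξ
  trace := fun T hT => h K S J T fun r hr => hT _ ⟨r, hr, rfl⟩

/-- POL. Polarization of `D.hs (star T) = D.hs T` (`S + T`, `S + i T`). -/
def Stmt_POL : Prop := ∀ (H : Type) [NormedAddCommGroup H] [InnerProductSpace ℂ H]
  [CompleteSpace H] (J : Type) [Fintype J] (D : TD H J) (S T : H →L[ℂ] H), D.Mem S → D.Mem T →
  ∑ j, (inner ℂ (S (D.ξ j)) (T (D.ξ j)) : ℂ) =
    ∑ j, (inner ℂ ((star T) (D.ξ j)) ((star S) (D.ξ j)) : ℂ)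

/-- SQC. The square root of a positive element of the commutant is in the commutant
(`Commute.cfc` and the like). -/
def Stmt_SQC : Prop := ∀ (H : Type) [NormedAddCommGroup H] [InnerProductSpace ℂ H]
  [CompleteSpace H] (J : Type) [Fintype J] (D : TD H J) (T : H →L[ℂ] H), 0 ≤ T → D.Mem T →
  D.Mem (CFC.sqrt T)

/-- POS (uses POL, SQC). `C = CFC.sqrt S`: `∑ ⟪ξ, C C T ξ⟫ = ∑ ⟪C ξ, C T ξ⟫ = ∑ ⟪T C ξ, C ξ⟫ ≥ 0`
(POL for `C` and `C T`). -/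
def Stmt_POS : Prop := ∀ (H : Type) [NormedAddCommGroup H] [InnerProductSpace ℂ H]
  [CompleteSpace H] (J : Type) [Fintype J] (D : TD H J) (S T : H →L[ℂ] H), D.Mem S → D.Mem T →
  0 ≤ S → 0 ≤ T → 0 ≤ (∑ j, (inner ℂ (D.ξ j) (S (T (D.ξ j))) : ℂ)).re

/-- TRA (uses POL, POS, SQC). `P = CFC.sqrt (X * X) = |X|` so `0 ≤ P + X`, `0 ≤ P - X`, the same
for `Q`, `Y`. `0 ≤ tr ((P - X) (Q + Y)) + tr ((P + X) (Q - Y)) = 2 tr (P Q) - 2 tr (X Y)`, and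
`hs P = tr P² = hs X`. -/
def Stmt_TRA : Prop := ∀ (H : Type) [NormedAddCommGroup H] [InnerProductSpace ℂ H]
  [CompleteSpace H] (J : Type) [Fintype J] (D : TD H J) (X Y P Q : H →L[ℂ] H),
  D.Mem X → D.Mem Y → D.Mem P → D.Mem Q → IsSelfAdjoint X → IsSelfAdjoint Y → 0 ≤ P → 0 ≤ Q →
  P * P = X * X → Q * Q = Y * Y → D.hs (P - Q) ≤ D.hs (X - Y)

/-- AY (uses TRA, SQC). `X = F + star F`, `X * X = star F * F + F * star F` (`F * F = 0`),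
`|X| = P + P'` with `P' = CFC.sqrt (F * star F)` (`P * P' = 0`: `P p = 0` and `p P' = P'`, because
`‖P p v‖ = ‖F p v‖`). `hs ((P - Q) + (P' - Q')) = hs (P - Q) + hs (P' - Q') ≤ hs (X - Y) =
hs (F - G) + hs (star (F - G)) = 2 hs (F - G)` (orthogonal ranges). -/
def Stmt_AY : Prop := ∀ (H : Type) [NormedAddCommGroup H] [InnerProductSpace ℂ H]
  [CompleteSpace H] (J : Type) [Fintype J] (D : TD H J) (p F G P Q : H →L[ℂ] H),
  D.Mem p → D.Mem F → D.Mem G → D.Mem P → D.Mem Q → IsSelfAdjoint p → p * p = p →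
  p * F = F → F * p = 0 → p * G = G → G * p = 0 → 0 ≤ P → 0 ≤ Q → P * P = star F * F →
  Q * Q = star G * G → D.hs (P - Q) ≤ 2 * D.hs (F - G)

/-- PR (uses POL, SQC). For `d > 0` let `B = cfc (fun t => 1 / √(t ^ 2 + d ^ 2)) P`, `V = F * B`:
`star V * V = B P² B ≤ 1`, so `‖V‖ ≤ 1`, `p * V = V`, `star V * F = B P²` and `‖B P² - P‖ ≤ d`.
`∑ ⟪star V F ξ, C ξ⟫ = ∑ ⟪F ξ, V C ξ⟫ = ∑ ⟪star C (star V ξ), star F ξ⟫` (POL) and
`star V ξ = star V p ξ`: at most `c √(hs p) √(hs (star F))`. Let `d → 0`. -/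
def Stmt_PR : Prop := ∀ (H : Type) [NormedAddCommGroup H] [InnerProductSpace ℂ H]
  [CompleteSpace H] (J : Type) [Fintype J] (D : TD H J) (p F P C : H →L[ℂ] H) (c : ℝ),
  D.Mem p → D.Mem F → D.Mem P → D.Mem C → IsSelfAdjoint p → p * p = p → p * F = F → F * p = 0 →
  0 ≤ P → P * P = star F * F → ‖C‖ ≤ c →
  |(∑ j, (inner ℂ (P (D.ξ j)) (C (D.ξ j)) : ℂ)).re| ≤
    c * (Real.sqrt (D.hs p) * Real.sqrt (D.hs F))

/-! ## Part 2: Lemma A -/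

/-- SQM. `‖CFC.sqrt (star A * A)‖ = ‖A‖` (square it), `CFC.sqrt` is continuous on the positive
elements (`‖√a - √b‖² ≤ ‖a - b‖`, or continuity lemmas of the continuous functional calculus, or
uniform approximation of the square root by polynomials on `[0, n]`). -/
def Stmt_SQM : Prop := ∀ (H : Type) [NormedAddCommGroup H] [InnerProductSpace ℂ H]
  [CompleteSpace H] (X : Type) [MeasurableSpace X] (m : Measure X) (F : X → H →L[ℂ] H),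
  MemLp F 2 m → MemLp (fun x => CFC.sqrt (star (F x) * F x)) 2 m

/-- VG. The gap for Hilbert space valued functions. `f` is almost everywhere in a separable closed
subspace; countable Hilbert basis `e` of it (all values of `f - ∫ f` are in it):
`κ ∫ ‖f - ∫ f‖² = ∑ κ ∫ |⟪e, f⟫ - ∫ ⟪e, f⟫|² ≤ ∑ ∫ₛ ∫ₓ |⟪e, f (T s x) - f x⟫|² ≤
∫ₛ ∫ₓ ‖f (T s x) - f x‖²` (superadditivity of `∫⁻`, finite partial sums, Bessel). -/
def Stmt_VG : Prop := ∀ (H : Type) [NormedAddCommGroup H] [InnerProductSpace ℂ H]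
  [CompleteSpace H] (X Ω : Type) [MeasurableSpace X] [MeasurableSpace Ω] (m : Measure X)
  (μ : Measure Ω) [IsProbabilityMeasure m] (T : Ω → X → X) (κ : ℝ) (f : X → H),
  GapX m μ T κ → MemLp f 2 m →
  ENNReal.ofReal κ * ∫⁻ x, ‖f x - ∫ y, f y ∂m‖ₑ ^ 2 ∂m ≤
    ∫⁻ s, ∫⁻ x, ‖f (T s x) - f x‖ₑ ^ 2 ∂m ∂μ

/-- LAT (uses AY, PR, SQC, SQM, VG), Lemma A. `P x = CFC.sqrt (star (F x) * F x)`, `C = ∫ P`.
`κ ∑ⱼ ∫ ‖(P x - C) ξⱼ‖² ≤ ∫⁻ ∫⁻ hs (P (T s x) - P x) ≤ 2 ∫⁻ ∫⁻ hs (Fs s x - F x) ≤ 2 E` (VG for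
`x ↦ P x (ξ j)`, superadditivity, AY). `‖C v‖ ≤ ∫ ‖P x v‖ ≤ (∫ ‖F x v‖²)^(1/2) ≤ ‖v‖`, so `‖C‖ ≤ 1`.
`hs C = ∫ hs P - ∫ hs (P - C) ≥ l - 2 E / κ` where `l = ∫ hs F = ∫ hs P`, and
`hs C = ∫ Re ∑ⱼ ⟪P x ξⱼ, C ξⱼ⟫ ≤ √(hs p) ∫ √(hs F) ≤ √(hs p) √l` (PR with `c = 1`). -/
def Stmt_LAT : Prop := ∀ (H : Type) [NormedAddCommGroup H] [InnerProductSpace ℂ H]
  [CompleteSpace H] (J : Type) [Fintype J] (D : TD H J) (p : H →L[ℂ] H)
  (X Ω : Type) [MeasurableSpace X] [MeasurableSpace Ω] (m : Measure X) (μ : Measure Ω)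
  [IsProbabilityMeasure m] (T : Ω → X → X) (κ E : ℝ) (F : X → H →L[ℂ] H)
  (Fs : Ω → X → H →L[ℂ] H),
  0 < κ → 0 ≤ E → GapX m μ T κ → D.Mem p → IsSelfAdjoint p → p * p = p → MemLp F 2 m →
  (∀ x, D.Mem (F x)) → (∀ x, p * F x = F x) → (∀ x, F x * p = 0) →
  (∀ s x, D.Mem (Fs s x)) → (∀ s x, p * Fs s x = Fs s x) → (∀ s x, Fs s x * p = 0) →
  (∀ s, ∀ᵐ x ∂m, star (Fs s x) * Fs s x = star (F (T s x)) * F (T s x)) →
  (∀ v, ∫ x, ‖F x v‖ ^ 2 ∂m ≤ ‖v‖ ^ 2) →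
  (∫⁻ s, ∫⁻ x, ENNReal.ofReal (D.hs (Fs s x - F x)) ∂m ∂μ ≤ ENNReal.ofReal E) →
  (∫ x, D.hs (F x) ∂m) - 2 * E / κ ≤
    Real.sqrt (D.hs p) * Real.sqrt (∫ x, D.hs (F x) ∂m)

/-! ## Part 3: Hilbert spaces -/

/-- The weak formula for the averaged operator `T = ∫ (U s + (U s)⁻¹) / 2 dμ`. -/
def WeakAvg {H Ω : Type} [NormedAddCommGroup H] [InnerProductSpace ℂ H] [MeasurableSpace Ω]
    (μ : Measure Ω) (U : Ω → (H ≃ₗᵢ[ℂ] H)) (T : H →L[ℂ] H) : Prop :=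
  ∀ v w : H, (inner ℂ v (T w) : ℂ) =
    ∫ s, ((inner ℂ v (U s w) : ℂ) + (inner ℂ v ((U s).symm w) : ℂ)) / 2 ∂μ

/-- TOPK. Existence of the averaged operator (copy of `Pool.TFD.p_TOP`, B_TOP.lean). -/
def Stmt_TOPK : Prop := ∀ (H Ω : Type) [NormedAddCommGroup H] [InnerProductSpace ℂ H]
  [CompleteSpace H] [MeasurableSpace Ω] (μ : Measure Ω) [IsFiniteMeasure μ]
  (U : Ω → (H ≃ₗᵢ[ℂ] H)), (∀ v w : H, Measurable fun s => (inner ℂ v (U s w) : ℂ)) →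
  ∃ T : H →L[ℂ] H, IsSelfAdjoint T ∧ ‖T‖ ≤ μ.real Set.univ ∧ WeakAvg μ U T ∧
    (∀ v : H, ∫⁻ s, ENNReal.ofReal (‖U s v - v‖ ^ 2) ∂μ =
      ENNReal.ofReal (2 * (μ.real Set.univ * ‖v‖ ^ 2 - (inner ℂ v (T v)).re))) ∧
    ∀ B : H →L[ℂ] H, (∀ s, B * opU (U s) = opU (U s) * B) → B * T = T * B

/-- RS. Finite approximation. If `μ = 0` then `T = 0` and `k = 0`. Otherwise consider in the Hilbert
space `PiLp 2 (fun _ : Fin n => H)` the closed convex hull of the vectors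
`μ(Ω) • (r ↦ (U s (w r) + (U s).symm (w r)) / 2)`, `s ∈ Ω`; `(T (w r))_r` lies in it, otherwise
Hahn-Banach (`geometric_hahn_banach_point_closed`, real linear functional = `Re ⟪u, .⟫`)
contradicts the weak formula, integrated against the probability measure `μ / μ(Ω)`. -/
def Stmt_RS : Prop := ∀ (H Ω : Type) [NormedAddCommGroup H] [InnerProductSpace ℂ H]
  [CompleteSpace H] [MeasurableSpace Ω] (μ : Measure Ω) [IsFiniteMeasure μ]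
  (U : Ω → (H ≃ₗᵢ[ℂ] H)) (T : H →L[ℂ] H),
  (∀ v w : H, Measurable fun s => (inner ℂ v (U s w) : ℂ)) → WeakAvg μ U T →
  ∀ (n : ℕ) (w : Fin n → H) (δ : ℝ), 0 < δ →
  ∃ (k : ℕ) (s : Fin k → Ω) (c : Fin k → ℝ), (∀ i, 0 ≤ c i) ∧ ∑ i, c i ≤ μ.real Set.univ ∧
    ∀ r, ‖T (w r) - ∑ i, (c i : ℂ) • ((1 / 2 : ℂ) • (U (s i) (w r) + (U (s i)).symm (w r)))‖ ≤ δ

/-- WAP (uses RS). With `M = μ(Ω)`: a real polynomial `q` with `|q t - (t - c)⁺| ≤ d` on `[-M, M]`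
(Weierstrass), `T' = ∑ c i (U + U⁻¹) / 2` from RS for the vectors `T ^ i (w r)`, `i < deg q`, with a
tiny error: `T'` is selfadjoint, `‖T'‖ ≤ M`, so `‖q T'‖ ≤ M - c + d ≤ lam`, and `T' ^ i (w r)` is
close to `T ^ i (w r)` (telescoping). `q T'` is a linear combination of operators `U g`, because
their span is a subalgebra (`Submodule.span` of the range of a monoid homomorphism). -/
def Stmt_WAP : Prop := ∀ (H Ω G : Type) [NormedAddCommGroup H] [InnerProductSpace ℂ H]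
  [CompleteSpace H] [MeasurableSpace Ω] [Group G] (μ : Measure Ω) [IsFiniteMeasure μ]
  (U : G →* (H ≃ₗᵢ[ℂ] H)) (t : Ω → G) (T : H →L[ℂ] H) (c lam : ℝ),
  (∀ v w : H, Measurable fun s => (inner ℂ v (U (t s) w) : ℂ)) → IsSelfAdjoint T →
  WeakAvg μ (fun s => U (t s)) T → c < μ.real Set.univ → μ.real Set.univ - c < lam →
  ∀ (n : ℕ) (w : Fin n → H) (δ : ℝ), 0 < δ →
  ∃ (k : ℕ) (g : Fin k → G) (a : Fin k → ℂ), ‖∑ i, a i • opU (U (g i))‖ ≤ lam ∧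
    ∀ r, ‖(∑ i, a i • opU (U (g i))) (w r) - tpp T c (w r)‖ ≤ δ

/-- PSP. `⟪v, (T - c) v⟫ = ⟪v, (T - c)⁺ v⟫ - ⟪v, (T - c)⁻ v⟫ ≤ 0`. -/
def Stmt_PSP : Prop := ∀ (H : Type) [NormedAddCommGroup H] [InnerProductSpace ℂ H]
  [CompleteSpace H] (T : H →L[ℂ] H) (c : ℝ), IsSelfAdjoint T →
  IsSelfAdjoint (tpp T c) ∧
  (∀ B : H →L[ℂ] H, B * T = T * B →
    B * tpp T c = tpp T c * B) ∧
  (∀ v : H, tpp T c v = 0 → (inner ℂ v (T v)).re ≤ c * ‖v‖ ^ 2) ∧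
  (∀ u : H, c * ‖tpp T c u‖ ^ 2 ≤
    (inner ℂ (tpp T c u) (T (tpp T c u))).re)

/-- PAX. The projection `P` onto the vectors fixed by a group of unitary operators (a closed
subspace). If `B` commutes with the `W a`, so does `star B`, both preserve the fixed vectors, so
`B` commutes with `P`. -/
def Stmt_PAX : Prop := ∀ (H A : Type) [NormedAddCommGroup H] [InnerProductSpace ℂ H]
  [CompleteSpace H] [Group A] (W : A →* (H ≃ₗᵢ[ℂ] H)),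
  ∃ P : H →L[ℂ] H, IsSelfAdjoint P ∧ ‖P‖ ≤ 1 ∧ (∀ a f, W a (P f) = P f) ∧
    (∀ f, (∀ a, W a f = f) → P f = f) ∧
    ∀ B : H →L[ℂ] H, (∀ a, B * opU (W a) = opU (W a) * B) → B * P = P * B

/-- SCN. Strong continuity. `E n = {g | ‖W g v - h n‖ < ε}` (`h` dense) is measurable
(`‖W g v - h‖² = ‖v‖² + ‖h‖² - 2 Re ⟪h, W g v⟫`), one of them has positive Haar measure, and
`‖W (a⁻¹ * b) v - v‖ < 2 ε` for `a b ∈ E n`; `a⁻¹ b` contains a neighbourhood of `1` (Steinhaus, see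
`Pool.TFD.p_STN`, B_STN.lean, with `E = F`, and B_AC.lean). -/
def Stmt_SCN : Prop := ∀ (G : Type) [Group G] [TopologicalSpace G] [IsTopologicalGroup G]
  [LocallyCompactSpace G] [SecondCountableTopology G] [T2Space G] [MeasurableSpace G]
  [BorelSpace G] (H : Type) [NormedAddCommGroup H] [InnerProductSpace ℂ H] [CompleteSpace H]
  [SecondCountableTopology H] (W : G →* (H ≃ₗᵢ[ℂ] H)),
  (∀ v w : H, Measurable fun g => (inner ℂ v (W g w) : ℂ)) → ∀ v : H, Continuous fun g => W g v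

/-- CTR. `θ a = D.S ((W a - 1) * P)`. `(W (b a b⁻¹) - 1) P = W b (W a - 1) P W b⁻¹`, so
`θ (b a b⁻¹) = S ((W a - 1) P W b⁻¹) = S (W b P (W a - 1)*) = S (P (W a - 1)*) = θ a` (`D.trace`).
`θ a → 0` as `a → 1` (dominated convergence for the sum over `i`, bound `4 ‖P η‖²`). So `θ a = 0`
for contractible `a`, `(W a - 1) P η i = 0`, then `⟪r η i, P (W a - 1)* u⟫ = 0` for `r ∈ R`, so
`(W a - 1) P = 0` (`D.total`). The set of the `a` with `W a * P = P` is a closed subgroup. -/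
def Stmt_CTR : Prop := ∀ (H ι G : Type) [NormedAddCommGroup H] [InnerProductSpace ℂ H]
  [CompleteSpace H] [Group G] [TopologicalSpace G] [IsTopologicalGroup G] (D : SD H ι)
  (W : G →* (H ≃ₗᵢ[ℂ] H)), (∀ v, Continuous fun g => W g v) → (∀ g, D.Mem (opU (W g))) →
  ∀ P : H →L[ℂ] H, D.Mem P → IsSelfAdjoint P → D.S P ≠ ⊤ →
  (∀ g, opU (W g) * P = P * opU (W g)) → ContrGen G → ∀ g f, W g (P f) = P f

/-! ## Part 4: `L²(X; K)` -/

/-- STL. `star (r.compLpL 2 m) = (star r).compLpL 2 m` (pointwise adjoint). -/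
def Stmt_STL : Prop := ∀ (X : Type) [MeasurableSpace X] (m : Measure X) (K : Type)
  [NormedAddCommGroup K] [InnerProductSpace ℂ K] [CompleteSpace K] (r : K →L[ℂ] K),
  star (r.compLpL 2 m : Lp K 2 m →L[ℂ] Lp K 2 m) = (star r).compLpL 2 m

/-- PAR. Parseval. `adjoint (tn φ) (tn ψ v) = ⟪φ, ψ⟫ • v`; the set of the `g` with the identity is a
closed subspace (it is `{g | ‖g‖² ≤ ∑ ..}`, or use the projections `∑_{i ∈ s} tn (b i) ∘
adjoint (tn (b i))`), and the `tn ψ v` span a dense subspace (`Lp.induction`, indicator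
functions). -/
def Stmt_PAR : Prop := ∀ (X : Type) [MeasurableSpace X] (m : Measure X) [IsFiniteMeasure m]
  (K : Type) [NormedAddCommGroup K] [InnerProductSpace ℂ K] [CompleteSpace K] (ι : Type)
  (b : HilbertBasis ι ℂ (Lp ℂ 2 m)) (g : Lp K 2 m),
  HasSum (fun i => ‖(ContinuousLinearMap.adjoint (tn (K := K) (b i))) g‖ ^ 2) (‖g‖ ^ 2)

/-- SWT (uses TP, PAR). `T i j = adjoint (tn (b i)) ∘ T ∘ tn (b j)` is in the commutant of `R`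
(`r.compLpL ∘ tn φ = tn φ ∘ r`, adjoint), so `∑ⱼ ‖T (tn (b j) ξ)‖² = ∑ⱼ ∑ᵢ ‖T i j ξ‖² =
∑ᵢ ∑ⱼ ‖(T i j)* ξ‖² = ∑ᵢ ‖T* (tn (b i) ξ)‖²`. -/
def Stmt_SWT : Prop := ∀ (X : Type) [MeasurableSpace X] (m : Measure X) [IsFiniteMeasure m]
  (K : Type) [NormedAddCommGroup K] [InnerProductSpace ℂ K] [CompleteSpace K] (S : SM K)
  (ι : Type) (b : HilbertBasis ι ℂ (Lp ℂ 2 m)) (T : Lp K 2 m →L[ℂ] Lp K 2 m),
  (∀ r ∈ S.R, T * (r.compLpL 2 m) = (r.compLpL 2 m) * T) →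
  ∑' i, ‖T (tn (b i) S.ξ)‖ₑ ^ 2 = ∑' i, ‖(star T) (tn (b i) S.ξ)‖ₑ ^ 2

/-- TOT (uses PAR). `r.compLpL (tn (b i) ξ) = tn (b i) (r ξ)`, so `adjoint (tn (b i)) v` is
orthogonal to the dense set `R ξ`, hence zero; Parseval. -/
def Stmt_TOT : Prop := ∀ (X : Type) [MeasurableSpace X] (m : Measure X) [IsFiniteMeasure m]
  (K : Type) [NormedAddCommGroup K] [InnerProductSpace ℂ K] [CompleteSpace K] (S : SM K)
  (ι : Type) (b : HilbertBasis ι ℂ (Lp ℂ 2 m)) (v : Lp K 2 m),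
  (∀ r ∈ S.R, ∀ i, (inner ℂ ((r.compLpL 2 m : Lp K 2 m →L[ℂ] Lp K 2 m) (tn (b i) S.ξ)) v : ℂ) = 0) →
  v = 0

/-- SPX. `L²(G/Γ; K)` is second countable: the σ-algebra of `G ⧸ Γ` is the preimage under `σ` of
the Borel σ-algebra of `G` (`σ` and `mk` are measurable), so it is countably generated; then
`Lp.SecondCountableTopology` and the like. -/
def Stmt_SPX : Prop := ∀ (G : Type) [Group G] [TopologicalSpace G]
  [SecondCountableTopology G] [MeasurableSpace G] [BorelSpace G] (Γ : Subgroup G)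
  (m : Measure (G ⧸ Γ)) [IsProbabilityMeasure m] (σ : G ⧸ Γ → G), (∀ x, (σ x : G ⧸ Γ) = x) →
  Measurable σ → ∀ (K : Type) [NormedAddCommGroup K] [InnerProductSpace ℂ K] [CompleteSpace K]
  [SecondCountableTopology K], SecondCountableTopology (Lp K 2 m)

/-- REPK (uses COC). Copy of `Pool.TFD.p_REP` (B_REP.lean) for a second countable `K`. -/
def Stmt_REPK : Prop := ∀ (G : Type) [Group G] [TopologicalSpace G] [IsTopologicalGroup G]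
  [SecondCountableTopology G] [MeasurableSpace G] [BorelSpace G] [T2Space G] (Γ : Subgroup G)
  [Countable Γ]
  (m : Measure (G ⧸ Γ)) [IsProbabilityMeasure m] (σ : G ⧸ Γ → G)
  (hσ : ∀ x, (σ x : G ⧸ Γ) = x), Measurable σ →
  (∀ g : G, MeasurePreserving (fun x => g • x) m m) → ∀ (K : Type) [NormedAddCommGroup K]
  [InnerProductSpace ℂ K] [CompleteSpace K] [SecondCountableTopology K]
  (π : Γ →* (K ≃ₗᵢ[ℂ] K)),
  ∃ U : G →* (Lp K 2 m ≃ₗᵢ[ℂ] Lp K 2 m), IsInd Γ m σ hσ K π U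

/-- MCK (uses COC). Copy of `Pool.TFD.p_MC` (B_MC.lean) for a second countable `K`. -/
def Stmt_MCK : Prop := ∀ (G : Type) [Group G] [TopologicalSpace G] [IsTopologicalGroup G]
  [SecondCountableTopology G] [MeasurableSpace G] [BorelSpace G] [T2Space G] (Γ : Subgroup G)
  [Countable Γ]
  (m : Measure (G ⧸ Γ)) [IsProbabilityMeasure m] (σ : G ⧸ Γ → G)
  (hσ : ∀ x, (σ x : G ⧸ Γ) = x), Measurable σ →
  (∀ g : G, MeasurePreserving (fun x => g • x) m m) → ∀ (K : Type) [NormedAddCommGroup K]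
  [InnerProductSpace ℂ K] [CompleteSpace K] [SecondCountableTopology K]
  (π : Γ →* (K ≃ₗᵢ[ℂ] K)) (U : G →* (Lp K 2 m ≃ₗᵢ[ℂ] Lp K 2 m)), IsInd Γ m σ hσ K π U →
  ∀ v w : Lp K 2 m, Measurable fun g => (inner ℂ v (U g w) : ℂ)

/-- UNK. The induced operators commute with `1 ⊗ r`, if `r` commutes with the `π γ`. -/
def Stmt_UNK : Prop := ∀ (G : Type) [Group G] [MeasurableSpace G] (Γ : Subgroup G)
  (m : Measure (G ⧸ Γ)) (σ : G ⧸ Γ → G) (hσ : ∀ x, (σ x : G ⧸ Γ) = x),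
  (∀ g : G, MeasurePreserving (fun x => g • x) m m) → ∀ (K : Type) [NormedAddCommGroup K]
  [InnerProductSpace ℂ K] [CompleteSpace K]
  (π : Γ →* (K ≃ₗᵢ[ℂ] K)) (U : G →* (Lp K 2 m ≃ₗᵢ[ℂ] Lp K 2 m)), IsInd Γ m σ hσ K π U →
  ∀ r : K →L[ℂ] K, (∀ γ, opU (π γ) * r = r * opU (π γ)) → ∀ g,
    opU (U g) * (r.compLpL 2 m) = (r.compLpL 2 m) * opU (U g)

/-- TRB (uses COC, AMP, LAT, WAP, PSP). The trace bound. `M = μ(Ω)`, `D = (T - c)⁺`. For small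
`d > 0` let `W = ∑ a i U (g i)` be from WAP, `lam = M - c + d`, for the vectors
`w j = tn (φ j) ξ`. `Φ j x = lam⁻¹ ∑ᵢ a i φ j ((g i)⁻¹ x) π (c(g i, (g i)⁻¹ x))`, so that
`(W (tn (φ j) v)) x = lam • Φ j x v` a.e. Apply LAT to `F x = row (Φ . x)` on `K^(Option (Fin L))`,
`D = S.amp`, `p = p0`, `T s x = (t s)⁻¹ x`, `Fs s x = row (j ↦ π (c(t s, (t s)⁻¹ x)) ∘ Φ j ((t s)⁻¹ x))`:
`∫ ‖F x v‖² = ‖W (∑ tn (φ j) (v j))‖² / lam² ≤ ‖v‖²`; `∫ hs (F x) = ∑ ‖W (w j)‖² / lam²`; by the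
cocycle identity `U (t s) (W (w j)) = lam • ..` so the energy is
`∑ⱼ ∫⁻ ‖U (t s) (W (w j)) - W (w j)‖² / lam² = 2 ∑ⱼ (M ‖W w‖² - Re ⟪W w, T (W w)⟫) / lam²`
(weak formula). As `d, δ → 0`: `W (w j) → D (w j)`, and `M ‖u‖² - Re ⟪u, T u⟫ ≤ (M - c) ‖u‖²` for
`u = D (w j)` (PSP), so `l (1 - 4 (M - c) / κ) ≤ ‖ξ‖ √l` for `l = ∑ ‖D (w j)‖² / (M - c)²`. -/
def Stmt_TRB : Prop := ∀ (G : Type) [Group G] [TopologicalSpace G] [IsTopologicalGroup G]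
  [SecondCountableTopology G] [MeasurableSpace G] [BorelSpace G] [T2Space G] (Γ : Subgroup G)
  [Countable Γ]
  (m : Measure (G ⧸ Γ)) [IsProbabilityMeasure m] (σ : G ⧸ Γ → G)
  (hσ : ∀ x, (σ x : G ⧸ Γ) = x), Measurable σ →
  (∀ g : G, MeasurePreserving (fun x => g • x) m m) → ∀ (K : Type) [NormedAddCommGroup K]
  [InnerProductSpace ℂ K] [CompleteSpace K] [SecondCountableTopology K] (S : SM K)
  (π : Γ →* (K ≃ₗᵢ[ℂ] K)), (∀ γ, S.Mem (opU (π γ))) →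
  ∀ (U : G →* (Lp K 2 m ≃ₗᵢ[ℂ] Lp K 2 m)), IsInd Γ m σ hσ K π U →
  ∀ (Ω : Type) [MeasurableSpace Ω] (μ : Measure Ω) [IsFiniteMeasure μ] (t : Ω → G) (κ c : ℝ)
  (T : Lp K 2 m →L[ℂ] Lp K 2 m),
  Measurable t → 0 < κ → GapX m μ (fun s x => (t s)⁻¹ • x) κ → IsSelfAdjoint T →
  (∀ v w : Lp K 2 m, Measurable fun s => (inner ℂ v (U (t s) w) : ℂ)) →
  WeakAvg μ (fun s => U (t s)) T →
  c < μ.real Set.univ → 4 * (μ.real Set.univ - c) < κ →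
  ∀ (L : ℕ) (φ : Fin L → Lp ℂ 2 m), Orthonormal ℂ φ →
  ∑ j, ‖tpp T c (tn (φ j) S.ξ)‖ ^ 2 ≤
    (μ.real Set.univ - c) ^ 2 * ‖S.ξ‖ ^ 2 / (1 - 4 * (μ.real Set.univ - c) / κ) ^ 2

/-- PAF (uses COC, TP). The trace of the projection to the vectors fixed by the first factor. `g j =
P (tn (φ j) ξ)`. For `r : Fin L → R` the vector `∑ r j (g j) = P (∑ tn (φ j) (r j ξ))` is fixed by
the first factor, so its pointwise norm is almost everywhere constant (`ErgA`, applied to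
`x ↦ ‖f x‖²`), at most `(∑ ‖r j ξ‖²)^(1/2)`. `R` is countable: for almost every `x`, for all `r`,
`‖∑ r j (g j x)‖² ≤ ∑ ‖r j ξ‖²`. For such an `x` the map `r j ξ ↦ r j (g j x)` extends to a bounded
operator `V j` in the commutant of `R` (dense, additive, commutes with `i`), `V j ξ = g j x`, and the
row `(V j)_j` is a contraction, so `∑ ‖g j x‖² = ∑ ‖V j ξ‖² = ∑ ‖(V j)* ξ‖² ≤ ‖ξ‖²` (TP). -/
def Stmt_PAF : Prop := ∀ (GA GB : Type)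
  [Group GA] [TopologicalSpace GA] [IsTopologicalGroup GA] [LocallyCompactSpace GA]
  [SecondCountableTopology GA] [T2Space GA] [MeasurableSpace GA] [BorelSpace GA]
  [Group GB] [TopologicalSpace GB] [IsTopologicalGroup GB] [LocallyCompactSpace GB]
  [SecondCountableTopology GB] [T2Space GB] [MeasurableSpace GB] [BorelSpace GB]
  (Γ : Subgroup (GA × GB)) [Countable Γ] (m : Measure ((GA × GB) ⧸ Γ)) [IsProbabilityMeasure m]
  (σ : (GA × GB) ⧸ Γ → GA × GB) (hσ : ∀ x, (σ x : (GA × GB) ⧸ Γ) = x), Measurable σ →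
  (∀ g : GA × GB, MeasurePreserving (fun x => g • x) m m) → ErgA Γ m →
  ∀ (K : Type) [NormedAddCommGroup K] [InnerProductSpace ℂ K] [CompleteSpace K]
    [SecondCountableTopology K] (S : SM K)
    (π : Γ →* (K ≃ₗᵢ[ℂ] K)) (U : (GA × GB) →* (Lp K 2 m ≃ₗᵢ[ℂ] Lp K 2 m)),
  IsInd Γ m σ hσ K π U →
  ∀ P : Lp K 2 m →L[ℂ] Lp K 2 m, ‖P‖ ≤ 1 →
  (∀ r ∈ S.R, P * (r.compLpL 2 m) = (r.compLpL 2 m) * P) →
  (∀ (a : GA) (f : Lp K 2 m), U ((a, 1) : GA × GB) (P f) = P f) →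
  ∀ (L : ℕ) (φ : Fin L → Lp ℂ 2 m), Orthonormal ℂ φ →
  ∑ j, ‖P (tn (φ j) S.ξ)‖ ^ 2 ≤ ‖S.ξ‖ ^ 2

/-- FIXK (uses COC, NULL). As `Pool.TFD.p_FIX` (B_FIX.lean): `F h = π (σ (h Γ)⁻¹ h)⁻¹ f (h Γ)` is
almost everywhere a constant `w`, and `π γ w = w`. -/
def Stmt_FIXK : Prop := ∀ (G : Type) [Group G] [TopologicalSpace G] [IsTopologicalGroup G]
  [LocallyCompactSpace G] [SecondCountableTopology G] [T2Space G] [MeasurableSpace G]
  [BorelSpace G] (Γ : Subgroup G) [Countable Γ]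
  (m : Measure (G ⧸ Γ)) [IsProbabilityMeasure m] (σ : G ⧸ Γ → G)
  (hσ : ∀ x, (σ x : G ⧸ Γ) = x), Measurable σ →
  (∀ g : G, MeasurePreserving (fun x => g • x) m m) → ∀ (K : Type) [NormedAddCommGroup K]
  [InnerProductSpace ℂ K] [CompleteSpace K] [SecondCountableTopology K]
  (π : Γ →* (K ≃ₗᵢ[ℂ] K)) (U : G →* (Lp K 2 m ≃ₗᵢ[ℂ] Lp K 2 m)), IsInd Γ m σ hσ K π U →
  ∀ f : Lp K 2 m, (∀ g, U g f = f) → ∃ w : K, (∀ γ, π γ w = w) ∧ f = cst m w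

/-- TRK (uses COC). As `Pool.TFD.p_TRANS` (B_TRANS.lean), for a single vector. -/
def Stmt_TRK : Prop := ∀ (G : Type) [Group G] [TopologicalSpace G] [IsTopologicalGroup G]
  [SecondCountableTopology G] [MeasurableSpace G] [BorelSpace G] [T2Space G] (Γ : Subgroup G)
  [Countable Γ]
  (m : Measure (G ⧸ Γ)) [IsProbabilityMeasure m] (σ : G ⧸ Γ → G)
  (hσ : ∀ x, (σ x : G ⧸ Γ) = x), Measurable σ →
  (∀ g : G, MeasurePreserving (fun x => g • x) m m) →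
  ∀ (Ω : Type) [MeasurableSpace Ω] (μ : Measure Ω) [IsFiniteMeasure μ] (t : Ω → G) (κ : ℝ),
  Measurable t → 0 < κ → ∃ (Q : Finset Γ) (ε : ℝ), 0 < ε ∧
  ∀ (K : Type) [NormedAddCommGroup K] [InnerProductSpace ℂ K] [CompleteSpace K]
    [SecondCountableTopology K]
    (π : Γ →* (K ≃ₗᵢ[ℂ] K)) (U : G →* (Lp K 2 m ≃ₗᵢ[ℂ] Lp K 2 m)), IsInd Γ m σ hσ K π U →
    ∀ v : K, ENNReal.ofReal (κ * ‖v‖ ^ 2) ≤
      ∫⁻ s, ENNReal.ofReal (‖U (t s) (cst m v) - cst m v‖ ^ 2) ∂μ →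
    ∃ q ∈ Q, ε * ‖v‖ ≤ ‖π q v - v‖

/-! ## Part 5: the core theorem -/

/-- CORE (uses SEC, COC, ERG, GAPC, REPK, MCK, UNK, TOPK, PSP, PAX, SCN, CTR, STL, SWT, TOT, SPX,
TRB, PAF, FIXK, TRK). Assembly, section 7 of note 2966. -/
def Stmt_CORE : Prop :=
  ∀ (GA GB : Type)
    [Group GA] [TopologicalSpace GA] [IsTopologicalGroup GA] [LocallyCompactSpace GA]
    [SecondCountableTopology GA] [T2Space GA] [MeasurableSpace GA] [BorelSpace GA]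
    [Group GB] [TopologicalSpace GB] [IsTopologicalGroup GB] [LocallyCompactSpace GB]
    [SecondCountableTopology GB] [T2Space GB] [MeasurableSpace GB] [BorelSpace GB]
    (Γ : Subgroup (GA × GB)) (m : Measure ((GA × GB) ⧸ Γ)),
    DiscreteTopology Γ → IsProbabilityMeasure m →
    (∀ g : GA × GB, MeasurePreserving (fun x => g • x) m m) →
    Dense (Set.range fun γ : Γ => (γ : GA × GB).2) → ContrGen GA → ContrGen GB →
    StrongGap Γ m → Countable Γ ∧ SMGap Γ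

/-! ## Part 6: general finite von Neumann algebras -/

/-- STF. Standard form. `M₀` = the subring of `K →L[ℂ] K` generated by the `opU (π γ)` and `i • 1`:
countable, closed under adjoints, inside `M`. In `lp (fun _ : ι => K) 2` take `ξ' = (ξ i)ᵢ` and the
diagonal action of the operators; `K₂` = closure of `{T ξ' | T ∈ M₀}`, a closed subspace, invariant
under `M₀`. Right multiplication `ρ S : T ξ' ↦ T S ξ'` (`S ∈ M₀`) is well defined and bounded: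
`‖T S ξ'‖² = τ(S* T* T S) = τ(T S S* T*) ≤ ‖S‖² τ(T T*) = ‖S‖² ‖T ξ'‖²` (trace property of `M`).
`R = {ρ S}`, `(ρ S)* = ρ (S*)`, trace vector `ξ'`, `π₂` = the diagonal action on `K₂`. For `r` in the
commutant of `M` and `i : ι`: `Ψ (T ξ') = T (r (ξ i)) = r (T (ξ i))`, bounded since
`‖T (ξ i)‖ ≤ ‖T ξ'‖`. -/
def Stmt_STF : Prop := ∀ (Λ : Type) [Group Λ] [Countable Λ] (K : Type) [NormedAddCommGroup K]
  [InnerProductSpace ℂ K] [CompleteSpace K] (M : VonNeumannAlgebra K) (ι : Type) (ξ : ι → K)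
  (π : Λ →* (K ≃ₗᵢ[ℂ] K)), (∀ γ, opU (π γ) ∈ M) → Summable (fun i => ‖ξ i‖ ^ 2) →
  (∀ S ∈ M, ∀ T ∈ M, ∑' i, (inner ℂ (ξ i) (S (T (ξ i))) : ℂ) =
    ∑' i, (inner ℂ (ξ i) (T (S (ξ i))) : ℂ)) →
  ∃ (K₂ : Type) (_ : NormedAddCommGroup K₂) (_ : InnerProductSpace ℂ K₂) (_ : CompleteSpace K₂)
    (S : SM K₂) (π₂ : Λ →* (K₂ ≃ₗᵢ[ℂ] K₂)), (∀ γ, S.Mem (opU (π₂ γ))) ∧
    ∀ (r : K →L[ℂ] K), (∀ T ∈ M, T * r = r * T) → ∀ i, ∃ Ψ : K₂ →L[ℂ] K,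
      (∀ γ, Ψ ∘L opU (π₂ γ) = opU (π γ) ∘L Ψ) ∧ Ψ S.ξ = r (ξ i)

/-- ITR. Transfer through an intertwiner. `P` = projection to the invariant vectors of `K₁` (PAX).
`u = P u + u'`: `ε² ‖u'‖² ≤ ∑_q ‖π₁ q u' - u'‖² = ∑_q ‖π₁ q u - u‖²`, for every `u`. With
`C = CFC.sqrt (star Ψ * Ψ)` (adjoint; it commutes with `π₁` and `P`): `∑_q ‖(π₂ q - 1) Ψ u‖² =
∑_q ‖Ψ (π₁ q - 1) u‖² = ∑_q ‖(π₁ q - 1) C u‖² ≥ ε² ‖(1 - P) C u‖² = ε² ‖Ψ (u - P u)‖²`;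
`w = Ψ (P u)`. (uses PAX) -/
def Stmt_ITR : Prop := ∀ (Λ : Type) [Group Λ] (K₁ K₂ : Type) [NormedAddCommGroup K₁]
  [InnerProductSpace ℂ K₁] [CompleteSpace K₁] [NormedAddCommGroup K₂] [InnerProductSpace ℂ K₂]
  [CompleteSpace K₂] (π₁ : Λ →* (K₁ ≃ₗᵢ[ℂ] K₁)) (π₂ : Λ →* (K₂ ≃ₗᵢ[ℂ] K₂)) (Ψ : K₁ →L[ℂ] K₂)
  (Q : Finset Λ) (ε : ℝ), 0 < ε → (∀ γ, Ψ ∘L opU (π₁ γ) = opU (π₂ γ) ∘L Ψ) →
  (∀ v : K₁, (∀ w, (∀ γ, π₁ γ w = w) → (inner ℂ w v : ℂ) = 0) →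
    ∃ q ∈ Q, ε * ‖v‖ ≤ ‖π₁ q v - v‖) →
  ∀ u : K₁, ∃ w : K₂, (∀ γ, π₂ γ w = w) ∧
    ε ^ 2 * ‖Ψ u - w‖ ^ 2 ≤ ∑ q ∈ Q, ‖π₂ q (Ψ u) - Ψ u‖ ^ 2

/-- DNS. Faithfulness gives density. The projection `e` onto the closed span of the `r (ξ i)`, `r` in
the commutant `M'`, commutes with `M'`, so `e ∈ M` (double commutant), `(1 - e) (ξ i) = 0`
(`r = 1`), so `1 - e = 0`. -/
def Stmt_DNS : Prop := ∀ (K : Type) [NormedAddCommGroup K] [InnerProductSpace ℂ K]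
  [CompleteSpace K] (M : VonNeumannAlgebra K) (ι : Type) (ξ : ι → K),
  (∀ T ∈ M, (∀ i, T (ξ i) = 0) → T = 0) →
  Dense ((Submodule.span ℂ {v : K | ∃ r : K →L[ℂ] K, (∀ T ∈ M, T * r = r * T) ∧
    ∃ i, v = r (ξ i)} : Submodule ℂ K) : Set K)

/-- VNG (uses STF, ITR, DNS). `v ⊥` invariants, `v'` in the dense span close to `v`,
`v' = Ψ ξ` with `Ψ` the sum of the intertwiners of STF, `w` from ITR:
`ε ‖v‖ ≤ ε ‖v - w‖ ≤ ε ‖v' - w‖ + ε δ ≤ (∑_q ‖π q v' - v'‖²)^(1/2) + ε δ`, `δ → 0`; then some `q` has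
`‖π q v - v‖ ≥ ε / √(|Q| + 1) ‖v‖`. -/
def Stmt_VNG : Prop := ∀ (Λ : Type) [Group Λ] [Countable Λ], SMGap Λ → FTGap Λ

/-- FTF. `M` = all operators of the finite dimensional `V` (a von Neumann algebra: the operators
commuting with all scalar operators), `ξ` = an orthonormal basis, `∑ ⟪e i, S T e i⟫` is the trace. -/
def Stmt_FTF : Prop := ∀ (Λ : Type) [Group Λ], FTGap Λ → PropTFD Λ

/-- QUF. Homomorphic images. -/
def Stmt_QUF : Prop := ∀ (Λ Δ : Type) [Group Λ] [Group Δ] (f : Λ →* Δ), Function.Surjective f →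
  FTGap Λ → FTGap Δ

/-- SBF. Finite index subgroups: as `Comm_sub` (Comm.lean of MP_972ac7_gen) with the induced
representation on `PiLp 2 (fun _ : Λ ⧸ N => K)`; the algebra is the commutant of the diagonal
operators `dg r`, `r ∈ M'` (entries in `M'' = M`), the vectors `sl x (ξ i)`, `(x, i) : (Λ ⧸ N) × ι`.
The constant vector of a `v` orthogonal to the `N`-invariant vectors is orthogonal to the invariant
vectors of the induced representation (their value at `x` is `π (..) f(x₀)`, `f(x₀)` invariant). -/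
def Stmt_SBF : Prop := ∀ (Λ : Type) [Group Λ] (N : Subgroup Λ), N.FiniteIndex → FTGap Λ → FTGap N

/-- OVF (uses PAX). Normal finite index subgroups `N` of `Δ`: as `Comm_normal` (Comm.lean of
MP_972ac7_gen). `v = v₁ + v₂` with `v₁ = P v` fixed by `N`, `v₂ ⊥ K^N`; the gap of `N` is applied to
`v₂` in the same `K`, `M`, and `∑ₓ π (out x) v₁` is `Δ`-invariant, so orthogonal to `v`, so it is
zero. -/
def Stmt_OVF : Prop := ∀ (Δ : Type) [Group Δ] (N : Subgroup Δ) [N.Normal], N.FiniteIndex →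
  FTGap N → FTGap Δ

end Pool.TC
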